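import Pool.Agent.Lib.MP_0fc16c_co.Rot

-- part Pool.Agent.Lib.MP_0fc16c_co.Ops
section

/-! Faces, the link lemma, restriction to a disc, adding an edge, splitting along a chord. -/

set_option autoImplicit false
set_option linter.unusedSectionVars false

open Finset

namespace Pool.Agent.Lib.MP_0fc16c_co

variable {V : Type*} [Fintype V] [DecidableEq V]

theorem cutf_adj {G : SimpleGraph V} {f : V → V → ℕ} {χ : ℕ → ZMod 2} {a b : V}
    (h : G.Adj a b) : cutf G f χ a b = χ (f a b) + χ (f b a) := by simp [cutf, h]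

theorem cutf_nadj {G : SimpleGraph V} {f : V → V → ℕ} {χ : ℕ → ZMod 2} {a b : V}
    (h : ¬ G.Adj a b) : cutf G f χ a b = 0 := by simp [cutf, h]

theorem adj_of_cutf {G : SimpleGraph V} {f : V → V → ℕ} {χ : ℕ → ZMod 2} {a b : V}
    (h : cutf G f χ a b ≠ 0) : G.Adj a b := by
  by_contra hc; exact h (cutf_nadj hc)

theorem cutf_symm (G : SimpleGraph V) (f : V → V → ℕ) (χ : ℕ → ZMod 2) (a b : V) :
    cutf G f χ a b = cutf G f χ b a := by
  by_cases h : G.Adj a b
  · rw [cutf_adj h, cutf_adj h.symm, add_comm]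
  · rw [cutf_nadj h, cutf_nadj (fun h' => h h'.symm)]

theorem cutf_add (G : SimpleGraph V) (f : V → V → ℕ) (χ ψ : ℕ → ZMod 2) :
    cutf G f (χ + ψ) = cutf G f χ + cutf G f ψ := by
  funext a b
  by_cases h : G.Adj a b
  · simp only [Pi.add_apply, cutf_adj h]; ring
  · simp only [Pi.add_apply, cutf_nadj h, add_zero]

theorem cutf_const (G : SimpleGraph V) (f : V → V → ℕ) (χ : ℕ → ZMod 2) (c : ZMod 2) :
    cutf G f (fun j => χ j + c) = cutf G f χ := by
  funext a b
  by_cases h : G.Adj a b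
  · simp only [cutf_adj h]
    generalize χ (f a b) = x; generalize χ (f b a) = y; revert x y c; decide
  · simp only [cutf_nadj h]

theorem cutf_ind {G : SimpleGraph V} {f : V → V → ℕ} (hne : ∀ a b, G.Adj a b → f a b ≠ f b a)
    {k : ℕ} {a b : V} : cutf G f (ind k) a b = 1 ↔ G.Adj a b ∧ (f a b = k ∨ f b a = k) := by
  by_cases h : G.Adj a b
  · have := hne a b h
    rw [cutf_adj h]
    unfold ind
    by_cases h1 : f a b = k <;> by_cases h2 : f b a = k
    · exact absurd (h1.trans h2.symm) this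
    · simp [h, h1, h2]
    · simp [h, h1, h2]
    · simp [h1, h2]
  · simp [cutf_nadj h, h]

theorem isFace_iff {G : SimpleGraph V} {f : V → V → ℕ} (hne : ∀ a b, G.Adj a b → f a b ≠ f b a)
    {k : ℕ} {l : List V} : IsFace G f k l ↔ l.Nodup ∧ 3 ≤ l.length ∧
      ∀ a b, (G.Adj a b ∧ (f a b = k ∨ f b a = k)) ↔ Cyc l a b := by
  constructor
  · rintro ⟨h1, h2, h3⟩
    refine ⟨h1, h2, fun a b => ?_⟩
    rw [← cutf_ind hne, h3]
    exact ⟨fun h => cyc_of_cz (by rw [h]; exact one_ne_zero), cz_of_cyc h1 h2⟩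
  · rintro ⟨h1, h2, h3⟩
    refine ⟨h1, h2, ?_⟩
    funext a b
    by_cases h : Cyc l a b
    · rw [cz_of_cyc h1 h2 h, (cutf_ind hne).2 ((h3 a b).2 h)]
    · have e1 : cz l a b = 0 := by by_contra hc; exact h (cyc_of_cz hc)
      rw [e1, ← z2_ne_one]
      intro hc; exact h ((h3 a b).1 ((cutf_ind hne).1 hc))

theorem IsFace.rot {G : SimpleGraph V} {f : V → V → ℕ} {k : ℕ} {l1 l2 : List V}
    (h : IsFace G f k (l1 ++ l2)) : IsFace G f k (l2 ++ l1) :=
  ⟨List.perm_append_comm.nodup_iff.1 h.1, by have := h.2.1; simp at this ⊢; omega,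
    by rw [h.2.2, cz_rot]⟩

theorem IsFace.reverse {G : SimpleGraph V} {f : V → V → ℕ} {k : ℕ} {l : List V}
    (h : IsFace G f k l) : IsFace G f k l.reverse :=
  ⟨List.nodup_reverse.2 h.1, by simpa using h.2.1, by rw [h.2.2, cz_reverse]⟩

namespace PrePl
variable (D : PrePl V)

theorem E.symm {D : PrePl V} {k : ℕ} {a b : V} (h : D.E k a b) : D.E k b a :=
  ⟨h.1.symm, h.2.symm⟩

theorem E.on {D : PrePl V} {k : ℕ} {a b : V} (h : D.E k a b) : D.On k a := ⟨b, h⟩

theorem E.on' {D : PrePl V} {k : ℕ} {a b : V} (h : D.E k a b) : D.On k b := ⟨a, h.symm⟩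

theorem E_left {a b : V} (h : D.G.Adj a b) : D.E (D.f a b) a b := ⟨h, Or.inl rfl⟩

theorem E_right {a b : V} (h : D.G.Adj a b) : D.E (D.f b a) a b := ⟨h, Or.inr rfl⟩

theorem On.supp {D : PrePl V} {k : ℕ} {v : V} (h : D.On k v) : v ∈ D.G.support := by
  obtain ⟨w, h⟩ := h; exact ⟨w, h.1⟩

theorem exists_on {v : V} (h : v ∈ D.G.support) : ∃ k, D.On k v := by
  obtain ⟨w, h⟩ := h; exact ⟨_, w, D.E_left h⟩

/-- A function on faces with no cut edge is constant on the faces in use. -/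
theorem dual' (χ : ℕ → ZMod 2) (h : cutf D.G D.f χ = 0) {k k' : ℕ} {v v' : V} (hk : D.On k v)
    (hk' : D.On k' v') : χ k = χ k' := by
  have h1 : ∀ a b, D.G.Adj a b → χ (D.f a b) = χ (D.f b a) := fun a b hab => by
    have := congrFun (congrFun h a) b
    rw [cutf_adj hab] at this; exact z2_add_eq_zero.1 this
  have h2 := D.dual χ h1
  obtain ⟨w, hw, hw'⟩ := hk
  obtain ⟨w', hv, hv'⟩ := hk'
  rcases hw' with rfl | rfl <;> rcases hv' with rfl | rfl
  · exact h2 _ _ _ _ hw hv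
  · exact h2 _ _ _ _ hw hv.symm
  · exact h2 _ _ _ _ hw.symm hv
  · exact h2 _ _ _ _ hw.symm hv.symm

/-- The link lemma. -/
theorem link {v : V} (h2 : Conn D.G {a | a ∈ D.G.support ∧ a ≠ v}) (χ : ℕ → ZMod 2) {k k' : ℕ}
    (hk : D.On k v) (hk' : D.On k' v) (hne : χ k ≠ χ k') : ∃ w, cutf D.G D.f χ v w = 1 := by
  by_contra hc
  push Not at hc
  have h1 : ∀ w, D.G.Adj v w → χ (D.f v w) = χ (D.f w v) := fun w hw => by
    have := z2_ne_one.1 (hc w)
    rw [cutf_adj hw] at this; exact z2_add_eq_zero.1 this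
  obtain ⟨a, ha, ha'⟩ := hk
  obtain ⟨b, hb, hb'⟩ := hk'
  have ea : χ (D.f v a) = χ k := by
    rcases ha' with h | h
    · rw [h]
    · rw [h1 a ha, h]
  have eb : χ (D.f v b) = χ k' := by
    rcases hb' with h | h
    · rw [h]
    · rw [h1 b hb, h]
  have hab : a ≠ b := by rintro rfl; exact hne (ea.symm.trans eb)
  obtain ⟨z, z1, z2, z3⟩ := exists_join (h2 a ⟨⟨v, ha.symm⟩, ha.ne'⟩ b ⟨⟨v, hb.symm⟩, hb.ne'⟩)
  obtain ⟨χ', hχ'⟩ := D.span (z + ez v a + ez v b) ⟨fun x y => by
      simp only [Pi.add_apply]; rw [z1, ez_symm v a, ez_symm v b], fun x y hxy => by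
      simp only [Pi.add_apply]
      rw [ez_eq_zero, ez_eq_zero, add_zero, add_zero]
      · by_contra h; exact hxy (z2 x y h).1
      · rintro ⟨rfl, rfl⟩; exact hxy hb
      · rintro ⟨rfl, rfl⟩; exact hxy hb.symm
      · rintro ⟨rfl, rfl⟩; exact hxy ha
      · rintro ⟨rfl, rfl⟩; exact hxy ha.symm, fun x => by
      simp only [Pi.add_apply, Finset.sum_add_distrib, z3, sum_ez]
      generalize (if x = a then (1 : ZMod 2) else 0) = p
      generalize (if x = b then (1 : ZMod 2) else 0) = q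
      generalize (if x = v then (1 : ZMod 2) else 0) = r
      revert p q r; decide⟩
  have hev := D.even (fun j => χ' j * (χ j + χ k')) v
  have hval : ∀ w, cutf D.G D.f (fun j => χ' j * (χ j + χ k')) v w =
      if w = a then 1 else 0 := by
    intro w
    by_cases hw : D.G.Adj v w
    · have e := congrFun (congrFun hχ' v) w
      have z0 : z v w = 0 := by by_contra h; exact (z2 v w h).2.1.2 rfl
      simp only [Pi.add_apply, cutf_adj hw, z0, zero_add] at e
      rw [cutf_adj hw, ← h1 w hw, ← add_mul, ← e]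
      by_cases hwa : w = a
      · subst hwa
        rw [ez_self hw.ne, ez_eq_zero (fun h => hab h.2) (fun h => hb.ne h.1), ea, if_pos rfl,
          add_zero, one_mul]
        exact z2_add_eq_one.2 hne
      · rw [if_neg hwa, ez_eq_zero (fun h => hwa h.2) (fun h => ha.ne h.1), zero_add]
        by_cases hwb : w = b
        · subst hwb; rw [eb, z2_add_self, mul_zero]
        · rw [ez_eq_zero (fun h => hwb h.2) (fun h => hb.ne h.1), zero_mul]
    · rw [cutf_nadj hw, if_neg]; rintro rfl; exact hw ha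
  simp [hval] at hev

end PrePl

namespace Pl
variable (D : Pl V)

theorem face_iff {k : ℕ} {l : List V} : IsFace D.G D.f k l ↔ l.Nodup ∧ 3 ≤ l.length ∧
      ∀ a b, D.E k a b ↔ Cyc l a b := isFace_iff D.ne

variable {D}

theorem E_iff {k : ℕ} {l : List V} (h : IsFace D.G D.f k l) {a b : V} :
    D.E k a b ↔ Cyc l a b := (D.face_iff.1 h).2.2 a b

theorem on_iff {k : ℕ} {l : List V} (h : IsFace D.G D.f k l) {v : V} : D.On k v ↔ v ∈ l :=
  ⟨fun ⟨_, hw⟩ => ((E_iff h).1 hw).mem_left, fun hv => by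
    obtain ⟨w, hw⟩ := exists_cyc_of_mem hv; exact ⟨w, (E_iff h).2 hw⟩⟩

theorem exists_face {k : ℕ} {v : V} (h : D.On k v) : ∃ l, IsFace D.G D.f k l := by
  obtain ⟨w, hw, rfl | rfl⟩ := h
  · exact D.face _ _ hw
  · exact D.face _ _ hw.symm

theorem face_start {k : ℕ} {a b : V} (h : D.E k a b) : ∃ c t, IsFace D.G D.f k (a :: b :: c :: t) := by
  obtain ⟨l, hl⟩ := exists_face h.on
  have key : ∀ t, IsFace D.G D.f k (a :: b :: t) → ∃ c t, IsFace D.G D.f k (a :: b :: c :: t) := by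
    intro t ht
    cases t with
    | nil => have := ht.2.1; simp at this
    | cons c t => exact ⟨c, t, ht⟩
  obtain ⟨t, ⟨l1, l2, h1, h2⟩ | ⟨l1, l2, h1, h2⟩⟩ :=
    cyc_start (by have := hl.2.1; omega) ((E_iff hl).1 h)
  · exact key t (h2 ▸ (h1 ▸ hl).rot)
  · exact key t (h2 ▸ (h1 ▸ hl.reverse).rot)

theorem E_two {k : ℕ} {v a b c : V} (h1 : D.E k v a) (h2 : D.E k v b) (h3 : D.E k v c) :
    a = b ∨ a = c ∨ b = c := by
  obtain ⟨l, hl⟩ := exists_face h1.on
  exact cyc_two hl.1 ((E_iff hl).1 h1) ((E_iff hl).1 h2) ((E_iff hl).1 h3)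

theorem face_congr {D D' : Pl V} {k : ℕ} (h : D'.E k = D.E k) {l : List V}
    (hl : IsFace D.G D.f k l) : IsFace D'.G D'.f k l :=
  D'.face_iff.2 ⟨hl.1, hl.2.1, fun a b => by rw [h]; exact E_iff hl⟩

/-- An edge lies on exactly two faces. -/
theorem E_sides {k k' k'' : ℕ} {a b : V} (h1 : D.E k a b) (h2 : D.E k' a b) (h3 : D.E k'' a b)
    (hne : k ≠ k') : k'' = k ∨ k'' = k' := by
  rcases h1.2 with e1 | e1 <;> rcases h2.2 with e2 | e2 <;> rcases h3.2 with e3 | e3 <;> omega

theorem exists_other {k : ℕ} {a b : V} (h : D.E k a b) : ∃ k', k' ≠ k ∧ D.E k' a b := by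
  have := D.ne a b h.1
  rcases h.2 with e | e
  · exact ⟨_, by rw [← e]; exact this.symm, D.E_right h.1⟩
  · exact ⟨_, by rw [← e]; exact this, D.E_left h.1⟩

theorem rch_face {k : ℕ} {v a b : V} (ha : D.On k a) (hb : D.On k b) (hav : a ≠ v)
    (hbv : b ≠ v) : Rch D.G {x | D.On k x ∧ x ≠ v} a b := by
  obtain ⟨l, hl⟩ := exists_face ha
  by_cases hv : v ∈ l
  · obtain ⟨l1, l2, rfl⟩ := List.append_of_mem hv
    have hl' : IsFace D.G D.f k (v :: (l2 ++ l1)) := by simpa using hl.rot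
    have hm : ∀ x, D.On k x → x ≠ v → x ∈ l2 ++ l1 := fun x hx hxv => by
      have := (on_iff hl').1 hx
      rcases List.mem_cons.1 this with h | h
      · exact absurd h hxv
      · exact h
    apply rch_of_list (l := l2 ++ l1) _ _ (hm a ha hav) (hm b hb hbv)
    · rintro x y ⟨m1, m2, h⟩
      exact ((E_iff hl').2 (cyc_of_nx ⟨v :: m1, m2, by simp [h]⟩)).1
    · intro x hx
      refine ⟨(on_iff hl').2 (List.mem_cons_of_mem _ hx), ?_⟩
      rintro rfl; exact (List.nodup_cons.1 hl'.1).1 hx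
  · apply rch_of_list (l := l) _ _ ((on_iff hl).1 ha) ((on_iff hl).1 hb)
    · intro x y h; exact ((E_iff hl).2 (cyc_of_nx h)).1
    · intro x hx; exact ⟨(on_iff hl).2 hx, by rintro rfl; exact hv hx⟩

variable (D)

theorem conn2 (v : V) : Conn D.G {a | a ∈ D.G.support ∧ a ≠ v} := by
  classical
  intro a ha b hb
  let P : ℕ → Prop := fun k => ∃ x, D.On k x ∧ x ≠ v ∧ Rch D.G {a | a ∈ D.G.support ∧ a ≠ v} a x
  have hP : ∀ k, P k → ∀ y, D.On k y → y ≠ v →
      Rch D.G {a | a ∈ D.G.support ∧ a ≠ v} a y := by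
    rintro k ⟨x, h1, h2, h3⟩ y h4 h5
    exact h3.trans ((rch_face h1 h4 h2 h5).mono le_rfl fun w hw => ⟨hw.1.supp, hw.2⟩)
  have hE : ∀ x y, D.G.Adj x y → P (D.f x y) → P (D.f y x) := by
    intro x y hxy h
    by_cases hx : x = v
    · have hy : y ≠ v := by rintro rfl; exact hxy.ne hx
      exact ⟨y, (D.E_left hxy.symm).on, hy, hP _ h y (D.E_left hxy).on' hy⟩
    · exact ⟨x, (D.E_left hxy.symm).on', hx, hP _ h x (D.E_left hxy).on hx⟩
  obtain ⟨ka, hka⟩ := D.exists_on ha.1
  obtain ⟨kb, hkb⟩ := D.exists_on hb.1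
  have := D.dual' (fun k => if P k then 1 else 0) (by
    funext x y
    by_cases hxy : D.G.Adj x y
    · rw [cutf_adj hxy]
      have : P (D.f x y) ↔ P (D.f y x) := ⟨hE x y hxy, hE y x hxy.symm⟩
      simp only [this, z2_add_self]; rfl
    · exact cutf_nadj hxy) hka hkb
  have h1 : P ka := ⟨a, hka, ha.2, Rch.refl _⟩
  have h2 : P kb := by
    by_contra h; simp [h1, h] at this
  exact hP _ h2 b hkb hb.2

theorem link (χ : ℕ → ZMod 2) {v : V} {k k' : ℕ} (hk : D.On k v) (hk' : D.On k' v)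
    (hne : χ k ≠ χ k') : ∃ w, cutf D.G D.f χ v w = 1 :=
  D.toPrePl.link (D.conn2 v) χ hk hk' hne

theorem link_mem {χ : ℕ → ZMod 2} {l : List V} (hc : cutf D.G D.f χ = cz l) {v : V} {k k' : ℕ}
    (hk : D.On k v) (hk' : D.On k' v) (hne : χ k ≠ χ k') : v ∈ l := by
  obtain ⟨w, hw⟩ := D.link χ hk hk' hne
  rw [hc] at hw
  exact (cyc_of_cz (by rw [hw]; exact one_ne_zero)).mem_left

theorem isCyc_cz {l : List V} (h : ∀ a b, Cyc l a b → D.G.Adj a b) : IsCyc D.G (cz l) :=
  ⟨cz_symm l, fun a b hab => by by_contra hc; exact hab (h a b (cyc_of_cz hc)), sum_cz l⟩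

end Pl

/-- `D'` consists of the faces of `D` with `χ = 1`; the other faces are merged into `o`. -/
structure Restr (D D' : Pl V) (χ : ℕ → ZMod 2) (o : ℕ) : Prop where
  ho : χ o = 0
  adj : ∀ a b, D'.G.Adj a b ↔ D.G.Adj a b ∧ (χ (D.f a b) = 1 ∨ χ (D.f b a) = 1)
  E_in : ∀ k, χ k = 1 → D'.E k = D.E k
  E_out : ∀ k, k ≠ o → χ k = 0 → ∀ a b, ¬ D'.E k a b

theorem exists_restr (D : Pl V) (χ : ℕ → ZMod 2) (o : ℕ) (ho : χ o = 0) (l : List V)
    (hl : l.Nodup) (h3 : 3 ≤ l.length) (hc : cutf D.G D.f χ = cz l) :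
    ∃ D' : Pl V, Restr D D' χ o ∧ IsFace D'.G D'.f o l := by
  classical
  let G' : SimpleGraph V :=
    { Adj := fun a b => D.G.Adj a b ∧ (χ (D.f a b) = 1 ∨ χ (D.f b a) = 1)
      symm := ⟨fun a b h => ⟨h.1.symm, h.2.symm⟩⟩
      loopless := ⟨fun a h => h.1.ne rfl⟩ }
  let r : ℕ → ℕ := fun k => if χ k = 1 then k else o
  let f' : V → V → ℕ := fun a b => r (D.f a b)
  have hcut : ∀ ψ : ℕ → ZMod 2, cutf G' f' ψ = cutf D.G D.f (fun k => ψ (r k)) := by
    intro ψ; funext a b
    by_cases h : G'.Adj a b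
    · rw [cutf_adj h, cutf_adj h.1]
    · rw [cutf_nadj h]
      by_cases h' : D.G.Adj a b
      · have h1 : χ (D.f a b) ≠ 1 := fun e => h ⟨h', Or.inl e⟩
        have h2 : χ (D.f b a) ≠ 1 := fun e => h ⟨h', Or.inr e⟩
        rw [cutf_adj h']
        simp only [r, if_neg h1, if_neg h2, z2_add_self]
      · rw [cutf_nadj h']
  have hne : ∀ a b, G'.Adj a b → f' a b ≠ f' b a := by
    intro a b h
    have := D.ne a b h.1
    simp only [f', r]
    by_cases h1 : χ (D.f a b) = 1 <;> by_cases h2 : χ (D.f b a) = 1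
    · simpa [h1, h2] using this
    · simp only [if_pos h1, if_neg h2]; intro e; rw [e, ho] at h1; exact zero_ne_one h1
    · simp only [if_neg h1, if_pos h2]; intro e; rw [← e, ho] at h2; exact zero_ne_one h2
    · exact absurd h.2 (by tauto)
  have hfo : IsFace G' f' o l := by
    refine ⟨hl, h3, ?_⟩
    rw [hcut, ← hc, ← cutf_const D.G D.f χ 1]
    congr 1; funext k
    simp only [r, ind]
    rcases z2_cases (χ k) with h | h
    · simp [h]
    · have : k ≠ o := by rintro rfl; rw [ho] at h; exact zero_ne_one h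
      simp [h, this]; rfl
  have hin : ∀ k, χ k = 1 → ∀ a b, (G'.Adj a b ∧ (f' a b = k ∨ f' b a = k)) ↔ D.E k a b := by
    intro k hk a b
    have hko : o ≠ k := by rintro rfl; rw [ho] at hk; exact zero_ne_one hk
    have hr : ∀ j, r j = k ↔ j = k := fun j => by
      simp only [r]; split_ifs with h
      · rfl
      · exact ⟨fun e => absurd e hko, fun e => absurd (e ▸ hk) h⟩
    simp only [f', hr]
    constructor
    · rintro ⟨h1, h2⟩; exact ⟨h1.1, h2⟩
    · rintro ⟨h1, h2⟩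
      refine ⟨⟨h1, ?_⟩, h2⟩
      rcases h2 with h2 | h2
      · left; rw [h2, hk]
      · right; rw [h2, hk]
  refine ⟨{ G := G', f := f', even := ?_, span := ?_, dual := ?_, ne := hne, face := ?_ },
    ⟨ho, fun a b => Iff.rfl, fun k hk => ?_, fun k hko hk a b h => ?_⟩, hfo⟩
  · intro ψ v; rw [hcut]; exact D.even _ v
  · intro z hz
    obtain ⟨ψ, hψ⟩ := D.span z ⟨hz.1, fun a b h => hz.2.1 a b (fun h' => h h'.1), hz.2.2⟩
    -- `ψ` is constant on the faces with `χ = 0`
    have hsup : ∀ a b, cutf D.G D.f (fun k => ψ k * (χ k + 1)) a b ≠ 0 → Cyc l a b := by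
      intro a b hab
      have hadj := adj_of_cutf hab
      apply cyc_of_cz
      rw [← hc, cutf_adj hadj]
      rw [cutf_adj hadj] at hab
      have e := congrFun (congrFun hψ a) b
      rw [cutf_adj hadj] at e
      intro h0
      have h0' := z2_add_eq_zero.1 h0
      rcases z2_cases (χ (D.f a b)) with h | h
      · have : z a b = 0 := hz.2.1 a b (fun h' => by
          rcases h'.2 with h'' | h''
          · rw [h] at h''; exact zero_ne_one h''
          · rw [← h0', h] at h''; exact zero_ne_one h'')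
        apply hab
        rw [← h0', h, ← add_mul, ← e, this, zero_mul]
      · apply hab; rw [← h0', h]
        have : (1 : ZMod 2) + 1 = 0 := rfl
        rw [this]; simp
    obtain ⟨ε, hε⟩ : ∃ ε : ZMod 2, ∀ k v, D.On k v → χ k = 0 → ψ k = ε := by
      have hx : ∃ k v, D.On k v ∧ χ k = 1 := by
        obtain ⟨x, t, rfl⟩ : ∃ x t, l = x :: t := by
          cases l with
          | nil => simp at h3
          | cons x t => exact ⟨x, t, rfl⟩
        obtain ⟨w, hw⟩ := exists_cyc_of_mem (l := x :: t) (v := x) (by simp)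
        have h1 := cz_of_cyc hl h3 hw
        rw [← hc] at h1
        have hadj : D.G.Adj x w := adj_of_cutf (by rw [h1]; exact one_ne_zero)
        rw [cutf_adj hadj] at h1
        rcases z2_cases (χ (D.f x w)) with h | h
        · exact ⟨_, x, (D.E_right hadj).on, by simpa [h] using h1⟩
        · exact ⟨_, x, (D.E_left hadj).on, h⟩
      obtain ⟨k1, v1, hk1, hχ1⟩ := hx
      rcases eq_zero_or_cz hl h3 (cutf_symm _ _ _) (D.even _) hsup with h | h
      · refine ⟨0, fun k v hk h0 => ?_⟩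
        have := D.dual' _ h hk hk1
        simp only [h0, hχ1, zero_add, mul_one] at this
        rw [this]; exact mul_zero _
      · refine ⟨1, fun k v hk h0 => ?_⟩
        have := D.dual' ((fun k => ψ k * (χ k + 1)) + χ) (by
          rw [cutf_add, h, hc]; funext a b; exact z2_add_self _) hk hk1
        simp only [Pi.add_apply, h0, hχ1, zero_add, mul_one, add_zero] at this
        rw [this]
        have : (1 : ZMod 2) + 1 = 0 := rfl
        rw [this]; simp
    refine ⟨fun k => if χ k = 1 then ψ k else ε, ?_⟩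
    rw [hcut, hψ]
    funext a b
    by_cases h : D.G.Adj a b
    · rw [cutf_adj h, cutf_adj h]
      have key : ∀ k v, D.On k v → (if χ (r k) = 1 then ψ (r k) else ε) = ψ k := by
        intro k v hk
        rcases z2_cases (χ k) with h0 | h0
        · simp [r, h0, ho, hε k v hk h0]
        · simp [r, h0]
      rw [key _ a (D.E_left h).on, key _ a (D.E_right h).on]
    · rw [cutf_nadj h, cutf_nadj h]
  · intro ψ hψ a b c d hab hcd
    apply D.dual' (fun k => ψ (r k)) _ (D.E_left hab.1).on (D.E_left hcd.1).on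
    rw [← hcut]; funext x y
    by_cases h : G'.Adj x y
    · rw [cutf_adj h, hψ x y h]; exact z2_add_self _
    · exact cutf_nadj h
  · intro a b hab
    by_cases h : χ (D.f a b) = 1
    · obtain ⟨m, hm⟩ := D.face a b hab.1
      refine ⟨m, ?_⟩
      have : f' a b = D.f a b := by simp [f', r, h]
      rw [this]
      exact (isFace_iff hne).2 ⟨hm.1, hm.2.1, fun x y => (hin _ h x y).trans (Pl.E_iff hm)⟩
    · have : f' a b = o := by simp [f', r, h]
      rw [this]; exact ⟨l, hfo⟩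
  · funext a b; exact propext (hin k hk a b)
  · have hr : ∀ j, r j ≠ k := fun j => by
      simp only [r]; split_ifs with h'
      · rintro rfl; rw [hk] at h'; exact zero_ne_one h'
      · exact hko.symm
    rcases h.2 with h | h <;> exact hr _ h

namespace Restr
variable {D D' : Pl V} {χ : ℕ → ZMod 2} {o : ℕ}

theorem le (h : Restr D D' χ o) : D'.G ≤ D.G := fun _ _ h' => ((h.adj _ _).1 h').1

theorem chi_of_on (h : Restr D D' χ o) {k : ℕ} (hk : k ≠ o) {v : V} (hv : D'.On k v) :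
    χ k = 1 := by
  by_contra hc
  obtain ⟨w, hw⟩ := hv
  exact h.E_out k hk (z2_ne_one.1 hc) v w hw

theorem E_eq (h : Restr D D' χ o) {k : ℕ} (hk : k ≠ o) {v : V} (hv : D'.On k v) :
    D'.E k = D.E k := h.E_in k (h.chi_of_on hk hv)

theorem on_le (h : Restr D D' χ o) {k : ℕ} (hk : k ≠ o) {v : V} (hv : D'.On k v) :
    D.On k v := by
  have := h.E_eq hk hv
  unfold PrePl.On at hv ⊢; rwa [this] at hv

theorem on_in (h : Restr D D' χ o) {k : ℕ} (hk : χ k = 1) {v : V} (hv : D.On k v) :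
    D'.On k v := by
  unfold PrePl.On at hv ⊢; rwa [h.E_in k hk]

theorem supp_iff (h : Restr D D' χ o) {v : V} :
    v ∈ D'.G.support ↔ ∃ k, χ k = 1 ∧ D.On k v := by
  constructor
  · rintro ⟨w, hw⟩
    obtain ⟨h1, h2 | h2⟩ := (h.adj _ _).1 hw
    · exact ⟨_, h2, (D.E_left h1).on⟩
    · exact ⟨_, h2, (D.E_right h1).on⟩
  · rintro ⟨k, hk, hv⟩; exact (h.on_in hk hv).supp

theorem adj_of_E (h : Restr D D' χ o) {k : ℕ} (hk : χ k = 1) {a b : V} (hv : D.E k a b) :
    D'.G.Adj a b := by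
  have := h.E_in k hk ▸ hv; exact this.1

end Restr

theorem exists_split (D : Pl V) {F : ℕ} {a b : V} {l1 l2 : List V}
    (hf : IsFace D.G D.f F (a :: l1 ++ b :: l2)) (hab : D.G.Adj a b) :
    ∃ χ1 χ2 : ℕ → ZMod 2, χ1 F = 0 ∧ χ2 F = 0 ∧ cutf D.G D.f χ1 = cz (a :: l1 ++ [b]) ∧
      cutf D.G D.f χ2 = cz (b :: l2 ++ [a]) ∧
      ∀ k v, k ≠ F → D.On k v → χ1 k + χ2 k = 1 := by
  have hadj : ∀ x y, Cyc (a :: l1 ++ b :: l2) x y → D.G.Adj x y :=
    fun x y h => ((Pl.E_iff hf).2 h).1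
  obtain ⟨χ, hχ⟩ := D.span _ (D.isCyc_cz (l := a :: l1 ++ [b]) (fun x y h => by
    have key : ∀ x y, Nx (a :: l1 ++ [b]) x y → D.G.Adj x y := fun x y h =>
      hadj x y (cyc_of_nx (nx_append.2 (Or.inl h)))
    rcases cyc_split.1 h with ⟨rfl, rfl⟩ | ⟨rfl, rfl⟩ | h | h
    · exact hab
    · exact hab.symm
    · exact key _ _ h
    · exact (key _ _ h).symm))
  have e : cz (a :: l1 ++ b :: l2) = pz (a :: l1 ++ [b]) + pz (b :: l2 ++ [a]) := by
    have e1 : a :: (l1 ++ b :: l2) ++ [a] = (a :: l1) ++ b :: (l2 ++ [a]) := by simp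
    rw [List.cons_append, cz_cons, e1, pz_append]; rfl
  refine ⟨fun k => χ k + χ F, (fun k => (χ + ind F) k + (χ F + 1)), z2_add_self _, ?_, ?_, ?_, ?_⟩
  · simp only [Pi.add_apply, ind, if_true]; exact z2_add_self _
  · rw [cutf_const, hχ]
  · rw [cutf_const, cutf_add, ← hχ, hf.2.2, e, cz_ends, cz_ends, ez_comm b a]
    funext x y
    simp only [Pi.add_apply]
    generalize pz (a :: l1 ++ [b]) x y = p
    generalize pz (b :: l2 ++ [a]) x y = q
    generalize ez a b x y = r
    revert p q r; decide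
  · intro k v hk _
    simp only [Pi.add_apply, ind, if_neg hk]
    generalize χ k = p; generalize χ F = q; revert p q; decide

/-- `D'` is obtained from `D` by drawing the edge `ab` inside the face `t`. -/
structure AddE (D D' : Pl V) (t n : ℕ) (a b : V) (m1 m2 : List V) : Prop where
  adj : ∀ x y, D'.G.Adj x y ↔ D.G.Adj x y ∨ (x = a ∧ y = b) ∨ (x = b ∧ y = a)
  nt : n ≠ t
  fresh : ∀ v, ¬ D.On n v
  E_eq : ∀ k, k ≠ t → k ≠ n → D'.E k = D.E k
  f1 : IsFace D'.G D'.f n (a :: m1 ++ [b])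
  f2 : IsFace D'.G D'.f t (b :: m2 ++ [a])

theorem exists_addE (D : Pl V) {t : ℕ} {a b : V} {m1 m2 : List V}
    (hf : IsFace D.G D.f t (a :: m1 ++ b :: m2)) (hab : ¬ D.G.Adj a b) :
    ∃ D' n, AddE D D' t n a b m1 m2 := by
  classical
  have hadj : ∀ x y, Cyc (a :: m1 ++ b :: m2) x y → D.E t x y := fun x y h => (Pl.E_iff hf).2 h
  have hne : a ≠ b := by
    rintro rfl; have := hf.1; simp at this
  have hm1 : m1 ≠ [] := by
    rintro rfl; exact hab (hadj a b (cyc_mid [] m2 a b)).1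
  have hm2 : m2 ≠ [] := by
    rintro rfl; exact hab (hadj a b (cyc_ends m1 a b)).1
  have hnd := hf.1
  have hn1 : (a :: m1 ++ [b]).Nodup := by
    refine hnd.sublist ?_
    exact List.Sublist.append (List.Sublist.refl _) (List.cons_sublist_cons.2 (List.nil_sublist _))
  have hn2 : (b :: m2 ++ [a]).Nodup := by
    have : ((b :: m2) ++ (a :: m1)).Nodup := (hf.rot (l1 := a :: m1)).1
    refine this.sublist ?_
    exact List.Sublist.append (List.Sublist.refl _) (List.cons_sublist_cons.2 (List.nil_sublist _))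
  obtain ⟨n, hn⟩ : ∃ n, ∀ x y, D.f x y < n :=
    ⟨(Finset.univ.sup fun p : V × V => D.f p.1 p.2) + 1, fun x y =>
      Nat.lt_succ_of_le (Finset.le_sup (f := fun p : V × V => D.f p.1 p.2) (mem_univ (x, y)))⟩
  have hton : D.On t a := (Pl.on_iff hf).2 (by simp)
  have hnt : n ≠ t := by
    obtain ⟨w, -, h | h⟩ := hton
    · have := hn a w; omega
    · have := hn w a; omega
  set P1 := pz (a :: m1 ++ [b]) with hP1
  have hP1E : ∀ x y, P1 x y ≠ 0 → D.E t x y := fun x y h => by
    rcases nx_of_pz h with h | h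
    · exact hadj _ _ (cyc_of_nx (nx_append.2 (Or.inl h)))
    · exact (hadj _ _ (cyc_of_nx (nx_append.2 (Or.inl h)))).symm
  let G' : SimpleGraph V :=
    { Adj := fun x y => D.G.Adj x y ∨ (x = a ∧ y = b) ∨ (x = b ∧ y = a)
      symm := ⟨fun x y h => by
        rcases h with h | h | h
        · exact Or.inl h.symm
        · exact Or.inr (Or.inr ⟨h.2, h.1⟩)
        · exact Or.inr (Or.inl ⟨h.2, h.1⟩)⟩
      loopless := ⟨fun x h => by
        rcases h with h | h | h
        · exact h.ne rfl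
        · exact hne (h.1.symm.trans h.2)
        · exact hne (h.2.symm.trans h.1)⟩ }
  let f' : V → V → ℕ := fun x y => if x = a ∧ y = b then n else if x = b ∧ y = a then t else
    if D.f x y = t ∧ P1 x y = 1 then n else D.f x y
  have fab : f' a b = n := by simp [f']
  have fba : f' b a = t := by simp [f', hne, hne.symm]
  have fold : ∀ x y, D.G.Adj x y → f' x y = if D.f x y = t ∧ P1 x y = 1 then n else D.f x y := by
    intro x y h
    have h1 : ¬ (x = a ∧ y = b) := by rintro ⟨rfl, rfl⟩; exact hab h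
    have h2 : ¬ (x = b ∧ y = a) := by rintro ⟨rfl, rfl⟩; exact hab h.symm
    simp only [f', if_neg h1, if_neg h2]
  have hcut : ∀ χ : ℕ → ZMod 2, ∀ x y, cutf G' f' χ x y =
      cutf D.G D.f χ x y + (χ n + χ t) * (P1 x y + ez a b x y) := by
    intro χ x y
    by_cases h : D.G.Adj x y
    · have h' : G'.Adj x y := Or.inl h
      have h1 : ¬ (x = a ∧ y = b) := by rintro ⟨rfl, rfl⟩; exact hab h
      have h2 : ¬ (x = b ∧ y = a) := by rintro ⟨rfl, rfl⟩; exact hab h.symm
      rw [cutf_adj h', cutf_adj h, fold x y h, fold y x h.symm, ez_eq_zero h1 h2, add_zero]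
      have hs : P1 y x = P1 x y := pz_symm _ _ _
      rw [hs]
      rcases z2_cases (P1 x y) with h0 | h0
      · simp [h0]
      · have hE := hP1E x y (by rw [h0]; exact one_ne_zero)
        have hd := D.ne x y h
        rcases hE.2 with e | e
        · have e' : D.f y x ≠ t := by rw [← e]; exact hd.symm
          simp only [h0, e, e', and_self, if_true, false_and, if_false]
          generalize χ n = p; generalize χ t = q; generalize χ (D.f y x) = r
          revert p q r; decide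
        · have e' : D.f x y ≠ t := by rw [← e]; exact hd
          simp only [h0, e, e', and_self, if_true, false_and, if_false]
          generalize χ n = p; generalize χ t = q; generalize χ (D.f x y) = r
          revert p q r; decide
    · have h0 : P1 x y = 0 := by by_contra hc; exact h (hP1E x y hc).1
      rw [cutf_nadj h, h0, zero_add, zero_add]
      by_cases h1 : x = a ∧ y = b
      · obtain ⟨rfl, rfl⟩ := h1
        rw [cutf_adj (show G'.Adj x y from Or.inr (Or.inl ⟨rfl, rfl⟩)), fab, fba, ez_self hne,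
          mul_one]
      · by_cases h2 : x = b ∧ y = a
        · obtain ⟨rfl, rfl⟩ := h2
          rw [cutf_adj (show G'.Adj x y from Or.inr (Or.inr ⟨rfl, rfl⟩)), fab, fba, ez_symm,
            ez_self hne, mul_one, add_comm]
        · rw [ez_eq_zero h1 h2, mul_zero, cutf_nadj]
          rintro (h' | h' | h')
          · exact h h'
          · exact h1 h'
          · exact h2 h'
  have hc1 : cz (a :: m1 ++ [b]) = P1 + ez a b := by rw [cz_ends, ez_comm]
  have hc1' : ∀ x y, P1 x y + ez a b x y = cz (a :: m1 ++ [b]) x y := fun x y => by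
    rw [hc1]; rfl
  have hupd : ∀ (χ : ℕ → ZMod 2) (c : ZMod 2), cutf D.G D.f (Function.update χ n c) =
      cutf D.G D.f χ := by
    intro χ c; funext x y
    by_cases h : D.G.Adj x y
    · rw [cutf_adj h, cutf_adj h, Function.update_of_ne (hn x y).ne,
        Function.update_of_ne (hn y x).ne]
    · rw [cutf_nadj h, cutf_nadj h]
  have hne' : ∀ x y, G'.Adj x y → f' x y ≠ f' y x := by
    rintro x y (h | ⟨rfl, rfl⟩ | ⟨rfl, rfl⟩)
    · rw [fold x y h, fold y x h.symm]
      have hd := D.ne x y h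
      have h1 := hn x y
      have h2 := hn y x
      split_ifs with e1 e2 e2
      · exact absurd (e1.1.trans e2.1.symm) hd
      · omega
      · omega
      · exact hd
    · rw [fab, fba]; exact hnt
    · rw [fab, fba]; exact hnt.symm
  have hf1 : IsFace G' f' n (a :: m1 ++ [b]) := by
    refine ⟨hn1, by have := List.length_pos_iff.2 hm1; simp; omega, ?_⟩
    funext x y
    rw [hcut, hc1']
    have : cutf D.G D.f (ind n) x y = 0 := by
      by_cases h : D.G.Adj x y
      · rw [cutf_adj h]; simp [ind, (hn x y).ne, (hn y x).ne]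
      · exact cutf_nadj h
    rw [this]; simp [ind, hnt.symm]
  have hf2 : IsFace G' f' t (b :: m2 ++ [a]) := by
    refine ⟨hn2, by have := List.length_pos_iff.2 hm2; simp; omega, ?_⟩
    have e : cz (a :: m1 ++ b :: m2) = pz (a :: m1 ++ [b]) + pz (b :: m2 ++ [a]) := by
      have e1 : a :: (m1 ++ b :: m2) ++ [a] = (a :: m1) ++ b :: (m2 ++ [a]) := by simp
      rw [List.cons_append, cz_cons, e1, pz_append]; rfl
    funext x y
    rw [hcut, hf.2.2, e, cz_ends]
    simp only [ind, hnt, if_false, if_true, Pi.add_apply, ← hP1]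
    generalize P1 x y = p
    generalize pz (b :: m2 ++ [a]) x y = q
    generalize ez a b x y = r
    revert p q r; decide
  have hE : ∀ k, k ≠ t → k ≠ n → cutf G' f' (ind k) = cutf D.G D.f (ind k) := by
    intro k h1 h2; funext x y
    rw [hcut]; simp [ind, h1.symm, h2.symm]
  refine ⟨{ G := G', f := f', even := ?_, span := ?_, dual := ?_, ne := hne', face := ?_ }, n,
    ⟨fun _ _ => Iff.rfl, hnt, ?_, ?_, hf1, hf2⟩⟩
  · intro χ v
    simp only [hcut, hc1', Finset.sum_add_distrib, ← Finset.mul_sum, D.even, sum_cz]; simp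
  · intro z hz
    obtain ⟨χ, hχ⟩ := D.span (fun x y => z x y + z a b * cz (a :: m1 ++ [b]) x y)
      ⟨fun x y => by beta_reduce; rw [hz.1 x y, cz_symm], fun x y h => by
        beta_reduce
        rw [← hc1']
        have h0 : P1 x y = 0 := by by_contra hc; exact h (hP1E x y hc).1
        rw [h0, zero_add]
        by_cases h1 : x = a ∧ y = b
        · obtain ⟨rfl, rfl⟩ := h1
          rw [ez_self hne, mul_one, z2_add_self]
        · by_cases h2 : x = b ∧ y = a
          · obtain ⟨rfl, rfl⟩ := h2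
            rw [ez_symm, ez_self hne, mul_one, hz.1 x y, z2_add_self]
          · rw [ez_eq_zero h1 h2, mul_zero, add_zero]
            apply hz.2.1
            rintro (h' | h' | h')
            · exact h h'
            · exact h1 h'
            · exact h2 h', fun v => by
        simp only [Finset.sum_add_distrib, ← Finset.mul_sum, hz.2.2, sum_cz]; simp⟩
    refine ⟨Function.update χ n (χ t + z a b), ?_⟩
    funext x y
    rw [hcut, hupd, ← hχ, hc1', Function.update_self, Function.update_of_ne hnt.symm]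
    beta_reduce
    generalize z x y = p; generalize z a b = q; generalize χ t = r
    generalize cz (a :: m1 ++ [b]) x y = s
    revert p q r s; decide
  · intro χ hχ x y x' y' h h'
    have hnt' : χ n = χ t := by
      have := hχ a b (Or.inr (Or.inl ⟨rfl, rfl⟩)); rwa [fab, fba] at this
    have h0 : cutf D.G D.f χ = 0 := by
      funext u v
      have := hcut χ u v
      rw [hnt', z2_add_self, zero_mul, add_zero] at this
      rw [← this]
      by_cases h : G'.Adj u v
      · rw [cutf_adj h, hχ u v h]; exact z2_add_self _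
      · exact cutf_nadj h
    have key : ∀ u v, G'.Adj u v → χ (f' u v) = χ t := by
      rintro u v (h | ⟨rfl, rfl⟩ | ⟨rfl, rfl⟩)
      · rw [fold u v h]; split_ifs
        · exact hnt'
        · exact D.dual' χ h0 (D.E_left h).on hton
      · rw [fab, hnt']
      · rw [fba]
    rw [key x y h, key x' y' h']
  · intro x y h
    by_cases e1 : f' x y = n
    · exact ⟨_, e1 ▸ hf1⟩
    · by_cases e2 : f' x y = t
      · exact ⟨_, e2 ▸ hf2⟩
      · have hold : D.G.Adj x y := by
          rcases h with h | ⟨rfl, rfl⟩ | ⟨rfl, rfl⟩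
          · exact h
          · exact absurd fab e1
          · exact absurd fba e2
        have e3 : f' x y = D.f x y := by
          rw [fold x y hold] at e1 ⊢; split_ifs at e1 ⊢
          · exact absurd rfl e1
          · rfl
        obtain ⟨l, hl⟩ := D.face x y hold
        exact ⟨l, hl.1, hl.2.1, by rw [hE _ e2 e1, e3]; exact hl.2.2⟩
  · rintro v ⟨w, -, h | h⟩
    · exact (hn v w).ne h
    · exact (hn w v).ne h
  · intro k h1 h2
    funext x y
    apply propext
    change (G'.Adj x y ∧ (f' x y = k ∨ f' y x = k)) ↔ _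
    rw [← cutf_ind hne', hE k h1 h2, cutf_ind D.ne]; rfl

end Pool.Agent.Lib.MP_0fc16c_co
end

-- part Pool.Agent.Lib.MP_0fc16c_co.Cut
section

/-! Cutting a disc along a chord, real or drawn inside a face. -/

set_option autoImplicit false
set_option linter.unusedSectionVars false

open Finset

namespace Pool.Agent.Lib.MP_0fc16c_co

variable {V : Type*} [Fintype V] [DecidableEq V] {C : Type*} [DecidableEq C]

/-- A good colouring of the disc with outer face `o`. -/
def Col (D : Pl V) (o : ℕ) (R : V → V → Prop) (L : V → Finset C) (bad : ℕ → (V → C) → Prop)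
    (φ : V → C) : Prop :=
  (∀ v ∈ D.G.support, φ v ∈ L v) ∧ (∀ a b, D.G.Adj a b → R a b → φ a ≠ φ b) ∧
    ∀ k, k ≠ o → (∃ v, D.On k v) → ¬ bad k φ

/-- Edges of the face `k` that must be properly coloured. -/
def QE (D : Pl V) (R : V → V → Prop) (k : ℕ) : V → V → Prop := fun a b => D.E k a b ∧ R a b

/-- All inner faces are strong, except the one at the edge `xy`, which is weak. -/
def Good (D : Pl V) (o : ℕ) (R : V → V → Prop) (bad : ℕ → (V → C) → Prop) (x y : V) : Prop :=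
  ∀ k, k ≠ o → (∃ v, D.On k v) → Loc (D.E k) (bad k) ∧ Weak (D.E k) (bad k) ∧
    (¬ D.E k x y → Strong (D.E k) (QE D R k) (bad k))

/-- Inner faces are induced and meet in at most a vertex or an edge. -/
def N1 (D : Pl V) (o : ℕ) : Prop :=
  (∀ k, k ≠ o → ∀ a b, D.On k a → D.On k b → D.G.Adj a b → D.E k a b) ∧
  ∀ k k', k ≠ o → k' ≠ o → k ≠ k' → ∀ a b, a ≠ b → D.On k a → D.On k b → D.On k' a → D.On k' b →
    D.G.Adj a b

/-- Adjacent, or on a common face other than `o` and `g`. -/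
def Near (D : Pl V) (o g : ℕ) (a b : V) : Prop :=
  D.G.Adj a b ∨ ∃ k, k ≠ o ∧ k ≠ g ∧ D.On k a ∧ D.On k b

open Classical in
/-- The induction measure. -/
noncomputable def mu (D : Pl V) : ℕ :=
  D.G.support.ncard * (Fintype.card (V × V) + 1) +
    (univ.filter fun p : V × V => D.G.Adj p.1 p.2).card

theorem mu_lt_of_supp {D D' : Pl V} (h : D'.G.support ⊆ D.G.support) {v : V}
    (hv : v ∈ D.G.support) (hv' : v ∉ D'.G.support) : mu D' < mu D := by
  classical
  have h1 : D'.G.support.ncard < D.G.support.ncard :=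
    Set.ncard_lt_ncard ⟨h, fun h' => hv' (h' hv)⟩ (Set.toFinite _)
  have h2 : (univ.filter fun p : V × V => D'.G.Adj p.1 p.2).card ≤ Fintype.card (V × V) :=
    Finset.card_le_univ _
  unfold mu
  have := Nat.mul_le_mul_right (Fintype.card (V × V) + 1) (Nat.succ_le_of_lt h1)
  rw [Nat.succ_mul] at this
  omega

theorem mu_lt_of_le {D D' : Pl V} (h : D'.G ≤ D.G) {a b : V} (hab : D.G.Adj a b)
    (hab' : ¬ D'.G.Adj a b) : mu D' < mu D := by
  classical
  have h1 : D'.G.support.ncard ≤ D.G.support.ncard :=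
    Set.ncard_le_ncard (SimpleGraph.support_mono h) (Set.toFinite _)
  have h2 : (univ.filter fun p : V × V => D'.G.Adj p.1 p.2).card <
      (univ.filter fun p : V × V => D.G.Adj p.1 p.2).card := by
    apply Finset.card_lt_card
    refine ⟨fun p hp => ?_, fun hc => ?_⟩
    · simp only [mem_filter, mem_univ, true_and] at hp ⊢; exact h hp
    · have := hc (x := (a, b)) (by simpa using hab)
      exact hab' (by simpa using this)
  unfold mu
  have := Nat.mul_le_mul_right (Fintype.card (V × V) + 1) h1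
  omega

theorem Col.mono {D : Pl V} {o : ℕ} {R : V → V → Prop} {L L' : V → Finset C}
    {bad : ℕ → (V → C) → Prop} {φ : V → C} (h : Col D o R L' bad φ)
    (hL : ∀ v ∈ D.G.support, L' v ⊆ L v) : Col D o R L bad φ :=
  ⟨fun v hv => hL v hv (h.1 v hv), h.2⟩

theorem Col.pr {D : Pl V} {o : ℕ} {R : V → V → Prop} {L : V → Finset C}
    {bad : ℕ → (V → C) → Prop} {φ : V → C} (h : Col D o R L bad φ) (k : ℕ) :
    Pr (QE D R k) φ := fun a b hab => h.2.1 a b hab.1.1 hab.2

theorem loc_false (E : V → V → Prop) : Loc (C := C) E (fun _ => False) := fun _ _ _ h => h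

theorem weak_false (E : V → V → Prop) : Weak (C := C) E (fun _ => False) :=
  fun _ _ _ => ⟨fun _ => ∅, by simp, fun _ _ _ h => h⟩

theorem pay_false (E Q : V → V → Prop) (p u u' : V) (c : C) (i j n : ℕ) :
    Pay E Q (fun _ => False) p u u' c i j n :=
  ⟨fun _ => ∅, by simp, by simp, by simp, fun _ _ _ _ h => h⟩

theorem strong_false [hC : Nonempty C] (E Q : V → V → Prop) : Strong (C := C) E Q (fun _ => False) where
  kl := fun _ _ _ _ _ _ _ => pay_false ..
  kf := fun _ _ _ _ _ _ => ⟨∅, by simp, fun _ _ => pay_false ..⟩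
  p4 := fun _ _ _ _ _ _ => Or.inr fun _ => pay_false ..
  sl := fun _ _ _ _ _ _ _ _ _ => ⟨fun _ => ∅, by simp, fun _ _ _ _ _ h => h⟩
  star := fun _ _ _ _ _ _ => Or.inl fun _ _ => ⟨∅, by simp, fun _ _ _ _ _ h => h⟩
  p5 := fun _ _ _ _ _ _ => Or.inr ⟨hC.some, fun _ _ h => h.elim⟩

theorem Near.symm {D : Pl V} {o g : ℕ} {a b : V} (h : Near D o g a b) : Near D o g b a := by
  rcases h with h | ⟨k, h1, h2, h3, h4⟩
  · exact Or.inl h.symm
  · exact Or.inr ⟨k, h1, h2, h4, h3⟩

theorem Near.weaken {D : Pl V} {o g : ℕ} {a b : V} (h : Near D o g a b) : Near D o o a b := by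
  rcases h with h | ⟨k, h1, -, h3, h4⟩
  · exact Or.inl h
  · exact Or.inr ⟨k, h1, h1, h3, h4⟩

/-- One side of a cut. -/
structure Piece (D D' : Pl V) (F : ℕ) (a b : V) (t t' : ℕ) (l : List V) : Prop where
  face : IsFace D'.G D'.f F l
  adj : ∀ x y, D'.G.Adj x y → D.G.Adj x y ∨ (x = a ∧ y = b) ∨ (x = b ∧ y = a)
  E_eq : ∀ k, k ≠ F → k ≠ t' → ∀ v, D'.On k v → k ≠ t ∧ D'.E k = D.E k
  on_t : ∀ v, D'.On t' v → D.On t v
  supp : D'.G.support ⊆ D.G.support
  lt : mu D' < mu D

/-- The result of cutting along `ab`. -/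
structure CutData (D : Pl V) (F : ℕ) (R : V → V → Prop) (a b : V) (l1 l2 : List V)
    (D1 D2 : Pl V) (R' : V → V → Prop) (t t1 t2 : ℕ) : Prop where
  p1 : Piece D D1 F a b t t1 (b :: l2 ++ [a])
  p2 : Piece D D2 F a b t t2 (a :: l1 ++ [b])
  kind : (D.G.Adj a b ∧ t = F ∧ t1 = F ∧ t2 = F ∧ R' = R) ∨
    (¬ D.G.Adj a b ∧ t ≠ F ∧ t1 ≠ F ∧ t2 ≠ F ∧ D1.E t1 a b ∧ D2.E t2 a b ∧ ¬ R' a b ∧ ¬ R' b a ∧
      ∀ x y, D.E t x y → D1.E t1 x y ∨ D2.E t2 x y)
  Rsymm : ∀ x y, R' x y → R' y x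
  Riff : ∀ x y, D.G.Adj x y → (R' x y ↔ R x y)
  Rle : ∀ x y, R' x y → R x y
  cov_adj : ∀ x y, D.G.Adj x y → D1.G.Adj x y ∨ D2.G.Adj x y
  cov_face : ∀ k, k ≠ F → k ≠ t → ∀ v, D.On k v →
    (k ≠ t1 ∧ D1.E k = D.E k) ∨ (k ≠ t2 ∧ D2.E k = D.E k)
  inter : ∀ v ∈ D1.G.support, v ∈ D2.G.support → v = a ∨ v = b

theorem Piece.swap {D D' : Pl V} {F : ℕ} {a b : V} {t t' : ℕ} {l : List V}
    (h : Piece D D' F a b t t' l) : Piece D D' F b a t t' l :=
  ⟨h.face, fun x y hxy => by have := h.adj x y hxy; tauto, h.E_eq, h.on_t, h.supp, h.lt⟩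

theorem CutData.swap {D : Pl V} {F : ℕ} {R : V → V → Prop} {a b : V} {l1 l2 : List V}
    {D1 D2 : Pl V} {R' : V → V → Prop} {t t1 t2 : ℕ}
    (h : CutData D F R a b l1 l2 D1 D2 R' t t1 t2) : CutData D F R b a l2 l1 D2 D1 R' t t2 t1 where
  p1 := h.p2.swap
  p2 := h.p1.swap
  kind := by
    rcases h.kind with ⟨h1, h2, h3, h4, h5⟩ | ⟨h1, h2, h3, h4, h5, h6, h7, h8, h9⟩
    · exact Or.inl ⟨h1.symm, h2, h4, h3, h5⟩
    · exact Or.inr ⟨fun h => h1 h.symm, h2, h4, h3, h6.symm, h5.symm, h8, h7,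
        fun x y h => (h9 x y h).symm⟩
  Rsymm := h.Rsymm
  Riff := h.Riff
  Rle := h.Rle
  cov_adj := fun x y hxy => (h.cov_adj x y hxy).symm
  cov_face := fun k h1 h2 v hv => (h.cov_face k h1 h2 v hv).symm
  inter := fun v h1 h2 => (h.inter v h2 h1).symm

theorem exists_cut_real (D : Pl V) {F : ℕ} {a b : V} {l1 l2 : List V}
    (hf : IsFace D.G D.f F (a :: l1 ++ b :: l2)) (h1 : l1 ≠ []) (h2 : l2 ≠ [])
    (hab : D.G.Adj a b) : ∃ (D1 D2 : Pl V) (χ1 χ2 : ℕ → ZMod 2),
      Restr D D1 χ1 F ∧ Restr D D2 χ2 F ∧ IsFace D1.G D1.f F (b :: l2 ++ [a]) ∧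
      IsFace D2.G D2.f F (a :: l1 ++ [b]) ∧ (∀ k v, k ≠ F → D.On k v → χ1 k + χ2 k = 1) ∧
      (∀ v ∈ D1.G.support, v ∈ D2.G.support → v = a ∨ v = b) := by
  obtain ⟨χ2, χ1, z2, z1, c2, c1, hs⟩ := exists_split D hf hab
  have hnd := hf.1
  have hn2 : (a :: l1 ++ [b]).Nodup := by
    refine hnd.sublist ?_
    exact List.Sublist.append (List.Sublist.refl _) (List.cons_sublist_cons.2 (List.nil_sublist _))
  have hn1 : (b :: l2 ++ [a]).Nodup := by
    have : ((b :: l2) ++ (a :: l1)).Nodup := (hf.rot (l1 := a :: l1)).1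
    refine this.sublist ?_
    exact List.Sublist.append (List.Sublist.refl _) (List.cons_sublist_cons.2 (List.nil_sublist _))
  obtain ⟨D1, r1, f1⟩ := exists_restr D χ1 F z1 _ hn1
    (by have := List.length_pos_iff.2 h2; simp; omega) c1
  obtain ⟨D2, r2, f2⟩ := exists_restr D χ2 F z2 _ hn2
    (by have := List.length_pos_iff.2 h1; simp; omega) c2
  refine ⟨D1, D2, χ1, χ2, r1, r2, f1, f2, fun k v hk hv => by rw [add_comm]; exact hs k v hk hv,
    fun v hv1 hv2 => ?_⟩
  obtain ⟨k1, e1, o1⟩ := r1.supp_iff.1 hv1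
  obtain ⟨k2, e2, o2⟩ := r2.supp_iff.1 hv2
  have n1 : k1 ≠ F := by rintro rfl; rw [z1] at e1; exact zero_ne_one e1
  have n2 : k2 ≠ F := by rintro rfl; rw [z2] at e2; exact zero_ne_one e2
  have s1 := hs k1 v n1 o1
  have s2 := hs k2 v n2 o2
  have m1 := D.link_mem c1 o1 o2 (by
    rw [e1]; rw [e2] at s2; intro e; rw [← e] at s2; exact absurd s2 (by decide))
  have m2 := D.link_mem c2 o2 o1 (by
    rw [e2]; rw [e1] at s1; intro e; rw [← e] at s1; exact absurd s1 (by decide))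
  simp only [List.cons_append, List.mem_cons, List.mem_append, List.not_mem_nil, or_false] at m1 m2
  simp only [List.cons_append, List.nodup_cons, List.mem_append, List.mem_cons, not_or,
    List.nodup_append] at hnd
  rcases m1 with rfl | m1 | rfl
  · exact Or.inr rfl
  · rcases m2 with rfl | m2 | rfl
    · exact Or.inl rfl
    · exact absurd rfl (hnd.2.2.2 v m2 v (Or.inr m1))
    · exact Or.inr rfl
  · exact Or.inl rfl

theorem exists_cut (D : Pl V) {F g : ℕ} {a b : V} {l1 l2 : List V} {R : V → V → Prop}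
    (hR : ∀ x y, R x y → R y x)
    (hf : IsFace D.G D.f F (a :: l1 ++ b :: l2)) (h1 : l1 ≠ []) (h2 : l2 ≠ [])
    (hn : Near D F g a b) : ∃ D1 D2 R' t t1 t2, CutData D F R a b l1 l2 D1 D2 R' t t1 t2 ∧
      (t = F ∨ t ≠ g) := by
  have hnd := hf.1
  have hne : a ≠ b := by rintro rfl; simp at hnd
  obtain ⟨x1, hx1⟩ := List.exists_mem_of_ne_nil _ h1
  obtain ⟨x2, hx2⟩ := List.exists_mem_of_ne_nil _ h2
  have hx1' : x1 ≠ a ∧ x1 ≠ b := by
    constructor <;> rintro rfl
    · simp [hx1] at hnd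
    · simp only [List.cons_append, List.nodup_cons, List.nodup_append] at hnd
      exact hnd.2.2.2 _ hx1 _ (by simp) rfl
  have hx2' : x2 ≠ a ∧ x2 ≠ b := by
    constructor <;> rintro rfl
    · simp [hx2] at hnd
    · simp only [List.cons_append, List.nodup_cons, List.nodup_append] at hnd
      exact hnd.2.2.1.1 hx2
  have hs1 : x1 ∈ D.G.support := ((Pl.on_iff hf).2 (by simp [hx1])).supp
  have hs2 : x2 ∈ D.G.support := ((Pl.on_iff hf).2 (by simp [hx2])).supp
  by_cases hab : D.G.Adj a b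
  · obtain ⟨D1, D2, χ1, χ2, r1, r2, f1, f2, hs, hi⟩ := exists_cut_real D hf h1 h2 hab
    have hF1 : ∀ v, D1.On F v → D.On F v := fun v hv => (Pl.on_iff hf).2 (by
      have := (Pl.on_iff f1).1 hv; simp at this ⊢; tauto)
    have hF2 : ∀ v, D2.On F v → D.On F v := fun v hv => (Pl.on_iff hf).2 (by
      have := (Pl.on_iff f2).1 hv; simp at this ⊢; tauto)
    refine ⟨D1, D2, R, F, F, F, ⟨⟨f1, fun x y h => Or.inl (r1.le h),
      fun k hk _ v hv => ⟨hk, r1.E_eq hk hv⟩, hF1, SimpleGraph.support_mono r1.le, ?_⟩,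
      ⟨f2, fun x y h => Or.inl (r2.le h), fun k hk _ v hv => ⟨hk, r2.E_eq hk hv⟩, hF2,
      SimpleGraph.support_mono r2.le, ?_⟩, Or.inl ⟨hab, rfl, rfl, rfl, rfl⟩, hR,
      fun _ _ _ => Iff.rfl, fun _ _ h => h, ?_, ?_, hi⟩, Or.inl rfl⟩
    · refine mu_lt_of_supp (SimpleGraph.support_mono r1.le) hs1 fun h => ?_
      have := hi x1 h ((Pl.on_iff f2).2 (by simp [hx1])).supp
      tauto
    · refine mu_lt_of_supp (SimpleGraph.support_mono r2.le) hs2 fun h => ?_
      have := hi x2 ((Pl.on_iff f1).2 (by simp [hx2])).supp h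
      tauto
    · intro x y hxy
      obtain ⟨k, hk, hE⟩ : ∃ k, k ≠ F ∧ D.E k x y := by
        by_cases e : D.f x y = F
        · exact Pl.exists_other (e ▸ D.E_left hxy)
        · exact ⟨_, e, D.E_left hxy⟩
      have := hs k x hk hE.on
      rcases z2_cases (χ1 k) with e | e
      · rw [e, zero_add] at this; exact Or.inr (r2.adj_of_E this hE)
      · exact Or.inl (r1.adj_of_E e hE)
    · intro k hk _ v hv
      have := hs k v hk hv
      rcases z2_cases (χ1 k) with e | e
      · rw [e, zero_add] at this; exact Or.inr ⟨hk, r2.E_in k this⟩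
      · exact Or.inl ⟨hk, r1.E_in k e⟩
  · obtain ⟨t, htF, htg, hta, htb⟩ := hn.resolve_left hab
    obtain ⟨m1, m2, hft⟩ : ∃ m1 m2, IsFace D.G D.f t (a :: m1 ++ b :: m2) := by
      obtain ⟨w, hw⟩ := hta
      obtain ⟨c, s, hs⟩ := Pl.face_start hw
      have hb := (Pl.on_iff hs).1 htb
      rcases List.mem_cons.1 hb with e | hb
      · exact absurd e.symm hne
      · obtain ⟨m1, m2, e⟩ := List.append_of_mem hb
        exact ⟨m1, m2, by rw [List.cons_append, ← e]; exact hs⟩
    obtain ⟨Dp, n, hA⟩ := exists_addE D hft hab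
    have hFn : F ≠ n := by
      rintro rfl; exact hA.fresh a ((Pl.on_iff hf).2 (by simp))
    have hfp : IsFace Dp.G Dp.f F (a :: l1 ++ b :: l2) :=
      Pl.face_congr (hA.E_eq F htF.symm hFn) hf
    have habp : Dp.G.Adj a b := (hA.adj a b).2 (Or.inr (Or.inl ⟨rfl, rfl⟩))
    obtain ⟨D1, D2, χ1, χ2, r1, r2, f1, f2, hs, hi⟩ := exists_cut_real Dp hfp h1 h2 habp
    have En : Dp.E n a b := (Pl.E_iff hA.f1).2 (cyc_ends m1 a b)
    have Et : Dp.E t a b := ((Pl.E_iff hA.f2).2 (cyc_ends m2 b a)).symm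
    have hsupp : Dp.G.support ⊆ D.G.support := by
      rintro v ⟨w, hw⟩
      rcases (hA.adj v w).1 hw with h | ⟨rfl, rfl⟩ | ⟨rfl, rfl⟩
      · exact ⟨w, h⟩
      · exact hta.supp
      · exact htb.supp
    have hont : ∀ k, (k = t ∨ k = n) → ∀ v, Dp.On k v → D.On t v := by
      rintro k (rfl | rfl) v hv
      · have := (Pl.on_iff hA.f2).1 hv
        exact (Pl.on_iff hft).2 (by simp at this ⊢; tauto)
      · have := (Pl.on_iff hA.f1).1 hv
        exact (Pl.on_iff hft).2 (by simp at this ⊢; tauto)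
    have hEt : ∀ x y, D.E t x y → Dp.E t x y ∨ Dp.E n x y := by
      intro x y hxy
      have hc := (Pl.E_iff hft).1 hxy
      have e1 : a :: (m1 ++ b :: m2) ++ [a] = (a :: m1) ++ b :: (m2 ++ [a]) := by simp
      rw [List.cons_append, cyc_cons, e1, nx_append, nx_append (a := y)] at hc
      rcases hc with (h | h) | (h | h)
      · exact Or.inr ((Pl.E_iff hA.f1).2 (cyc_of_nx h))
      · exact Or.inl ((Pl.E_iff hA.f2).2 (cyc_of_nx h))
      · exact Or.inr ((Pl.E_iff hA.f1).2 (cyc_of_nx h)).symm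
      · exact Or.inl ((Pl.E_iff hA.f2).2 (cyc_of_nx h)).symm
    -- exactly one of `t`, `n` lies on each side
    have hEF1 : D1.E F a b := ((Pl.E_iff f1).2 (cyc_ends l2 b a)).symm
    have hχ : χ1 t ≠ χ1 n := by
      intro e
      obtain ⟨k, hk, hE⟩ := Pl.exists_other hEF1
      have hχk := r1.chi_of_on hk hE.on
      have hE' : Dp.E k a b := r1.E_in k hχk ▸ hE
      have e1 : χ1 t = 1 := by
        rcases Pl.E_sides Et En hE' hA.nt.symm with rfl | rfl
        · exact hχk
        · rw [e]; exact hχk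
      have a1 : D1.E t a b := by rw [r1.E_in t e1]; exact Et
      have a2 : D1.E n a b := by rw [r1.E_in n (e ▸ e1)]; exact En
      rcases Pl.E_sides a1 a2 hEF1 hA.nt.symm with h | h
      · exact htF h.symm
      · exact hFn h
    obtain ⟨t1, t2, ht1, ht2, htt⟩ : ∃ t1 t2, χ1 t1 = 1 ∧ χ2 t2 = 1 ∧
        ((t1 = t ∧ t2 = n) ∨ (t1 = n ∧ t2 = t)) := by
      have st := hs t a htF Et.on
      have sn := hs n a hFn.symm En.on
      rcases z2_cases (χ1 t) with e | e
      · refine ⟨n, t, ?_, by simpa [e] using st, Or.inr ⟨rfl, rfl⟩⟩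
        rw [e] at hχ; exact z2_ne_zero.1 hχ.symm
      · refine ⟨t, n, e, ?_, Or.inl ⟨rfl, rfl⟩⟩
        rw [e] at hχ; rw [z2_ne_one.1 hχ.symm, zero_add] at sn; exact sn
    have ht1' : t1 = t ∨ t1 = n := by tauto
    have ht2' : t2 = t ∨ t2 = n := by tauto
    have ht1F : t1 ≠ F := by rcases ht1' with rfl | rfl; exact htF; exact hFn.symm
    have ht2F : t2 ≠ F := by rcases ht2' with rfl | rfl; exact htF; exact hFn.symm
    have E1 : Dp.E t1 a b := by rcases ht1' with rfl | rfl; exact Et; exact En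
    have E2 : Dp.E t2 a b := by rcases ht2' with rfl | rfl; exact Et; exact En
    have h12 : χ1 t2 = 0 := by
      have := hs t2 a ht2F E2.on; rw [ht2] at this
      revert this; generalize χ1 t2 = x; revert x; decide
    have h21 : χ2 t1 = 0 := by
      have := hs t1 a ht1F E1.on; rw [ht1] at this
      revert this; generalize χ2 t1 = x; revert x; decide
    have piece : ∀ (D' : Pl V) (χ : ℕ → ZMod 2) (s s' : ℕ) (l : List V), Restr Dp D' χ F →
        IsFace D'.G D'.f F l → s ≠ F → χ s' = 0 → ((s = t ∧ s' = n) ∨ (s = n ∧ s' = t)) →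
        (∃ x ∈ D.G.support, x ∉ D'.G.support) → Piece D D' F a b t s l := by
      intro D' χ s s' l r f hsF hs' hss ⟨x, hx, hx'⟩
      refine ⟨f, fun x y h => (hA.adj x y).1 (r.le h), fun k hk hks v hv => ?_,
        fun v hv => hont s (by tauto) v (r.on_le hsF hv),
        (SimpleGraph.support_mono r.le).trans hsupp,
        mu_lt_of_supp ((SimpleGraph.support_mono r.le).trans hsupp) hx hx'⟩
      have hχk := r.chi_of_on hk hv
      have hks' : k ≠ s' := by rintro rfl; rw [hs'] at hχk; exact zero_ne_one hχk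
      have : k ≠ t ∧ k ≠ n := by
        rcases hss with ⟨rfl, rfl⟩ | ⟨rfl, rfl⟩
        · exact ⟨hks, hks'⟩
        · exact ⟨hks', hks⟩
      exact ⟨this.1, (r.E_in k hχk).trans (hA.E_eq k this.1 this.2)⟩
    refine ⟨D1, D2, fun x y => R x y ∧ ¬ (x = a ∧ y = b) ∧ ¬ (x = b ∧ y = a), t, t1, t2,
      ⟨piece D1 χ1 t1 t2 _ r1 f1 ht1F h12 htt ⟨x1, hs1, fun h => ?_⟩,
       piece D2 χ2 t2 t1 _ r2 f2 ht2F h21 (by tauto) ⟨x2, hs2, fun h => ?_⟩,
       Or.inr ⟨hab, htF, ht1F, ht2F, by rw [r1.E_in t1 ht1]; exact E1,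
         by rw [r2.E_in t2 ht2]; exact E2, by tauto, by tauto, ?_⟩,
       fun x y h => ⟨hR x y h.1, by tauto, by tauto⟩, fun x y hxy => ⟨fun h => h.1, fun h =>
         ⟨h, by rintro ⟨rfl, rfl⟩; exact hab hxy, by rintro ⟨rfl, rfl⟩; exact hab hxy.symm⟩⟩,
       fun x y h => h.1, ?_, ?_, hi⟩, Or.inr htg⟩
    · have := hi x1 h ((Pl.on_iff f2).2 (by simp [hx1])).supp
      tauto
    · have := hi x2 ((Pl.on_iff f1).2 (by simp [hx2])).supp h
      tauto
    · intro x y hxy
      rw [r1.E_in t1 ht1, r2.E_in t2 ht2]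
      have := hEt x y hxy
      rcases htt with ⟨rfl, rfl⟩ | ⟨rfl, rfl⟩
      · exact this
      · exact this.symm
    · intro x y hxy
      have hxy' : Dp.G.Adj x y := (hA.adj x y).2 (Or.inl hxy)
      obtain ⟨k, hk, hE⟩ : ∃ k, k ≠ F ∧ Dp.E k x y := by
        by_cases e : Dp.f x y = F
        · exact Pl.exists_other (e ▸ Dp.E_left hxy')
        · exact ⟨_, e, Dp.E_left hxy'⟩
      have := hs k x hk hE.on
      rcases z2_cases (χ1 k) with e | e
      · rw [e, zero_add] at this; exact Or.inr (r2.adj_of_E this hE)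
      · exact Or.inl (r1.adj_of_E e hE)
    · intro k hk hkt v hv
      have hkn : k ≠ n := by rintro rfl; exact hA.fresh v hv
      have hE := hA.E_eq k hkt hkn
      have hv' : Dp.On k v := by unfold PrePl.On at hv ⊢; rw [hE]; exact hv
      have := hs k v hk hv'
      rcases z2_cases (χ1 k) with e | e
      · rw [e, zero_add] at this
        exact Or.inr ⟨by rcases ht2' with rfl | rfl; exact hkt; exact hkn,
          (r2.E_in k this).trans hE⟩
      · exact Or.inl ⟨by rcases ht1' with rfl | rfl; exact hkt; exact hkn,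
          (r1.E_in k e).trans hE⟩

/-! ### Inheritance -/

section inherit
variable {D D1 D2 : Pl V} {F : ℕ} {R R' : V → V → Prop} {a b : V} {l1 l2 : List V} {t t1 t2 : ℕ}

theorem on_congr {D D' : Pl V} {k : ℕ} (h : D'.E k = D.E k) {v : V} : D'.On k v ↔ D.On k v := by
  unfold PrePl.On; rw [h]

theorem CutData.on_proj (h : CutData D F R a b l1 l2 D1 D2 R' t t1 t2) {k : ℕ} (hk : k ≠ F)
    {v : V} (hv : D2.On k v) :
    (k = t2 ∧ t ≠ F ∧ ¬ D.G.Adj a b) ∨ (k ≠ t2 ∧ k ≠ t ∧ D2.E k = D.E k) := by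
  by_cases e : k = t2
  · left
    rcases h.kind with ⟨-, -, -, h4, -⟩ | h'
    · exact absurd (e.trans h4) hk
    · exact ⟨e, h'.2.1, h'.1⟩
  · exact Or.inr ⟨e, h.p2.E_eq k hk e v hv⟩

theorem CutData.near2 (h : CutData D F R a b l1 l2 D1 D2 R' t t1 t2) {g : ℕ}
    (hg : t = F ∨ t ≠ g) {x y : V} (hn : Near D2 F g x y) :
    Near D F g x y ∨ (x = a ∧ y = b) ∨ (x = b ∧ y = a) := by
  rcases hn with hn | ⟨k, h1, h2, h3, h4⟩
  · rcases h.p2.adj x y hn with h' | h'
    · exact Or.inl (Or.inl h')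
    · exact Or.inr h'
  · left; right
    rcases h.on_proj h1 h3 with ⟨rfl, e, -⟩ | ⟨-, -, e⟩
    · exact ⟨t, e, hg.resolve_left e, h.p2.on_t x h3, h.p2.on_t y h4⟩
    · exact ⟨k, h1, h2, (on_congr e).1 h3, (on_congr e).1 h4⟩

theorem CutData.near2' (h : CutData D F R a b l1 l2 D1 D2 R' t t1 t2) {x y : V}
    (hn : Near D2 F F x y) : Near D F F x y ∨ (x = a ∧ y = b) ∨ (x = b ∧ y = a) :=
  h.near2 (em _) hn

theorem CutData.n1 (h : CutData D F R a b l1 l2 D1 D2 R' t t1 t2) (hn : N1 D F) : N1 D2 F := by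
  have hab : a ≠ b := by
    rintro rfl; have := h.p2.face.1; simp at this
  have key : ∀ k, k ≠ F → ∀ x y, D2.On k x → D2.On k y → D.G.Adj x y → D2.E k x y := by
    intro k hk x y hx hy hxy
    rcases h.on_proj hk hx with ⟨rfl, e, e'⟩ | ⟨-, -, e⟩
    · have hE := hn.1 t e x y (h.p2.on_t x hx) (h.p2.on_t y hy) hxy
      rcases h.kind with ⟨h1, -⟩ | ⟨-, -, -, -, -, -, -, -, h9⟩
      · exact absurd h1 e'
      · rcases h9 x y hE with h' | h'
        · exfalso
          rcases h.inter x h'.on.supp hx.supp with rfl | rfl <;>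
            rcases h.inter y h'.on'.supp hy.supp with rfl | rfl
          · exact hxy.ne rfl
          · exact e' hxy
          · exact e' hxy.symm
          · exact hxy.ne rfl
        · exact h'
    · rw [e]; exact hn.1 k hk x y ((on_congr e).1 hx) ((on_congr e).1 hy) hxy
  have key2 : ∀ k, k ≠ F → D2.On k a → D2.On k b → D2.E k a b := by
    intro k hk hx hy
    by_cases hxy : D.G.Adj a b
    · exact key k hk a b hx hy hxy
    · rcases h.kind with ⟨h1, -⟩ | ⟨-, h2, -, -, -, h6, -⟩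
      · exact absurd h1 hxy
      · rcases h.on_proj hk hx with ⟨rfl, -⟩ | ⟨-, e', e⟩
        · exact h6
        · exact absurd (hn.2 k t hk h2 e' a b hab ((on_congr e).1 hx) ((on_congr e).1 hy)
            (h.p2.on_t a h6.on) (h.p2.on_t b h6.on')) hxy
  refine ⟨fun k hk x y hx hy hxy => ?_, fun k k' hk hk' hkk x y hxy h1 h2 h3 h4 => ?_⟩
  · rcases h.p2.adj x y hxy with h' | ⟨rfl, rfl⟩ | ⟨rfl, rfl⟩
    · exact key k hk x y hx hy h'
    · exact key2 k hk hx hy
    · exact (key2 k hk hy hx).symm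
  · have : D.G.Adj x y := by
      rcases h.on_proj hk h1 with ⟨rfl, e, -⟩ | ⟨-, e0, e⟩ <;>
        rcases h.on_proj hk' h3 with ⟨rfl, e', -⟩ | ⟨-, e0', e'⟩
      · exact absurd rfl hkk
      · exact hn.2 k' t hk' e e0' x y hxy ((on_congr e').1 h3) ((on_congr e').1 h4)
          (h.p2.on_t x h1) (h.p2.on_t y h2)
      · exact hn.2 k t hk e' e0 x y hxy ((on_congr e).1 h1) ((on_congr e).1 h2)
          (h.p2.on_t x h3) (h.p2.on_t y h4)
      · exact hn.2 k k' hk hk' hkk x y hxy ((on_congr e).1 h1) ((on_congr e).1 h2)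
          ((on_congr e').1 h3) ((on_congr e').1 h4)
    exact (key k hk x y h1 h2 this).1

theorem CutData.QE2 (h : CutData D F R a b l1 l2 D1 D2 R' t t1 t2) {k : ℕ}
    (e : D2.E k = D.E k) : QE D2 R' k = QE D R k := by
  funext x y
  unfold QE; rw [e]
  exact propext ⟨fun h' => ⟨h'.1, h.Rle _ _ h'.2⟩, fun h' => ⟨h'.1, (h.Riff _ _ h'.1.1).2 h'.2⟩⟩

/-- A face through a vertex private to the second piece survives there. -/
theorem CutData.keep2 (h : CutData D F R a b l1 l2 D1 D2 R' t t1 t2) {k : ℕ} (hk : k ≠ F)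
    (hkt : k ≠ t) {v : V} (hv : D.On k v) (h2 : v ∈ D2.G.support) (ha : v ≠ a) (hb : v ≠ b) :
    k ≠ t2 ∧ D2.E k = D.E k := by
  rcases h.cov_face k hk hkt v hv with ⟨-, e⟩ | e
  · have := h.inter v ((on_congr e).2 hv).supp h2; tauto
  · exact e

theorem CutData.inner2 (h : CutData D F R a b l1 l2 D1 D2 R' t t1 t2) {v : V}
    (hv : v ∈ D2.G.support) (hn : v ∉ a :: l1 ++ [b]) : v ∉ a :: l1 ++ b :: l2 := by
  intro hc
  have : v ∈ b :: l2 ++ [a] := by simp at hn hc ⊢; tauto
  have := h.inter v ((Pl.on_iff h.p1.face).2 this).supp hv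
  simp at hn; tauto

theorem CutData.supp_or (h : CutData D F R a b l1 l2 D1 D2 R' t t1 t2) {v : V}
    (hv : v ∈ D.G.support) : v ∈ D1.G.support ∨ v ∈ D2.G.support := by
  obtain ⟨w, hw⟩ := hv
  rcases h.cov_adj v w hw with h' | h'
  · exact Or.inl ⟨w, h'⟩
  · exact Or.inr ⟨w, h'⟩

/-- The constraints on the piece that is coloured first. -/
def bad1 (bad : ℕ → (V → C) → Prop) (t1 : ℕ) : ℕ → (V → C) → Prop :=
  fun k => if k = t1 then fun _ => False else bad k

open Classical in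
/-- The constraints on the piece that is coloured second. -/
def bad2 (bad : ℕ → (V → C) → Prop) (D2 : Pl V) (t t2 : ℕ) (φ1 : V → C) :
    ℕ → (V → C) → Prop :=
  fun k => if k = t2 then fun ψ => bad t (fun v => if D2.On t2 v then ψ v else φ1 v) else bad k

theorem bad1_ne {bad : ℕ → (V → C) → Prop} {t1 k : ℕ} (h : k ≠ t1) : bad1 bad t1 k = bad k := by
  simp [bad1, h]

theorem bad2_ne {bad : ℕ → (V → C) → Prop} {D2 : Pl V} {t t2 k : ℕ} {φ1 : V → C} (h : k ≠ t2) :
    bad2 bad D2 t t2 φ1 k = bad k := by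
  simp [bad2, h]

theorem CutData.good1 [Nonempty C] (h : CutData D F R a b l1 l2 D1 D2 R' t t1 t2)
    {bad : ℕ → (V → C) → Prop} {x y : V} (hg : Good D F R bad x y) :
    Good D1 F R' (bad1 bad t1) x y := by
  rintro k hk ⟨v, hv⟩
  by_cases e : k = t1
  · have : bad1 bad t1 k = fun _ => False := by simp [bad1, e]
    rw [this]; exact ⟨loc_false _, weak_false _, fun _ => strong_false _ _⟩
  · obtain ⟨-, e'⟩ := h.p1.E_eq k hk e v hv
    rw [bad1_ne e, h.swap.QE2 e', e']
    exact hg k hk ⟨v, (on_congr e').1 hv⟩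

theorem CutData.good2_of (h : CutData D F R a b l1 l2 D1 D2 R' t t1 t2)
    {bad bad' : ℕ → (V → C) → Prop} {x y : V} (hg : Good D F R bad x y) (hx : x ∈ D1.G.support)
    (hy : y ∈ D1.G.support) (he : ∀ k, k ≠ t2 → bad' k = bad k)
    (ht : t2 ≠ F → Loc (D2.E t2) (bad' t2) ∧ Weak (D2.E t2) (bad' t2)) :
    Good D2 F R' bad' a b := by
  rintro k hk ⟨v, hv⟩
  rcases h.on_proj hk hv with ⟨rfl, e1, e2⟩ | ⟨e1, -, e⟩
  · refine ⟨(ht hk).1, (ht hk).2, fun hc => ?_⟩
    rcases h.kind with ⟨h1, -⟩ | ⟨-, -, -, -, -, h6, -⟩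
    · exact absurd h1 e2
    · exact absurd h6 hc
  · rw [he k e1, h.QE2 e, e]
    obtain ⟨g1, g2, g3⟩ := hg k hk ⟨v, (on_congr e).1 hv⟩
    refine ⟨g1, g2, fun hc => g3 fun hxy => hc ?_⟩
    have hxy2 : D2.E k x y := e ▸ hxy
    rcases h.inter x hx hxy2.on.supp with rfl | rfl <;>
      rcases h.inter y hy hxy2.on'.supp with rfl | rfl
    · exact absurd rfl hxy.1.ne
    · exact hxy
    · exact hxy.symm
    · exact absurd rfl hxy.1.ne

theorem CutData.good2 (h : CutData D F R a b l1 l2 D1 D2 R' t t1 t2)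
    {bad : ℕ → (V → C) → Prop} {x y : V} (hg : Good D F R bad x y) (hx : x ∈ D1.G.support)
    (hy : y ∈ D1.G.support) (φ1 : V → C) : Good D2 F R' (bad2 bad D2 t t2 φ1) a b := by
  classical
  refine h.good2_of hg hx hy (fun k hk => bad2_ne hk) fun h2 => ?_
  rcases h.kind with ⟨-, -, -, h4, -⟩ | ⟨-, h3, -, -, -, h6, -⟩
  · exact absurd h4 h2
  obtain ⟨g1, g2, -⟩ := hg t h3 ⟨a, h.p2.on_t a h6.on⟩
  have e : bad2 bad D2 t t2 φ1 t2 =
      fun ψ => bad t (fun v => if D2.On t2 v then ψ v else φ1 v) := by simp [bad2]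
  rw [e]
  constructor
  · intro φ ψ hφ hb
    refine g1 _ _ (fun v _ => ?_) hb
    by_cases hv : D2.On t2 v
    · simp only [if_pos hv]; exact hφ v hv
    · simp only [if_neg hv]
  · rintro K ψ ⟨w, hw, hwK⟩
    obtain ⟨P, hP, hP'⟩ := g2 {v | v ∈ K ∨ ¬ D2.On t2 v}
      (fun v => if D2.On t2 v then ψ v else φ1 v)
      ⟨w, h.p2.on_t w hw, fun hc => hc.elim hwK fun hc => hc hw⟩
    refine ⟨P, hP, fun φ h1 h2 => hP' _ (fun v hv => ?_) (fun v _ hv => ?_)⟩
    · by_cases hv' : D2.On t2 v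
      · simp only [if_pos hv']; exact h1 v (hv.resolve_right (not_not.2 hv'))
      · simp only [if_neg hv']
    · have hv' : D2.On t2 v := by by_contra hc; exact hv (Or.inr hc)
      simp only [if_pos hv']; exact h2 v hv' fun hc => hv (Or.inl hc)

theorem CutData.good2_free [Nonempty C] (h : CutData D F R a b l1 l2 D1 D2 R' t t1 t2)
    {bad : ℕ → (V → C) → Prop} {x y : V} (hg : Good D F R bad x y) (hx : x ∈ D1.G.support)
    (hy : y ∈ D1.G.support) : Good D2 F R' (bad1 bad t2) a b := by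
  refine h.good2_of hg hx hy (fun k hk => bad1_ne hk) fun _ => ?_
  have : bad1 bad t2 t2 = fun _ => False := by simp [bad1]
  rw [this]; exact ⟨loc_false _, weak_false _⟩

theorem CutData.glue (h : CutData D F R a b l1 l2 D1 D2 R' t t1 t2)
    {bad : ℕ → (V → C) → Prop} {x y : V} (hg : Good D F R bad x y) {L L1 L2 : V → Finset C}
    {φ1 φ2 : V → C} (c1 : Col D1 F R' L1 (bad1 bad t1) φ1)
    (c2 : Col D2 F R' L2 (bad2 bad D2 t t2 φ1) φ2) (ha : φ2 a = φ1 a) (hb : φ2 b = φ1 b)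
    (hL1 : ∀ v ∈ D1.G.support, L1 v ⊆ L v)
    (hL2 : ∀ v ∈ D2.G.support, v ≠ a → v ≠ b → L2 v ⊆ L v) :
    ∃ φ, Col D F R L bad φ ∧ (∀ v ∈ D1.G.support, φ v = φ1 v) ∧
      ∀ v ∈ D2.G.support, φ v = φ2 v := by
  classical
  have e1 : ∀ v ∈ D1.G.support, (if v ∈ D2.G.support then φ2 v else φ1 v) = φ1 v := by
    intro v hv; split_ifs with h2
    · rcases h.inter v hv h2 with rfl | rfl
      · exact ha
      · exact hb
    · rfl
  have e2 : ∀ v ∈ D2.G.support, (if v ∈ D2.G.support then φ2 v else φ1 v) = φ2 v :=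
    fun v hv => if_pos hv
  refine ⟨fun v => if v ∈ D2.G.support then φ2 v else φ1 v, ⟨fun v hv => ?_, fun u v huv hR => ?_,
    fun k hk ⟨v, hv⟩ hb => ?_⟩, e1, e2⟩
  · by_cases h1 : v ∈ D1.G.support
    · simp only [e1 v h1]; exact hL1 v h1 (c1.1 v h1)
    · have h2 := (h.supp_or hv).resolve_left h1
      have hsa : a ∈ D1.G.support := ((Pl.on_iff h.p1.face).2 (by simp)).supp
      have hsb : b ∈ D1.G.support := ((Pl.on_iff h.p1.face).2 (by simp)).supp
      simp only [e2 v h2]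
      exact hL2 v h2 (by rintro rfl; exact h1 hsa) (by rintro rfl; exact h1 hsb) (c2.1 v h2)
  · have hR' := (h.Riff u v huv).2 hR
    rcases h.cov_adj u v huv with h' | h'
    · simp only [e1 u ⟨v, h'⟩, e1 v ⟨u, h'.symm⟩]; exact c1.2.1 u v h' hR'
    · simp only [e2 u ⟨v, h'⟩, e2 v ⟨u, h'.symm⟩]; exact c2.2.1 u v h' hR'
  · have hloc := (hg k hk ⟨v, hv⟩).1
    by_cases hkt : k = t
    · subst hkt
      rcases h.kind with ⟨-, h2, -⟩ | ⟨-, -, -, h4, -, h6, -, -, h9⟩
      · exact hk h2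
      apply c2.2.2 t2 h4 ⟨a, h6.on⟩
      have e : bad2 bad D2 k t2 φ1 t2 =
        fun ψ => bad k (fun v => if D2.On t2 v then ψ v else φ1 v) := by simp [bad2]
      rw [e]
      refine hloc _ _ (fun w hw => ?_) hb
      by_cases hw2 : D2.On t2 w
      · simp only [if_pos hw2]; exact e2 w hw2.supp
      · simp only [if_neg hw2]
        obtain ⟨w', hw'⟩ := hw
        rcases h9 w w' hw' with h' | h'
        · exact e1 w h'.on.supp
        · exact absurd h'.on hw2
    · rcases h.cov_face k hk hkt v hv with ⟨n1, e⟩ | ⟨n2, e⟩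
      · apply c1.2.2 k hk ⟨v, (on_congr e).2 hv⟩
        rw [bad1_ne n1]
        exact hloc _ _ (fun w hw => e1 w ((on_congr e).2 hw).supp) hb
      · apply c2.2.2 k hk ⟨v, (on_congr e).2 hv⟩
        rw [bad2_ne n2]
        exact hloc _ _ (fun w hw => e2 w ((on_congr e).2 hw).supp) hb

end inherit

end Pool.Agent.Lib.MP_0fc16c_co
end
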