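import Pool.Agent.Lib.MP_0fc16c_co.Tri

-- part Pool.Agent.Lib.MP_0fc16c_co.Red
section

/-! Cutting off the part of the disc near the root, and the continuation lemma. -/

set_option autoImplicit false
set_option linter.unusedSectionVars false

open Finset

namespace Pool.Agent.Lib.MP_0fc16c_co

variable {V : Type*} [Fintype V] [DecidableEq V] {C : Type*} [DecidableEq C]

theorem exists_first {α : Type*} {P : α → Prop} {l : List α} (h : ∃ y ∈ l, P y) :
    ∃ l1 y l2, l = l1 ++ y :: l2 ∧ P y ∧ ∀ x ∈ l1, ¬ P x := by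
  induction l with
  | nil => simp at h
  | cons a t ih =>
    by_cases ha : P a
    · exact ⟨[], a, t, rfl, ha, by simp⟩
    · obtain ⟨y, hy, hy'⟩ := h
      rcases List.mem_cons.1 hy with rfl | hy
      · exact absurd hy' ha
      · obtain ⟨l1, y, l2, e, h1, h2⟩ := ih ⟨y, hy, hy'⟩
        refine ⟨a :: l1, y, l2, by simp [e], h1, fun x hx => ?_⟩
        rcases List.mem_cons.1 hx with rfl | hx
        · exact ha
        · exact h2 x hx

theorem exists_last {α : Type*} {P : α → Prop} {l : List α} (h : ∃ y ∈ l, P y) :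
    ∃ l1 y l2, l = l1 ++ y :: l2 ∧ P y ∧ ∀ x ∈ l2, ¬ P x := by
  obtain ⟨l1, y, l2, e, h1, h2⟩ := exists_first (P := P) (l := l.reverse) (by simpa using h)
  refine ⟨l2.reverse, y, l1.reverse, ?_, h1, by simpa using h2⟩
  have := congrArg List.reverse e
  simpa using this

theorem Col.congr {D : Pl V} {o : ℕ} {R : V → V → Prop} {L : V → Finset C}
    {bad bad' : ℕ → (V → C) → Prop} {φ : V → C} (h : Col D o R L bad φ)
    (he : ∀ k, k ≠ o → (∃ v, D.On k v) → bad' k = bad k) : Col D o R L bad' φ :=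
  ⟨h.1, h.2.1, fun k hk hv => by rw [he k hk hv]; exact h.2.2 k hk hv⟩

theorem Good.congr {D : Pl V} {o : ℕ} {R : V → V → Prop} {bad bad' : ℕ → (V → C) → Prop}
    {x y : V} (h : Good D o R bad x y)
    (he : ∀ k, k ≠ o → (∃ v, D.On k v) → bad' k = bad k) : Good D o R bad' x y :=
  fun k hk hv => by rw [he k hk hv]; exact h k hk hv

/-- No vertex of the first list is near a vertex of the second. -/
def H3 (D : Pl V) (o g : ℕ) (l ws : List V) : Prop := ∀ y ∈ l, ∀ w ∈ ws, ¬ Near D o g y w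

/-- The part of the data that may vary. -/
structure Env (D : Pl V) (o : ℕ) (R : V → V → Prop) (bad : ℕ → (V → C) → Prop)
    (L0 : V → Finset C) (z : V) (τ : List V) (p : V) (ws : List V) (q : V) (L : V → Finset C)
    (bad' : ℕ → (V → C) → Prop) : Prop where
  agL : ∀ v ∈ ws, L v = L0 v
  agB : ∀ k, ¬ D.E k z q → bad' k = bad k
  good : Good D o R bad' z q
  lok : LOK D R L z τ q (z :: τ ++ p :: ws ++ [q])

theorem GS.red [Nonempty C] {D : Pl V} {o : ℕ} {z : V} {τ pre : List V} {u p : V} {ws : List V}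
    {q : V} (h : GS D o z τ pre u p ws q) (hτ : τ ≠ []) (ih : IHb V C (mu D)) {R : V → V → Prop}
    (hR : ∀ a b, R a b → R b a) {g : ℕ} (hg : g ≠ o) (hE : D.E g u p)
    {bad : ℕ → (V → C) → Prop} (hgood : Good D o R bad z q) {L0 : V → Finset C}
    (hws : ∀ v ∈ ws, 6 ≤ (L0 v).card) :
    ∃ (D2 : Pl V) (R2 : V → V → Prop) (bad0 : ℕ → (V → C) → Prop) (z2 : V) (τ2 pre2 ws2 : List V)
      (q2 : V), GS D2 o z2 τ2 pre2 u p ws2 q2 ∧ H3 D2 o g (z2 :: τ2) ws2 ∧ mu D2 ≤ mu D ∧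
      (∀ a b, R2 a b → R2 b a) ∧ D2.E g = D.E g ∧ QE D2 R2 g = QE D R g ∧ bad0 g = bad g ∧
      Good D2 o R2 bad0 z2 q2 ∧ (∀ v ∈ ws2, v ∈ ws) ∧ (R2 u p → R u p) ∧
      (ws2 = [] → ws = [] ∨ ∃ w ws', ws = w :: ws' ∧ ∃ y ∈ z :: τ, Near D o g y w) ∧
      ∀ L bad', Env D o R bad L0 z τ p ws q L bad' → ∃ L2 bad2',
        Env D2 o R2 bad0 L0 z2 τ2 p ws2 q2 L2 bad2' ∧ bad2' g = bad g ∧ (∀ v, L2 v ⊆ L v) ∧
        (∀ v, v ≠ z2 → v ≠ q2 → L2 v = L v) ∧
        ∀ φ, Col D2 o R2 L2 bad2' φ → ∃ φ', Col D o R L bad' φ' ∧ φ' p = φ p ∧ φ' u = φ u := by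
  classical
  have hroot := h.not_root (Or.inl hτ) hg hE.on'
  by_cases h3 : H3 D o g (z :: τ) ws
  · exact ⟨D, R, bad, z, τ, pre, ws, q, h, h3, le_rfl, hR, rfl, rfl, rfl, hgood, fun _ h => h,
      fun h => h, Or.inl, fun L bad' env => ⟨L, bad', env, env.agB g hroot, fun _ => Subset.rfl,
        fun _ _ _ => rfl, fun φ hφ => ⟨φ, hφ, rfl, rfl⟩⟩⟩
  have h3' : ∃ y ∈ z :: τ, ∃ w ∈ ws, Near D o g y w := by
    by_contra hc; push Not at hc; exact h3 hc
  obtain ⟨s1, y, s2, es, hy, hs2⟩ := exists_last h3'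
  obtain ⟨w1, w, w2, ew, hw, hw1⟩ := exists_first hy
  obtain ⟨pre2, epre2, epre⟩ : ∃ pre2, y :: s2 = pre2 ++ [u] ∧ pre = s1 ++ pre2 := by
    rcases List.eq_nil_or_concat (y :: s2) with e | ⟨pre2, u', e⟩
    · simp at e
    · have e2 := h.hz
      rw [es, e, List.concat_eq_append, ← List.append_assoc] at e2
      obtain ⟨e3, e4⟩ := List.append_inj' e2 rfl
      simp only [List.cons.injEq, and_true] at e4
      exact ⟨pre2, by rw [e, ← e4]; simp, e3.symm⟩
  obtain ⟨τ1, eτ1, hτ1⟩ : ∃ τ1, s1 ++ [y] = z :: τ1 ∧ ∀ v ∈ τ1, v ∈ τ := by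
    cases s1 with
    | nil => simp at es; exact ⟨[], by simp [es.1], by simp⟩
    | cons x s1 =>
      simp at es
      exact ⟨s1 ++ [y], by simp [es.1], fun v hv => by rw [es.2]; simp at hv ⊢; tauto⟩
  have hf0 : IsFace D.G D.f o (y :: (s2 ++ p :: w1) ++ w :: (w2 ++ [q] ++ s1)) := by
    have := h.face
    rw [es, ew] at this
    have e : s1 ++ y :: s2 ++ p :: (w1 ++ w :: w2) ++ [q] =
      s1 ++ (y :: s2 ++ p :: (w1 ++ w :: w2) ++ [q]) := by simp
    exact (this.eq e).rot.eq (by simp)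
  obtain ⟨D1, D2, R', t, t1, t2, cd, ht⟩ := exists_cut D hR hf0 (by simp) (by simp) hw
  obtain ⟨q1, q2, q3, q4, q5, q6⟩ := h.p_ne
  have hyτ : y ∈ z :: τ := by rw [es]; simp
  have hww : w ∈ ws := by rw [ew]; simp
  have hpy : p ≠ y := by rintro rfl; exact q1 hyτ
  have hpw : p ≠ w := by rintro rfl; exact q2 hww
  have hf1 : IsFace D1.G D1.f o (z :: (τ1 ++ w :: w2) ++ [q]) := by
    have e : w :: (w2 ++ [q] ++ s1) ++ [y] = (w :: w2 ++ [q]) ++ (s1 ++ [y]) := by simp
    exact (cd.p1.face.eq e).rot.eq (by rw [eτ1]; simp)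
  have hf2 : IsFace D2.G D2.f o (y :: s2 ++ p :: w1 ++ [w]) := cd.p2.face.eq (by simp)
  have hz1 : z ∈ D1.G.support := ((Pl.on_iff hf1).2 (by simp)).supp
  have hq1 : q ∈ D1.G.support := ((Pl.on_iff hf1).2 (by simp)).supp
  have hp2 : p ∈ D2.G.support := ((Pl.on_iff hf2).2 (by simp)).supp
  have hgt : g ≠ t := by rcases ht with e | e; exact e ▸ hg; exact e.symm
  obtain ⟨hgt2, hEg⟩ := cd.keep2 hg hgt hE.on' hp2 hpy hpw
  have hndw : (p :: (w1 ++ w :: w2) ++ [q]).Nodup := by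
    have := ((List.nodup_append.1 h.nd).2.1).of_cons
    rwa [ew] at this
  have gs2 : GS D2 o y s2 pre2 u p w1 w := by
    refine ⟨hf2, epre2, cd.n1 h.n1, fun x hx hn => ?_, fun x hx x' hx' hne hn => ?_⟩
    · rcases cd.near2' hn with h' | h' | h'
      · exact h.hp x (by rw [epre]; simp [hx]) h'
      · exact hpw h'.2
      · exact hpy h'.2
    · have hsub : ∀ v ∈ p :: w1 ++ [w], v ∈ p :: ws ++ [q] := fun v hv => by
        rw [ew]; simp at hv ⊢; tauto
      have hy' : y ∉ p :: w1 ++ [w] := fun hc => by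
        simp only [List.cons_append, List.mem_cons, List.mem_append, List.not_mem_nil,
          or_false] at hc
        rcases hc with e | e | e
        · exact hpy e.symm
        · exact q6 y (by rw [ew]; simp [e]) hyτ
        · exact q6 y (e ▸ hww) hyτ
      have key : ∀ a b, b ∈ p :: w1 ++ [w] → Nx (p :: ws ++ [q]) a b →
          Nx (p :: w1 ++ [w]) a b := fun a b hb hab => by
        have e : p :: ws ++ [q] = (p :: w1) ++ w :: (w2 ++ [q]) := by rw [ew]; simp
        rw [e, nx_append] at hab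
        refine hab.resolve_right fun hc => ?_
        have e' : p :: (w1 ++ w :: w2) ++ [q] = (p :: w1 ++ [w]) ++ (w2 ++ [q]) := by simp
        rw [e'] at hndw
        exact (List.nodup_append.1 hndw).2.2 b hb b hc.mem_tail rfl
      rcases cd.near2' hn with h' | h' | h'
      · rcases h.h2 x (hsub x hx) x' (hsub x' hx') hne h' with h'' | h''
        · exact Or.inl (key _ _ hx' h'')
        · exact Or.inr (key _ _ hx h'')
      · exact absurd (h'.1 ▸ hx) hy'
      · exact absurd (h'.2 ▸ hx') hy'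
  have hused : ∀ k, k ≠ o → k ≠ t2 → (∃ v, D2.On k v) → ¬ D.E k z q := by
    rintro k hk hk2 ⟨v, hv⟩ hzq
    have e := (cd.p2.E_eq k hk hk2 v hv).2
    rcases cd.inter q hq1 (e ▸ hzq : D2.E k z q).on'.supp with e' | e'
    · exact q4 (e' ▸ hyτ)
    · exact q5 (e' ▸ hww)
  refine ⟨D2, R', bad1 bad t2, y, s2, pre2, w1, w, gs2, fun x hx x' hx' hn => ?_, cd.p2.lt.le,
    cd.Rsymm, hEg, cd.QE2 hEg, bad1_ne hgt2, cd.good2_free hgood hz1 hq1,
    fun v hv => by rw [ew]; simp [hv], cd.Rle _ _, fun e => Or.inr ⟨w, w2, by rw [ew, e]; rfl,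
      y, hyτ, hw⟩, fun L bad' env => ?_⟩
  · rcases cd.near2 ht hn with h' | h' | h'
    · rcases List.mem_cons.1 hx with rfl | hx
      · exact hw1 x' hx' h'
      · exact hs2 x hx ⟨x', by rw [ew]; simp [hx'], h'⟩
    · exact gs2.p_ne.2.2.2.2.1 (h'.2 ▸ hx')
    · exact gs2.p_ne.2.2.2.1 (h'.1 ▸ hx)
  obtain ⟨φ1, hφ1⟩ := ih D1 cd.p1.lt o R' L (bad1 bad' t1) z q (τ1 ++ w :: w2) cd.Rsymm hf1
    (cd.good1 env.good) ⟨env.lok.hz, env.lok.hq, fun hr => env.lok.hzq (cd.Rle _ _ hr),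
      fun v hv => by
        rcases List.mem_append.1 hv with hv | hv
        · exact env.lok.hτ v (hτ1 v hv)
        · have : v ∈ ws := by rw [ew]; simp at hv ⊢; tauto
          rw [env.agL v this]; exact hws v this,
      fun v hv hb => env.lok.inner v (cd.p1.supp hv) fun hc => by
        refine cd.swap.inner2 hv (fun h' => hb ((Pl.on_iff hf1).1 ((Pl.on_iff cd.p1.face).2 h'))) ?_
        exact (Pl.on_iff (hf0.rot (l1 := y :: (s2 ++ p :: w1)))).1 ((Pl.on_iff h.face).2 hc)⟩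
  have hy1 : y ∈ D1.G.support := ((Pl.on_iff cd.p1.face).2 (by simp)).supp
  have hw1' : w ∈ D1.G.support := ((Pl.on_iff cd.p1.face).2 (by simp)).supp
  have hyw : y ≠ w := by rintro rfl; exact q6 y hww hyτ
  let L2 : V → Finset C := Function.update (Function.update L y {φ1 y}) w {φ1 w}
  have l2y : L2 y = {φ1 y} := by simp [L2, hyw]
  have l2w : L2 w = {φ1 w} := by simp [L2]
  have l2o : ∀ v, v ≠ y → v ≠ w → L2 v = L v := fun v h1 h2 => by simp [L2, h1, h2]
  let b2 : ℕ → (V → C) → Prop := fun k =>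
    if ∃ v, D2.On k v then bad2 bad' D2 t t2 φ1 k else bad1 bad t2 k
  have hb2 : ∀ k, k ≠ o → (∃ v, D2.On k v) → b2 k = bad2 bad' D2 t t2 φ1 k :=
    fun k _ hv => if_pos hv
  have hb2' : ∀ k, k ≠ o → k ≠ t2 → b2 k = bad1 bad t2 k := fun k hk hk2 => by
    by_cases hv : ∃ v, D2.On k v
    · rw [hb2 k hk hv, bad2_ne hk2, bad1_ne hk2]; exact env.agB k (hused k hk hk2 hv)
    · exact if_neg hv
  refine ⟨L2, b2, ⟨fun v hv => ?_, fun k hk => ?_, (cd.good2 env.good hz1 hq1 φ1).congr hb2,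
    ⟨by rw [l2y]; simp, by rw [l2w]; simp, fun hr => ?_, fun v hv => ?_, fun v hv hb => ?_⟩⟩,
    by rw [hb2' g hg hgt2, bad1_ne hgt2], fun v => ?_, l2o, fun φ hφ => ?_⟩
  · rw [l2o v (fun e => gs2.p_ne.2.2.2.2.2 v hv (by simp [e]))
      (fun e => gs2.p_ne.2.2.2.2.1 (e ▸ hv))]
    exact env.agL v (by rw [ew]; simp [hv])
  · have hko : k ≠ o := by rintro rfl; exact hk gs2.Ezq
    refine hb2' k hko ?_
    rintro rfl
    rcases cd.kind with ⟨-, -, -, e, -⟩ | ⟨-, -, -, -, -, e, -⟩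
    · exact hko e
    · exact hk e
  · rw [l2y, l2w, disjoint_singleton]
    exact hφ1.2.1 y w ((Pl.E_iff cd.p1.face).2 (cyc_ends _ w y)).1.symm hr
  · have hv' : v ∈ τ := by
      have : v ∈ z :: τ := by rw [es]; simp [hv]
      refine (List.mem_cons.1 this).resolve_left ?_
      rintro rfl
      have hnd : (v :: τ).Nodup := by
        have := h.face.1
        exact ((List.nodup_append.1 (List.nodup_append.1 this).1).1)
      rw [es] at hnd
      cases s1 with
      | nil => simp at es hnd; exact hnd.1 (es.1 ▸ hv)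
      | cons x s1 => simp at es hnd; exact hnd.1.2.2 (es.1 ▸ hv)
    rw [l2o v (fun e => by have := hf2.1; simp [← e, hv] at this)
      (fun e => gs2.p_ne.2.2.2.1 (by simp [← e, hv]))]
    exact env.lok.hτ v hv'
  · rw [l2o v (by rintro rfl; simp at hb) (by rintro rfl; simp at hb)]
    refine env.lok.inner v (cd.p2.supp hv) fun hc => cd.inner2 hv (by simpa using hb) ?_
    exact (Pl.on_iff hf0).1 ((Pl.on_iff h.face).2 hc)
  · by_cases e1 : v = y
    · rw [e1, l2y]; simpa using hφ1.1 y hy1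
    · by_cases e2 : v = w
      · rw [e2, l2w]; simpa using hφ1.1 w hw1'
      · rw [l2o v e1 e2]
  · have f1 : φ y = φ1 y := by
      have := hφ.1 y ((Pl.on_iff hf2).2 (by simp)).supp; rwa [l2y, mem_singleton] at this
    have f2 : φ w = φ1 w := by
      have := hφ.1 w ((Pl.on_iff hf2).2 (by simp)).supp; rwa [l2w, mem_singleton] at this
    obtain ⟨φ', c1, -, c3⟩ := cd.glue (L := L) env.good hφ1
      (hφ.congr fun k hk hv => (hb2 k hk hv).symm) f1 f2 (fun _ _ => Subset.rfl)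
      (fun v _ h1 h2 => by rw [l2o v h1 h2])
    exact ⟨φ', c1, c3 p hp2, c3 u gs2.Eup.on.supp⟩

end Pool.Agent.Lib.MP_0fc16c_co
end

-- part Pool.Agent.Lib.MP_0fc16c_co.Cont
section

/-! The continuation lemma and its first consequence. -/

set_option autoImplicit false
set_option linter.unusedSectionVars false

open Finset

namespace Pool.Agent.Lib.MP_0fc16c_co

variable {V : Type*} [Fintype V] [DecidableEq V] {C : Type*} [DecidableEq C]

/-- The statement of the path lemma for one disc. -/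
def PSs (C : Type*) [DecidableEq C] (D : Pl V) : Prop :=
  ∀ (o : ℕ) (z : V) (τ pre : List V) (u p : V) (ws : List V) (q : V) (R : V → V → Prop)
    (bad : ℕ → (V → C) → Prop) (L0 : V → Finset C) (g : ℕ), (∀ a b, R a b → R b a) →
    GS D o z τ pre u p ws q → ws ≠ [] → g ≠ o → D.E g u p → H3 D o g (z :: τ) ws →
    Good D o R bad z q → (∀ v ∈ ws, 6 ≤ (L0 v).card) →
    ∃ c₀, ∀ c ≠ c₀, ∀ L bad', Env D o R bad L0 z τ p ws q L bad' → L p = {c} →
      (R u p → c ∉ L u) → Hd D R L (bad g) (z :: τ ++ p :: ws ++ [q]) g p 0 3 →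
      ∃ φ, Col D o R L bad' φ

/-- The induction hypothesis for the path lemma. -/
def PSb (V : Type*) [Fintype V] [DecidableEq V] (C : Type*) [DecidableEq C] (n : ℕ) : Prop :=
  ∀ D : Pl V, mu D < n → PSs C D

theorem PSb.mono {n m : ℕ} (h : PSb V C n) (hm : m ≤ n) : PSb V C m :=
  fun D hD => h D (lt_of_lt_of_le hD hm)

/-- A colouring with prescribed colour at `p` and a colour from `S` at `u`. -/
def Fi (D : Pl V) (o : ℕ) (R : V → V → Prop) (L : V → Finset C) (bad : ℕ → (V → C) → Prop)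
    (p u : V) (s : C) (S : Finset C) : Prop :=
  ∃ φ, Col D o R L bad φ ∧ φ p = s ∧ φ u ∈ S

section
variable {D : Pl V} {o : ℕ} {z : V} {τ pre : List V} {u p : V} {ws : List V} {q : V}
  {R : V → V → Prop} {bad bad' : ℕ → (V → C) → Prop} {L0 L : V → Finset C}

theorem Env.upd_p (h : GS D o z τ pre u p ws q) (env : Env D o R bad L0 z τ p ws q L bad')
    (S : Finset C) : Env D o R bad L0 z τ p ws q (Function.update L p S) bad' := by
  obtain ⟨q1, q2, q3, -⟩ := h.p_ne
  refine ⟨fun v hv => ?_, env.agB, env.good, env.lok.upd (by simp) (fun e => q1 (by simp [e])) q3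
    fun hc => absurd (List.mem_cons_of_mem _ hc) q1⟩
  rw [Function.update_of_ne (by rintro rfl; exact q2 hv)]; exact env.agL v hv

theorem Env.upd_u (h : GS D o z τ pre u p ws q) (hτ : τ ≠ [])
    (env : Env D o R bad L0 z τ p ws q L bad') {S : Finset C} (hS : 6 ≤ S.card) :
    Env D o R bad L0 z τ p ws q (Function.update L u S) bad' := by
  obtain ⟨n1, n2, -⟩ := h.u_ne hτ
  refine ⟨fun v hv => ?_, env.agB, env.good, env.lok.upd h.u_bd n1 n2 fun _ => hS⟩
  rw [Function.update_of_ne (by rintro rfl; exact h.p_ne.2.2.2.2.2 _ hv h.u_mem)]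
  exact env.agL v hv

theorem Env.upd_q (h : GS D o z τ pre u p ws q) (env : Env D o R bad L0 z τ p ws q L bad')
    {d : C} (hd : d ∈ L q) : Env D o R bad L0 z τ p ws q (Function.update L q {d}) bad' := by
  obtain ⟨-, -, -, q4, q5, -⟩ := h.p_ne
  have hz : z ≠ q := by rintro rfl; exact q4 (by simp)
  refine ⟨fun v hv => ?_, env.agB, env.good, ?_, by simp, fun hr => ?_, fun v hv => ?_,
    fun v hv hb => ?_⟩
  · rw [Function.update_of_ne (by rintro rfl; exact q5 hv)]; exact env.agL v hv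
  · rw [Function.update_of_ne hz]; exact env.lok.hz
  · rw [Function.update_of_ne hz, Function.update_self, disjoint_singleton_right]
    exact fun hc => Finset.disjoint_left.1 (env.lok.hzq hr) hc hd
  · rw [Function.update_of_ne (by rintro rfl; exact q4 (by simp [hv]))]; exact env.lok.hτ v hv
  · rw [Function.update_of_ne (by rintro rfl; simp at hb)]; exact env.lok.inner v hv hb

theorem GS.p_supp (h : GS D o z τ pre u p ws q) : p ∈ D.G.support := h.Eup.on'.supp

theorem GS.u_supp (h : GS D o z τ pre u p ws q) : u ∈ D.G.support := h.Eup.on.supp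

/-- First outcome: four colours of `p` are excluded. -/
def Out1 (D : Pl V) (o : ℕ) (R : V → V → Prop) (bad : ℕ → (V → C) → Prop) (L0 : V → Finset C)
    (z : V) (τ : List V) (u p : V) (ws : List V) (q : V) : Prop :=
  ∃ B : Finset C, B.card ≤ 4 ∧ ∀ L bad', Env D o R bad L0 z τ p ws q L bad' →
    ∀ s ∈ L p, s ∉ B → ∀ S ⊆ L u, 6 ≤ S.card → (R u p → s ∉ S) → Fi D o R L bad' p u s S

/-- Second outcome: a fan. -/
def Out2 (D : Pl V) (o : ℕ) (R : V → V → Prop) (bad : ℕ → (V → C) → Prop) (L0 : V → Finset C)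
    (z : V) (τ : List V) (u p : V) (ws : List V) (q : V) : Prop :=
  ∃ (Tr : Finset C) (d₀ : C), Tr.card ≤ 3 ∧ ∀ L bad', Env D o R bad L0 z τ p ws q L bad' → ∃ d,
    (∀ s ∈ L p, s ∉ Tr → s ≠ d → ∀ S ⊆ L u, 6 ≤ S.card → (R u p → s ∉ S) →
      Fi D o R L bad' p u s S) ∧
    (d ≠ d₀ → ∀ Γ ⊆ L p, 3 ≤ Γ.card → d ∉ Γ → ∃ s ∈ Γ, ∀ S ⊆ L u, 8 ≤ S.card → s ∉ S →
      Fi D o R L bad' p u s S)

/-- Third outcome: a triangle. -/
def Out3 (D : Pl V) (o : ℕ) (R : V → V → Prop) (bad : ℕ → (V → C) → Prop) (L0 : V → Finset C)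
    (z : V) (τ : List V) (u p : V) (ws : List V) (q : V) : Prop :=
  ∃ (Tr E : Finset C) (γ₀ d₀ : C) (fl : Prop), Tr.card ≤ 3 ∧ E.card ≤ 3 ∧
    ∀ L bad', Env D o R bad L0 z τ p ws q L bad' → ∀ S ⊆ L u, 6 ≤ S.card →
      ∃ γ ∈ S, ∃ (d : C) (Al : C → Prop),
        (∀ s ∈ L p, Al s → s ≠ d → (R u p → s ≠ γ) → Fi D o R L bad' p u s {γ}) ∧
        (fl → γ ≠ γ₀ → ∃ Z : Finset C, Z.card ≤ 2 ∧ ∀ s ∉ Z, Al s) ∧
        (¬ fl → d ≠ d₀ → ∀ s, Al s) ∧ (∀ s ∉ Tr, Al s) ∧ (γ ∉ E → ∀ s, Al s)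

theorem cont [hC : Nonempty C] (h : GS D o z τ pre u p ws q) (hτ : τ ≠ [])
    (ih : IHb V C (mu D)) (hP : PSb V C (mu D + 1)) (hR : ∀ a b, R a b → R b a)
    (hgood : Good D o R bad z q) (hws : ∀ v ∈ ws, 6 ≤ (L0 v).card) :
    Out1 D o R bad L0 z τ u p ws q ∨ Out2 D o R bad L0 z τ u p ws q ∨
      Out3 D o R bad L0 z τ u p ws q := by
  obtain ⟨g, hg, hE⟩ := h.exists_g
  obtain ⟨D2, R2, bad0, z2, τ2, pre2, ws2, q2, gs, h3, hmu, hR2, eE, eQ, eb, hgood2, hsub, hRup,
    -, red⟩ := h.red hτ ih hR hg hE hgood hws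
  have st : Strong (D2.E g) (QE D2 R2 g) (bad0 g) := by
    rw [eE, eQ, eb]; exact h.strong (Or.inl hτ) hgood hg hE.on'
  have hE2 : D2.E g u p := eE ▸ hE
  have ih2 : IHb V C (mu D2) := ih.mono hmu
  obtain ⟨a, as, hf, has, -⟩ := gs.step hg hE2
  obtain ⟨e1, e2, e3⟩ := face_E hf
  obtain ⟨Tr, hTr, hkf⟩ := st.kf p u a e1 e2 e3
  obtain ⟨n1, n2, n3⟩ := h.u_ne hτ
  have pz : p ≠ z2 := fun e => gs.p_ne.1 (by simp [e])
  have pq : p ≠ q2 := gs.p_ne.2.2.1
  have hfree : ∀ s ∉ Tr, ∀ L : V → Finset C, L p = {s} →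
      Hd D2 R2 L (bad0 g) (z2 :: τ2 ++ p :: ws2 ++ [q2]) g p 0 3 := fun s hs L hL => by
    obtain ⟨E, hE0, hh⟩ := gs.pay_hd hf has (Or.inl rfl) (hkf s hs)
    exact hh L hL (by rw [Finset.card_eq_zero.1 (Nat.le_zero.1 hE0)]; simp)
  by_cases hw2 : ws2 = []
  swap
  · left
    obtain ⟨c₀, hc⟩ := hP D2 (by omega) o z2 τ2 pre2 u p ws2 q2 R2 bad0 L0 g hR2 gs hw2 hg hE2 h3
      hgood2 fun v hv => hws v (hsub v hv)
    refine ⟨insert c₀ Tr, (card_insert_le _ _).trans (by omega),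
      fun L bad' env s hs hsB S hS h6 hsS => ?_⟩
    obtain ⟨L2, bad2', env2, -, l1, l2, lift⟩ := red _ bad' (env.upd_u h hτ h6)
    simp only [mem_insert, not_or] at hsB
    have hu2 : L2 u ⊆ S := by simpa using l1 u
    obtain ⟨φ, hφ⟩ := hc s hsB.1 (Function.update L2 p {s}) bad2' (env2.upd_p gs _) (by simp)
      (fun hr hc => by
        rw [Function.update_of_ne n3] at hc; exact hsS (hRup hr) (hu2 hc))
      (hfree s hsB.2 _ (by simp))
    have hp := hφ.1 p gs.p_supp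
    obtain ⟨φ', c1, c2, -⟩ := lift φ (hφ.mono fun v _ => upd_sub (by
      rw [l2 p pz pq, Function.update_of_ne n3.symm]; simpa using hs) v)
    refine ⟨φ', c1.mono fun v _ => upd_sub hS v, by rw [c2]; simpa using hp, ?_⟩
    simpa using c1.1 u h.u_supp
  subst hw2
  right
  by_cases hτ2 : τ2 = []
  swap
  · left
    obtain ⟨m1, m2, -⟩ := gs.u_ne hτ2
    have common : ∀ L bad', Env D o R bad L0 z τ p ws q L bad' → ∃ L2 bad2' d,
        Env D2 o R2 bad0 L0 z2 τ2 p [] q2 L2 bad2' ∧ bad2' g = bad0 g ∧ L2 q2 = {d} ∧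
        ∀ s ∈ L p, ∀ S ⊆ L u, ∀ φ,
          Col D2 o R2 (Function.update (Function.update L2 p {s}) u S) bad2' φ →
          Fi D o R L bad' p u s S := fun L bad' env => by
      obtain ⟨L2, bad2', env2, eb2, l1, l2, lift⟩ := red L bad' env
      obtain ⟨d, hd⟩ := env2.lok.hq
      refine ⟨_, bad2', d, env2.upd_q gs hd, eb2.trans eb.symm, by simp,
        fun s hs S hS φ hφ => ?_⟩
      have hp := hφ.1 p gs.p_supp
      have hu := hφ.1 u gs.u_supp
      rw [Function.update_of_ne n3.symm] at hp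
      obtain ⟨φ', c1, c2, c3⟩ := lift φ (hφ.mono fun v _ => (upd_sub (by
        rw [Function.update_of_ne n3, Function.update_of_ne m2, l2 u m1 m2]; exact hS) v).trans
        ((upd_sub (by rw [Function.update_of_ne pq, l2 p pz pq]; simpa using hs) v).trans
        (upd_sub (by simpa using hd) v)))
      exact ⟨φ', c1, by rw [c2]; simpa using hp, by rw [c3]; simpa using hu⟩
    have hfan : ∀ L2 bad2' d, Env D2 o R2 bad0 L0 z2 τ2 p [] q2 L2 bad2' → bad2' g = bad0 g →
        L2 q2 = {d} → ∀ s ∉ Tr, s ≠ d → ∀ S : Finset C, 6 ≤ S.card → (R u p → s ∉ S) →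
        ∃ φ, Col D2 o R2 (Function.update (Function.update L2 p {s}) u S) bad2' φ :=
      fun L2 bad2' d env2 eb2 hd s hs hsd S h6 hsS => by
      have hp : Function.update (Function.update L2 p {s}) u S p = {s} := by
        rw [Function.update_of_ne n3.symm]; simp
      refine fan3 _ D2 rfl ih2 hR2 gs env2.good ((env2.upd_p gs _).upd_u gs hτ2 h6).lok hp
        (fun hr => by simpa using hsS (hRup hr)) (fun _ => by
          rw [Function.update_of_ne m2.symm, Function.update_of_ne pq.symm, hd]; simpa using hsd)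
        hg hE2 ?_
      rw [eb2]; exact (hfree s hs _ hp).mono (fun _ _ => Subset.rfl) (by omega)
    by_cases hq : QFix D2 o R2 bad0 p q2
    · obtain ⟨g', hg', hE', d₀, hfix⟩ := hq
      refine ⟨Tr, d₀, hTr, fun L bad' env => ?_⟩
      obtain ⟨L2, bad2', d, env2, eb2, hd, lift⟩ := common L bad' env
      refine ⟨d, fun s hs h1 h2 S hS h6 hsS => ?_, fun hdd Γ hΓ hc hdΓ => ?_⟩
      · obtain ⟨φ, hφ⟩ := hfan L2 bad2' d env2 eb2 hd s h1 h2 S h6 hsS
        exact lift s hs S hS φ hφ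
      · obtain ⟨s, hs⟩ : Γ.Nonempty := Finset.card_pos.1 (by omega)
        refine ⟨s, hs, fun S hS h8 hsS => ?_⟩
        have hp : Function.update (Function.update L2 p {s}) u S p = {s} := by
          rw [Function.update_of_ne n3.symm]; simp
        have hq : Function.update (Function.update L2 p {s}) u S q2 = {d} := by
          rw [Function.update_of_ne m2.symm, Function.update_of_ne pq.symm, hd]
        obtain ⟨φ, hφ⟩ := fan0 _ D2 rfl ih2 hR2 gs env2.good
          ((env2.upd_p gs {s}).upd_u gs hτ2 (S := S) (by omega)).lok hp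
          (fun _ => by simpa using hsS) (fun _ => by
            rw [hq, mem_singleton]; rintro rfl; exact hdΓ hs) fun k hk hEk φ hpr hy hb => by
            obtain rfl : k = g' :=
              (Pl.E_sides (gs.Epn (rest := []) rfl) hE' hEk hg'.symm).resolve_left hk
            rw [env2.agB k (gs.not_root (Or.inl hτ2) hk hEk.on)] at hb
            rw [hq, mem_singleton] at hy
            exact hdd (hy.symm.trans (hfix φ hpr hb))
        exact lift s (hΓ hs) S hS φ hφ
    · refine ⟨Tr, hC.some, hTr, fun L bad' env => ?_⟩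
      obtain ⟨L2, bad2', d, env2, eb2, hd, lift⟩ := common L bad' env
      refine ⟨d, fun s hs h1 h2 S hS h6 hsS => ?_, fun _ Γ hΓ hc hdΓ => ?_⟩
      · obtain ⟨φ, hφ⟩ := hfan L2 bad2' d env2 eb2 hd s h1 h2 S h6 hsS
        exact lift s hs S hS φ hφ
      · obtain ⟨s, hs, hrec⟩ := chain _ D2 rfl ih2 hR2 gs hτ2 hgood2 hq Γ hc
        refine ⟨s, hs, fun S hS h8 hsS => ?_⟩
        obtain ⟨φ, hφ⟩ := hrec _ bad2' d env2.agB env2.good
          ((env2.upd_p gs {s}).upd_u gs hτ2 (S := S) (by omega)).lok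
          (by rw [Function.update_of_ne n3.symm]; simp)
          (by rw [Function.update_of_ne m2.symm, Function.update_of_ne pq.symm, hd])
          (by simpa using hsS) (fun _ => by rintro rfl; exact hdΓ hs) (by simpa using h8)
        exact lift s (hΓ hs) S hS φ hφ
  subst hτ2
  right
  obtain ⟨rfl, rfl⟩ := gs.u_z
  have hf3 : IsFace D2.G D2.f o [u, p, q2] := gs.face
  have hs : ∀ g', g' ≠ o → D2.E g' u p → Strong (D2.E g') (QE D2 R2 g') (bad0 g') :=
    fun g' hg' hE' => by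
      obtain rfl : g' = g := (Pl.E_sides gs.Eup hE2 hE' hg.symm).resolve_left hg'
      exact st
  obtain ⟨Tr', hTr', hapex⟩ := p1_apex ih2 hR2 hf3 gs.n1 hs
  obtain ⟨E, hE3, hroot⟩ := p1_root ih2 hR2 hf3 gs.n1 hs
  have common : ∀ L bad', Env D o R bad L0 z τ p ws q L bad' → ∀ S ⊆ L u, 6 ≤ S.card →
      ∃ γ ∈ S, ∃ d L2 bad2', TriEnv D2 o R2 bad0 u p q2 L2 bad2' ∧
        ∀ s ∈ L p, Alive D2 o R2 L2 bad2' u p q2 γ s d → s ≠ d → (R u p → s ≠ γ) →
          Fi D o R L bad' p u s {γ} := fun L bad' env S hS h6 => by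
    obtain ⟨L2, bad2', env2, eb2, l1, l2, lift⟩ := red _ bad' (env.upd_u h hτ h6)
    obtain ⟨γ, hγ⟩ := env2.lok.hz
    obtain ⟨d, hd⟩ := env2.lok.hq
    refine ⟨γ, by simpa using l1 u hγ, d, L2, bad2', ⟨fun k hk hk' => ?_, env2.good,
      env2.lok.inner⟩, fun s hs al hsd hsγ => ?_⟩
    · rcases hk' with hk' | hk'
      · exact env2.agB k hk'
      · obtain rfl : k = g := (Pl.E_sides gs.Eup hE2 hk' hg.symm).resolve_left hk
        exact eb2.trans eb.symm
    · obtain ⟨φ, hφ⟩ := al (fun hr => by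
          rintro rfl; exact Finset.disjoint_left.1 (env2.lok.hzq hr) hγ hd)
        (fun hr => (hsγ (hRup hr)).symm) fun _ => hsd
      obtain ⟨f1, f2, -⟩ := hφ.tri_vals hf3
      obtain ⟨φ', c1, c2, c3⟩ := lift φ (hφ.mono fun v _ => by
        unfold tri; split_ifs with a1 a2 a3
        · subst a1; simpa using hγ
        · subst a2; rw [l2 v pz pq, Function.update_of_ne n3.symm]; simpa using hs
        · subst a3; simpa using hd
        · exact Subset.rfl)
      exact ⟨φ', c1.mono fun v _ => upd_sub hS v, c2.trans f2, by rw [c3, f1]; simp⟩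
  rcases vlem ih2 hR2 hf3 gs.n1 hgood2 hs with ⟨γ₀, hv⟩ | ⟨d₀, hv⟩
  · refine ⟨Tr', E, γ₀, hC.some, True, hTr', hE3, fun L bad' env S hS h6 => ?_⟩
    obtain ⟨γ, hγ, d, L2, bad2', te, fin⟩ := common L bad' env S hS h6
    exact ⟨γ, hγ, d, _, fin, fun _ hne => hv γ hne d L2 bad2' te, fun hc => (hc trivial).elim,
      fun s hs => hapex s hs γ d L2 bad2' te, fun hγ s => hroot γ hγ s d L2 bad2' te⟩
  · refine ⟨Tr', E, hC.some, d₀, False, hTr', hE3, fun L bad' env S hS h6 => ?_⟩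
    obtain ⟨γ, hγ, d, L2, bad2', te, fin⟩ := common L bad' env S hS h6
    exact ⟨γ, hγ, d, _, fin, fun hc => hc.elim, fun _ hne s => hv d hne γ s L2 bad2' te,
      fun s hs => hapex s hs γ d L2 bad2' te, fun hγ s => hroot γ hγ s d L2 bad2' te⟩

theorem exists_avoid {A B : Finset C} {n : ℕ} (hB : B.card ≤ n) (hA : n < A.card) :
    ∃ s ∈ A, s ∉ B := Finset.exists_mem_notMem_of_card_lt_card (by omega)

theorem card_ins_le {B : Finset C} {n : ℕ} (hB : B.card ≤ n) (c : C) :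
    (insert c B).card ≤ n + 1 := (card_insert_le _ _).trans (by omega)

/-- Five colours suffice at `p` if the previous vertex has a spare colour. -/
theorem qlem [hC : Nonempty C] (h : GS D o z τ pre u p ws q) (hτ : τ ≠ [])
    (ih : IHb V C (mu D)) (hP : PSb V C (mu D + 1)) (hR : ∀ a b, R a b → R b a)
    (hgood : Good D o R bad z q) (hws : ∀ v ∈ ws, 6 ≤ (L v).card)
    (hL : LOK D R L z τ q (z :: τ ++ p :: ws ++ [q])) (h5 : 5 ≤ (L p).card)
    (h7 : 7 ≤ (L u).card ∨ ¬ R u p) : ∃ φ, Col D o R L bad φ := by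
  have env : Env D o R bad L z τ p ws q L bad := ⟨fun _ _ => rfl, fun _ _ => rfl, hgood, hL⟩
  have h6 := hL.hτ u (h.u_τ hτ)
  have hS : ∀ s, ∃ S ⊆ L u, 6 ≤ S.card ∧ (R u p → s ∉ S) := fun s => by
    rcases h7 with h7 | h7
    · exact ⟨(L u).erase s, erase_subset _ _, by
        have := Finset.pred_card_le_card_erase (s := L u) (a := s); omega, fun _ => by simp⟩
    · exact ⟨L u, Subset.rfl, h6, fun hr => absurd hr h7⟩
  rcases cont h hτ ih hP hR hgood hws with ⟨B, hB, h1⟩ | ⟨Tr, d₀, hTr, h2⟩ |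
    ⟨Tr, E, γ₀, d₀, fl, hTr, -, h3⟩
  · obtain ⟨s, hs, hsB⟩ := exists_avoid hB h5
    obtain ⟨S, a1, a2, a3⟩ := hS s
    obtain ⟨φ, hφ, -⟩ := h1 L bad env s hs hsB S a1 a2 a3
    exact ⟨φ, hφ⟩
  · obtain ⟨d, h2, -⟩ := h2 L bad env
    obtain ⟨s, hs, hsB⟩ := exists_avoid (card_ins_le hTr d) h5
    simp only [mem_insert, not_or] at hsB
    obtain ⟨S, a1, a2, a3⟩ := hS s
    obtain ⟨φ, hφ, -⟩ := h2 s hs hsB.2 hsB.1 S a1 a2 a3
    exact ⟨φ, hφ⟩
  · by_cases hr : R u p
    swap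
    · obtain ⟨γ, -, d, Al, fin, -, -, a3, -⟩ := h3 L bad env (L u) Subset.rfl h6
      obtain ⟨s, hs, hsB⟩ := exists_avoid (card_ins_le hTr d) h5
      simp only [mem_insert, not_or] at hsB
      obtain ⟨φ, hφ, -⟩ := fin s hs (a3 s hsB.2) hsB.1 fun h' => absurd h' hr
      exact ⟨φ, hφ⟩
    by_cases hfl : fl
    · obtain ⟨S, a1, a2, a3⟩ := hS γ₀
      obtain ⟨γ, hγ, d, Al, fin, b1, -⟩ := h3 L bad env S a1 a2
      obtain ⟨Z, hZ, hZ'⟩ := b1 hfl (by rintro rfl; exact a3 hr hγ)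
      obtain ⟨s, hs, hsB⟩ := exists_avoid (card_ins_le (card_ins_le hZ d) γ) h5
      simp only [mem_insert, not_or] at hsB
      obtain ⟨φ, hφ, -⟩ := fin s hs (hZ' s hsB.2.2) hsB.2.1 fun _ => hsB.1
      exact ⟨φ, hφ⟩
    · obtain ⟨s₀, hs₀, hsB⟩ := exists_avoid (card_ins_le hTr d₀) h5
      simp only [mem_insert, not_or] at hsB
      obtain ⟨S, a1, a2, a3⟩ := hS s₀
      obtain ⟨γ, hγ, d, Al, fin, -, b2, b3, -⟩ := h3 L bad env S a1 a2
      by_cases hd : d = d₀
      · obtain ⟨φ, hφ, -⟩ := fin s₀ hs₀ (b3 s₀ hsB.2) (hd ▸ hsB.1) fun _ => by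
          rintro rfl; exact a3 hr hγ
        exact ⟨φ, hφ⟩
      · obtain ⟨s, hs, hsB⟩ := exists_avoid (A := L p) (B := {γ, d}) card_le_two (by omega)
        simp only [mem_insert, mem_singleton, not_or] at hsB
        obtain ⟨φ, hφ, -⟩ := fin s hs (b2 hfl hd s) hsB.2 fun _ => hsB.1
        exact ⟨φ, hφ⟩

end

end Pool.Agent.Lib.MP_0fc16c_co
end

-- part Pool.Agent.Lib.MP_0fc16c_co.Corner
section

/-! The corner lemma: a triangle hanging on a boundary chord. -/

set_option autoImplicit false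
set_option linter.unusedSectionVars false

open Finset

namespace Pool.Agent.Lib.MP_0fc16c_co

variable {V : Type*} [Fintype V] [DecidableEq V] {C : Type*} [DecidableEq C]

theorem tri_swap23 {L : V → Finset C} {x m y : V} (h : y ≠ m) (c γ d : C) :
    tri L x c m γ y d = tri L x c y d m γ := by
  funext v; unfold tri
  split_ifs with h1 h2 h3 <;> first | rfl | (subst h2; exact absurd h3.symm h)

theorem corner [hC : Nonempty C] {D1 D2 : Pl V} {o : ℕ} {z : V} {τ pre : List V} {y w p : V}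
    {ws : List V} {q : V} {R : V → V → Prop} {b1 b2 : ℕ → (V → C) → Prop} {L0 : V → Finset C}
    (h : GS D1 o z τ pre y w ws q) (hτ : τ ≠ []) (ih : IHb V C (mu D1))
    (hP : PSb V C (mu D1 + 1)) (hR : ∀ a b, R a b → R b a) (hgood : Good D1 o R b1 z q)
    (hws : ∀ v ∈ ws, 6 ≤ (L0 v).card) (hw : 6 ≤ (L0 w).card) (ih2 : IHb V C (mu D2))
    (hf : IsFace D2.G D2.f o [p, y, w]) (hn : N1 D2 o)
    (hall : ∀ k, k ≠ o → (∃ v, D2.On k v) → Loc (D2.E k) (b2 k) ∧ Weak (D2.E k) (b2 k) ∧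
      Strong (D2.E k) (QE D2 R k) (b2 k)) :
    ∃ c₀, ∀ c ≠ c₀, ∀ L b1', Env D1 o R b1 L0 z τ w ws q L b1' → L w = L0 w →
      9 ≤ (L y).card → c ∉ L y → (∀ v ∈ D2.G.support, v ∉ [p, y, w] → 10 ≤ (L v).card) →
      ∃ φ1 φ2, Col D1 o R L b1' φ1 ∧ Col D2 o R (tri L p c y (φ1 y) w (φ1 w)) b2 φ2 := by
  have hf' : IsFace D2.G D2.f o [p, w, y] :=
    (IsFace.rot (l1 := [w, y]) (l2 := [p]) hf.reverse).eq rfl
  have good : ∀ a b, Good D2 o R b2 a b := fun a b k hk hv =>
    ⟨(hall k hk hv).1, (hall k hk hv).2.1, fun _ => (hall k hk hv).2.2⟩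
  have hs : ∀ a b g, g ≠ o → D2.E g a b → Strong (D2.E g) (QE D2 R g) (b2 g) :=
    fun a b g hg hE => (hall g hg ⟨a, hE.on⟩).2.2
  let In : (V → Finset C) → Prop := fun L => ∀ v ∈ D2.G.support, v ∉ [p, y, w] → 10 ≤ (L v).card
  have te1 : ∀ L, In L → TriEnv D2 o R b2 p y w L b2 := fun L hL => ⟨fun _ _ _ => rfl, good _ _, hL⟩
  have te2 : ∀ L, In L → TriEnv D2 o R b2 p w y L b2 := fun L hL =>
    ⟨fun _ _ _ => rfl, good _ _, fun v hv hb => hL v hv (by simp at hb ⊢; tauto)⟩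
  have sw : ∀ L c γ s, Alive D2 o R L b2 p w y c s γ → Alive D2 o R L b2 p y w c γ s :=
    fun L c γ s al h1 h2 h3 => by
      rw [tri_swap23 (tri_ne hf).2.2]
      exact al h2 h1 fun hr => (h3 (hR _ _ hr)).symm
  have fin : ∀ c L b1' s S, Fi D1 o R L b1' w y s S → c ∉ L y → s ≠ c →
      (∀ γ ∈ S, Alive D2 o R L b2 p y w c γ s) →
      ∃ φ1 φ2, Col D1 o R L b1' φ1 ∧ Col D2 o R (tri L p c y (φ1 y) w (φ1 w)) b2 φ2 := by
    rintro c L b1' s S ⟨φ1, c1, rfl, c3⟩ hc hsc al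
    obtain ⟨φ2, c2⟩ := al _ c3 (fun _ => hsc.symm) (fun _ => by
      rintro rfl; exact hc (c1.1 y h.u_supp)) (c1.2.1 y w h.Eup.1)
    exact ⟨φ1, φ2, c1, c2⟩
  have pay : ∀ (A Z : Finset C) (n : ℕ), Z.card ≤ 3 → n + 3 ≤ A.card → n ≤ (A \ Z).card :=
    fun A Z n h1 h2 => by have := card_sdiff_ge A Z; omega
  rcases cont h hτ ih hP hR hgood hws with ⟨B, hB, h1⟩ | ⟨Tr, d₀, hTr, h2⟩ |
    ⟨Tr, E, _, _, _, hTr, hE, h3⟩
  · rcases vlem ih2 hR hf hn (good _ _) (hs _ _) with ⟨c₀, hv⟩ | ⟨b, hv⟩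
    · refine ⟨c₀, fun c hc L b1' env hLw h9 hcy hin => ?_⟩
      obtain ⟨s, hs1, hs2⟩ := exists_avoid (A := L w) (card_ins_le hB c) (by rw [hLw]; omega)
      simp only [mem_insert, not_or] at hs2
      obtain ⟨Z, hZ, hZ'⟩ := hv c hc s L b2 (te1 L hin)
      refine fin c L b1' s (L y \ insert s Z) (h1 L b1' env s hs1 hs2.2 _ sdiff_subset
        (pay _ _ _ (card_ins_le hZ s) h9) fun _ => by simp) hcy hs2.1 fun γ hγ => hZ' γ ?_
      simp only [mem_sdiff, mem_insert, not_or] at hγ; exact hγ.2.2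
    · obtain ⟨s, hs1, hs2⟩ := exists_avoid (A := L0 w) (card_ins_le hB b) (by omega)
      simp only [mem_insert, not_or] at hs2
      refine ⟨s, fun c hc L b1' env hLw h9 hcy hin => ?_⟩
      exact fin c L b1' s (L y \ {s}) (h1 L b1' env s (hLw ▸ hs1) hs2.2 _ sdiff_subset
        (pay _ _ _ (by simp) h9) fun _ => by simp) hcy hc.symm
        fun γ _ => hv s hs2.1 c γ L b2 (te1 L hin)
  · rcases vlem ih2 hR hf hn (good _ _) (hs _ _) with ⟨c₀, hv⟩ | ⟨b, hv⟩
    · refine ⟨c₀, fun c hc L b1' env hLw h9 hcy hin => ?_⟩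
      obtain ⟨d, h2, -⟩ := h2 L b1' env
      obtain ⟨s, hs1, hs2⟩ := exists_avoid (A := L w) (card_ins_le (card_ins_le hTr d) c)
        (by rw [hLw]; omega)
      simp only [mem_insert, not_or] at hs2
      obtain ⟨Z, hZ, hZ'⟩ := hv c hc s L b2 (te1 L hin)
      refine fin c L b1' s (L y \ insert s Z) (h2 s hs1 hs2.2.2 hs2.2.1 _ sdiff_subset
        (pay _ _ _ (card_ins_le hZ s) h9) fun _ => by simp) hcy hs2.1 fun γ hγ => hZ' γ ?_
      simp only [mem_sdiff, mem_insert, not_or] at hγ; exact hγ.2.2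
    · obtain ⟨s, hs1, hs2⟩ := exists_avoid (A := L0 w) (card_ins_le (card_ins_le hTr d₀) b)
        (by omega)
      simp only [mem_insert, not_or] at hs2
      refine ⟨s, fun c hc L b1' env hLw h9 hcy hin => ?_⟩
      obtain ⟨d, h2, h2'⟩ := h2 L b1' env
      by_cases hd : d = d₀
      · exact fin c L b1' s (L y \ {s}) (h2 s (hLw ▸ hs1) hs2.2.2 (hd ▸ hs2.2.1) _ sdiff_subset
          (pay _ _ _ (by simp) h9) fun _ => by simp) hcy hc.symm
          fun γ _ => hv s hs2.1 c γ L b2 (te1 L hin)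
      · obtain ⟨s', hs', hfin⟩ := h2' hd (L w \ {b, c, d}) sdiff_subset
          (pay _ _ _ card_le_three (by rw [hLw]; omega)) (by simp)
        simp only [mem_sdiff, mem_insert, mem_singleton, not_or] at hs'
        exact fin c L b1' s' (L y \ {s'}) (hfin _ sdiff_subset (by
          have := card_sdiff_ge (L y) {s'}; simp at this; omega) (by simp)) hcy hs'.2.2.1
          fun γ _ => hv s' hs'.2.1 c γ L b2 (te1 L hin)
  · rcases vlem ih2 hR hf' hn (good _ _) (hs _ _) with ⟨c₀, hv⟩ | ⟨γ₀, hv⟩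
    · refine ⟨c₀, fun c hc L b1' env hLw h9 hcy hin => ?_⟩
      obtain ⟨γ, hγ, d, Al, a1, -, -, -, a5⟩ := h3 L b1' env (L y \ E) sdiff_subset (pay _ _ _ hE h9)
      obtain ⟨Z, hZ, hZ'⟩ := hv c hc γ L b2 (te2 L hin)
      obtain ⟨s, hs1, hs2⟩ := exists_avoid (A := L w)
        (card_ins_le (card_ins_le (card_ins_le hZ d) γ) c) (by rw [hLw]; omega)
      simp only [mem_insert, not_or] at hs2
      refine fin c L b1' s {γ} (a1 s hs1 (a5 (mem_sdiff.1 hγ).2 s) hs2.2.2.1 fun _ => hs2.2.1) hcy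
        hs2.1 fun γ' hγ' => ?_
      rw [mem_singleton.1 hγ']; exact sw _ _ _ _ (hZ' s hs2.2.2.2)
    · refine ⟨hC.some, fun c _ L b1' env hLw h9 hcy hin => ?_⟩
      obtain ⟨s, hs1, hs2⟩ := exists_avoid (A := L w) (card_ins_le hTr c) (by rw [hLw]; omega)
      obtain ⟨t, ht1, ht2⟩ := exists_avoid (A := L w) (card_ins_le (card_ins_le hTr c) s)
        (by rw [hLw]; omega)
      simp only [mem_insert, not_or] at hs2 ht2
      obtain ⟨γ, hγ, d, Al, a1, -, -, a4, -⟩ := h3 L b1' env (L y \ {γ₀, s, t}) sdiff_subset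
        (pay _ _ _ card_le_three h9)
      simp only [mem_sdiff, mem_insert, mem_singleton, not_or] at hγ
      have key : ∀ r ∈ L w, r ∉ Tr → r ≠ c → r ≠ d → γ ≠ r →
          ∃ φ1 φ2, Col D1 o R L b1' φ1 ∧ Col D2 o R (tri L p c y (φ1 y) w (φ1 w)) b2 φ2 :=
        fun r r1 r2 r3 r4 r5 => fin c L b1' r {γ} (a1 r r1 (a4 r r2) r4 fun _ => r5.symm) hcy r3
          fun γ' hγ' => by
            rw [mem_singleton.1 hγ']; exact sw _ _ _ _ (hv γ hγ.2.1 c r L b2 (te2 L hin))
      by_cases hd : s = d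
      · exact key t ht1 ht2.2.2 ht2.2.1 (hd ▸ ht2.1) hγ.2.2.2
      · exact key s hs1 hs2.2 hs2.1 hd hγ.2.2.1

end Pool.Agent.Lib.MP_0fc16c_co
end

-- part Pool.Agent.Lib.MP_0fc16c_co.Path
section

/-! The inductive step of the path lemma. -/

set_option autoImplicit false
set_option linter.unusedSectionVars false

open Finset

namespace Pool.Agent.Lib.MP_0fc16c_co

variable {V : Type*} [Fintype V] [DecidableEq V] {C : Type*} [DecidableEq C]

theorem CutData.near1 {D D1 D2 : Pl V} {F : ℕ} {R R' : V → V → Prop} {a b : V} {l1 l2 : List V}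
    {t t1 t2 : ℕ} (h : CutData D F R a b l1 l2 D1 D2 R' t t1 t2) {g : ℕ} (hg : t = F ∨ t ≠ g)
    {p : V} (hp : D.On g p) (hp1 : p ∉ D1.G.support) {x y : V} (hn : Near D1 F F x y) :
    Near D F g x y ∨ (x = a ∧ y = b) ∨ (x = b ∧ y = a) := by
  rcases hn with hn | ⟨k, h1, -, h3, h4⟩
  · rcases h.p1.adj x y hn with h' | h'
    · exact Or.inl (Or.inl h')
    · exact Or.inr h'
  · left; right
    rcases h.swap.on_proj h1 h3 with ⟨rfl, e, -⟩ | ⟨-, -, e⟩
    · exact ⟨t, e, hg.resolve_left e, h.p1.on_t x h3, h.p1.on_t y h4⟩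
    · refine ⟨k, h1, ?_, (on_congr e).1 h3, (on_congr e).1 h4⟩
      rintro rfl; exact hp1 ((on_congr e).2 hp).supp

section
variable {D : Pl V} {o : ℕ} {z : V} {τ pre : List V} {a p w : V} {ws : List V} {q : V}
  {R : V → V → Prop} {bad : ℕ → (V → C) → Prop} {L0 : V → Finset C}

theorem ps_corner [hC : Nonempty C] (h : GS D o z τ pre a p (w :: ws) q) (hτ : τ ≠ [])
    (ih : IHb V C (mu D)) (hP : PSb V C (mu D)) (hR : ∀ a b, R a b → R b a)
    (hgood : Good D o R bad z q) (hws : ∀ v ∈ w :: ws, 6 ≤ (L0 v).card) (big : List V)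
    {g : ℕ} (hg : g ≠ o) (hE : D.E g a p) {s1 s2 : List V} {y : V} (es : τ = s1 ++ y :: s2)
    (hy : Near D o g y w) (hs1 : ∀ x ∈ z :: s1, ¬ Near D o g x w) (hbig : y = a ∨ y ∈ big) :
    ∃ c₀, ∀ c ≠ c₀, ∀ L bad', Env D o R bad L0 z τ p (w :: ws) q L bad' → L p = {c} →
      9 ≤ (L a).card → c ∉ L a → (∀ v ∈ big, v ≠ a → 7 ≤ (L v).card) →
      ∃ φ, Col D o R L bad' φ := by
  have hroot := h.not_root (Or.inl hτ) hg hE.on'
  obtain ⟨pre2, epre2, epre⟩ : ∃ pre2, y :: s2 = pre2 ++ [a] ∧ pre = z :: s1 ++ pre2 := by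
    rcases List.eq_nil_or_concat (y :: s2) with e | ⟨pre2, u', e⟩
    · simp at e
    · have e2 := h.hz
      rw [es, e, List.concat_eq_append, ← List.append_assoc, ← List.cons_append] at e2
      obtain ⟨e3, e4⟩ := List.append_inj' e2 rfl
      simp only [List.cons.injEq, and_true] at e4
      exact ⟨pre2, by rw [e, ← e4]; simp, e3.symm⟩
  have hf0 : IsFace D.G D.f o (y :: (s2 ++ [p]) ++ w :: (ws ++ [q] ++ z :: s1)) := by
    have := h.face
    rw [es] at this
    have e : z :: (s1 ++ y :: s2) ++ p :: w :: ws ++ [q] =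
      (z :: s1) ++ (y :: s2 ++ p :: w :: ws ++ [q]) := by simp
    exact (this.eq e).rot.eq (by simp)
  obtain ⟨D1, D2, R', t, t1, t2, cd, ht⟩ := exists_cut D hR hf0 (by simp) (by simp) hy
  obtain ⟨q1, q2, q3, q4, q5, q6⟩ := h.p_ne
  obtain ⟨n1, n2, n3⟩ := h.u_ne hτ
  have hyτ : y ∈ τ := by rw [es]; simp
  have hpy : p ≠ y := by rintro rfl; exact q1 (by simp [hyτ])
  have hpw : p ≠ w := by rintro rfl; exact q2 (by simp)
  have hyw : y ≠ w := by rintro rfl; exact q6 y (by simp) (by simp [hyτ])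
  have haw : a ≠ w := by rintro rfl; exact q6 a (by simp) h.u_mem
  have hwτ : w ∉ τ := fun hc => q6 w (by simp) (by simp [hc])
  have hf1 : IsFace D1.G D1.f o (z :: (s1 ++ [y]) ++ w :: ws ++ [q]) := by
    have e : w :: (ws ++ [q] ++ z :: s1) ++ [y] = (w :: ws ++ [q]) ++ (z :: s1 ++ [y]) := by simp
    exact (cd.p1.face.eq e).rot.eq (by simp)
  have hf2 : IsFace D2.G D2.f o (y :: s2 ++ p :: [] ++ [w]) := cd.p2.face.eq (by simp)
  have hz1 : z ∈ D1.G.support := ((Pl.on_iff hf1).2 (by simp)).supp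
  have hq1 : q ∈ D1.G.support := ((Pl.on_iff hf1).2 (by simp)).supp
  have hy1 : y ∈ D1.G.support := ((Pl.on_iff hf1).2 (by simp)).supp
  have hw1 : w ∈ D1.G.support := ((Pl.on_iff hf1).2 (by simp)).supp
  have hp2 : p ∈ D2.G.support := ((Pl.on_iff hf2).2 (by simp)).supp
  have hy2 : y ∈ D2.G.support := ((Pl.on_iff hf2).2 (by simp)).supp
  have hw2 : w ∈ D2.G.support := ((Pl.on_iff hf2).2 (by simp)).supp
  have hp1 : p ∉ D1.G.support := fun hc => by have := cd.inter p hc hp2; tauto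
  have hgt : g ≠ t := by rcases ht with e | e; exact e ▸ hg; exact e.symm
  obtain ⟨hgt2, hEg⟩ := cd.keep2 hg hgt hE.on' hp2 hpy hpw
  have hnd1 := hf1.1
  have hynot : y ∉ w :: ws ++ [q] := fun hc => by
    simp only [List.cons_append, List.mem_cons, List.mem_append, List.not_mem_nil, or_false] at hc
    rcases hc with e | e | e
    · exact hyw e
    · exact q6 y (by simp [e]) (by simp [hyτ])
    · exact q4 (by simp [← e, hyτ])
  have gs1 : GS D1 o z (s1 ++ [y]) (z :: s1) y w ws q := by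
    refine ⟨hf1, by simp, cd.swap.n1 h.n1, fun x hx hn => ?_, fun x hx x' hx' hne hn => ?_⟩
    · rcases cd.near1 ht hE.on' hp1 hn with h' | h' | h'
      · exact hs1 x hx h'
      · obtain ⟨rfl, -⟩ := h'
        have : (z :: s1 ++ [x]).Nodup := by
          have := (List.nodup_append.1 (List.nodup_append.1 hnd1).1).1; simpa using this
        exact (List.nodup_append.1 this).2.2 x hx x (by simp) rfl
      · exact hyw h'.2.symm
    · rcases cd.swap.near2' hn with h' | h' | h'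
      · have hxp : x ≠ p := by rintro rfl; simp at hx q2; tauto
        have hxp' : x' ≠ p := by rintro rfl; simp at hx' q2; tauto
        rcases h.h2 x (List.mem_cons_of_mem _ hx) x' (List.mem_cons_of_mem _ hx') hne h' with
          h'' | h''
        · exact Or.inl ((nx_cons_cons.1 h'').resolve_left fun e => hxp e.1)
        · exact Or.inr ((nx_cons_cons.1 h'').resolve_left fun e => hxp' e.1)
      · exact absurd (h'.2 ▸ hx') hynot
      · exact absurd (h'.1 ▸ hx) hynot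
  have gs2 : GS D2 o y s2 pre2 a p [] w := by
    refine ⟨hf2, epre2, cd.n1 h.n1, fun x hx hn => ?_, fun x hx x' hx' hne _ => ?_⟩
    · rcases cd.near2' hn with h' | h' | h'
      · exact h.hp x (by rw [epre]; simp [hx]) h'
      · exact hpw h'.2
      · exact hpy h'.2
    · simp only [List.cons_append, List.nil_append, List.mem_cons, List.not_mem_nil,
        or_false] at hx hx' ⊢
      rcases hx with rfl | rfl <;> rcases hx' with rfl | rfl
      · exact absurd rfl hne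
      · exact Or.inl ⟨[], [], rfl⟩
      · exact Or.inr ⟨[], [], rfl⟩
      · exact absurd rfl hne
  have hin1 : ∀ v ∈ D1.G.support, v ∉ z :: (s1 ++ [y]) ++ w :: ws ++ [q] →
      v ∉ z :: τ ++ p :: w :: ws ++ [q] := fun v hv hb hc => by
    refine cd.swap.inner2 hv (fun h' => hb ((Pl.on_iff hf1).1 ((Pl.on_iff cd.p1.face).2 h'))) ?_
    exact (Pl.on_iff (hf0.rot (l1 := y :: (s2 ++ [p])))).1 ((Pl.on_iff h.face).2 hc)
  have hin2 : ∀ v ∈ D2.G.support, v ∉ y :: s2 ++ p :: [] ++ [w] →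
      v ∉ z :: τ ++ p :: w :: ws ++ [q] := fun v hv hb hc =>
    cd.inner2 hv (by simpa using hb) ((Pl.on_iff hf0).1 ((Pl.on_iff h.face).2 hc))
  have hqy : q ≠ y := by rintro rfl; exact q4 (by simp [hyτ])
  have hqw : q ≠ w := by rintro rfl; exact q5 (by simp)
  have hzw : z ≠ w := by rintro rfl; exact q6 z (by simp) (by simp)
  have hq2 : q ∉ D2.G.support := fun hc => by have := cd.inter q hq1 hc; tauto
  have ih1 : IHb V C (mu D1) := ih.mono cd.p1.lt.le
  have ih2 : IHb V C (mu D2) := ih.mono cd.p2.lt.le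
  have hP1 : PSb V C (mu D1 + 1) := hP.mono cd.p1.lt
  by_cases hreal : y = a ∧ R' y w
  · obtain ⟨rfl, hr⟩ := hreal
    obtain rfl : s2 = [] := by
      have hn := (List.nodup_append.1 (List.nodup_append.1 hf2.1).1).1
      rw [epre2] at hn
      cases pre2 with
      | nil => simpa using epre2
      | cons x pre2 => simp at epre2 hn; exact absurd epre2.1.symm hn.1.2
    rcases cd.kind with ⟨-, e0, e1, e2, e3⟩ | ⟨-, -, -, -, -, -, hc, -⟩
    swap
    · exact absurd hr hc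
    subst t t1 t2 R'
    have hE2 : ∀ k, k ≠ o → (∃ v, D2.On k v) → D2.E k = D.E k ∧ ¬ D.E k z q := by
      rintro k hk ⟨v, hv⟩
      have e := (cd.p2.E_eq k hk hk v hv).2
      exact ⟨e, fun hc => hq2 (e ▸ hc : D2.E k z q).on'.supp⟩
    have hf3 : IsFace D2.G D2.f o [p, y, w] :=
      (IsFace.rot (l1 := [w]) (l2 := [p, y]) hf2.reverse).eq rfl
    obtain ⟨c₀, hc₀⟩ := corner (b2 := bad) (L0 := L0) gs1 (by simp) ih1 hP1 hR (cd.good1 hgood)
      (fun v hv => hws v (by simp [hv])) (hws w (by simp)) ih2 hf3 gs2.n1 fun k hk hv => by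
        obtain ⟨e, hz⟩ := hE2 k hk hv
        obtain ⟨v, hv⟩ := hv
        obtain ⟨g1, g2, g3⟩ := hgood k hk ⟨v, (on_congr e).1 hv⟩
        rw [cd.QE2 e, e]; exact ⟨g1, g2, g3 hz⟩
    refine ⟨c₀, fun c hc L bad' env hp h9 hca _ => ?_⟩
    obtain ⟨φ1, φ2, c1, c2⟩ := hc₀ c hc L (bad1 bad' o) ⟨fun v hv => env.agL v (by simp [hv]),
      fun k hk => by
        by_cases e : k = o
        · simp [bad1, e]
        · rw [bad1_ne e, bad1_ne e]
          refine env.agB k fun hzq => ?_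
          rcases cd.cov_face k e e z hzq.on with ⟨-, e'⟩ | ⟨-, e'⟩
          · exact hk (e' ▸ hzq)
          · exact hq2 (e' ▸ hzq : D2.E k z q).on'.supp, cd.good1 env.good,
      ⟨env.lok.hz, env.lok.hq, env.lok.hzq, fun v hv => env.lok.hτ v (by
        rw [es]; simpa using hv), fun v hv hb => env.lok.inner v (cd.p1.supp hv) (hin1 v hv hb)⟩⟩
      (env.agL w (by simp)) h9 hca fun v hv hb => env.lok.inner v (cd.p2.supp hv)
        (hin2 v hv (by simp at hb ⊢; tauto))
    obtain ⟨-, f2, f3⟩ := c2.tri_vals hf3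
    obtain ⟨φ, c3, -⟩ := cd.glue (L := L) env.good c1 (c2.congr fun k hk hv => by
      rw [bad2_ne hk]; exact env.agB k (hE2 k hk hv).2) f2 f3 (fun _ _ => Subset.rfl)
      fun v _ h1 h2 => by
        unfold tri; rw [if_neg h1, if_neg h2]; split_ifs with e
        · rw [e, hp]
        · exact Subset.rfl
    exact ⟨φ, c3⟩
  refine ⟨hC.some, fun c _ L bad' env hp h9 hca h7 => ?_⟩
  have hE2 : D2.E g a p := hEg ▸ hE
  obtain ⟨a', as', hf', has', -⟩ := gs2.step hg hE2
  obtain ⟨e1, e2, e3⟩ := face_E hf'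
  have st : Strong (D2.E g) (QE D2 R' g) (bad g) := by
    rw [cd.QE2 hEg, hEg]; exact h.strong (Or.inl hτ) hgood hg hE.on'
  obtain ⟨E, hE3, hh⟩ := gs2.pay_hd hf' has' (Or.inl rfl) (st.kl p a a' e1 e2 e3 c)
  let L1 : V → Finset C := Function.update (Function.update L a (L a \ E)) w ((L w).erase c)
  have l1a : L1 a = L a \ E := by simp [L1, haw]
  have l1w : L1 w = (L w).erase c := by simp [L1]
  have l1o : ∀ v, v ≠ a → v ≠ w → L1 v = L v := fun v h1 h2 => by simp [L1, h1, h2]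
  have l1s : ∀ v, L1 v ⊆ L v := fun v =>
    (upd_sub (by rw [Function.update_of_ne haw.symm]; exact erase_subset _ _) v).trans
      (upd_sub sdiff_subset v)
  have l1τ : ∀ v ∈ τ, 6 ≤ (L1 v).card := fun v hv => by
    by_cases e : v = a
    · rw [e, l1a]; have := card_sdiff_ge (L a) E; omega
    · rw [l1o v e (by rintro rfl; exact hwτ hv)]; exact env.lok.hτ v hv
  have l1i : ∀ v ∈ D.G.support, v ∉ z :: τ ++ p :: w :: ws ++ [q] → 10 ≤ (L1 v).card :=
    fun v hv hb => by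
      rw [l1o v (by rintro rfl; exact hb h.u_bd) (by rintro rfl; simp at hb)]
      exact env.lok.inner v hv hb
  obtain ⟨φ1, c1⟩ := qlem (L := L1) gs1 (by simp) ih1 hP1 cd.Rsymm (cd.good1 env.good)
    (fun v hv => by
      rw [l1o v (by rintro rfl; exact q6 v (by simp [hv]) h.u_mem) (by
        rintro rfl; exact gs1.p_ne.2.1 hv), env.agL v (by simp [hv])]
      exact hws v (by simp [hv]))
    ⟨by rw [l1o z n1.symm hzw]; exact env.lok.hz, by rw [l1o q n2.symm hqw]; exact env.lok.hq,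
      fun hr => by rw [l1o z n1.symm hzw, l1o q n2.symm hqw]; exact env.lok.hzq (cd.Rle _ _ hr),
      fun v hv => l1τ v (by rw [es]; simp at hv ⊢; tauto),
      fun v hv hb => l1i v (cd.p1.supp hv) (hin1 v hv hb)⟩
    (by
      rw [l1w, env.agL w (by simp)]
      have := hws w (by simp)
      have := Finset.pred_card_le_card_erase (s := L0 w) (a := c); omega)
    (by
      by_cases e : y = a
      · exact Or.inr fun hr => hreal ⟨e, hr⟩
      · left; rw [l1o y e hyw]; exact h7 y (hbig.resolve_left e) e)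
  let L2 : V → Finset C := Function.update (Function.update L1 y {φ1 y}) w {φ1 w}
  have l2y : L2 y = {φ1 y} := by simp [L2, hyw]
  have l2w : L2 w = {φ1 w} := by simp [L2]
  have l2o : ∀ v, v ≠ y → v ≠ w → L2 v = L1 v := fun v h1 h2 => by simp [L2, h1, h2]
  have l2a : L2 a ⊆ L a \ E := by
    by_cases e : a = y
    · rw [e, l2y, ← e, ← l1a, e]; simpa using c1.1 y hy1
    · rw [l2o a e haw, l1a]
  have l2p : L2 p = {c} := by rw [l2o p hpy hpw, l1o p n3.symm hpw, hp]
  obtain ⟨φ2, c2⟩ := fan3 _ D2 rfl ih2 (L := L2) cd.Rsymm gs2 (cd.good2 env.good hz1 hq1 φ1)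
    ⟨by rw [l2y]; simp, by rw [l2w]; simp, fun hr => by
      rw [l2y, l2w, disjoint_singleton]; exact c1.2.1 y w gs1.Eup.1 hr, fun v hv => by
      rw [l2o v (fun e => by have := hf2.1; simp [← e, hv] at this)
        (fun e => gs2.p_ne.2.2.2.1 (by simp [← e, hv]))]
      exact l1τ v (by rw [es]; simp [hv]), fun v hv hb => by
      rw [l2o v (by rintro rfl; simp at hb) (by rintro rfl; simp at hb)]
      exact l1i v (cd.p2.supp hv) (hin2 v hv hb)⟩ l2p
    (fun _ hc => hca (mem_sdiff.1 (l2a hc)).1) (fun _ hc => by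
      rw [l2w, mem_singleton] at hc
      have := c1.1 w hw1
      rw [l1w, ← hc] at this; simp at this) hg hE2 (by
      rw [bad2_ne hgt2, env.agB g hroot]
      exact (hh L2 l2p (Finset.disjoint_left.2 fun x hx => (mem_sdiff.1 (l2a hx)).2)).mono
        (fun _ _ => Subset.rfl) (by omega))
  obtain ⟨φ, c3, -⟩ := cd.glue (L := L) env.good c1 c2
    (by have := c2.1 y hy2; rwa [l2y, mem_singleton] at this)
    (by have := c2.1 w hw2; rwa [l2w, mem_singleton] at this) (fun v _ => l1s v)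
    fun v _ h1 h2 => by rw [l2o v h1 h2]; exact l1s v
  exact ⟨φ, c3⟩

theorem ps_nl [hC : Nonempty C] (h : GS D o z τ pre a p (w :: ws) q) (hτ : τ ≠ [])
    (ih : IHb V C (mu D)) (hP : PSb V C (mu D + 1)) (hR : ∀ a b, R a b → R b a)
    (hgood : Good D o R bad z q) (hws : ∀ v ∈ w :: ws, 6 ≤ (L0 v).card) (big : List V)
    (hz : ¬ Near D o o z w) (hbig : ∀ y ∈ τ, Near D o o y w → y = a ∨ y ∈ big) :
    ∃ c₀, ∀ c ≠ c₀, ∀ L bad', Env D o R bad L0 z τ p (w :: ws) q L bad' → L p = {c} →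
      9 ≤ (L a).card → c ∉ L a → (∀ v ∈ big, v ≠ a → 7 ≤ (L v).card) →
      ∃ φ, Col D o R L bad' φ := by
  obtain ⟨g, hg, hE⟩ := h.exists_g
  by_cases hcor : ∃ y ∈ z :: τ, Near D o g y w
  · obtain ⟨s1, y, s2, es, hy, hs1⟩ := exists_first hcor
    cases s1 with
    | nil => simp at es; exact absurd (es.1 ▸ hy.weaken) hz
    | cons x s1 =>
      simp only [List.cons_append, List.cons.injEq] at es
      obtain ⟨rfl, es⟩ := es
      exact ps_corner h hτ ih (hP.mono (by omega)) hR hgood hws big hg hE es hy hs1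
        (hbig y (by rw [es]; simp) hy.weaken)
  obtain ⟨D2, R2, bad0, z2, τ2, pre2, ws2, q2, gs, h3, hmu, hR2, eE, eQ, eb, hgood2, hsub, hRup,
    hne, red⟩ := h.red hτ ih hR hg hE hgood hws
  have hw2 : ws2 ≠ [] := fun e => by
    rcases hne e with e' | ⟨w', ws', e', hc⟩
    · simp at e'
    · simp only [List.cons.injEq] at e'; exact hcor (e'.1 ▸ hc)
  have st : Strong (D2.E g) (QE D2 R2 g) (bad0 g) := by
    rw [eE, eQ, eb]; exact h.strong (Or.inl hτ) hgood hg hE.on'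
  have hE2 : D2.E g a p := eE ▸ hE
  obtain ⟨a', as', hf', has', -⟩ := gs.step hg hE2
  obtain ⟨e1, e2, e3⟩ := face_E hf'
  obtain ⟨c₀, hc₀⟩ := hP D2 (by omega) o z2 τ2 pre2 a p ws2 q2 R2 bad0 L0 g hR2 gs hw2 hg hE2 h3
    hgood2 fun v hv => hws v (hsub v hv)
  refine ⟨c₀, fun c hc L bad' env hp h9 hca _ => ?_⟩
  obtain ⟨E, hE3, hh⟩ := gs.pay_hd hf' has' (Or.inl rfl) (st.kl p a a' e1 e2 e3 c)
  obtain ⟨L2, bad2', env2, -, l1, l2, lift⟩ := red _ bad' (env.upd_u h hτ (S := L a \ E)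
    (by have := card_sdiff_ge (L a) E; omega))
  have l2a : L2 a ⊆ L a \ E := by simpa using l1 a
  have l2p : L2 p = {c} := by
    rw [l2 p (fun e => gs.p_ne.1 (by simp [e])) gs.p_ne.2.2.1,
      Function.update_of_ne (h.u_ne hτ).2.2.symm, hp]
  obtain ⟨φ, hφ⟩ := hc₀ c hc L2 bad2' env2 l2p (fun _ hc => hca (mem_sdiff.1 (l2a hc)).1)
    (hh L2 l2p (Finset.disjoint_left.2 fun x hx => (mem_sdiff.1 (l2a hx)).2))
  obtain ⟨φ', c1, -⟩ := lift φ hφ
  exact ⟨φ', c1.mono fun v _ => upd_sub sdiff_subset v⟩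

end

theorem ps_step [hC : Nonempty C] (D : Pl V) (ih : IHb V C (mu D)) (hP : PSb V C (mu D)) :
    PSs C D := by
  intro o z τ pre u p ws q R bad L0 g hR h hws hg hE h3 hgood h6
  obtain ⟨w, ws, rfl⟩ := List.exists_cons_of_ne_nil hws
  have hroot := h.not_root (Or.inr hws) hg hE.on'
  obtain ⟨q1, q2, q3, q4, q5, q6⟩ := h.p_ne
  obtain ⟨a, as, hf, has, ha | ⟨rest, ha⟩⟩ := h.step hg hE
  · obtain ⟨D', m, gs, hmu, nx⟩ := h.NL (C := C) hg hf has ha
    obtain ⟨c₀, hc₀⟩ := ps_nl (L0 := L0) gs (by simp) (ih.mono hmu.le) (hP.mono hmu) hR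
      (m.good hgood) h6 as (fun hn => h3 z (by simp) w (by simp) (m.near hn)) fun y hy hn => by
        simp only [List.mem_append, List.mem_reverse, List.mem_singleton] at hy
        rcases hy with (hy | hy) | hy
        · exact absurd (m.near hn) (h3 y (by simp [hy]) w (by simp))
        · exact Or.inr hy
        · exact Or.inl hy
    refine ⟨c₀, fun c hc L bad' env hp hup hd => ?_⟩
    obtain ⟨L1, l1, l2, l3, l4, l5, lift⟩ := nx R L bad' c 0 3 hR (by omega) (by omega) env.lok hp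
      hup (by rw [env.agB g hroot]; exact hd)
    have eb : ∀ v ∈ z :: τ ++ p :: w :: ws ++ [q], L1 v = L v := fun v hv =>
      l2 v (fun h' => has v h' hv) (by rintro rfl; exact ha hv)
    obtain ⟨φ, hφ⟩ := hc₀ c hc L1 bad' ⟨fun v hv => by
        rw [eb v (by simp at hv ⊢; tauto)]; exact env.agL v hv, fun k hk => by
        by_cases e : k = g
        · rw [e]; exact env.agB g hroot
        · by_cases e' : k = o
          · exact absurd (e' ▸ gs.Ezq) hk
          · exact env.agB k (m.E_eq e' e ▸ hk), m.good env.good, l1⟩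
      (by rw [eb p (by simp), hp]) l4 l5 fun v hv _ => l3 v hv
    exact ⟨φ, lift φ hφ⟩
  · have ha0 := ha
    simp only [List.cons_append, List.cons.injEq] at ha0
    obtain ⟨rfl, rfl⟩ := ha0
    have hnd := hf.1
    obtain ⟨e1, e2, e3⟩ := face_E hf
    cases as with
    | nil =>
      exact absurd (Or.inl ((Pl.E_iff hf).2 (cyc_ends [p] u w)).1) (h3 u h.u_mem w (by simp))
    | cons u' as =>
    obtain ⟨D', m, f', hmu, nx⟩ := h.LL (C := C) hg hf has ha (by simp)
    have Ewu : D.E g w u' := (Pl.E_iff hf).2 (cyc_mid [u, p] as w u')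
    have gs : GS D' o z (τ ++ (u' :: as).reverse) (z :: τ ++ as.reverse) u' w ws q := by
      refine ⟨f'.eq (by simp), by simp, m.n1 h.n1, fun y hy hn => ?_,
        fun x hx x' hx' hne hn => ?_⟩
      · have hn' := m.near hn
        rcases List.mem_append.1 hy with hy | hy
        · exact h3 y hy w (by simp) hn'
        · rw [List.mem_reverse] at hy
          have hon : D.On g y := (Pl.on_iff hf).2 (by simp [hy])
          have hyw : y ≠ w := by rintro rfl; simp [hy] at hnd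
          have hadj : D.G.Adj y w := by
            rcases hn' with hn' | ⟨k, h1, h2, h3, h4⟩
            · exact hn'
            · exact h.n1.2 k g h1 hg h2 y w hyw h3 h4 hon e2.on'
          have := h.n1.1 g hg w y e2.on' hon hadj.symm
          rcases Pl.E_two e2.symm Ewu this with e | e | e <;> subst e <;> simp [hy] at hnd
      · have hxp : x ≠ p := by rintro rfl; simp at hx q2; tauto
        have hxp' : x' ≠ p := by rintro rfl; simp at hx' q2; tauto
        rcases h.h2 x (List.mem_cons_of_mem _ hx) x' (List.mem_cons_of_mem _ hx') hne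
          (m.near hn).weaken with h'' | h''
        · exact Or.inl ((nx_cons_cons.1 h'').resolve_left fun e => hxp e.1)
        · exact Or.inr ((nx_cons_cons.1 h'').resolve_left fun e => hxp' e.1)
    refine ⟨hC.some, fun c _ L bad' env hp hup hd => ?_⟩
    have hwz : w ≠ z := by rintro rfl; exact q6 w (by simp) (by simp)
    have hwq : w ≠ q := by rintro rfl; exact q5 (by simp)
    have hwp : p ≠ w := by rintro rfl; exact q2 (by simp)
    have lok := env.lok.upd (u := w) (S := (L w).erase c) (by simp) hwz hwq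
      fun hc => absurd (List.mem_cons_of_mem _ hc) (q6 w (by simp))
    obtain ⟨L1, l1, l2, l3, lift⟩ := nx R _ bad' c 0 3 hR env.good lok
      (by rw [Function.update_of_ne hwp, hp]) (fun hr hc => hup hr (upd_sub (erase_subset _ _) u hc))
      (fun _ => by simp) (by
        rw [env.agB g hroot]; exact hd.mono (fun v _ => upd_sub (erase_subset _ _) v) le_rfl)
    have eb : ∀ v ∈ z :: τ ++ p :: w :: ws ++ [q],
        L1 v = Function.update L w ((L w).erase c) v := fun v hv => l1 v fun h' => has v h' hv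
    obtain ⟨φ, hφ⟩ := qlem (L := L1) gs (by simp) (ih.mono hmu.le) (hP.mono hmu) hR
      (m.good env.good) (fun v hv => by
        rw [eb v (by simp [hv]), Function.update_of_ne (by rintro rfl; exact gs.p_ne.2.1 hv),
          env.agL v (by simp [hv])]
        exact h6 v (by simp [hv]))
      ⟨by rw [eb z (by simp)]; exact lok.hz, by rw [eb q (by simp)]; exact lok.hq,
        by rw [eb z (by simp), eb q (by simp)]; exact lok.hzq, fun v hv => by
          rcases List.mem_append.1 hv with hv | hv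
          · rw [eb v (by simp [hv])]; exact lok.hτ v hv
          · have := l2 v (List.mem_reverse.1 hv); omega,
        fun v hv hb => l3 v hv (by simpa using hb)⟩
      (by
        rw [eb w (by simp), Function.update_self, env.agL w (by simp)]
        have := h6 w (by simp)
        have := Finset.pred_card_le_card_erase (s := L0 w) (a := c); omega)
      (Or.inl (l2 u' (by simp)))
    obtain ⟨φ', c1⟩ := lift φ hφ
    exact ⟨φ', c1.mono fun v _ => upd_sub (erase_subset _ _) v⟩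

end Pool.Agent.Lib.MP_0fc16c_co
end

-- part Pool.Agent.Lib.MP_0fc16c_co.Disc
section

/-! The main induction. -/

set_option autoImplicit false
set_option linter.unusedSectionVars false

open Finset

namespace Pool.Agent.Lib.MP_0fc16c_co

variable {V : Type*} [Fintype V] [DecidableEq V] {C : Type*} [DecidableEq C]

theorem split_two {α : Type*} {l : List α} {a b : α} (ha : a ∈ l) (hb : b ∈ l) (hab : a ≠ b) :
    (∃ l0 l1 l2, l = l0 ++ a :: l1 ++ b :: l2) ∨ ∃ l0 l1 l2, l = l0 ++ b :: l1 ++ a :: l2 := by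
  obtain ⟨s, t, rfl⟩ := List.append_of_mem ha
  simp only [List.mem_append, List.mem_cons] at hb
  rcases hb with hb | rfl | hb
  · obtain ⟨s1, s2, rfl⟩ := List.append_of_mem hb
    exact Or.inr ⟨s1, s2, t, by simp⟩
  · exact absurd rfl hab
  · obtain ⟨t1, t2, rfl⟩ := List.append_of_mem hb
    exact Or.inl ⟨s, t1, t2, by simp⟩

theorem nx_inner {x a b : V} {t : List V} (h : Nx (x :: t ++ [x]) a b) (ha : a ≠ x) (hb : b ≠ x) :
    Nx t a b := by
  obtain ⟨l1, l2, e⟩ := h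
  cases l1 with
  | nil => simp at e; exact absurd e.1.symm ha
  | cons y l1 =>
    simp only [List.cons_append, List.cons.injEq] at e
    rcases List.eq_nil_or_concat l2 with rfl | ⟨l2', w, rfl⟩
    · have e2 : t ++ [x] = (l1 ++ [a]) ++ [b] := by rw [e.2]; simp
      have := (List.append_inj' e2 rfl).2
      simp at this; exact absurd this.symm hb
    · have e2 : t ++ [x] = (l1 ++ a :: b :: l2') ++ [w] := by rw [e.2]; simp
      exact ⟨l1, l2', (List.append_inj' e2 rfl).1⟩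

theorem Good.shift [Nonempty C] {D : Pl V} {o : ℕ} {R : V → V → Prop}
    {bad : ℕ → (V → C) → Prop} {x y : V} (h : Good D o R bad x y) (F : ℕ) :
    Good D F R (bad1 bad o) x y := by
  intro k _ hv
  by_cases e : k = o
  · have : bad1 bad o k = fun _ => False := by simp [bad1, e]
    rw [this]; exact ⟨loc_false _, weak_false _, fun _ => strong_false _ _⟩
  · rw [bad1_ne e]; exact h k e hv

section
variable {D : Pl V} {o : ℕ} {R : V → V → Prop} {L : V → Finset C} {bad : ℕ → (V → C) → Prop}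
  {x y : V} {m : List V}

theorem ih_chord [Nonempty C] (ih : IHb V C (mu D)) (hR : ∀ a b, R a b → R b a)
    (hf : IsFace D.G D.f o (x :: m ++ [y])) (hgood : Good D o R bad x y)
    (hL : LOK D R L x m y (x :: m ++ [y])) {a b : V} {l0 l1 l2 : List V}
    (e : x :: m ++ [y] = l0 ++ a :: l1 ++ b :: l2) (hn : Near D o o a b)
    (hc : ¬ Cyc (x :: m ++ [y]) a b) : ∃ φ, Col D o R L bad φ := by
  have hf0 : IsFace D.G D.f o (a :: l1 ++ b :: (l2 ++ l0)) :=
    ((hf.eq (e.trans (List.append_assoc _ _ _))).rot).eq (by simp)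
  have h1 : l1 ≠ [] := by
    rintro rfl; exact hc ((Pl.E_iff hf).1 ((Pl.E_iff hf0).2 (cyc_mid [] _ a b)))
  have h2 : l2 ++ l0 ≠ [] := by
    intro e'; rw [e'] at hf0
    exact hc ((Pl.E_iff hf).1 ((Pl.E_iff hf0).2 (cyc_ends l1 a b)))
  obtain ⟨s1, s2, e1, e2, em⟩ : ∃ s1 s2, l0 ++ [a] = x :: s1 ∧ b :: l2 = s2 ++ [y] ∧
      m = s1 ++ l1 ++ s2 := by
    obtain ⟨s1, e1⟩ : ∃ s1, l0 ++ [a] = x :: s1 := by
      cases l0 with
      | nil => simp at e; exact ⟨[], by simp [e.1]⟩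
      | cons z l0 => simp at e; exact ⟨l0 ++ [a], by simp [e.1]⟩
    rcases List.eq_nil_or_concat (b :: l2) with e2 | ⟨s2, y', e2⟩
    · simp at e2
    · rw [List.concat_eq_append] at e2
      have e3 : (x :: m) ++ [y] = (x :: (s1 ++ l1 ++ s2)) ++ [y'] := by
        rw [e, e2]
        have : l0 ++ a :: l1 = (l0 ++ [a]) ++ l1 := by simp
        rw [this, e1]; simp
      obtain ⟨e4, e5⟩ := List.append_inj' e3 rfl
      simp only [List.cons.injEq, and_true, true_and] at e4 e5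
      exact ⟨s1, s2, e1, e5 ▸ e2, e4⟩
  obtain ⟨D1, D2, R', t, t1, t2, cd, -⟩ := exists_cut D hR hf0 h1 h2 hn
  have hf1 : IsFace D1.G D1.f o (x :: (s1 ++ s2) ++ [y]) := by
    have e' : b :: (l2 ++ l0) ++ [a] = (b :: l2) ++ (l0 ++ [a]) := by simp
    exact (cd.p1.face.eq e').rot.eq (by rw [e1, e2]; simp)
  have hx1 : x ∈ D1.G.support := ((Pl.on_iff hf1).2 (by simp)).supp
  have hy1 : y ∈ D1.G.support := ((Pl.on_iff hf1).2 (by simp)).supp
  obtain ⟨φ1, c1⟩ := ih D1 cd.p1.lt o R' L (bad1 bad t1) x y (s1 ++ s2) cd.Rsymm hf1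
    (cd.good1 hgood) ⟨hL.hz, hL.hq, fun hr => hL.hzq (cd.Rle _ _ hr),
      fun v hv => hL.hτ v (by rw [em]; simp at hv ⊢; tauto),
      fun v hv hb => hL.inner v (cd.p1.supp hv) fun hc => by
        refine cd.swap.inner2 hv (fun h' => hb ((Pl.on_iff hf1).1 ((Pl.on_iff cd.p1.face).2 h'))) ?_
        exact (Pl.on_iff (hf0.rot (l1 := a :: l1))).1 ((Pl.on_iff hf).2 hc)⟩
  have hnd := cd.p2.face.1
  have hab : a ≠ b := by rintro rfl; simp at hnd
  let L2 : V → Finset C := Function.update (Function.update L a {φ1 a}) b {φ1 b}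
  have l2a : L2 a = {φ1 a} := by simp [L2, hab]
  have l2b : L2 b = {φ1 b} := by simp [L2]
  have l2o : ∀ v, v ≠ a → v ≠ b → L2 v = L v := fun v h1 h2 => by simp [L2, h1, h2]
  obtain ⟨φ2, c2⟩ := ih D2 cd.p2.lt o R' L2 (bad2 bad D2 t t2 φ1) a b l1 cd.Rsymm cd.p2.face
    (cd.good2 hgood hx1 hy1 φ1) ⟨by rw [l2a]; simp, by rw [l2b]; simp, fun hr => by
      rw [l2a, l2b, disjoint_singleton]
      exact c1.2.1 a b ((Pl.E_iff cd.p1.face).2 (cyc_ends _ b a)).1.symm hr, fun v hv => by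
      rw [l2o v (by rintro rfl; simp [hv] at hnd) (by
        rintro rfl; simp [List.nodup_append] at hnd; exact hnd.2.2 v hv rfl)]
      exact hL.hτ v (by rw [em]; simp [hv]), fun v hv hb => by
      rw [l2o v (by rintro rfl; simp at hb) (by rintro rfl; simp at hb)]
      exact hL.inner v (cd.p2.supp hv) fun hc => cd.inner2 hv hb
        ((Pl.on_iff hf0).1 ((Pl.on_iff hf).2 hc))⟩
  obtain ⟨φ, c3, -⟩ := cd.glue (L := L) hgood c1 c2
    (by have := c2.1 a ((Pl.on_iff cd.p2.face).2 (by simp)).supp; rwa [l2a, mem_singleton] at this)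
    (by have := c2.1 b ((Pl.on_iff cd.p2.face).2 (by simp)).supp; rwa [l2b, mem_singleton] at this)
    (fun _ _ => Subset.rfl) fun v _ h1 h2 => by rw [l2o v h1 h2]
  exact ⟨φ, c3⟩

theorem ih_sep' [Nonempty C] (ih : IHb V C (mu D)) (hf : IsFace D.G D.f o (x :: m ++ [y]))
    (hgood : Good D o R bad x y) (hL : LOK D R L x m y (x :: m ++ [y])) {F : ℕ} (hF : F ≠ o)
    {a b : V} {l1 l2 : List V} (hf0 : IsFace D.G D.f F (a :: l1 ++ b :: l2)) (h1 : l1 ≠ [])
    {D1 D2 : Pl V} {R' : V → V → Prop} {t t1 t2 : ℕ}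
    (cd : CutData D F R a b l1 l2 D1 D2 R' t t1 t2) (ho : o ≠ t1) (hE : D1.E o = D.E o) :
    ∃ φ, Col D o R L bad φ := by
  classical
  have hf1 := Pl.face_congr hE hf
  have hbd : ∀ v ∈ x :: m ++ [y], v ∈ D1.G.support := fun v hv => ((Pl.on_iff hf1).2 hv).supp
  have hg0 := hgood.shift F
  obtain ⟨φ1, c0⟩ := ih D1 cd.p1.lt o R' L _ x y m cd.Rsymm hf1 ((cd.good1 hg0).shift o)
    ⟨hL.hz, hL.hq, fun hr => hL.hzq (cd.Rle _ _ hr), hL.hτ,
      fun v hv hb => hL.inner v (cd.p1.supp hv) hb⟩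
  have c1 : Col D1 F R' L (bad1 (bad1 bad o) t1) φ1 := ⟨c0.1, c0.2.1, fun k hk hv => by
    by_cases e : k = o
    · rw [e, bad1_ne ho]; simp [bad1]
    · have := c0.2.2 k e hv; rwa [bad1_ne hk] at this⟩
  have hnd := cd.p2.face.1
  have hab : a ≠ b := by rintro rfl; simp at hnd
  have hl1 : ∀ v ∈ l1, v ≠ a ∧ v ≠ b ∧ v ∉ D1.G.support := fun v hv => by
    have h1 : v ≠ a := by rintro rfl; simp [hv] at hnd
    have h2 : v ≠ b := by
      rintro rfl; simp [List.nodup_append] at hnd; exact hnd.2.2 v hv rfl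
    refine ⟨h1, h2, fun hc => ?_⟩
    have := cd.inter v hc ((Pl.on_iff cd.p2.face).2 (by simp [hv])).supp
    tauto
  obtain ⟨v0, hv0⟩ := List.exists_mem_of_ne_nil _ h1
  have hon0 : D.On F v0 := (Pl.on_iff hf0).2 (by simp [hv0])
  obtain ⟨P, P1, P2⟩ := (hgood F hF ⟨v0, hon0⟩).2.1 D1.G.support φ1 ⟨v0, hon0, (hl1 v0 hv0).2.2⟩
  let L2 : V → Finset C := fun v => if v = a then {φ1 a} else if v = b then {φ1 b} else
    if v ∈ l1 then L v \ P v else L v
  have l2a : L2 a = {φ1 a} := by simp [L2]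
  have l2b : L2 b = {φ1 b} := by simp [L2, hab.symm]
  have l2l : ∀ v ∈ l1, L2 v = L v \ P v := fun v hv => by
    simp [L2, (hl1 v hv).1, (hl1 v hv).2.1, hv]
  obtain ⟨φ2, c2⟩ := ih D2 cd.p2.lt F R' L2 (bad2 (bad1 bad o) D2 t t2 φ1) a b l1 cd.Rsymm
    cd.p2.face (cd.good2 hg0 (hbd x (by simp)) (hbd y (by simp)) φ1)
    ⟨by rw [l2a]; simp, by rw [l2b]; simp, fun hr => by
      rw [l2a, l2b, disjoint_singleton]
      exact c1.2.1 a b ((Pl.E_iff cd.p1.face).2 (cyc_ends _ b a)).1.symm hr, fun v hv => by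
      have := hL.inner v ((Pl.on_iff hf0).2 (by simp [hv])).supp
        fun hc => (hl1 v hv).2.2 (hbd v hc)
      have := card_sdiff_ge (L v) (P v)
      have := P1 v
      rw [l2l v hv]; omega, fun v hv hb => by
      simp only [List.cons_append, List.mem_cons, List.mem_append, List.not_mem_nil, or_false,
        not_or] at hb
      simp only [L2, if_neg hb.1, if_neg hb.2.1, if_neg hb.2.2]
      refine hL.inner v (cd.p2.supp hv) fun hc => ?_
      have := cd.inter v (hbd v hc) hv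
      tauto⟩
  obtain ⟨φ, c3, c4, c5⟩ := cd.glue (L := L) hg0 c1 c2
    (by have := c2.1 a ((Pl.on_iff cd.p2.face).2 (by simp)).supp; rwa [l2a, mem_singleton] at this)
    (by have := c2.1 b ((Pl.on_iff cd.p2.face).2 (by simp)).supp; rwa [l2b, mem_singleton] at this)
    (fun _ _ => Subset.rfl) fun v _ h1 h2 => by
      simp only [L2, if_neg h1, if_neg h2]; split_ifs
      · exact sdiff_subset
      · exact Subset.rfl
  refine ⟨φ, c3.1, c3.2.1, fun k hk hv => ?_⟩
  by_cases e : k = F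
  · subst e
    refine P2 φ c4 fun v hv hv1 => ?_
    have hm := (Pl.on_iff hf0).1 hv
    have hm1 : v ∉ b :: l2 ++ [a] := fun hc => hv1 ((Pl.on_iff cd.p1.face).2 hc).supp
    have hvl : v ∈ l1 := by simp at hm hm1; tauto
    have hv2 : v ∈ D2.G.support := ((Pl.on_iff cd.p2.face).2 (by simp [hvl])).supp
    have := c2.1 v hv2
    rw [l2l v hvl] at this
    rw [c5 v hv2]; exact (mem_sdiff.1 this).2
  · have := c3.2.2 k e hv; rwa [bad1_ne hk] at this

theorem ih_sep [Nonempty C] (ih : IHb V C (mu D)) (hR : ∀ a b, R a b → R b a)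
    (hf : IsFace D.G D.f o (x :: m ++ [y])) (hgood : Good D o R bad x y)
    (hL : LOK D R L x m y (x :: m ++ [y])) {F : ℕ} (hF : F ≠ o) {a b : V} (hab : a ≠ b)
    (ha : D.On F a) (hb : D.On F b) (hE : ¬ D.E F a b) (hn : Near D F o a b) :
    ∃ φ, Col D o R L bad φ := by
  obtain ⟨l1, l2, hf0⟩ : ∃ l1 l2, IsFace D.G D.f F (a :: l1 ++ b :: l2) := by
    obtain ⟨w, hw⟩ := ha
    obtain ⟨c, s, hs⟩ := Pl.face_start hw
    rcases List.mem_cons.1 ((Pl.on_iff hs).1 hb) with e | hb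
    · exact absurd e.symm hab
    · obtain ⟨m1, m2, e⟩ := List.append_of_mem hb
      exact ⟨m1, m2, by rw [List.cons_append, ← e]; exact hs⟩
  have h1 : l1 ≠ [] := by rintro rfl; exact hE ((Pl.E_iff hf0).2 (cyc_mid [] _ a b))
  have h2 : l2 ≠ [] := by rintro rfl; exact hE ((Pl.E_iff hf0).2 (cyc_ends l1 a b))
  obtain ⟨D1, D2, R', t, t1, t2, cd, ht⟩ := exists_cut D hR hf0 h1 h2 hn
  have hot : o ≠ t := by rcases ht with e | e; exact e ▸ hF.symm; exact e.symm
  rcases cd.cov_face o hF.symm hot x ((Pl.on_iff hf).2 (by simp)) with ⟨e1, e2⟩ | ⟨e1, e2⟩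
  · exact ih_sep' ih hf hgood hL hF hf0 h1 cd e1 e2
  · exact ih_sep' ih hf hgood hL hF (hf0.rot (l1 := a :: l1)) h2 cd.swap e1 e2

end

theorem ih_step [hC : Nonempty C] (D : Pl V) (ih : IHb V C (mu D)) (hP : PSs C D) : IHs C D := by
  intro o R L bad x y m hR hf hgood hL
  by_cases hch : ∃ a ∈ x :: m ++ [y], ∃ b ∈ x :: m ++ [y], a ≠ b ∧ Near D o o a b ∧
      ¬ Cyc (x :: m ++ [y]) a b
  · obtain ⟨a, ha, b, hb, hab, hn, hc⟩ := hch
    rcases split_two ha hb hab with ⟨l0, l1, l2, e⟩ | ⟨l0, l1, l2, e⟩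
    · exact ih_chord ih hR hf hgood hL e hn hc
    · exact ih_chord ih hR hf hgood hL e hn.symm fun h => hc h.symm
  push Not at hch
  by_cases hn : N1 D o
  swap
  · unfold N1 at hn
    rw [not_and_or] at hn
    rcases hn with hn | hn <;> push Not at hn
    · obtain ⟨k, hk, a, b, ha, hb, hab, hE⟩ := hn
      exact ih_sep ih hR hf hgood hL hk hab.ne ha hb hE (Or.inl hab)
    · obtain ⟨k, k', hk, hk', hkk, a, b, hab, h1, h2, h3, h4, h5⟩ := hn
      exact ih_sep ih hR hf hgood hL hk hab h1 h2 (fun h => h5 h.1)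
        (Or.inr ⟨k', hkk.symm, hk', h3, h4⟩)
  obtain ⟨p, ws, rfl⟩ : ∃ p ws, m = p :: ws := by
    cases m with
    | nil => have := hf.2.1; simp at this
    | cons p ws => exact ⟨p, ws, rfl⟩
  have hx : x ∉ p :: ws ++ [y] := (List.nodup_cons.1 hf.1).1
  have gs : GS D o x [] [] x p ws y := ⟨hf, rfl, hn, by simp, fun a ha b hb hab hnr => by
    have hax : a ≠ x := by rintro rfl; exact hx ha
    have hbx : b ≠ x := by rintro rfl; exact hx hb
    rcases cyc_cons.1 (hch a (List.mem_cons_of_mem _ ha) b (List.mem_cons_of_mem _ hb) hab hnr)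
      with h | h
    · exact Or.inl (nx_inner h hax hbx)
    · exact Or.inr (nx_inner h hbx hax)⟩
  obtain ⟨q1, q2, q3, q4, q5, q6⟩ := gs.p_ne
  have hxp : x ≠ p := gs.Eup.1.ne
  have hxy : x ≠ y := gs.Ezq.1.ne
  obtain ⟨cx, hcx⟩ := hL.hz
  obtain ⟨cy, hcy⟩ := hL.hq
  have h6 : 6 ≤ (L p).card := hL.hτ p (by simp)
  have hne : R x y → cx ≠ cy := fun hr e => Finset.disjoint_left.1 (hL.hzq hr) hcx (e ▸ hcy)
  have tp : ∀ c, tri L x cx p c y cy p = {c} := fun c => by simp [tri, hxp.symm]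
  have ty : ∀ c, tri L x cx p c y cy y = {cy} := fun c => by simp [tri, hxy.symm, q3.symm]
  have lok : ∀ c, LOK D R (tri L x cx p c y cy) x [] y (x :: [] ++ p :: ws ++ [y]) := fun c =>
    ⟨by rw [tri_x]; simp, by rw [ty]; simp, fun hr => by rw [tri_x, ty]; simpa using hne hr,
      by simp, fun v hv hb => by
        rw [tri_other (by simp at hb ⊢; tauto)]; exact hL.inner v hv hb⟩
  have fin : ∀ c ∈ L p, (∃ φ, Col D o R (tri L x cx p c y cy) bad φ) → ∃ φ, Col D o R L bad φ := by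
    rintro c hc ⟨φ, hφ⟩
    refine ⟨φ, hφ.mono fun v _ => ?_⟩
    unfold tri; split_ifs with a1 a2 a3
    · subst a1; simpa using hcx
    · subst a2; simpa using hc
    · subst a3; simpa using hcy
    · exact Subset.rfl
  obtain ⟨g, hg, hE⟩ := gs.exists_g
  by_cases hroot : D.E g x y
  · obtain rfl : ws = [] := by
      by_contra hw; exact gs.not_root (Or.inr hw) hg hE.on' hroot
    obtain ⟨P, P1, P2⟩ := (hgood g hg ⟨x, hE.on⟩).2.1 {x, y} (fun v => if v = x then cx else cy)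
      ⟨p, hE.on', by simp [hxp.symm, q3]⟩
    obtain ⟨c, hc, hc'⟩ := exists_avoid (A := L p) (card_ins_le (card_ins_le (P1 p) cx) cy)
      (by omega)
    simp only [mem_insert, not_or] at hc'
    have Epy : D.E g p y := hn.1 g hg p y hE.on' hroot.on' (gs.Epn (rest := []) rfl).1
    refine fin c hc (fan3 _ D rfl ih hR gs hgood (lok c) (tp c)
      (fun _ => by rw [tri_x]; simpa using hc'.2.1) (fun _ => by rw [ty]; simpa using hc'.1) hg hE
      ⟨P, fun v => (P1 v).trans (by omega), fun v hv hb => ?_, fun φ _ h2 h3 => ?_⟩)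
    · rcases Pl.E_two hE.symm Epy hv with e | e | e
      · exact absurd e hxy
      · exact absurd (by simp [← e]) hb
      · exact absurd (by simp [← e]) hb
    · obtain ⟨f1, f2, f3⟩ := tri_vals (D := D) (o := o) hf h2
      refine P2 φ (fun v hv => ?_) fun v hv hvK => ?_
      · rcases hv with rfl | rfl
        · simp [f1]
        · simp [f3, hxy.symm]
      · by_cases hb : v ∈ x :: [] ++ p :: [] ++ [y]
        · have : v = p := by simp at hb hvK; tauto
          rw [this, f2]; exact hc'.2.2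
        · exact h3 v hv hb
  have st := (hgood g hg ⟨x, hE.on⟩).2.2 hroot
  obtain ⟨a, as, hfg, has, -⟩ := gs.step hg hE
  obtain ⟨e1, e2, e3⟩ := face_E hfg
  obtain ⟨Tr, hTr, hkf⟩ := st.kf p x a e1 e2 e3
  have hfree : ∀ s ∉ Tr, Hd D R (tri L x cx p s y cy) (bad g) (x :: [] ++ p :: ws ++ [y]) g p 0 3 :=
    fun s hs => by
      obtain ⟨E, hE0, hh⟩ := gs.pay_hd hfg has (Or.inl rfl) (hkf s hs)
      exact hh _ (tp s) (by rw [Finset.card_eq_zero.1 (Nat.le_zero.1 hE0)]; simp)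
  by_cases hw : ws = []
  · subst hw
    obtain ⟨c, hc, hc'⟩ := exists_avoid (A := L p) (card_ins_le (card_ins_le hTr cx) cy) (by omega)
    simp only [mem_insert, not_or] at hc'
    exact fin c hc (fan3 _ D rfl ih hR gs hgood (lok c) (tp c)
      (fun _ => by rw [tri_x]; simpa using hc'.2.1) (fun _ => by rw [ty]; simpa using hc'.1) hg hE
      ((hfree c hc'.2.2).mono (fun _ _ => Subset.rfl) (by omega)))
  · obtain ⟨c₀, hc₀⟩ := hP o x [] [] x p ws y R bad L g hR gs hw hg hE (fun v hv w hw hnr => by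
      obtain rfl : v = x := by simpa using hv
      have hvw : v ≠ w := by rintro rfl; exact hx (by simp [hw])
      have := (Pl.E_iff hf).2 (hch v (by simp) w (by simp [hw]) hvw hnr.weaken)
      rcases Pl.E_two gs.Eup gs.Ezq this with e | e | e
      · exact q3 e
      · exact q2 (e ▸ hw)
      · exact q5 (e ▸ hw)) hgood fun v hv => hL.hτ v (by simp [hv])
    obtain ⟨c, hc, hc'⟩ := exists_avoid (A := L p) (card_ins_le (card_ins_le hTr cx) c₀) (by omega)
    simp only [mem_insert, not_or] at hc'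
    refine fin c hc (hc₀ c hc'.1 _ bad ⟨fun v hv => tri_other ?_, fun _ _ => rfl, hgood, lok c⟩
      (tp c) (fun _ => by rw [tri_x]; simpa using hc'.2.1) (hfree c hc'.2.2))
    simp only [List.mem_cons, List.not_mem_nil, or_false, not_or]
    exact ⟨by rintro rfl; exact hx (by simp [hv]), by rintro rfl; exact q2 hv,
      by rintro rfl; exact q5 hv⟩

theorem main_ind [Nonempty C] (n : ℕ) : IHb V C n ∧ PSb V C n := by
  induction n with
  | zero => exact ⟨fun _ h => absurd h (Nat.not_lt_zero _), fun _ h => absurd h (Nat.not_lt_zero _)⟩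
  | succ n ih =>
    have hP : PSb V C (n + 1) := fun D hD =>
      ps_step D (ih.1.mono (by omega)) (ih.2.mono (by omega))
    exact ⟨fun D hD => ih_step D (ih.1.mono (by omega)) (hP D hD), hP⟩

/-- The main colouring theorem for a disc with constrained faces. -/
theorem disc_colour (D : Pl V) (o : ℕ) (R : V → V → Prop) (hR : ∀ a b, R a b → R b a)
    (L : V → Finset C) (bad : ℕ → (V → C) → Prop) (x y : V) (m : List V)
    (hf : IsFace D.G D.f o (x :: m ++ [y]))
    (hb : ∀ k, k ≠ o → (∃ v, D.On k v) → Loc (D.E k) (bad k) ∧ Weak (D.E k) (bad k) ∧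
      (¬ D.E k x y → Strong (D.E k) (fun a b => D.E k a b ∧ R a b) (bad k)))
    (hx : (L x).Nonempty) (hy : (L y).Nonempty) (hxy : R x y → Disjoint (L x) (L y))
    (hm : ∀ v ∈ m, 6 ≤ (L v).card)
    (hi : ∀ v ∈ D.G.support, v ∉ x :: m ++ [y] → 10 ≤ (L v).card) :
    ∃ φ : V → C, (∀ v ∈ D.G.support, φ v ∈ L v) ∧ (∀ a b, D.G.Adj a b → R a b → φ a ≠ φ b) ∧
      ∀ k, k ≠ o → (∃ v, D.On k v) → ¬ bad k φ := by
  have : Nonempty C := ⟨hx.choose⟩
  exact (main_ind (V := V) (C := C) (mu D + 1)).1 D (Nat.lt_succ_self _) o R L bad x y m hR hf hb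
    ⟨hx, hy, hxy, hm, hi⟩

end Pool.Agent.Lib.MP_0fc16c_co
end
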