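import Pool.Agent.Lib.MP_0fc16c_co.Rot

-- part Pool.Agent.Lib.MP_0fc16c_co.Face
section

/-! Chains, joins, the parity lemma, faces of 2-connected structures, and the link lemma. -/

set_option autoImplicit false

open Finset

namespace Pool.Agent.Lib.MP_0fc16c_co

variable {V : Type*} [Fintype V] [DecidableEq V]

namespace PD

omit [Fintype V] in
theorem ez_symm (a b x y : V) : ez a b x y = ez a b y x := by
  unfold ez
  rw [add_comm]
  simp only [and_comm]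

omit [Fintype V] in
theorem ez_ne {a b x y : V} (h : ez a b x y ≠ 0) : (x = a ∧ y = b) ∨ (x = b ∧ y = a) := by
  by_contra hc
  rw [not_or] at hc
  exact h (by rw [ez, if_neg hc.1, if_neg hc.2, add_zero])

omit [Fintype V] in
theorem ez_self {a b : V} (h : a ≠ b) : ez a b a b = 1 := by
  simp [ez, h]

theorem sum_ez (a b v : V) :
    ∑ w, ez a b v w = (if v = a then 1 else 0) + (if v = b then 1 else 0) := by
  unfold ez
  rw [sum_add_distrib]
  congr 1
  · by_cases h : v = a <;> simp [h]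
  · by_cases h : v = b <;> simp [h]

/-- `p` is a chain inside `S` with boundary `a + b`. -/
def Jn (G : SimpleGraph V) (S : Set V) (a b : V) (p : V → V → ZMod 2) : Prop :=
  (∀ x y, p x y = p y x) ∧ (∀ x y, p x y ≠ 0 → G.Adj x y ∧ x ∈ S ∧ y ∈ S) ∧
    ∀ v, ∑ w, p v w = (if v = a then 1 else 0) + (if v = b then 1 else 0)

section
variable {G : SimpleGraph V} {S T : Set V} {a b c : V} {p q : V → V → ZMod 2}

theorem Jn.mono (h : Jn G S a b p) (hS : S ⊆ T) : Jn G T a b p :=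
  ⟨h.1, fun x y e => ⟨(h.2.1 x y e).1, hS (h.2.1 x y e).2.1, hS (h.2.1 x y e).2.2⟩, h.2.2⟩

theorem Jn.symm (h : Jn G S a b p) : Jn G S b a p :=
  ⟨h.1, h.2.1, fun v => by rw [h.2.2, add_comm]⟩

theorem Jn.add (h1 : Jn G S a b p) (h2 : Jn G S b c q) : Jn G S a c (p + q) := by
  refine ⟨fun x y => by simp only [Pi.add_apply, h1.1 x y, h2.1 x y], fun x y e => ?_, fun v => ?_⟩
  · by_cases e' : p x y = 0
    · exact h2.2.1 x y (by simpa [e'] using e)
    · exact h1.2.1 x y e'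
  · simp only [Pi.add_apply]
    rw [sum_add_distrib, h1.2.2, h2.2.2, add_assoc, ← add_assoc (if v = b then (1 : ZMod 2) else 0),
      zmod2_add_self, zero_add]

theorem jn_edge (h : G.Adj a b) (ha : a ∈ S) (hb : b ∈ S) : Jn G S a b (ez a b) := by
  refine ⟨ez_symm a b, fun x y e => ?_, sum_ez a b⟩
  rcases ez_ne e with ⟨rfl, rfl⟩ | ⟨rfl, rfl⟩
  · exact ⟨h, ha, hb⟩
  · exact ⟨h.symm, hb, ha⟩

theorem jn_zero : Jn G S a a 0 :=
  ⟨fun _ _ => rfl, fun _ _ e => absurd rfl e, fun v => by simp [zmod2_add_self]⟩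

theorem exists_jn (h : Rch G S a b) : ∃ p, Jn G S a b p := by
  induction h with
  | refl => exact ⟨0, jn_zero⟩
  | tail _ e ih =>
    obtain ⟨p, hp⟩ := ih
    exact ⟨_, hp.add (jn_edge e.1 e.2.1 e.2.2)⟩

theorem Jn.isCyc (h : Jn G S a a p) : IsCyc G p :=
  ⟨h.1, fun x y e => by_contra fun e' => e (h.2.1 x y e').1, fun v => by
    rw [h.2.2, zmod2_add_self]⟩

theorem Jn.zero_left (h : Jn G S a b p) {x : V} (hx : x ∉ S) (y : V) : p x y = 0 :=
  by_contra fun e => hx (h.2.1 x y e).2.1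

theorem Jn.zero_right (h : Jn G S a b p) (x : V) {y : V} (hy : y ∉ S) : p x y = 0 :=
  by_contra fun e => hy (h.2.1 x y e).2.2

end

omit [DecidableEq V] in
/-- The function on faces can be normalised at one face. -/
theorem span0 (D : PrePl V) {z : V → V → ZMod 2} (hz : IsCyc D.G z) (k : ℕ) :
    ∃ χ : ℕ → ZMod 2, χ k = 0 ∧ ∀ a b, D.G.Adj a b → χ (D.f a b) + χ (D.f b a) = z a b := by
  obtain ⟨χ, rfl⟩ := D.span z hz
  refine ⟨fun i => χ i + χ k, zmod2_add_self _, fun a b h => ?_⟩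
  rw [cutf, if_pos h, add_add_add_comm, zmod2_add_self, add_zero]

/-- The parity lemma at a vertex. -/
theorem parity (D : PrePl V) (k : ℕ) (χ : ℕ → ZMod 2) {v a b : V} {S : Set V}
    (ha : D.G.Adj v a) (hb : D.G.Adj v b) (hr : Rch D.G S a b) (hv : v ∉ S)
    (hT : ∀ w, D.G.Adj v w → (χ (D.f v w) = 0 ∧ χ (D.f w v) = 0) ∨
      ((D.f v w = k ∨ χ (D.f v w) = 1) ∧ (D.f w v = k ∨ χ (D.f w v) = 1)))
    (h0 : χ (D.f v b) = 0 ∧ χ (D.f b v) = 0) : χ (D.f v a) = 0 ∧ χ (D.f a v) = 0 := by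
  by_contra h1
  have hab : a ≠ b := fun e => h1 (e ▸ h0)
  obtain ⟨p, hp⟩ := exists_jn hr
  have hz := (((jn_edge ha (Set.mem_univ _) (Set.mem_univ _)).add
    (hp.mono (Set.subset_univ _))).add
      (jn_edge hb.symm (Set.mem_univ _) (Set.mem_univ _))).isCyc
  obtain ⟨χ', k0, hχ⟩ := span0 D hz k
  have one : ∀ w, D.G.Adj v w → ¬ (χ (D.f v w) = 0 ∧ χ (D.f w v) = 0) →
      cutf D.G D.f (fun i => χ' i * χ i) v w = ez v a v w + ez b v v w := by
    intro w hw hn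
    obtain ⟨t1, t2⟩ := (hT w hw).resolve_left hn
    have e1 : χ' (D.f v w) * χ (D.f v w) = χ' (D.f v w) := by
      rcases t1 with t | t <;> simp [t, k0]
    have e2 : χ' (D.f w v) * χ (D.f w v) = χ' (D.f w v) := by
      rcases t2 with t | t <;> simp [t, k0]
    rw [cutf, if_pos hw, e1, e2, hχ v w hw]
    simp [hp.zero_left hv]
  have h2 := D.even (fun i => χ' i * χ i) v
  rw [sum_eq_single a, one a ha h1, ez_self ha.ne] at h2
  · have : ez b v v a = 0 := by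
      by_contra e
      rcases ez_ne e with e | e
      · exact hb.ne e.1
      · exact hab e.2
    rw [this] at h2
    exact absurd h2 (by decide)
  · intro w _ hwa
    by_cases hw : D.G.Adj v w
    · by_cases hn : χ (D.f v w) = 0 ∧ χ (D.f w v) = 0
      · rw [cutf, if_pos hw, hn.1, hn.2]
        simp
      · have hwb : w ≠ b := fun e => hn (e ▸ h0)
        rw [one w hw hn]
        simp [ez, hwa, hwb, ha.ne, hb.ne]
    · rw [cutf, if_neg hw]
  · simp

/-! ### Lists -/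

omit [Fintype V] in
theorem pz_split (a x y : V) (t : List V) :
    ∀ l : List V, pz (l ++ a :: t) x y = pz (l ++ [a]) x y + pz (a :: t) x y
  | [] => by simp [pz]
  | [c] => by simp [pz]
  | c :: d :: l => by
    have := pz_split a x y t (d :: l)
    simp only [List.cons_append, pz] at this ⊢
    rw [this, add_assoc]

omit [Fintype V] in
theorem pz_ne {x y : V} : ∀ {l : List V}, pz l x y ≠ 0 → Nx l x y ∨ Nx l y x
  | [], h => absurd rfl h
  | [_], h => absurd rfl h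
  | c :: d :: l, h => by
    by_cases e : ez c d x y = 0
    · have := pz_ne (l := d :: l) (by simpa [pz, e] using h)
      refine this.imp ?_ ?_ <;> rintro ⟨l1, l2, e⟩ <;> exact ⟨c :: l1, l2, by simp [e]⟩
    · rcases ez_ne e with ⟨rfl, rfl⟩ | ⟨rfl, rfl⟩
      · exact Or.inl ⟨[], l, rfl⟩
      · exact Or.inr ⟨[], l, rfl⟩

omit [Fintype V] in
theorem pz_mem {x y : V} {l : List V} (h : pz l x y ≠ 0) : x ∈ l ∧ y ∈ l := by
  rcases pz_ne h with ⟨l1, l2, rfl⟩ | ⟨l1, l2, rfl⟩ <;> simp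

omit [Fintype V] in
theorem pz_nx {a b : V} {l : List V} (hl : l.Nodup) (h : Nx l a b) : pz l a b = 1 := by
  obtain ⟨l1, l2, rfl⟩ := h
  have h1 : pz (l1 ++ [a]) a b = 0 := by
    by_contra e
    have := (pz_mem e).2
    grind
  have h2 : pz (b :: l2) a b = 0 := by
    by_contra e
    have := (pz_mem e).1
    grind
  have h3 : a ≠ b := by grind
  rw [pz_split, h1]
  simp [pz, h2, ez_self h3]

omit [Fintype V] in
theorem cz_nx {a b : V} {l : List V} (hl : l.Nodup) (h3 : 3 ≤ l.length)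
    (h : Nx (l ++ l.take 1) a b) : cz l a b = 1 := by
  obtain ⟨c, t, e, rfl, ht⟩ : ∃ c t e, l = c :: t ++ [e] ∧ t ≠ [] := by
    obtain _ | ⟨c, m⟩ := l
    · simp at h3
    · obtain rfl | ⟨t, e, rfl⟩ := List.eq_nil_or_concat' m
      · simp at h3
      · exact ⟨c, t, e, rfl, by rintro rfl; simp at h3⟩
  have e0 : cz (c :: t ++ [e]) a b = pz (c :: t ++ [e]) a b + ez e c a b := by
    have := pz_split e a b [c] (c :: t)
    simpa [cz, pz] using this
  have ends : ¬ Nx (c :: t ++ [e]) c e ∧ ¬ Nx (c :: t ++ [e]) e c := by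
    constructor
    · rintro ⟨l1, l2, h⟩
      obtain _ | ⟨x, l1⟩ := l1
      · obtain _ | ⟨y, t⟩ := t
        · exact ht rfl
        · simp only [List.cons_append, List.nil_append, List.cons.injEq, true_and] at h
          obtain ⟨rfl, -⟩ := h
          simp at hl
      · simp only [List.cons_append, List.cons.injEq] at h
        have : c ∈ t ++ [e] := by rw [h.2]; simp
        exact (List.nodup_cons.1 hl).1 this
    · rintro ⟨l1, l2, h⟩
      obtain _ | ⟨x, l1⟩ := l1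
      · simp only [List.cons_append, List.nil_append, List.cons.injEq] at h
        obtain ⟨rfl, -⟩ := h
        simp at hl
      · simp only [List.cons_append, List.cons.injEq] at h
        have : c ∈ t ++ [e] := by rw [h.2]; simp
        exact (List.nodup_cons.1 hl).1 this
  obtain ⟨l1, l2, h⟩ := h
  obtain rfl | ⟨l2, x, rfl⟩ := List.eq_nil_or_concat' l2
  · have h' : (c :: t) ++ [e, c] = l1 ++ [a, b] := by simpa using h
    obtain ⟨-, h''⟩ := List.append_inj' h' rfl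
    simp only [List.cons.injEq, and_true] at h''
    obtain ⟨rfl, rfl⟩ := h''
    have h1 : pz (c :: t ++ [e]) e c = 0 := by
      by_contra e'
      exact (pz_ne e').elim ends.2 ends.1
    rw [e0, h1, ez_self (by grind), zero_add]
  · have h' : (c :: t ++ [e]) ++ [c] = (l1 ++ a :: b :: l2) ++ [x] := by simpa using h
    have hn : Nx (c :: t ++ [e]) a b := ⟨l1, l2, (List.append_inj' h' rfl).1⟩
    have h1 : ez e c a b = 0 := by
      by_contra e'
      rcases ez_ne e' with ⟨rfl, rfl⟩ | ⟨rfl, rfl⟩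
      · exact ends.2 hn
      · exact ends.1 hn
    rw [e0, h1, pz_nx hl hn, add_zero]

theorem jn_pz {G : SimpleGraph V} : ∀ (t : List V) (a b : V), (a :: t ++ [b]).IsChain G.Adj →
    Jn G Set.univ a b (pz (a :: t ++ [b]))
  | [], a, b, h => by
    have e : pz (a :: [] ++ [b]) = ez a b := by
      funext x y
      simp [pz]
    rw [e]
    exact jn_edge (by simpa using h) trivial trivial
  | c :: t, a, b, h => by
    rw [List.cons_append, List.cons_append, List.isChain_cons_cons] at h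
    exact (jn_edge (S := Set.univ) h.1 trivial trivial).add (jn_pz t c b h.2)

/-- A nonzero element of the cycle space contains a cycle. -/
theorem exists_cycle (H : SimpleGraph V)
    (hH : ∀ u v, H.Adj u v → ∃ w, w ≠ v ∧ H.Adj u w) :
    ∀ (k : ℕ) (u v : V) (t : List V), (u :: v :: t).Nodup → (u :: v :: t).IsChain H.Adj →
      Fintype.card V ≤ t.length + k →
      ∃ l : List V, l.Nodup ∧ 3 ≤ l.length ∧ (l ++ l.take 1).IsChain H.Adj := by
  intro k
  induction k with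
  | zero =>
    intro u v t h1 _ h3
    have := h1.length_le_card
    simp only [List.length_cons] at this
    omega
  | succ k ih =>
    intro u v t h1 h2 h3
    obtain ⟨w, e1, e2⟩ := hH u v (List.isChain_cons_cons.1 h2).1
    by_cases hw : w ∈ t
    · obtain ⟨t1, t2, rfl⟩ := List.append_of_mem hw
      refine ⟨u :: v :: t1 ++ [w], h1.sublist (by simp), by simp, ?_⟩
      have := List.isChain_split (R := H.Adj) (c := w) (l₁ := u :: v :: t1) (l₂ := [u])
      have h4 := (List.isChain_split (R := H.Adj) (c := w) (l₁ := u :: v :: t1) (l₂ := t2)).1 h2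
      simpa using this.2 ⟨h4.1, by simpa using e2.symm⟩
    · refine ih w u (v :: t) (List.nodup_cons.2 ⟨?_, h1⟩) (List.isChain_cons_cons.2 ⟨e2.symm, h2⟩)
        (by simp only [List.length_cons]; omega)
      simp [e1, hw, e2.ne']

omit [DecidableEq V] in
theorem cut_ind {D : PrePl V} {k : ℕ} {x y : V} (h : cutf D.G D.f (ind k) x y ≠ 0) :
    D.G.Adj x y ∧ ((D.f x y = k ∧ D.f y x ≠ k) ∨ (D.f x y ≠ k ∧ D.f y x = k)) := by
  unfold cutf ind at h
  split_ifs at h with h1 h2 h3 h3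
  · exact absurd (zmod2_add_self _) h
  · exact ⟨h1, Or.inl ⟨h2, h3⟩⟩
  · exact ⟨h1, Or.inr ⟨h2, h3⟩⟩
  · simp at h
  · simp at h

omit [DecidableEq V] in
theorem cut_ind_one {D : PrePl V} {k : ℕ} {x y : V} (h : D.E k x y) (hne : D.f x y ≠ D.f y x) :
    cutf D.G D.f (ind k) x y = 1 := by
  obtain ⟨h1, rfl | rfl⟩ := h <;> simp [cutf, ind, h1, hne, hne.symm]

end PD

open PD

/-- faces of a 2-connected structure are cycles -/
theorem pl_of_prePl (D : PrePl V)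
    (h2 : ∀ v, Conn D.G {a | a ∈ D.G.support ∧ a ≠ v})
    (h3 : ∀ a b, D.G.Adj a b → ∃ c ∈ D.G.support, c ≠ a ∧ c ≠ b) :
    ∃ D' : Pl V, D'.toPrePl = D := by
  have hne : ∀ a b, D.G.Adj a b → D.f a b ≠ D.f b a := by
    intro a b h e
    obtain ⟨c, c1, c2, c3⟩ := h3 a b h
    obtain ⟨p, hp⟩ := exists_jn (h2 b a ⟨⟨b, h⟩, h.ne⟩ c ⟨c1, c3⟩)
    obtain ⟨q, hq⟩ := exists_jn (h2 a c ⟨c1, c2⟩ b ⟨⟨a, h.symm⟩, h.ne'⟩)
    obtain ⟨χ, -, hχ⟩ := span0 D (((hp.mono (Set.subset_univ _)).add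
      (hq.mono (Set.subset_univ _))).add (jn_edge h.symm trivial trivial)).isCyc 0
    have := hχ a b h
    rw [e, zmod2_add_self] at this
    simp only [Pi.add_apply] at this
    rw [hp.zero_right a (by simp), hq.zero_left (by simp), ez_symm, ez_self h.ne'] at this
    exact absurd this (by decide)
  refine ⟨⟨D, hne, fun a b hab => ?_⟩, rfl⟩
  generalize hk : D.f a b = k
  have hsym : ∀ x y, cutf D.G D.f (ind k) x y = cutf D.G D.f (ind k) y x := by
    intro x y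
    by_cases h : D.G.Adj x y
    · rw [cutf, cutf, if_pos h, if_pos h.symm, add_comm]
    · rw [cutf, cutf, if_neg h, if_neg fun h' => h h'.symm]
  let H : SimpleGraph V :=
    { Adj := fun x y => cutf D.G D.f (ind k) x y ≠ 0
      symm := ⟨fun x y h => by rwa [hsym]⟩
      loopless := ⟨fun x h => (cut_ind h).1.ne rfl⟩ }
  have hab' : H.Adj a b := by
    show cutf D.G D.f (ind k) a b ≠ 0
    rw [cut_ind_one ⟨hab, Or.inl hk⟩ (hne a b hab)]
    decide
  obtain ⟨l, l1, l2, l3⟩ := exists_cycle H (fun u v h => by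
    by_contra hc
    push Not at hc
    have := D.even (ind k) u
    rw [sum_eq_single v (fun w _ hw => not_not.1 (hc w hw)) (by simp)] at this
    exact h this) (Fintype.card V) a b [] (by simpa using hab.ne) (by simpa using hab') (by simp)
  refine ⟨l, l1, l2, ?_⟩
  have hin : ∀ x y, cz l x y ≠ 0 → H.Adj x y := by
    intro x y h
    rcases pz_ne h with ⟨_, _, e⟩ | ⟨_, _, e⟩
    · exact List.isChain_iff_forall_rel_of_append_cons_cons.1 l3 e
    · exact (List.isChain_iff_forall_rel_of_append_cons_cons.1 l3 e).symm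
  obtain _ | ⟨c, _ | ⟨d, t⟩⟩ := l
  · simp at l2
  · simp at l2
  have hcd : cz (c :: d :: t) c d = 1 := cz_nx l1 l2 ⟨[], t ++ [c], by simp⟩
  have hcyc : IsCyc D.G (cz (c :: d :: t)) :=
    (jn_pz (d :: t) c c (List.IsChain.imp (fun _ _ h => (cut_ind h).1) l3)).isCyc
  generalize c :: d :: t = l at *
  obtain ⟨χ, k0, hχ⟩ := span0 D hcyc k
  have two : ∀ x : ZMod 2, x = 0 ∨ x = 1 := by decide
  have hT : ∀ v w, D.G.Adj v w → (χ (D.f v w) = 0 ∧ χ (D.f w v) = 0) ∨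
      ((D.f v w = k ∨ χ (D.f v w) = 1) ∧ (D.f w v = k ∨ χ (D.f w v) = 1)) := by
    intro v w h
    have e := hχ v w h
    by_cases e0 : cz l v w = 0
    · rw [e0, zmod2_add_eq_zero] at e
      rw [← e]
      rcases two (χ (D.f v w)) with t | t <;> simp [t]
    · have e1 := (two _).resolve_left e0
      rcases (cut_ind (hin v w e0)).2 with t | t
      · rw [t.1, k0, zero_add, e1] at e
        exact Or.inr ⟨Or.inl t.1, Or.inr e⟩
      · rw [t.2, k0, add_zero, e1] at e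
        exact Or.inr ⟨Or.inr e, Or.inl t.2⟩
  have loc : ∀ v x y, D.G.Adj v x → D.G.Adj v y → χ (D.f v y) = 0 ∧ χ (D.f y v) = 0 →
      χ (D.f v x) = 0 ∧ χ (D.f x v) = 0 := fun v x y hx hy h =>
    parity D k χ hx hy (h2 v x ⟨⟨v, hx.symm⟩, hx.ne'⟩ y ⟨⟨v, hy.symm⟩, hy.ne'⟩) (by simp)
      (hT v) h
  have hcd' : D.G.Adj c d := (cut_ind (hin c d (by rw [hcd]; decide))).1
  have all : ∀ x y, D.G.Adj x y → ¬ (χ (D.f x y) = 0 ∧ χ (D.f y x) = 0) := by
    have prop : ∀ (S : Set V) x, Rch D.G S c x → ∀ y, D.G.Adj x y →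
        ¬ (χ (D.f x y) = 0 ∧ χ (D.f y x) = 0) := by
      intro S x h
      induction h with
      | refl =>
        intro y hy h
        have h1 := loc c d y hcd' hy h
        have h4 := hχ c d hcd'
        rw [h1.1, h1.2, hcd] at h4
        exact absurd h4 (by decide)
      | tail _ e ih => exact fun y hy h => ih _ e.1 (loc _ _ y e.1.symm hy h).symm
    intro x y hxy
    obtain ⟨v, v1, v2⟩ : ∃ v, v ≠ c ∧ v ≠ x := by
      by_cases e : d = x
      · obtain ⟨v, -, v1, v2⟩ := h3 c d hcd'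
        exact ⟨v, v1, e ▸ v2⟩
      · exact ⟨d, hcd'.ne', e⟩
    exact prop _ x (h2 v c ⟨⟨d, hcd'⟩, v1.symm⟩ x ⟨⟨y, hxy⟩, v2.symm⟩) y hxy
  funext x y
  by_cases e0 : cutf D.G D.f (ind k) x y = 0
  · rw [e0]
    by_contra e
    exact hin x y (Ne.symm e) e0
  · obtain ⟨h, t⟩ := cut_ind e0
    obtain ⟨t1, t2⟩ := (hT x y h).resolve_left (all x y h)
    rw [(two _).resolve_left e0, ← hχ x y h]
    rcases t with t | t
    · rw [t.1, k0, t2.resolve_left t.2, zero_add]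
    · rw [t.2, k0, t1.resolve_left t.1, add_zero]

namespace PD

theorem face_chain (D : Pl V) {k : ℕ} {l : List V} (h : IsFace D.G D.f k l) :
    (l ++ l.take 1).IsChain D.G.Adj := by
  rw [List.isChain_iff_forall_rel_of_append_cons_cons]
  intro a b l1 l2 e
  have := cz_nx h.1 h.2.1 ⟨l1, l2, e⟩
  rw [← h.2.2] at this
  exact (cut_ind (D := D.toPrePl) (by rw [this]; decide)).1

theorem face_mem (D : Pl V) {k : ℕ} {l : List V} (h : IsFace D.G D.f k l) {x y : V}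
    (e : D.E k x y) : x ∈ l ∧ y ∈ l := by
  have h1 := cut_ind_one e (D.ne x y e.1)
  rw [h.2.2] at h1
  have h2 := pz_mem (l := l ++ l.take 1) (x := x) (y := y) (by rw [← cz, h1]; decide)
  simp only [List.mem_append] at h2
  exact ⟨h2.1.elim id List.mem_of_mem_take, h2.2.elim id List.mem_of_mem_take⟩

omit [Fintype V] [DecidableEq V] in
theorem chain_iff {G : SimpleGraph V} {K : V → Prop} {v : V}
    (hK : ∀ x y, G.Adj x y → x ≠ v → y ≠ v → K x → K y) :
    ∀ (t : List V) (a : V), (a :: t).IsChain G.Adj → v ∉ a :: t → ∀ x ∈ a :: t, (K x ↔ K a)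
  | [], a, _, _ => by simp
  | b :: t, a, h, hv => by
    intro x hx
    rw [List.isChain_cons_cons] at h
    simp only [List.mem_cons, not_or] at hv
    rcases List.mem_cons.1 hx with rfl | hx
    · rfl
    · rw [chain_iff hK t b h.2 (by simp [hv.2]) x hx]
      exact ⟨hK _ _ h.1.symm (Ne.symm hv.2.1) (Ne.symm hv.1),
        hK _ _ h.1 (Ne.symm hv.1) (Ne.symm hv.2.1)⟩

omit [Fintype V] [DecidableEq V] in
theorem cyc_iff {G : SimpleGraph V} {K : V → Prop} {v : V}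
    (hK : ∀ x y, G.Adj x y → x ≠ v → y ≠ v → K x → K y) {l : List V} (h1 : l.Nodup)
    (h2 : (l ++ l.take 1).IsChain G.Adj) {x y : V} (hx : x ∈ l) (hy : y ∈ l) (xv : x ≠ v)
    (yv : y ≠ v) : K x → K y := by
  have gen : ∀ t : List V, t.IsChain G.Adj → v ∉ t → ∀ x ∈ t, ∀ y ∈ t, (K x ↔ K y) := by
    rintro (_ | ⟨a, t⟩) h hv x hx y hy
    · simp at hx
    · rw [chain_iff hK t a h hv x hx, chain_iff hK t a h hv y hy]
  by_cases hv : v ∈ l
  · obtain ⟨l1, l2, rfl⟩ := List.append_of_mem hv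
    have n1 : v ∉ l1 := by grind
    have n2 : v ∉ l2 := by grind
    obtain _ | ⟨c, l1⟩ := l1
    · have h3 : l2.IsChain G.Adj :=
        (show ([v] ++ (l2 ++ [v])).IsChain G.Adj by simpa using h2).right_of_append.left_of_append
      exact (gen l2 h3 n2 x (by grind) y (by grind)).1
    · have h3 : (c :: l1).IsChain G.Adj :=
        (show (c :: l1 ++ (v :: l2 ++ [c])).IsChain G.Adj by simpa using h2).left_of_append
      have h4 : (l2 ++ [c]).IsChain G.Adj :=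
        (show (c :: l1 ++ [v] ++ (l2 ++ [c])).IsChain G.Adj by simpa using h2).right_of_append
      have h5 : ∀ x ∈ c :: l1 ++ v :: l2, x ≠ v → (K x ↔ K c) := by
        intro x hx xv
        rcases List.mem_append.1 hx with hx | hx
        · exact gen _ h3 n1 x hx c (by simp)
        · exact gen _ h4 (by grind) x (by grind) c (by simp)
      rw [h5 x hx xv, h5 y hy yv]
      exact id
  · exact (gen l h2.left_of_append hv x hx y hy).1

/-- Two neighbours of `v` are joined by a path avoiding `v`. -/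
theorem rch_link (D : Pl V) {v a b : V} (ha : D.G.Adj v a) (hb : D.G.Adj v b) :
    Rch D.G {v}ᶜ a b := by
  classical
  let K : V → Prop := fun u => u ≠ v ∧ Rch D.G {v}ᶜ a u
  have hK : ∀ x y, D.G.Adj x y → x ≠ v → y ≠ v → K x → K y := fun x y h xv yv hx =>
    ⟨yv, hx.2.tail ⟨h, xv, yv⟩⟩
  let ψ : ℕ → ZMod 2 := fun j => if ∃ u, K u ∧ D.On j u then 1 else 0
  have key : ∀ x y, D.G.Adj x y → ((∃ u, K u ∧ D.On (D.f x y) u) ↔ K x ∨ K y) := by
    intro x y h
    constructor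
    · rintro ⟨u, u1, w, u2⟩
      obtain ⟨l, hl⟩ := D.face x y h
      have m1 := face_mem D hl u2
      have m2 := face_mem D hl (x := x) (y := y) ⟨h, Or.inl rfl⟩
      by_cases xv : x = v
      · exact Or.inr (cyc_iff hK hl.1 (face_chain D hl) m1.1 m2.2 u1.1 (xv ▸ h.ne') u1)
      · exact Or.inl (cyc_iff hK hl.1 (face_chain D hl) m1.1 m2.1 u1.1 xv u1)
    · rintro (e | e)
      · exact ⟨x, e, y, h, Or.inl rfl⟩
      · exact ⟨y, e, x, h.symm, Or.inr rfl⟩
  have h1 := D.dual ψ (fun x y h => by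
    simp only [ψ, key x y h, key y x h.symm, or_comm]) v a v b ha hb
  simp only [ψ, key v a ha, key v b hb] at h1
  rw [if_pos (Or.inr ⟨ha.ne', Relation.ReflTransGen.refl⟩)] at h1
  by_contra hc
  rw [if_neg (by simp [K, hc])] at h1
  exact absurd h1 (by decide)

/-- The link lemma. -/
theorem link (D : Pl V) (χ : ℕ → ZMod 2) {v a b : V}
    (h : ∀ w, D.G.Adj v w → χ (D.f v w) = χ (D.f w v)) (ha : D.G.Adj v a) (hb : D.G.Adj v b)
    (h0 : χ (D.f v b) = 0) : χ (D.f v a) = 0 := by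
  have two : ∀ x : ZMod 2, x = 0 ∨ x = 1 := by decide
  refine (parity D.toPrePl 0 χ ha hb (rch_link D ha hb) (by simp) (fun w hw => ?_)
    ⟨h0, h b hb ▸ h0⟩).1
  rw [← h w hw]
  rcases two (χ (D.f v w)) with t | t <;> simp [t]

end PD

end Pool.Agent.Lib.MP_0fc16c_co
end

-- part Pool.Agent.Lib.MP_0fc16c_co.Kur
section

/-! No rooted minor of type K33 or K5 at a face. -/

set_option autoImplicit false

open Finset

namespace Pool.Agent.Lib.MP_0fc16c_co

variable {V : Type*} [Fintype V] [DecidableEq V]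

namespace PD

omit [DecidableEq V] in
theorem cross_sum (h : V → V → ZMod 2) (hs : ∀ x y, h x y = h y x) (hd : ∀ x, h x x = 0)
    (A : Finset V) (hA : ∀ v ∈ A, ∀ w, w ∉ A → h v w = 0) : ∑ v ∈ A, ∑ w, h v w = 0 := by
  have e : ∑ v ∈ A, ∑ w, h v w = ∑ p ∈ A ×ˢ A, h p.1 p.2 := by
    rw [sum_product]
    exact sum_congr rfl fun v hv =>
      (sum_subset (subset_univ A) fun w _ hw => hA v hv w hw).symm
  rw [e]
  refine sum_involution (fun p _ => p.swap) (fun p _ => ?_) (fun p _ hp e => hp ?_)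
    (fun p hp => ?_) (fun _ _ => rfl)
  · rw [Prod.fst_swap, Prod.snd_swap, hs p.2, zmod2_add_self]
  · have : p.2 = p.1 := congrArg Prod.fst e
    rw [this, hd]
  · rw [mem_product] at hp ⊢
    exact hp.symm

theorem tripod_alg : ∀ α β γ δ e1 e2 e3 : ZMod 2, α + β = e1 + e2 → γ + δ = e1 + e3 →
    (e1 ≠ 0 → α = γ ∧ β = δ ∧ e2 = 0 ∧ e3 = 0) → (e2 ≠ 0 → γ = 0 ∧ δ = 0 ∧ e3 = 0) →
    (e3 ≠ 0 → α = 0 ∧ β = 0) →
    (1 + α) * (1 + γ) + (1 + β) * (1 + δ) + (e1 + e2 + e3) = 0 := by decide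

theorem tripod (D : PrePl V) (A : Set V) {a1 a2 a3 s1 s2 s3 : V} (h1 : D.G.Adj a1 s1)
    (h2 : D.G.Adj a2 s2) (h3 : D.G.Adj a3 s3) (m1 : a1 ∈ A) (m2 : a2 ∈ A) (m3 : a3 ∈ A)
    (n1 : s1 ∉ A) (n2 : s2 ∉ A) (n3 : s3 ∉ A) (d12 : s1 ≠ s2) (d13 : s1 ≠ s3) (d23 : s2 ≠ s3)
    (χ ψ : ℕ → ZMod 2)
    (c1 : ∀ v ∈ A, ∀ w, w ∉ A → D.G.Adj v w →
      χ (D.f v w) + χ (D.f w v) = ez a1 s1 v w + ez a2 s2 v w)
    (c2 : ∀ v ∈ A, ∀ w, w ∉ A → D.G.Adj v w →
      ψ (D.f v w) + ψ (D.f w v) = ez a1 s1 v w + ez a3 s3 v w)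
    (z1 : χ (D.f a1 s1) = ψ (D.f a1 s1) ∧ χ (D.f s1 a1) = ψ (D.f s1 a1))
    (z2 : ψ (D.f a2 s2) = 0 ∧ ψ (D.f s2 a2) = 0) (z3 : χ (D.f a3 s3) = 0 ∧ χ (D.f s3 a3) = 0) :
    False := by
  classical
  have loc : ∀ {a s v w : V}, s ∉ A → v ∈ A → ez a s v w ≠ 0 → v = a ∧ w = s := by
    intro a s v w hs hv h
    exact (ez_ne h).resolve_right fun e => hs (e.1 ▸ hv)
  have nz : ∀ {a s s' v : V}, s ∉ A → v ∈ A → s' ≠ s → ez a s v s' = 0 := fun hs hv e =>
    by_contra fun h => e (loc hs hv h).2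
  have key := cross_sum (fun v w => cutf D.G D.f (fun i => (1 + χ i) * (1 + ψ i)) v w +
      (ez a1 s1 v w + ez a2 s2 v w + ez a3 s3 v w)) (fun x y => ?_) (fun x => ?_)
    (univ.filter (· ∈ A)) (fun v hv w hw => ?_)
  · simp only [sum_add_distrib, D.even, sum_ez, zero_add, sum_ite_eq',
      mem_filter, mem_univ, true_and, m1, m2, m3, n1, n2, n3, if_true, if_false] at key
    exact absurd key (by decide)
  · rw [ez_symm a1, ez_symm a2, ez_symm a3]
    congr 1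
    by_cases h : D.G.Adj x y
    · rw [cutf, cutf, if_pos h, if_pos h.symm, add_comm]
    · rw [cutf, cutf, if_neg h, if_neg fun h' => h h'.symm]
  · have z : ∀ {a s : V}, D.G.Adj a s → ez a s x x = 0 := fun h => by_contra fun e => by
      rcases ez_ne e with e | e
      · exact h.ne (e.1.symm.trans e.2)
      · exact h.ne (e.2.symm.trans e.1)
    rw [cutf, if_neg (D.G.loopless.1 x), z h1, z h2, z h3]
    simp
  · have hv' : v ∈ A := by simpa using hv
    have hw' : w ∉ A := by simpa using hw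
    by_cases h : D.G.Adj v w
    · rw [cutf, if_pos h]
      refine tripod_alg _ _ _ _ _ _ _ (c1 v hv' w hw' h) (c2 v hv' w hw' h) (fun e => ?_)
        (fun e => ?_) (fun e => ?_)
      · obtain ⟨rfl, rfl⟩ := loc n1 hv' e
        exact ⟨z1.1, z1.2, nz n2 hv' d12, nz n3 hv' d13⟩
      · obtain ⟨rfl, rfl⟩ := loc n2 hv' e
        exact ⟨z2.1, z2.2, nz n3 hv' d23⟩
      · obtain ⟨rfl, rfl⟩ := loc n3 hv' e
        exact z3
    · have z : ∀ {a s : V}, D.G.Adj a s → s ∉ A → ez a s v w = 0 := fun h' hs =>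
        by_contra fun e => by
          obtain ⟨rfl, rfl⟩ := loc hs hv' e
          exact h h'
      rw [cutf, if_neg h, z h1 n1, z h2 n2, z h3 n3]
      simp

/-- A function on faces that does not jump near `S` and vanishes at a face next to `S` vanishes
on all faces at `S`. -/
theorem vanish (D : Pl V) {k : ℕ} {χ : ℕ → ZMod 2} (k0 : χ k = 0) {U S : Set V}
    (hU : ∀ v, v ∉ U → ∀ w, D.G.Adj v w → χ (D.f v w) + χ (D.f w v) = 0) (hS : Conn D.G S)
    (hd : ∀ v ∈ S, v ∉ U) (hx : ∃ x, D.On k x ∧ x ∉ U ∧ (x ∈ S ∨ ∃ a ∈ S, D.G.Adj a x))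
    {v w : V} (hv : v ∈ S) (h : D.G.Adj v w) : χ (D.f v w) = 0 ∧ χ (D.f w v) = 0 := by
  have hU' : ∀ v, v ∉ U → ∀ w, D.G.Adj v w → χ (D.f v w) = χ (D.f w v) := fun v hv w h =>
    zmod2_add_eq_zero.1 (hU v hv w h)
  have step : ∀ x y, D.G.Adj x y → x ∉ U → y ∉ U → (∀ w, D.G.Adj x w → χ (D.f x w) = 0) →
      ∀ w, D.G.Adj y w → χ (D.f y w) = 0 := fun x y h hx hy h0 w hw =>
    link D χ (hU' y hy) hw h.symm (hU' x hx y h ▸ h0 y h)
  obtain ⟨x, ⟨y, e1, e2⟩, x2, x3⟩ := hx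
  have h0 : ∀ w, D.G.Adj x w → χ (D.f x w) = 0 := fun w hw => by
    refine link D χ (hU' x x2) hw e1 ?_
    rcases e2 with e | e
    · rw [e, k0]
    · rw [hU' x x2 y e1, e, k0]
  obtain ⟨a, a1, a2⟩ : ∃ a ∈ S, ∀ w, D.G.Adj a w → χ (D.f a w) = 0 := by
    rcases x3 with e | ⟨a, a1, a2⟩
    · exact ⟨x, e, h0⟩
    · exact ⟨a, a1, step x a a2.symm x2 (hd a a1) h0⟩
  have all : ∀ v, Rch D.G S a v → ∀ w, D.G.Adj v w → χ (D.f v w) = 0 := by
    intro v h
    induction h with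
    | refl => exact a2
    | tail _ e ih => exact step _ _ e.1 (hd _ e.2.1) (hd _ e.2.2) ih
  exact ⟨all v (hS a a1 v hv) w h, hU' v (hd v hv) w h ▸ all v (hS a a1 v hv) w h⟩

/-- The common part of both arguments. -/
theorem three (D : Pl V) (k : ℕ) {A : Set V} (hA : Conn D.G A) {a1 a2 a3 s1 s2 s3 : V}
    (h1 : D.G.Adj a1 s1) (h2 : D.G.Adj a2 s2) (h3 : D.G.Adj a3 s3) (m1 : a1 ∈ A) (m2 : a2 ∈ A)
    (m3 : a3 ∈ A) {R12 R13 : Set V} {r12 r13 : V → V → ZMod 2} (j12 : Jn D.G R12 s1 s2 r12)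
    (j13 : Jn D.G R13 s1 s3 r13) (e12 : ∀ v ∈ A, v ∉ R12) (e13 : ∀ v ∈ A, v ∉ R13)
    (k1 : s1 ∈ R12) (k2 : s2 ∈ R12) (k1' : s1 ∈ R13) (k3 : s3 ∈ R13)
    (d12 : s1 ≠ s2) (d13 : s1 ≠ s3) (d23 : s2 ≠ s3)
    (z2 : ∀ ψ : ℕ → ZMod 2, ψ k = 0 → (∀ v, v ∉ A ∪ R13 → ∀ w, D.G.Adj v w →
      ψ (D.f v w) + ψ (D.f w v) = 0) → ψ (D.f s2 a2) = 0 ∧ ψ (D.f a2 s2) = 0)
    (z3 : ∀ ψ : ℕ → ZMod 2, ψ k = 0 → (∀ v, v ∉ A ∪ R12 → ∀ w, D.G.Adj v w →
      ψ (D.f v w) + ψ (D.f w v) = 0) → ψ (D.f s3 a3) = 0 ∧ ψ (D.f a3 s3) = 0)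
    (z1 : ∀ (ψ : ℕ → ZMod 2) (p : V → V → ZMod 2), ψ k = 0 → Jn D.G A a2 a3 p →
      (∀ v w, D.G.Adj v w → ψ (D.f v w) + ψ (D.f w v) =
        p v w + ez a2 s2 v w + ez a3 s3 v w + r12 v w + r13 v w) →
      ψ (D.f a1 s1) = 0 ∧ ψ (D.f s1 a1) = 0) : False := by
  obtain ⟨p2, q2⟩ := exists_jn (hA a2 m2 a1 m1)
  obtain ⟨p3, q3⟩ := exists_jn (hA a3 m3 a1 m1)
  have c12 := (((jn_edge (S := A ∪ R12) h1 (Or.inl m1) (Or.inr k1)).add
    (j12.mono Set.subset_union_right)).add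
      (jn_edge (S := A ∪ R12) h2 (Or.inl m2) (Or.inr k2)).symm).add (q2.mono Set.subset_union_left)
  have c13 := (((jn_edge (S := A ∪ R13) h1 (Or.inl m1) (Or.inr k1')).add
    (j13.mono Set.subset_union_right)).add
      (jn_edge (S := A ∪ R13) h3 (Or.inl m3) (Or.inr k3)).symm).add (q3.mono Set.subset_union_left)
  obtain ⟨χ, χ0, hχ⟩ := span0 D.toPrePl c12.isCyc k
  obtain ⟨ψ, ψ0, hψ⟩ := span0 D.toPrePl c13.isCyc k
  have y1 := z1 (fun i => χ i + ψ i) (p2 + p3) (by rw [χ0, ψ0, add_zero]) (q2.add q3.symm)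
    fun v w h => by
      rw [add_add_add_comm, hχ v w h, hψ v w h]
      simp only [Pi.add_apply]
      linear_combination zmod2_add_self (ez a1 s1 v w)
  refine tripod D.toPrePl A h1 h2 h3 m1 m2 m3 (fun h => e12 _ h k1) (fun h => e12 _ h k2)
    (fun h => e13 _ h k3) d12 d13 d23 χ ψ (fun v hv w hw h => ?_) (fun v hv w hw h => ?_)
    ⟨zmod2_add_eq_zero.1 y1.1, zmod2_add_eq_zero.1 y1.2⟩
    (z2 ψ ψ0 fun v hv w h => by rw [hψ v w h, c13.zero_left hv]).symm
    (z3 χ χ0 fun v hv w h => by rw [hχ v w h, c12.zero_left hv]).symm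
  · rw [hχ v w h]
    simp [j12.zero_left (e12 v hv), q2.zero_right v hw]
  · rw [hψ v w h]
    simp [j13.zero_left (e13 v hv), q3.zero_right v hw]

/-- A join between two touching connected sets. -/
theorem jn_tch {G : SimpleGraph V} {S T : Set V} (hS : Conn G S) (hT : Conn G T) (h : Tch G S T)
    {s t : V} (hs : s ∈ S) (ht : t ∈ T) : ∃ r, Jn G (S ∪ T) s t r := by
  obtain ⟨a, ha, b, hb, e⟩ := h
  obtain ⟨p, hp⟩ := exists_jn (hS s hs a ha)
  obtain ⟨q, hq⟩ := exists_jn (hT b hb t ht)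
  exact ⟨_, ((hp.mono Set.subset_union_left).add (jn_edge e (Or.inl ha) (Or.inr hb))).add
    (hq.mono Set.subset_union_right)⟩

omit [Fintype V] in
theorem ez_zero {a b v : V} (w : V) (h1 : v ≠ a) (h2 : v ≠ b) : ez a b v w = 0 := by
  simp [ez, h1, h2]

end PD

open PD

theorem noK33_face (D : Pl V) (k : ℕ) : NoK33 D.G {v | D.On k v} := by
  intro A1 A2 S1 S2 S3 cA1 cA2 c1 c2 c3 dA d11 d12 d13 d21 d22 d23 e12 e13 e23
    ⟨a1, m1, s1, n1, h1⟩ ⟨a2, m2, s2, n2, h2⟩ ⟨a3, m3, s3, n3, h3⟩ t1 t2 t3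
    ⟨x1, o1, y1⟩ ⟨x2, o2, y2⟩ ⟨x3, o3, y3⟩
  rw [Set.disjoint_left] at dA d11 d12 d13 d21 d22 d23 e12 e13 e23
  obtain ⟨b, hb, -⟩ := id t1
  obtain ⟨r1, j1⟩ := jn_tch cA2 c1 t1 hb n1
  obtain ⟨r2, j2⟩ := jn_tch cA2 c2 t2 hb n2
  obtain ⟨r3, j3⟩ := jn_tch cA2 c3 t3 hb n3
  refine three D k cA1 h1 h2 h3 m1 m2 m3 (R12 := A2 ∪ S1 ∪ S2) (R13 := A2 ∪ S1 ∪ S3)
    ((j1.symm.mono (by grind)).add (j2.mono (by grind)))
    ((j1.symm.mono (by grind)).add (j3.mono (by grind))) (by grind) (by grind) (by grind)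
    (by grind) (by grind) (by grind) (by grind) (by grind) (by grind)
    (fun ψ k0 h => vanish D k0 h c2 (by grind) ⟨x2, o2, by grind, Or.inl y2⟩ n2 h2.symm)
    (fun ψ k0 h => vanish D k0 h c3 (by grind) ⟨x3, o3, by grind, Or.inl y3⟩ n3 h3.symm)
    (fun ψ p k0 hp h => (vanish D k0 (U := A1 ∪ A2 ∪ S2 ∪ S3) (fun v hv w e => ?_) c1 (by grind)
      ⟨x1, o1, by grind, Or.inl y1⟩ n1 h1.symm).symm)
  rw [h v w e, hp.zero_left (by grind), ez_zero w (by grind) (by grind),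
    ez_zero w (by grind) (by grind)]
  simp only [Pi.add_apply]
  rw [j2.zero_left (by grind), j3.zero_left (by grind)]
  simp [zmod2_add_self]

theorem noK5_face (D : Pl V) (k : ℕ) : NoK5 D.G {v | D.On k v} := by
  intro S1 S2 S3 S4 c1 c2 c3 c4 d12 d13 d14 d23 d24 d34
    ⟨a2, m2, s2, n2, h2⟩ ⟨a3, m3, s3, n3, h3⟩ ⟨a4, m4, s4, n4, h4⟩ t23 t24 t34
    ⟨x1, o1, y1⟩ ⟨x2, o2, y2⟩ ⟨x3, o3, y3⟩ ⟨x4, o4, y4⟩
  rw [Set.disjoint_left] at d12 d13 d14 d23 d24 d34
  obtain ⟨r23, j23⟩ := jn_tch c2 c3 t23 n2 n3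
  obtain ⟨r24, j24⟩ := jn_tch c2 c4 t24 n2 n4
  obtain ⟨r34, j34⟩ := jn_tch c3 c4 t34 n3 n4
  refine three D k c1 h2 h3 h4 m2 m3 m4 j23 j24 (by grind) (by grind) (by grind)
    (by grind) (by grind) (by grind) (by grind) (by grind) (by grind)
    (fun ψ k0 h => vanish D k0 h c3 (by grind) ⟨x3, o3, by grind, y3.2.2.2⟩ n3 h3.symm)
    (fun ψ k0 h => vanish D k0 h c4 (by grind) ⟨x4, o4, by grind, y4.2.2.2⟩ n4 h4.symm)
    (fun ψ p k0 hp h => ?_)
  have T := ((j23.mono (T := S2 ∪ S3 ∪ S4) (by grind)).add (j34.mono (by grind))).add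
    (j24.symm.mono (by grind))
  obtain ⟨χ, χ0, hχ⟩ := span0 D.toPrePl T.isCyc k
  have u1 := vanish D χ0 (U := S2 ∪ S3 ∪ S4) (fun v hv w e => by rw [hχ v w e, T.zero_left hv]) c1
    (by grind) ⟨x1, o1, by grind, y1.2.2.2⟩ m2 h2
  have u2 := vanish D (χ := fun i => ψ i + χ i) (k := k) (by rw [k0, χ0, add_zero])
    (U := S1 ∪ S3 ∪ S4) (fun v hv w e => by
      rw [add_add_add_comm, h v w e, hχ v w e, hp.zero_left (by grind),
        ez_zero w (by grind) (by grind), ez_zero w (by grind) (by grind)]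
      simp only [Pi.add_apply]
      rw [j34.zero_left (by grind)]
      linear_combination zmod2_add_self (r23 v w) + zmod2_add_self (r24 v w)) c2
    (by grind) ⟨x2, o2, by grind, y2.2.2.2⟩ n2 h2.symm
  simp only [u1.1, u1.2, add_zero] at u2
  exact u2.symm

theorem no_clique5 (D : Pl V) (S : Finset V) (hS : S.card = 5) :
    ¬ D.G.IsClique (S : Set V) := by
  intro h
  obtain ⟨x, T, hx, rfl, hT⟩ := card_eq_succ.1 hS
  obtain ⟨a, T', ha, rfl, hT'⟩ := card_eq_succ.1 hT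
  obtain ⟨b, c, d, e1, e2, e3, rfl⟩ := card_eq_three.1 hT'
  simp only [mem_insert, mem_singleton, not_or] at hx ha
  have adj : ∀ u v, u ∈ ({x, a, b, c, d} : Finset V) → v ∈ ({x, a, b, c, d} : Finset V) → u ≠ v →
      D.G.Adj u v := fun u v hu hv e => h (mem_coe.2 hu) (mem_coe.2 hv) e
  have cn : ∀ u, Conn D.G {u} := fun u p hp q hq => by
    rw [hp, hq]
    exact Relation.ReflTransGen.refl
  have tc : ∀ u v, u ∈ ({x, a, b, c, d} : Finset V) → v ∈ ({x, a, b, c, d} : Finset V) → u ≠ v →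
      Tch D.G {u} {v} := fun u v hu hv e => ⟨u, rfl, v, rfl, adj u v hu hv e⟩
  have ox : D.On (D.f x a) x := ⟨a, adj x a (by simp) (by simp) hx.1, Or.inl rfl⟩
  have out : ∀ u p q r, u ∈ ({x, a, b, c, d} : Finset V) → x ≠ u → x ≠ p → x ≠ q → x ≠ r →
      Out D.G {v | D.On (D.f x a) v} {u} {p} {q} {r} := fun u p q r hu e e1 e2 e3 =>
    ⟨x, ox, e1, e2, e3, Or.inr ⟨u, rfl, adj u x hu (by simp) e.symm⟩⟩
  exact noK5_face D (D.f x a) {a} {b} {c} {d} (cn _) (cn _) (cn _) (cn _) (by simp [ha.1])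
    (by simp [ha.2.1]) (by simp [ha.2.2]) (by simp [e1]) (by simp [e2]) (by simp [e3])
    (tc _ _ (by simp) (by simp) ha.1) (tc _ _ (by simp) (by simp) ha.2.1)
    (tc _ _ (by simp) (by simp) ha.2.2) (tc _ _ (by simp) (by simp) e1)
    (tc _ _ (by simp) (by simp) e2) (tc _ _ (by simp) (by simp) e3)
    (out _ _ _ _ (by simp) hx.1 hx.2.1 hx.2.2.1 hx.2.2.2)
    (out _ _ _ _ (by simp) hx.2.1 hx.1 hx.2.2.1 hx.2.2.2)
    (out _ _ _ _ (by simp) hx.2.2.1 hx.1 hx.2.1 hx.2.2.2)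
    (out _ _ _ _ (by simp) hx.2.2.2 hx.1 hx.2.1 hx.2.2.1)

end Pool.Agent.Lib.MP_0fc16c_co
end
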