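import Mathlib

-- part Pool.Agent.Lib.MP_0fc16c_co.Defs
section

/-! Basic definitions: chains mod 2, abstract plane structures, face constraints. -/

set_option autoImplicit false

open Finset

namespace Pool.Agent.Lib.MP_0fc16c_co

variable {V : Type*} {C : Type*}

/-! ### Lists as paths and cycles -/

/-- `a` is immediately followed by `b` in the list. -/
def Nx (l : List V) (a b : V) : Prop := ∃ l1 l2, l = l1 ++ a :: b :: l2

/-- `a` and `b` are cyclically consecutive in the list. -/
def Cyc (l : List V) (a b : V) : Prop := Nx (l ++ l.take 1) a b ∨ Nx (l ++ l.take 1) b a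

section chains
variable [DecidableEq V]

/-- The mod 2 chain of the edge `ab`. -/
def ez (a b x y : V) : ZMod 2 :=
  (if x = a ∧ y = b then 1 else 0) + (if x = b ∧ y = a then 1 else 0)

/-- The mod 2 chain of the walk given by a list. -/
def pz : List V → V → V → ZMod 2
  | [] => fun _ _ => 0
  | [_] => fun _ _ => 0
  | a :: b :: t => fun x y => ez a b x y + pz (b :: t) x y

/-- The mod 2 chain of the closed walk given by a list. -/
def cz (l : List V) : V → V → ZMod 2 := pz (l ++ l.take 1)

end chains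

/-- Indicator of one face label. -/
def ind (k j : ℕ) : ZMod 2 := if j = k then 1 else 0

open Classical in
/-- The coboundary of a function on face labels. -/
noncomputable def cutf (G : SimpleGraph V) (f : V → V → ℕ) (χ : ℕ → ZMod 2) (a b : V) : ZMod 2 :=
  if G.Adj a b then χ (f a b) + χ (f b a) else 0

/-- An element of the cycle space of `G`. -/
def IsCyc [Fintype V] (G : SimpleGraph V) (z : V → V → ZMod 2) : Prop :=
  (∀ a b, z a b = z b a) ∧ (∀ a b, ¬ G.Adj a b → z a b = 0) ∧ ∀ v, ∑ w, z v w = 0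

/-- Abstract duality: the two sides of the edge `ab` are the labels `f a b` and `f b a`, the
cycle space is the cut space of the dual, and the dual is connected. -/
structure PrePl (V : Type*) [Fintype V] where
  G : SimpleGraph V
  f : V → V → ℕ
  even : ∀ (χ : ℕ → ZMod 2) (v : V), ∑ w, cutf G f χ v w = 0
  span : ∀ z, IsCyc G z → ∃ χ, z = cutf G f χ
  dual : ∀ χ : ℕ → ZMod 2, (∀ a b, G.Adj a b → χ (f a b) = χ (f b a)) →
    ∀ a b c d, G.Adj a b → G.Adj c d → χ (f a b) = χ (f c d)

/-- The face with label `k` is bounded by the cycle `l`. -/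
def IsFace [DecidableEq V] (G : SimpleGraph V) (f : V → V → ℕ) (k : ℕ) (l : List V) : Prop :=
  l.Nodup ∧ 3 ≤ l.length ∧ cutf G f (ind k) = cz l

/-- A plane structure all of whose faces are bounded by cycles. -/
structure Pl (V : Type*) [Fintype V] [DecidableEq V] extends PrePl V where
  ne : ∀ a b, G.Adj a b → f a b ≠ f b a
  face : ∀ a b, G.Adj a b → ∃ l, IsFace G f (f a b) l

namespace PrePl
variable [Fintype V] (D : PrePl V)

/-- The edge `ab` lies on the face `k`. -/
def E (k : ℕ) (a b : V) : Prop := D.G.Adj a b ∧ (D.f a b = k ∨ D.f b a = k)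

/-- The vertex `v` lies on the face `k`. -/
def On (k : ℕ) (v : V) : Prop := ∃ w, D.E k v w

end PrePl

/-! ### Connectivity inside a set -/

/-- Reachability inside the set `S`. -/
def Rch (G : SimpleGraph V) (S : Set V) (a b : V) : Prop :=
  Relation.ReflTransGen (fun x y => G.Adj x y ∧ x ∈ S ∧ y ∈ S) a b

/-- The set `S` induces a connected (possibly empty) subgraph. -/
def Conn (G : SimpleGraph V) (S : Set V) : Prop := ∀ a ∈ S, ∀ b ∈ S, Rch G S a b

/-- Some edge joins the two sets. -/
def Tch (G : SimpleGraph V) (A B : Set V) : Prop := ∃ a ∈ A, ∃ b ∈ B, G.Adj a b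

/-! ### Constraints carried by a face

`E` is the edge relation of the face, `Q` the set of pairs that must get different colours, and
`bad` the set of forbidden colourings. -/

/-- Vertices of the face. -/
def OnE (E : V → V → Prop) (v : V) : Prop := ∃ w, E v w

/-- Proper on the pairs in `Q`. -/
def Pr (Q : V → V → Prop) (φ : V → C) : Prop := ∀ a b, Q a b → φ a ≠ φ b

/-- The constraint only depends on the colours of the vertices of the face. -/
def Loc (E : V → V → Prop) (bad : (V → C) → Prop) : Prop :=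
  ∀ φ ψ, (∀ v, OnE E v → φ v = ψ v) → bad φ → bad ψ

/-- Whatever the colours on `K`, the remaining vertices can protect the face by avoiding three
colours each. -/
def Weak (E : V → V → Prop) (bad : (V → C) → Prop) : Prop :=
  ∀ (K : Set V) (ψ : V → C), (∃ v, OnE E v ∧ v ∉ K) →
    ∃ P : V → Finset C, (∀ v, (P v).card ≤ 3) ∧
      ∀ φ, (∀ v ∈ K, φ v = ψ v) → (∀ v, OnE E v → v ∉ K → φ v ∉ P v) → ¬ bad φ

/-- If `p` has colour `c`, the face is protected when `u` avoids `i` colours, `u'` avoids `j`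
colours and every other vertex avoids `n` colours. -/
def Pay (E Q : V → V → Prop) (bad : (V → C) → Prop) (p u u' : V) (c : C) (i j n : ℕ) : Prop :=
  ∃ P : V → Finset C, (P u).card ≤ i ∧ (P u').card ≤ j ∧ (∀ v, (P v).card ≤ n) ∧
    ∀ φ, Pr Q φ → φ p = c → (∀ v, OnE E v → v ≠ p → φ v ∉ P v) → ¬ bad φ

/-- The colour of `v` is the same in all proper bad colourings. -/
def Fix (Q : V → V → Prop) (bad : (V → C) → Prop) (v : V) : Prop :=
  ∃ c, ∀ φ, Pr Q φ → bad φ → φ v = c

/-- The properties of a face used in the main induction. -/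
structure Strong (E Q : V → V → Prop) (bad : (V → C) → Prop) : Prop where
  kl : ∀ p u u', E p u → E p u' → u ≠ u' → ∀ c, Pay E Q bad p u u' c 3 0 3
  kf : ∀ p u u', E p u → E p u' → u ≠ u' →
    ∃ Tr : Finset C, Tr.card ≤ 3 ∧ ∀ c ∉ Tr, Pay E Q bad p u u' c 0 0 3
  p4 : ∀ p u u', E p u → E p u' → u ≠ u' →
    (∃ Tr : Finset C, Tr.card ≤ 2 ∧ ∀ c ∉ Tr, Pay E Q bad p u u' c 0 0 4) ∨
      ∀ c, Pay E Q bad p u u' c 2 1 4
  sl : ∀ p u u', E p u → E p u' → u ≠ u' → ¬ E u u' → ∀ c γ,
    ∃ P : V → Finset C, (∀ v, (P v).card ≤ 4) ∧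
      ∀ φ, Pr Q φ → φ p = c → φ u = γ →
        (∀ v, OnE E v → v ≠ p → v ≠ u → v ≠ u' → φ v ∉ P v) → ¬ bad φ
  star : ∀ p u u', E p u → E p u' → E u u' →
    (∀ c d, ∃ Z : Finset C, Z.card ≤ 2 ∧
      ∀ φ, Pr Q φ → φ p = c → φ u = d → φ u' ∉ Z → ¬ bad φ) ∨ Fix Q bad p ∨ Fix Q bad u
  p5 : ∀ p u u', E p u → E p u' → E u u' →
    (∃ c₀, ∀ c ≠ c₀, ∃ Z : Finset C, Z.card ≤ 2 ∧
      ∀ φ, Pr Q φ → φ p = c → φ u ∉ Z → ¬ bad φ) ∨ Fix Q bad u'

/-! ### Components of low degree vertices -/

/-- The colouring `φ` of the vertices outside `T` does not extend to `T`. -/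
def badT (G : SimpleGraph V) (T : Finset V) (L : V → Finset C) (φ : V → C) : Prop :=
  ¬ ∃ ψ : V → C, (∀ t ∈ T, ψ t ∈ L t) ∧ (∀ t ∈ T, ∀ s ∈ T, G.Adj t s → ψ t ≠ ψ s) ∧
    ∀ t ∈ T, ∀ x, x ∉ T → G.Adj t x → ψ t ≠ φ x

/-- `T` is connected and its lists are as long as the degrees. -/
structure TCtx (G : SimpleGraph V) (T : Finset V) (L : V → Finset C) : Prop where
  ne : T.Nonempty
  conn : Conn G (T : Set V)
  deg : ∀ t ∈ T, (G.neighborSet t).ncard ≤ (L t).card

/-- No minor of the complete bipartite graph on 2+3 vertices whose three branch sets on the large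
side all meet `O` (think of `O` as the boundary of one face). -/
def NoK33 (G : SimpleGraph V) (O : Set V) : Prop :=
  ∀ A1 A2 S1 S2 S3 : Set V, Conn G A1 → Conn G A2 → Conn G S1 → Conn G S2 → Conn G S3 →
    Disjoint A1 A2 → Disjoint A1 S1 → Disjoint A1 S2 → Disjoint A1 S3 →
    Disjoint A2 S1 → Disjoint A2 S2 → Disjoint A2 S3 →
    Disjoint S1 S2 → Disjoint S1 S3 → Disjoint S2 S3 →
    Tch G A1 S1 → Tch G A1 S2 → Tch G A1 S3 → Tch G A2 S1 → Tch G A2 S2 → Tch G A2 S3 →
    (∃ x ∈ O, x ∈ S1) → (∃ x ∈ O, x ∈ S2) → (∃ x ∈ O, x ∈ S3) → False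

/-- `S` contains or is adjacent to a vertex of `O` outside the three other sets. -/
def Out (G : SimpleGraph V) (O S S' S'' S3 : Set V) : Prop :=
  ∃ x ∈ O, x ∉ S' ∧ x ∉ S'' ∧ x ∉ S3 ∧ (x ∈ S ∨ ∃ a ∈ S, G.Adj a x)

/-- No minor of the complete graph on four vertices all of whose branch sets reach `O`. -/
def NoK5 (G : SimpleGraph V) (O : Set V) : Prop :=
  ∀ S1 S2 S3 S4 : Set V, Conn G S1 → Conn G S2 → Conn G S3 → Conn G S4 →
    Disjoint S1 S2 → Disjoint S1 S3 → Disjoint S1 S4 →
    Disjoint S2 S3 → Disjoint S2 S4 → Disjoint S3 S4 →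
    Tch G S1 S2 → Tch G S1 S3 → Tch G S1 S4 → Tch G S2 S3 → Tch G S2 S4 → Tch G S3 S4 →
    Out G O S1 S2 S3 S4 → Out G O S2 S1 S3 S4 → Out G O S3 S1 S2 S4 → Out G O S4 S1 S2 S3 →
    False

/-- `T` sits alone inside a face bounded by the cycle `B`. -/
structure Simple (G : SimpleGraph V) (T : Finset V) (B : List V) : Prop where
  nodup : B.Nodup
  len : 3 ≤ B.length
  link : ∀ a b, Cyc B a b → G.Adj a b
  disj : ∀ b ∈ B, b ∉ T
  nbr : ∀ t ∈ T, ∀ x, G.Adj t x → x ∈ T ∨ x ∈ B
  sees : ∀ b ∈ B, ∃ t ∈ T, G.Adj t b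
  lc : ∀ (v : V) (K : Set V), K.Nonempty → K ⊆ (T : Set V) → v ∉ K →
    (∀ a ∈ K, ∀ b ∈ T, G.Adj a b → b ∈ K ∨ b = v) →
    ∃ x ∈ B, ∃ y ∈ B, x ≠ y ∧ (∃ a ∈ K, G.Adj a x) ∧ ∃ a ∈ K, G.Adj a y
  k33 : NoK33 G {v | v ∈ B}
  k5 : NoK5 G {v | v ∈ B}

end Pool.Agent.Lib.MP_0fc16c_co
end

-- part Pool.Agent.Lib.MP_0fc16c_co.Basic
section

/-! Lists as walks, chains mod 2. -/

set_option autoImplicit false
set_option linter.unusedSectionVars false

open Finset

namespace Pool.Agent.Lib.MP_0fc16c_co

variable {V : Type*}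

theorem z2_cases (x : ZMod 2) : x = 0 ∨ x = 1 := by revert x; decide

theorem z2_add_self (x : ZMod 2) : x + x = 0 := by revert x; decide

theorem z2_add_eq_zero {x y : ZMod 2} : x + y = 0 ↔ x = y := by revert x y; decide

theorem z2_ne_zero {x : ZMod 2} : x ≠ 0 ↔ x = 1 := by revert x; decide

theorem z2_ne_one {x : ZMod 2} : x ≠ 1 ↔ x = 0 := by revert x; decide

theorem z2_add_eq_one {x y : ZMod 2} : x + y = 1 ↔ x ≠ y := by revert x y; decide

/-! ### Nx -/

theorem Nx.mem_left {l : List V} {a b : V} (h : Nx l a b) : a ∈ l := by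
  obtain ⟨l1, l2, rfl⟩ := h; simp

theorem Nx.mem_right {l : List V} {a b : V} (h : Nx l a b) : b ∈ l := by
  obtain ⟨l1, l2, rfl⟩ := h; simp

theorem nx_nil {a b : V} : ¬ Nx [] a b := by
  rintro ⟨l1, l2, h⟩; simp at h

theorem nx_single {x a b : V} : ¬ Nx [x] a b := by
  rintro ⟨l1, l2, h⟩
  have := congrArg List.length h
  simp at this; omega

theorem nx_cons_cons {x y a b : V} {t : List V} :
    Nx (x :: y :: t) a b ↔ (a = x ∧ b = y) ∨ Nx (y :: t) a b := by
  constructor
  · rintro ⟨l1, l2, h⟩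
    cases l1 with
    | nil => simp at h; left; exact ⟨h.1.symm, h.2.1.symm⟩
    | cons c l1 =>
      simp at h
      right; exact ⟨l1, l2, h.2⟩
  · rintro (⟨rfl, rfl⟩ | ⟨l1, l2, h⟩)
    · exact ⟨[], t, rfl⟩
    · exact ⟨x :: l1, l2, by simp [h]⟩

theorem nx_append {l1 l2 : List V} {x a b : V} :
    Nx (l1 ++ x :: l2) a b ↔ Nx (l1 ++ [x]) a b ∨ Nx (x :: l2) a b := by
  induction l1 with
  | nil => simp [nx_single]
  | cons c l1 ih =>
    cases l1 with
    | nil => simp [nx_cons_cons, nx_single]
    | cons d l1 =>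
      simp only [List.cons_append] at ih ⊢
      rw [nx_cons_cons, nx_cons_cons, ih, or_assoc]

theorem nx_reverse {l : List V} {a b : V} : Nx l.reverse a b ↔ Nx l b a := by
  constructor
  · rintro ⟨l1, l2, h⟩
    refine ⟨l2.reverse, l1.reverse, ?_⟩
    have := congrArg List.reverse h
    simpa using this
  · rintro ⟨l1, l2, rfl⟩
    exact ⟨l2.reverse, l1.reverse, by simp⟩

theorem Nx.mem_tail {x a b : V} {t : List V} (h : Nx (x :: t) a b) : b ∈ t := by
  obtain ⟨l1, l2, h⟩ := h
  cases l1 with
  | nil => simp at h; simp [h.2]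
  | cons c l1 => simp at h; simp [h.2]

theorem Nx.mem_dropLast {x a b : V} {t : List V} (h : Nx (t ++ [x]) a b) : a ∈ t := by
  have h' : Nx (x :: t.reverse) b a := by
    rw [← nx_reverse]; simpa using h
  simpa using h'.mem_tail

theorem nx_fun {l : List V} {x a b c : V} (hl : l.Nodup) (h1 : Nx (l ++ [x]) a b)
    (h2 : Nx (l ++ [x]) a c) : b = c := by
  induction l with
  | nil => exact absurd h1 nx_single
  | cons y t ih =>
    have hy : y ∉ t := (List.nodup_cons.1 hl).1
    have ht : t.Nodup := (List.nodup_cons.1 hl).2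
    cases t with
    | nil =>
      simp only [List.cons_append, List.nil_append, nx_cons_cons, nx_single, or_false] at h1 h2
      rw [h1.2, h2.2]
    | cons w t =>
      simp only [List.cons_append] at h1 h2 ih
      rw [nx_cons_cons] at h1 h2
      rcases h1 with ⟨rfl, rfl⟩ | h1 <;> rcases h2 with ⟨h, rfl⟩ | h2
      · rfl
      · exact absurd (Nx.mem_dropLast (t := b :: t) h2) hy
      · subst h; exact absurd (Nx.mem_dropLast (t := c :: t) h1) hy
      · exact ih ht h1 h2

theorem nx_inj {l : List V} {x a b c : V} (hl : l.Nodup) (h1 : Nx (x :: l) b a)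
    (h2 : Nx (x :: l) c a) : b = c := by
  have h1' : Nx (l.reverse ++ [x]) a b := by rw [← nx_reverse]; simpa using h1
  have h2' : Nx (l.reverse ++ [x]) a c := by rw [← nx_reverse]; simpa using h2
  exact nx_fun (List.nodup_reverse.2 hl) h1' h2'

theorem Nx.ne {l : List V} {a b : V} (hl : l.Nodup) (h : Nx l a b) : a ≠ b := by
  obtain ⟨l1, l2, rfl⟩ := h
  rintro rfl
  have := (List.nodup_append.1 hl).2.1
  simp at this

theorem nx_asymm {l : List V} {a b : V} (hl : l.Nodup) (h : Nx l a b) : ¬ Nx l b a := by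
  induction l with
  | nil => exact nx_nil
  | cons y t ih =>
    have hy : y ∉ t := (List.nodup_cons.1 hl).1
    have ht : t.Nodup := (List.nodup_cons.1 hl).2
    cases t with
    | nil => exact nx_single
    | cons w t =>
      intro h2
      rw [nx_cons_cons] at h h2
      rcases h with ⟨rfl, rfl⟩ | h <;> rcases h2 with ⟨h', h''⟩ | h2
      · subst h'; simp at hy
      · exact hy h2.mem_right
      · subst h'; exact hy h.mem_right
      · exact ih ht h h2

/-! ### Cyc -/

theorem cyc_cons {x a b : V} {t : List V} :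
    Cyc (x :: t) a b ↔ Nx (x :: t ++ [x]) a b ∨ Nx (x :: t ++ [x]) b a := by
  simp [Cyc]

theorem Cyc.symm {l : List V} {a b : V} (h : Cyc l a b) : Cyc l b a := Or.symm h

theorem cyc_nil {a b : V} : ¬ Cyc [] a b := by simp [Cyc, nx_nil]

theorem Cyc.mem_left {l : List V} {a b : V} (h : Cyc l a b) : a ∈ l := by
  cases l with
  | nil => exact absurd h cyc_nil
  | cons x t =>
    rcases cyc_cons.1 h with h | h
    · have := h.mem_left; simp at this ⊢; tauto
    · have := h.mem_right; simp at this ⊢; tauto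

theorem Cyc.mem_right {l : List V} {a b : V} (h : Cyc l a b) : b ∈ l := h.symm.mem_left

theorem nx_cyc_rot {l1 l2 : List V} {a b : V} :
    Nx ((l1 ++ l2) ++ (l1 ++ l2).take 1) a b ↔ Nx ((l2 ++ l1) ++ (l2 ++ l1).take 1) a b := by
  cases l1 with
  | nil => simp
  | cons x l1 =>
    cases l2 with
    | nil => simp
    | cons y l2 =>
      have e1 : (x :: l1 ++ y :: l2) ++ (x :: l1 ++ y :: l2).take 1 =
        (x :: l1) ++ y :: (l2 ++ [x]) := by simp
      have e2 : (y :: l2 ++ x :: l1) ++ (y :: l2 ++ x :: l1).take 1 =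
        (y :: l2) ++ x :: (l1 ++ [y]) := by simp
      rw [e1, e2, nx_append, nx_append (l1 := y :: l2)]
      simp only [List.cons_append]
      exact or_comm

theorem cyc_rot {l1 l2 : List V} {a b : V} : Cyc (l1 ++ l2) a b ↔ Cyc (l2 ++ l1) a b := by
  unfold Cyc; rw [nx_cyc_rot, nx_cyc_rot (a := b)]

theorem cyc_reverse {l : List V} {a b : V} : Cyc l.reverse a b ↔ Cyc l a b := by
  cases l with
  | nil => simp
  | cons x t =>
    rw [List.reverse_cons, cyc_rot]
    simp only [List.singleton_append, cyc_cons]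
    have e : x :: t.reverse ++ [x] = (x :: t ++ [x]).reverse := by simp
    rw [e, nx_reverse, nx_reverse]; exact or_comm

theorem cyc_of_nx {l : List V} {a b : V} (h : Nx l a b) : Cyc l a b := by
  obtain ⟨l1, l2, rfl⟩ := h
  left; exact ⟨l1, l2 ++ (l1 ++ a :: b :: l2).take 1, by simp⟩

theorem cyc_mid (l1 l2 : List V) (a b : V) : Cyc (l1 ++ a :: b :: l2) a b :=
  cyc_of_nx ⟨l1, l2, rfl⟩

theorem cyc_ends (m : List V) (a b : V) : Cyc (a :: m ++ [b]) a b := by
  have : Cyc ([b] ++ a :: m) b a := cyc_mid [] m b a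
  exact (cyc_rot.1 this).symm

theorem cyc_two {l : List V} {v a b c : V} (hl : l.Nodup) (h1 : Cyc l v a) (h2 : Cyc l v b)
    (h3 : Cyc l v c) : a = b ∨ a = c ∨ b = c := by
  cases l with
  | nil => exact absurd h1 cyc_nil
  | cons x t =>
    have hl' : (t ++ [x]).Nodup := by
      have : (t ++ [x]).Perm (x :: t) := List.perm_append_singleton x t
      exact this.nodup_iff.2 hl
    have F : ∀ {a b : V}, Nx (x :: t ++ [x]) v a → Nx (x :: t ++ [x]) v b → a = b :=
      fun h h' => nx_fun hl h h'
    have I : ∀ {a b : V}, Nx (x :: t ++ [x]) a v → Nx (x :: t ++ [x]) b v → a = b :=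
      fun h h' => nx_inj (x := x) hl' h h'
    rw [cyc_cons] at h1 h2 h3
    rcases h1 with h1 | h1 <;> rcases h2 with h2 | h2 <;> rcases h3 with h3 | h3
    all_goals first
      | exact Or.inl (F h1 h2) | exact Or.inl (I h1 h2)
      | exact Or.inr (Or.inl (F h1 h3)) | exact Or.inr (Or.inl (I h1 h3))
      | exact Or.inr (Or.inr (F h2 h3)) | exact Or.inr (Or.inr (I h2 h3))

theorem cyc_split {x y a b : V} {t : List V} :
    Cyc (x :: t ++ [y]) a b ↔
      (a = x ∧ b = y) ∨ (a = y ∧ b = x) ∨ Nx (x :: t ++ [y]) a b ∨ Nx (x :: t ++ [y]) b a := by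
  have e : x :: (t ++ [y]) ++ [x] = (x :: t) ++ y :: [x] := by simp
  rw [List.cons_append, cyc_cons, e, nx_append, nx_append (a := b)]
  simp only [nx_cons_cons, nx_single, or_false, List.cons_append]
  tauto

theorem Cyc.ne {l : List V} {a b : V} (hl : l.Nodup) (h3 : 2 ≤ l.length) (h : Cyc l a b) :
    a ≠ b := by
  obtain ⟨x, t, rfl⟩ : ∃ x t, l = x :: t := by
    cases l with
    | nil => simp at h3
    | cons x t => exact ⟨x, t, rfl⟩
  obtain ⟨t, y, rfl⟩ : ∃ t' y, t = t' ++ [y] := by
    rcases List.eq_nil_or_concat t with h | ⟨t', y, h⟩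
    · simp [h] at h3
    · exact ⟨t', y, by simpa using h⟩
  have hxy : x ≠ y := by
    rintro rfl; simp at hl
  rcases cyc_split.1 h with ⟨rfl, rfl⟩ | ⟨rfl, rfl⟩ | h | h
  · exact hxy
  · exact hxy.symm
  · exact h.ne hl
  · exact (h.ne hl).symm

/-- Rotate a cycle so that it starts with a given edge. -/
theorem cyc_start {l : List V} {a b : V} (h2 : 2 ≤ l.length) (h : Cyc l a b) :
    ∃ t, (∃ l1 l2, l = l1 ++ l2 ∧ l2 ++ l1 = a :: b :: t) ∨
      (∃ l1 l2, l.reverse = l1 ++ l2 ∧ l2 ++ l1 = a :: b :: t) := by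
  have key : ∀ (l : List V) (a b : V), 2 ≤ l.length → Nx (l ++ l.take 1) a b →
      ∃ t l1 l2, l = l1 ++ l2 ∧ l2 ++ l1 = a :: b :: t := by
    intro l a b h2 h
    obtain ⟨x, t, rfl⟩ : ∃ x t, l = x :: t := by
      cases l with
      | nil => simp at h2
      | cons x t => exact ⟨x, t, rfl⟩
    obtain ⟨t, y, rfl⟩ : ∃ t' y, t = t' ++ [y] := by
      rcases List.eq_nil_or_concat t with h | ⟨t', y, h⟩
      · simp [h] at h2
      · exact ⟨t', y, by simpa using h⟩
    have e : (x :: (t ++ [y])) ++ (x :: (t ++ [y])).take 1 = (x :: t) ++ y :: [x] := by simp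
    rw [e, nx_append] at h
    rcases h with ⟨l1, l2, h⟩ | h
    · exact ⟨l2 ++ l1, l1, a :: b :: l2, by simpa using h, by simp⟩
    · rw [nx_cons_cons] at h
      rcases h with ⟨rfl, rfl⟩ | h
      · exact ⟨t, b :: t, [a], by simp, by simp⟩
      · exact absurd h nx_single
  rcases h with h | h
  · obtain ⟨t, h⟩ := key l a b h2 h
    exact ⟨t, Or.inl h⟩
  · have : Cyc l.reverse a b := cyc_reverse.2 (Or.inr h)
    cases l with
    | nil => simp at h2
    | cons x s =>
      have h' : Nx ((x :: s.reverse) ++ (x :: s.reverse).take 1) a b := by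
        have e : (x :: s.reverse) ++ (x :: s.reverse).take 1 =
          ((x :: s) ++ (x :: s).take 1).reverse := by simp
        rw [e, nx_reverse]; exact h
      have h'' : Nx ((s.reverse ++ [x]) ++ (s.reverse ++ [x]).take 1) a b :=
        (nx_cyc_rot (l1 := [x]) (l2 := s.reverse)).1 h'
      obtain ⟨t, h⟩ := key (s.reverse ++ [x]) a b (by simpa using h2) h''
      exact ⟨t, Or.inr (by simpa using h)⟩

theorem exists_cyc_of_mem {l : List V} {v : V} (hv : v ∈ l) : ∃ w, Cyc l v w := by
  obtain ⟨l1, l2, rfl⟩ := List.append_of_mem hv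
  simp only [cyc_rot (l1 := l1), List.cons_append]
  cases h : l2 ++ l1 with
  | nil => exact ⟨v, by rw [cyc_cons]; left; exact ⟨[], [], by simp⟩⟩
  | cons w t => exact ⟨w, cyc_mid [] t v w⟩

/-! ### Chains -/

section chains
variable [DecidableEq V]

theorem ez_symm (a b x y : V) : ez a b x y = ez a b y x := by
  unfold ez; rw [add_comm]; congr 1 <;> simp [and_comm]

theorem ez_comm (a b : V) : ez a b = ez b a := by
  funext x y; unfold ez; rw [add_comm]

theorem ez_ne_zero {a b x y : V} (h : ez a b x y ≠ 0) : (x = a ∧ y = b) ∨ (x = b ∧ y = a) := by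
  by_contra hc
  push Not at hc
  apply h
  unfold ez
  rw [if_neg (fun h => hc.1 h.1 h.2), if_neg (fun h => hc.2 h.1 h.2), add_zero]

theorem ez_self {a b : V} (h : a ≠ b) : ez a b a b = 1 := by
  unfold ez; simp [h]

theorem ez_eq_zero {a b x y : V} (h1 : ¬ (x = a ∧ y = b)) (h2 : ¬ (x = b ∧ y = a)) :
    ez a b x y = 0 := by
  unfold ez; rw [if_neg h1, if_neg h2, add_zero]

theorem sum_ez [Fintype V] (a b v : V) :
    ∑ w, ez a b v w = (if v = a then 1 else 0) + (if v = b then 1 else 0) := by
  unfold ez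
  rw [Finset.sum_add_distrib]
  congr 1
  · by_cases h : v = a <;> simp [h]
  · by_cases h : v = b <;> simp [h]

theorem pz_cons_cons (a b : V) (t : List V) : pz (a :: b :: t) = ez a b + pz (b :: t) := rfl

@[simp] theorem pz_nil : pz ([] : List V) = 0 := rfl

@[simp] theorem pz_single (a : V) : pz [a] = 0 := rfl

theorem pz_symm (l : List V) (x y : V) : pz l x y = pz l y x := by
  induction l with
  | nil => rfl
  | cons a t ih =>
    cases t with
    | nil => rfl
    | cons b t => simp only [pz_cons_cons, Pi.add_apply]; rw [ez_symm, ih]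

theorem pz_append (l1 l2 : List V) (x : V) :
    pz (l1 ++ x :: l2) = pz (l1 ++ [x]) + pz (x :: l2) := by
  induction l1 with
  | nil => simp
  | cons c l1 ih =>
    cases l1 with
    | nil => simp [pz_cons_cons]
    | cons d l1 =>
      simp only [List.cons_append] at ih ⊢
      rw [pz_cons_cons, pz_cons_cons, ih, add_assoc]

theorem pz_reverse (l : List V) : pz l.reverse = pz l := by
  induction l with
  | nil => rfl
  | cons a t ih =>
    cases t with
    | nil => rfl
    | cons b t =>
      have e : (a :: b :: t).reverse = t.reverse ++ b :: [a] := by simp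
      have e2 : t.reverse ++ [b] = (b :: t).reverse := by simp
      rw [e, pz_append, e2, ih, pz_cons_cons, pz_cons_cons, pz_single, add_zero, add_comm,
        ez_comm]

theorem sum_pz [Fintype V] (a b : V) (t : List V) (v : V) :
    ∑ w, pz (a :: t ++ [b]) v w = (if v = a then 1 else 0) + (if v = b then 1 else 0) := by
  induction t generalizing a with
  | nil => simp [pz_cons_cons, sum_ez]
  | cons c t ih =>
    have := ih c
    simp only [List.cons_append, pz_cons_cons, Pi.add_apply, Finset.sum_add_distrib,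
      sum_ez] at this ⊢
    rw [this]
    generalize (if v = a then (1 : ZMod 2) else 0) = x
    generalize (if v = b then (1 : ZMod 2) else 0) = y
    generalize (if v = c then (1 : ZMod 2) else 0) = z
    revert x y z; decide

theorem nx_of_pz {l : List V} {a b : V} (h : pz l a b ≠ 0) : Nx l a b ∨ Nx l b a := by
  induction l with
  | nil => simp at h
  | cons x t ih =>
    cases t with
    | nil => simp at h
    | cons y t =>
      rw [nx_cons_cons, nx_cons_cons]
      by_cases h1 : ez x y a b = 0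
      · simp only [pz_cons_cons, Pi.add_apply, h1, zero_add] at h
        have := ih h; tauto
      · have := ez_ne_zero h1; tauto

theorem pz_eq_zero {l : List V} {a b : V} (h : a ∉ l) : pz l a b = 0 := by
  by_contra hc
  rcases nx_of_pz hc with h' | h'
  · exact h h'.mem_left
  · exact h h'.mem_right

theorem pz_of_nx {l : List V} {a b : V} (hl : l.Nodup) (h : Nx l a b) : pz l a b = 1 := by
  induction l with
  | nil => exact absurd h nx_nil
  | cons x t ih =>
    have hx : x ∉ t := (List.nodup_cons.1 hl).1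
    have ht : t.Nodup := (List.nodup_cons.1 hl).2
    cases t with
    | nil => exact absurd h nx_single
    | cons y t =>
      simp only [pz_cons_cons, Pi.add_apply]
      rcases nx_cons_cons.1 h with ⟨rfl, rfl⟩ | h'
      · rw [ez_self (by rintro rfl; simp at hx), pz_eq_zero hx, add_zero]
      · rw [ih ht h', ez_eq_zero, zero_add]
        · rintro ⟨rfl, -⟩; exact hx h'.mem_left
        · rintro ⟨-, rfl⟩; exact hx h'.mem_right

theorem cz_cons (x : V) (t : List V) : cz (x :: t) = pz (x :: t ++ [x]) := by simp [cz]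

theorem cz_ends (x y : V) (t : List V) : cz (x :: t ++ [y]) = pz (x :: t ++ [y]) + ez y x := by
  have e : x :: (t ++ [y]) ++ [x] = (x :: t) ++ y :: [x] := by simp
  rw [List.cons_append, cz_cons, e, pz_append, pz_cons_cons, pz_single, add_zero]; rfl

theorem cz_rot (l1 l2 : List V) : cz (l1 ++ l2) = cz (l2 ++ l1) := by
  cases l1 with
  | nil => simp
  | cons x l1 =>
    cases l2 with
    | nil => simp
    | cons y l2 =>
      have e1 : x :: (l1 ++ y :: l2) ++ [x] = (x :: l1) ++ y :: (l2 ++ [x]) := by simp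
      have e2 : y :: (l2 ++ x :: l1) ++ [y] = (y :: l2) ++ x :: (l1 ++ [y]) := by simp
      rw [List.cons_append, List.cons_append, cz_cons, cz_cons, e1, e2, pz_append,
        pz_append (y :: l2), add_comm]
      rfl

theorem cz_reverse (l : List V) : cz l.reverse = cz l := by
  cases l with
  | nil => rfl
  | cons x t =>
    rw [List.reverse_cons, cz_rot, List.singleton_append, cz_cons, cz_cons, ← pz_reverse]
    simp

theorem cz_symm (l : List V) (x y : V) : cz l x y = cz l y x := pz_symm _ _ _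

theorem sum_cz [Fintype V] (l : List V) (v : V) : ∑ w, cz l v w = 0 := by
  cases l with
  | nil => simp [cz]
  | cons x t => rw [cz_cons, sum_pz, z2_add_self]

theorem cyc_of_cz {l : List V} {a b : V} (h : cz l a b ≠ 0) : Cyc l a b := nx_of_pz h

theorem cz_of_cyc {l : List V} {a b : V} (hl : l.Nodup) (h3 : 3 ≤ l.length) (h : Cyc l a b) :
    cz l a b = 1 := by
  have key : ∀ (t : List V), (a :: b :: t).Nodup → t ≠ [] → cz (a :: b :: t) a b = 1 := by
    intro t hn ht
    obtain ⟨t, y, rfl⟩ : ∃ t' y, t = t' ++ [y] := by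
      rcases List.eq_nil_or_concat t with h | ⟨t', y, h⟩
      · exact absurd h ht
      · exact ⟨t', y, by simpa using h⟩
    have := cz_ends a y (b :: t)
    simp only [List.cons_append] at this
    rw [this, Pi.add_apply, Pi.add_apply, pz_of_nx hn ⟨[], _, rfl⟩, ez_eq_zero, add_zero]
    · rintro ⟨rfl, -⟩; simp at hn
    · rintro ⟨-, rfl⟩; simp at hn
  obtain ⟨t, ⟨l1, l2, h1, h2⟩ | ⟨l1, l2, h1, h2⟩⟩ := cyc_start (by omega) h
  · rw [h1, cz_rot, h2]
    have hp : (a :: b :: t).Perm l := by rw [← h2, h1]; exact List.perm_append_comm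
    apply key _ (hp.nodup_iff.2 hl)
    rintro rfl
    have := hp.length_eq; simp at this; omega
  · rw [← cz_reverse, h1, cz_rot, h2]
    have hp : (a :: b :: t).Perm l := by
      rw [← h2]; exact (List.perm_append_comm.trans (h1 ▸ List.reverse_perm l))
    apply key _ (hp.nodup_iff.2 hl)
    rintro rfl
    have := hp.length_eq; simp at this; omega

/-- A cycle-space element supported on a path vanishes. -/
theorem eq_zero_of_path [Fintype V] {l : List V} (hl : l.Nodup) {z : V → V → ZMod 2}
    (hs : ∀ a b, z a b = z b a) (h0 : ∀ v, ∑ w, z v w = 0)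
    (hz : ∀ a b, z a b ≠ 0 → Nx l a b ∨ Nx l b a) : z = 0 := by
  induction l with
  | nil => funext a b; by_contra h; simpa [nx_nil] using hz a b h
  | cons x t ih =>
    have hx : x ∉ t := (List.nodup_cons.1 hl).1
    have ht : t.Nodup := (List.nodup_cons.1 hl).2
    cases t with
    | nil => funext a b; by_contra h; simpa [nx_single] using hz a b h
    | cons y t =>
      have hxy : z x y = 0 := by
        have := h0 x
        rw [Finset.sum_eq_single y] at this
        · exact this
        · intro w _ hw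
          by_contra h
          rcases hz x w h with h | h <;> rcases nx_cons_cons.1 h with h | h
          · exact hw h.2
          · exact hx h.mem_left
          · apply hx; rw [h.2]; simp
          · exact hx h.mem_right
        · simp
      apply ih ht
      intro a b hab
      rcases hz a b hab with h | h <;> rcases nx_cons_cons.1 h with h | h
      · rw [h.1, h.2] at hab; exact absurd hxy hab
      · exact Or.inl h
      · rw [h.1, h.2, hs] at hab; exact absurd hxy hab
      · exact Or.inr h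

/-- A cycle-space element supported on a cycle is zero or the cycle. -/
theorem eq_zero_or_cz [Fintype V] {l : List V} (hl : l.Nodup) (h3 : 3 ≤ l.length)
    {z : V → V → ZMod 2} (hs : ∀ a b, z a b = z b a) (h0 : ∀ v, ∑ w, z v w = 0)
    (hz : ∀ a b, z a b ≠ 0 → Cyc l a b) : z = 0 ∨ z = cz l := by
  obtain ⟨x, t, rfl⟩ : ∃ x t, l = x :: t := by
    cases l with
    | nil => simp at h3
    | cons x t => exact ⟨x, t, rfl⟩
  obtain ⟨t, y, rfl⟩ : ∃ t' y, t = t' ++ [y] := by
    rcases List.eq_nil_or_concat t with h | ⟨t', y, h⟩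
    · simp [h] at h3
    · exact ⟨t', y, by simpa using h⟩
  have key : ∀ z : V → V → ZMod 2, (∀ a b, z a b = z b a) → (∀ v, ∑ w, z v w = 0) →
      (∀ a b, z a b ≠ 0 → Cyc (x :: (t ++ [y])) a b) → z x y = 0 → z = 0 := by
    intro z hs h0 hz hxy
    apply eq_zero_of_path hl hs h0
    intro a b hab
    rcases cyc_split.1 (hz a b hab) with ⟨rfl, rfl⟩ | ⟨rfl, rfl⟩ | h | h
    · exact absurd hxy hab
    · rw [hs] at hab; exact absurd hxy hab
    · exact Or.inl h
    · exact Or.inr h
  rcases z2_cases (z x y) with h | h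
  · exact Or.inl (key z hs h0 hz h)
  · right
    have := key (z + cz (x :: (t ++ [y]))) (fun a b => by simp [hs a b, cz_symm _ a b])
      (fun v => by simp [Finset.sum_add_distrib, h0, sum_cz])
      (fun a b hab => by
        by_cases h1 : z a b = 0
        · simp [h1] at hab; exact cyc_of_cz hab
        · exact hz a b h1)
      (by simp only [Pi.add_apply]; rw [h, cz_of_cyc hl h3 (cyc_ends t x y)]; rfl)
    funext a b
    have := congrFun (congrFun this a) b
    exact z2_add_eq_zero.1 this

end chains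

/-! ### Reachability -/

theorem Rch.refl {G : SimpleGraph V} {S : Set V} (a : V) : Rch G S a a :=
  Relation.ReflTransGen.refl

theorem Rch.trans {G : SimpleGraph V} {S : Set V} {a b c : V} (h : Rch G S a b)
    (h' : Rch G S b c) : Rch G S a c := Relation.ReflTransGen.trans h h'

theorem Rch.single {G : SimpleGraph V} {S : Set V} {a b : V} (h : G.Adj a b) (ha : a ∈ S)
    (hb : b ∈ S) : Rch G S a b := Relation.ReflTransGen.single ⟨h, ha, hb⟩

theorem Rch.symm {G : SimpleGraph V} {S : Set V} {a b : V} (h : Rch G S a b) : Rch G S b a := by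
  induction h with
  | refl => exact Rch.refl _
  | tail _ h ih => exact (Rch.single h.1.symm h.2.2 h.2.1).trans ih

theorem Rch.mono {G G' : SimpleGraph V} {S S' : Set V} {a b : V} (hG : G ≤ G') (hS : S ⊆ S')
    (h : Rch G S a b) : Rch G' S' a b := by
  induction h with
  | refl => exact Rch.refl _
  | tail _ h ih => exact ih.trans (Rch.single (hG h.1) (hS h.2.1) (hS h.2.2))

theorem Rch.mem {G : SimpleGraph V} {S : Set V} {a b : V} (h : Rch G S a b) (ha : a ∈ S) :
    b ∈ S := by
  induction h with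
  | refl => exact ha
  | tail _ h _ => exact h.2.2

/-- Induction along a walk. -/
theorem Rch.ind {G : SimpleGraph V} {S : Set V} {a b : V} (h : Rch G S a b) {P : V → Prop}
    (ha : P a) (hs : ∀ x y, x ∈ S → y ∈ S → G.Adj x y → P x → P y) : P b := by
  induction h with
  | refl => exact ha
  | tail _ h ih => exact hs _ _ h.2.1 h.2.2 h.1 ih

/-- A chain joining two vertices inside a connected set. -/
theorem exists_join [Fintype V] [DecidableEq V] {G : SimpleGraph V} {S : Set V} {a b : V}
    (h : Rch G S a b) : ∃ z : V → V → ZMod 2, (∀ x y, z x y = z y x) ∧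
      (∀ x y, z x y ≠ 0 → G.Adj x y ∧ x ∈ S ∧ y ∈ S) ∧
      ∀ v, ∑ w, z v w = (if v = a then 1 else 0) + (if v = b then 1 else 0) := by
  induction h with
  | refl => exact ⟨0, fun _ _ => rfl, fun _ _ h => absurd rfl h, fun v => by simp [z2_add_self]⟩
  | @tail b c _ h ih =>
    obtain ⟨z, h1, h2, h3⟩ := ih
    refine ⟨z + ez b c, fun x y => by simp [h1 x y, ez_symm b c x y], fun x y hxy => ?_,
      fun v => ?_⟩
    · by_cases h0 : z x y = 0
      · simp [h0] at hxy
        rcases ez_ne_zero hxy with ⟨rfl, rfl⟩ | ⟨rfl, rfl⟩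
        · exact h
        · exact ⟨h.1.symm, h.2.2, h.2.1⟩
      · exact h2 x y h0
    · simp only [Pi.add_apply, Finset.sum_add_distrib, h3, sum_ez]
      generalize (if v = a then (1 : ZMod 2) else 0) = x
      generalize (if v = b then (1 : ZMod 2) else 0) = y
      generalize (if v = c then (1 : ZMod 2) else 0) = z
      revert x y z; decide

/-- The vertices of a path are connected. -/
theorem rch_of_list {G : SimpleGraph V} {S : Set V} {l : List V}
    (hl : ∀ a b, Nx l a b → G.Adj a b) (hS : ∀ v ∈ l, v ∈ S) {a b : V} (ha : a ∈ l)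
    (hb : b ∈ l) : Rch G S a b := by
  have key : ∀ (t : List V) (x : V), (∀ a b, Nx (x :: t) a b → G.Adj a b) →
      (∀ v ∈ x :: t, v ∈ S) → ∀ b ∈ x :: t, Rch G S x b := by
    intro t
    induction t with
    | nil => intro x _ _ b hb; simp at hb; subst hb; exact Rch.refl _
    | cons y t ih =>
      intro x h1 h2 b hb
      rcases List.mem_cons.1 hb with rfl | hb
      · exact Rch.refl _
      · exact (Rch.single (h1 x y ⟨[], t, rfl⟩) (h2 x (by simp)) (h2 y (by simp))).trans
          (ih y (fun a b h => h1 a b (nx_cons_cons.2 (Or.inr h)))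
            (fun v hv => h2 v (List.mem_cons_of_mem _ hv)) b hb)
  cases l with
  | nil => simp at ha
  | cons x t => exact (key t x hl hS a ha).symm.trans (key t x hl hS b hb)

end Pool.Agent.Lib.MP_0fc16c_co
end

-- part Pool.Agent.Lib.MP_0fc16c_co.Rot
section

/-! From a rotation system of genus zero to an abstract dual; restriction to subgraphs. -/

set_option autoImplicit false

open Finset

namespace Pool.Agent.Lib.MP_0fc16c_co

variable {V : Type*} [Fintype V] [DecidableEq V]

namespace PD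

theorem zmod2_add_eq_zero {a b : ZMod 2} : a + b = 0 ↔ a = b := by
  revert a b
  decide

theorem zmod2_add_self (a : ZMod 2) : a + a = 0 := zmod2_add_eq_zero.2 rfl

open Classical in
theorem sum_edges_at (G : SimpleGraph V) (y : Sym2 V → ZMod 2) (v : V) :
    ∑ e : G.edgeSet, (if v ∈ e.1 then y e.1 else 0) =
      ∑ w, if G.Adj v w then y s(v, w) else 0 := by
  rw [← sum_filter, ← sum_filter]
  symm
  refine sum_bij (fun w hw => ⟨s(v, w), (mem_filter.1 hw).2⟩) (fun w _ => by simp)
    (fun w _ w' _ h => ?_) (fun e he => ?_) (fun _ _ => rfl)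
  · exact Sym2.congr_right.1 (congrArg Subtype.val h)
  · obtain ⟨e, h1⟩ := e
    obtain ⟨w, rfl⟩ := Sym2.mem_iff_exists.1 (mem_filter.1 he).2
    exact ⟨w, mem_filter.2 ⟨mem_univ _, h1⟩, rfl⟩

theorem finrank_le_one_of_const {ι : Type*} [Fintype ι] (S : Submodule (ZMod 2) (ι → ZMod 2))
    (h : ∀ g ∈ S, ∀ i j, g i = g j) : Module.finrank (ZMod 2) S ≤ 1 := by
  have : Fact (Nat.Prime 2) := ⟨Nat.prime_two⟩
  have h1 : S ≤ Submodule.span (ZMod 2) {fun _ => 1} := by
    intro g hg
    rw [Submodule.mem_span_singleton]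
    rcases isEmpty_or_nonempty ι with _ | ⟨⟨i⟩⟩
    · exact ⟨0, Subsingleton.elim _ _⟩
    · exact ⟨g i, funext fun j => by simp [h g hg i j]⟩
  refine (Submodule.finrank_mono h1).trans ?_
  simpa using finrank_span_le_card (R := ZMod 2) ({fun _ => 1} : Set (ι → ZMod 2))

end PD

open PD

theorem prePl_of_rotation (G : SimpleGraph V) (hc : G.Connected)
    (hp : ∃ k : ℕ, k + Fintype.card V = 2 + Nat.card G.edgeSet ∧
        ∃ (σ φ : Equiv.Perm G.Dart) (face : G.Dart → Fin k),
          (∀ d : G.Dart, (σ d).fst = d.fst) ∧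
          (∀ d d' : G.Dart, d.fst = d'.fst → ∃ n : ℕ, (σ ^ n) d = d') ∧
          (∀ d : G.Dart, φ d = σ d.symm) ∧
          (∀ d d' : G.Dart, face d = face d' ↔ ∃ n : ℕ, (φ ^ n) d = d') ∧
          Function.Surjective face) :
    ∃ D : PrePl V, D.G = G := by
  classical
  obtain ⟨k, hk, σ, φ, face, h1, h2, h3, h4, h5⟩ := hp
  have : Fact (Nat.Prime 2) := ⟨Nat.prime_two⟩
  have hs : ∀ d : G.Dart, face d.symm = face (σ d) := fun d =>
    (h4 _ _).2 ⟨1, by rw [pow_one, h3, SimpleGraph.Dart.symm_symm]⟩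
  have hdual : ∀ χ : Fin k → ZMod 2, (∀ d : G.Dart, χ (face d) = χ (face d.symm)) →
      ∀ d d' : G.Dart, χ (face d) = χ (face d') := by
    intro χ h
    have a1 : ∀ (n : ℕ) (d : G.Dart), χ (face ((σ ^ n) d)) = χ (face d) := by
      intro n
      induction n with
      | zero => intro d; rfl
      | succ n ih => intro d; rw [pow_succ', Equiv.Perm.mul_apply, ← hs, ← h, ih]
    have a2 : ∀ d d' : G.Dart, d.fst = d'.fst → χ (face d) = χ (face d') := fun d d' e => by
      obtain ⟨n, rfl⟩ := h2 d d' e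
      exact (a1 n d).symm
    have a3 : ∀ (u v : V) (p : G.Walk u v) (d d' : G.Dart), d.fst = u → d'.fst = v →
        χ (face d) = χ (face d') := by
      intro u v p
      induction p with
      | nil => exact fun d d' e e' => a2 d d' (e.trans e'.symm)
      | cons hh p ih =>
        intro d d' e e'
        rw [a2 d ⟨(_, _), hh⟩ e, h]
        exact ih _ d' rfl e'
    intro d d'
    obtain ⟨p⟩ := hc d.fst d'.fst
    exact a3 _ _ p d d' rfl rfl
  let f : V → V → ℕ := fun a b => if h : G.Adj a b then face ⟨(a, b), h⟩ else 0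
  have hf : ∀ d : G.Dart, f d.fst d.snd = face d := fun d => dif_pos d.adj
  have hf' : ∀ a b (h : G.Adj a b), f a b = face ⟨(a, b), h⟩ := fun a b h => dif_pos h
  have heven : ∀ (χ : ℕ → ZMod 2) (v : V), ∑ w, cutf G f χ v w = 0 := by
    intro χ v
    have e1 : ∑ w, cutf G f χ v w =
        ∑ d ∈ univ.filter (fun d : G.Dart => d.fst = v), (χ (face d) + χ (face (σ d))) := by
      unfold cutf
      rw [← sum_filter]
      refine sum_bij (fun w hw => ⟨(v, w), (mem_filter.1 hw).2⟩) (fun w _ => by simp)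
        (fun w _ w' _ h => ?_) (fun d hd => ?_) (fun w hw => ?_)
      · exact congrArg (fun d : G.Dart => d.snd) h
      · obtain rfl : d.fst = v := (mem_filter.1 hd).2
        exact ⟨d.snd, mem_filter.2 ⟨mem_univ _, d.adj⟩, rfl⟩
      · rw [← hs, hf' v w (mem_filter.1 hw).2, hf' w v (mem_filter.1 hw).2.symm]
        rfl
    rw [e1, sum_add_distrib, zmod2_add_eq_zero]
    refine (sum_equiv σ (fun d => ?_) (fun _ _ => rfl)).symm
    simp [h1]
  refine ⟨⟨G, f, heven, fun z hz => ?_, fun χ h a b c d hab hcd => ?_⟩, rfl⟩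
  · let ex : (Fin k → ZMod 2) → ℕ → ZMod 2 := fun χ i => if h : i < k then χ ⟨i, h⟩ else 0
    have hex : ∀ χ (i : Fin k), ex χ i = χ i := fun χ i => dif_pos i.2
    let M : Matrix V G.edgeSet (ZMod 2) := fun v e => if v ∈ e.1 then 1 else 0
    have hM : ∀ (y : Sym2 V → ZMod 2) (v : V), M.mulVec (fun e => y e.1) v =
        ∑ w, if G.Adj v w then y s(v, w) else 0 := by
      intro y v
      rw [← sum_edges_at]
      simp [Matrix.mulVec, dotProduct, M]
    let δ : (Fin k → ZMod 2) →ₗ[ZMod 2] (G.edgeSet → ZMod 2) :=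
      { toFun := fun χ e => ∑ d ∈ univ.filter (fun d : G.Dart => d.edge = e.1), χ (face d)
        map_add' := fun _ _ => funext fun _ => sum_add_distrib
        map_smul' := fun _ _ => funext fun _ => by simp [mul_sum] }
    have hδ : ∀ (χ : Fin k → ZMod 2) (d : G.Dart),
        ∑ d' ∈ univ.filter (fun d' : G.Dart => d'.edge = d.edge), χ (face d') =
          χ (face d) + χ (face d.symm) := by
      intro χ d
      rw [SimpleGraph.Dart.edge_fiber, sum_pair d.symm_ne.symm]
    have hcut : ∀ (χ : Fin k → ZMod 2) a b (h : G.Adj a b),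
        ∑ d' ∈ univ.filter (fun d' : G.Dart => d'.edge = s(a, b)), χ (face d') =
          cutf G f (ex χ) a b := by
      intro χ a b h
      rw [cutf, if_pos h, hf' a b h, hf' b a h.symm, hex, hex]
      exact hδ χ ⟨(a, b), h⟩
    have r1 : LinearMap.range δ ≤ LinearMap.ker M.mulVecLin := by
      rintro _ ⟨χ, rfl⟩
      funext v
      refine (hM (fun e => ∑ d ∈ univ.filter (fun d : G.Dart => d.edge = e), χ (face d)) v).trans ?_
      refine Eq.trans (sum_congr rfl fun w _ => ?_) (heven (ex χ) v)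
      split_ifs with h
      · exact hcut χ v w h
      · rw [cutf, if_neg h]
    have r2 : Module.finrank (ZMod 2) (LinearMap.ker δ) ≤ 1 := by
      refine finrank_le_one_of_const _ fun χ hχ i j => ?_
      obtain ⟨d, rfl⟩ := h5 i
      obtain ⟨d', rfl⟩ := h5 j
      refine hdual χ (fun d => ?_) d d'
      rw [← zmod2_add_eq_zero, ← hδ]
      exact congrFun (LinearMap.mem_ker.1 hχ) ⟨d.edge, d.edge_mem⟩
    have r3 : Module.finrank (ZMod 2) (LinearMap.ker M.transpose.mulVecLin) ≤ 1 := by
      refine finrank_le_one_of_const _ fun g hg u v => ?_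
      obtain ⟨p⟩ := hc u v
      induction p with
      | nil => rfl
      | @cons a b c hh p ih =>
        rw [← ih, ← zmod2_add_eq_zero]
        have := congrFun (LinearMap.mem_ker.1 hg) ⟨s(a, b), hh⟩
        simp only [Matrix.mulVecLin_apply, Matrix.mulVec, dotProduct, Matrix.transpose_apply, M,
          ite_mul, one_mul, zero_mul, Pi.zero_apply] at this
        rw [← sum_filter, show univ.filter (fun x => x ∈ s(a, b)) = {a, b} by ext; simp,
          sum_pair hh.ne] at this
        exact this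
    have r4 := LinearMap.finrank_range_add_finrank_ker δ
    have r5 := LinearMap.finrank_range_add_finrank_ker M.mulVecLin
    have r6 := LinearMap.finrank_range_add_finrank_ker M.transpose.mulVecLin
    have r7 : Module.finrank (ZMod 2) (LinearMap.range M.transpose.mulVecLin) =
        Module.finrank (ZMod 2) (LinearMap.range M.mulVecLin) := Matrix.rank_transpose M
    simp only [Module.finrank_fintype_fun_eq_card, Fintype.card_fin] at r4 r5 r6
    rw [Nat.card_eq_fintype_card] at hk
    have r8 := Submodule.eq_of_le_of_finrank_le r1 (by omega)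
    have r9 : (fun e : G.edgeSet => Sym2.lift ⟨z, hz.1⟩ e.1) ∈ LinearMap.range δ := by
      rw [r8]
      funext v
      refine (hM (Sym2.lift ⟨z, hz.1⟩) v).trans (Eq.trans (sum_congr rfl fun w _ => ?_) (hz.2.2 v))
      split_ifs with h
      · rfl
      · exact (hz.2.1 v w h).symm
    obtain ⟨χ, hχ⟩ := r9
    refine ⟨ex χ, funext fun a => funext fun b => ?_⟩
    by_cases h : G.Adj a b
    · rw [← hcut χ a b h]
      exact (congrFun hχ ⟨s(a, b), h⟩).symm
    · rw [hz.2.1 a b h, cutf, if_neg h]
  · rw [hf' a b hab, hf' c d hcd]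
    refine hdual (fun i => χ i) (fun e => ?_) _ _
    have := h e.fst e.snd e.adj
    rwa [hf e, show f e.snd e.fst = face e.symm from hf e.symm] at this

omit [DecidableEq V] in
/-- subgraphs: faces are merged across the deleted edges -/
theorem prePl_sub (D : PrePl V) (H : SimpleGraph V) (hH : H ≤ D.G) :
    ∃ (D' : PrePl V) (r : ℕ → ℕ), D'.G = H ∧ (∀ a b, D'.f a b = r (D.f a b)) ∧
      (∀ i j, r i = r j ↔ Relation.EqvGen
        (fun i j => ∃ a b, D.G.Adj a b ∧ ¬ H.Adj a b ∧ D.f a b = i ∧ D.f b a = j) i j) := by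
  classical
  set R : ℕ → ℕ → Prop := Relation.EqvGen
    (fun i j => ∃ a b, D.G.Adj a b ∧ ¬ H.Adj a b ∧ D.f a b = i ∧ D.f b a = j) with hR
  have hex : ∀ i, ∃ j, R i j := fun i => ⟨i, Relation.EqvGen.refl i⟩
  let r : ℕ → ℕ := fun i => Nat.find (hex i)
  have hr : ∀ i, R i (r i) := fun i => Nat.find_spec (hex i)
  have hrr : ∀ i j, r i = r j ↔ R i j := by
    refine fun i j => ⟨fun h => (hr i).trans _ _ _ (h ▸ (hr j).symm _ _), fun h => ?_⟩
    exact le_antisymm (Nat.find_min' _ (h.trans _ _ _ (hr j)))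
      (Nat.find_min' _ ((h.symm _ _).trans _ _ _ (hr i)))
  have hdel : ∀ a b, D.G.Adj a b → ¬ H.Adj a b → r (D.f a b) = r (D.f b a) := fun a b h1 h2 =>
    (hrr _ _).2 (Relation.EqvGen.rel _ _ ⟨a, b, h1, h2, rfl, rfl⟩)
  have hcut : ∀ χ : ℕ → ZMod 2, cutf H (fun a b => r (D.f a b)) χ =
      cutf D.G D.f (fun i => χ (r i)) := by
    intro χ
    funext a b
    unfold cutf
    by_cases h : H.Adj a b
    · rw [if_pos h, if_pos (hH h)]
    · rw [if_neg h]
      split_ifs with h'
      · beta_reduce
        rw [hdel a b h' h, zmod2_add_self]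
      · rfl
  refine ⟨⟨H, fun a b => r (D.f a b), fun χ v => ?_, fun z hz => ?_, fun χ h a b c d h1 h2 => ?_⟩,
    r, rfl, fun _ _ => rfl, hrr⟩
  · rw [hcut]
    exact D.even _ v
  · obtain ⟨χ, hχ⟩ := D.span z ⟨hz.1, fun a b h => hz.2.1 a b fun h' => h (hH h'), hz.2.2⟩
    refine ⟨χ, ?_⟩
    have key : ∀ i j, R i j → χ i = χ j := by
      intro i j h
      induction h with
      | rel i j h =>
        obtain ⟨a, b, h1, h2, rfl, rfl⟩ := h
        have := hz.2.1 a b h2
        rwa [hχ, cutf, if_pos h1, zmod2_add_eq_zero] at this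
      | refl => rfl
      | symm _ _ _ ih => exact ih.symm
      | trans _ _ _ _ _ ih1 ih2 => exact ih1.trans ih2
    rw [hcut, hχ]
    congr 1
    funext i
    exact key _ _ (hr i)
  · refine D.dual (fun i => χ (r i)) (fun x y hxy => ?_) a b c d (hH h1) (hH h2)
    by_cases e : H.Adj x y
    · exact h x y e
    · rw [hdel x y hxy e]

end Pool.Agent.Lib.MP_0fc16c_co
end
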