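import Pool.Agent.Lib.MP_0fc16c_co.Cut
import Pool.Agent.Lib.MP_0fc16c_co.Kur
import Pool.Agent.Lib.MP_0fc16c_co.Rot

-- part Pool.Agent.Lib.MP_0fc16c_co.Global1
section

/-! Faces of 3-connected structures and components of low degree vertices. -/

set_option autoImplicit false
set_option linter.unusedSectionVars false

open Finset

namespace Pool.Agent.Lib.MP_0fc16c_co

variable {V : Type*} [Fintype V] [DecidableEq V]

namespace PE

open Classical in
/-- Indicator of a property of face labels. -/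
noncomputable def ch (p : ℕ → Prop) (j : ℕ) : ZMod 2 := if p j then 1 else 0

theorem ch_eq {p : ℕ → Prop} {i j : ℕ} : ch p i = ch p j ↔ (p i ↔ p j) := by
  unfold ch
  by_cases h1 : p i <;> by_cases h2 : p j <;> simp [h1, h2]

theorem ch_one {p : ℕ → Prop} {i : ℕ} : ch p i = 1 ↔ p i := by
  unfold ch
  by_cases h1 : p i <;> simp [h1]

theorem ch_zero {p : ℕ → Prop} {i : ℕ} : ch p i = 0 ↔ ¬ p i := by
  unfold ch
  by_cases h1 : p i <;> simp [h1]

/-- The edge `ab` separates faces with and without `p`. -/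
def Sep (D : Pl V) (p : ℕ → Prop) (a b : V) : Prop :=
  D.G.Adj a b ∧ ¬ (p (D.f a b) ↔ p (D.f b a))

variable {D : Pl V}

theorem Sep.symm {p : ℕ → Prop} {a b : V} (h : Sep D p a b) : Sep D p b a :=
  ⟨h.1.symm, fun e => h.2 e.symm⟩

theorem sep_iff {p : ℕ → Prop} {a b : V} : cutf D.G D.f (ch p) a b = 1 ↔ Sep D p a b := by
  by_cases h : D.G.Adj a b
  · rw [cutf_adj h, z2_add_eq_one, Ne, ch_eq]
    exact ⟨fun e => ⟨h, e⟩, fun e => e.2⟩
  · rw [cutf_nadj h]
    exact ⟨fun e => absurd e zero_ne_one, fun e => absurd e.1 h⟩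

theorem sep_link {p : ℕ → Prop} {v : V} {j j' : ℕ} (h1 : D.On j v) (h2 : D.On j' v) (hp : p j)
    (hn : ¬ p j') : ∃ w, Sep D p v w := by
  obtain ⟨w, hw⟩ := D.link (ch p) h1 h2 (by rw [Ne, ch_eq]; tauto)
  exact ⟨w, sep_iff.1 hw⟩

theorem sep_two {p : ℕ → Prop} {v w : V} (h : Sep D p v w) : ∃ w', w' ≠ w ∧ Sep D p v w' := by
  by_contra hc
  push Not at hc
  have := D.even (ch p) v
  rw [sum_eq_single w (fun w' _ e => z2_ne_one.1 fun e' => hc w' e (sep_iff.1 e')) (by simp),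
    sep_iff.2 h] at this
  exact one_ne_zero this

theorem sep_dual {p : ℕ → Prop} {v v' : V} {j j' : ℕ} (h1 : D.On j v) (h2 : D.On j' v') (hp : p j)
    (hn : ¬ p j') : ∃ a b, Sep D p a b := by
  by_contra hc
  push Not at hc
  have := D.dual' (ch p) (by
    funext a b
    exact z2_ne_one.1 fun e => hc a b (sep_iff.1 e)) h1 h2
  rw [ch_eq] at this
  exact hn (this.1 hp)

/-- A cut contained in a cut that is a cycle is empty or the whole cycle. -/
theorem cyc_dich {p q : ℕ → Prop} {B : List V} (hB : B.Nodup) (h3 : 3 ≤ B.length)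
    (hq : ∀ a b, Sep D q a b ↔ Cyc B a b) (h : ∀ a b, Sep D p a b → Sep D q a b) {v v' : V}
    {j j' : ℕ} (h1 : D.On j v) (h2 : D.On j' v') (hp : p j) (hn : ¬ p j') {w w' : V} {i i' : ℕ}
    (g1 : D.On i w) (g2 : D.On i' w') (e : p i ↔ q i) : p i' ↔ q i' := by
  obtain ⟨a, b, hab⟩ := sep_dual h1 h2 hp hn
  rcases eq_zero_or_cz hB h3 (cutf_symm D.G D.f (ch p)) (D.even _)
    (fun x y e => (hq x y).1 (h x y (sep_iff.1 (z2_ne_zero.1 e)))) with e' | e'
  · have := sep_iff.2 hab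
    rw [e'] at this
    exact absurd this zero_ne_one
  · by_contra hc
    obtain ⟨x, y, hxy⟩ := sep_dual (p := fun i => p i ↔ q i) g1 g2 e hc
    have : Sep D q x y → Sep D p x y := fun s =>
      sep_iff.1 (by rw [e']; exact cz_of_cyc hB h3 ((hq x y).1 s))
    have h' := h x y
    unfold Sep at *
    tauto

theorem exists_other_on {F : ℕ} {v : V} (h : D.On F v) : ∃ k, k ≠ F ∧ D.On k v := by
  obtain ⟨w, h⟩ := h
  obtain ⟨k, h1, h2⟩ := Pl.exists_other h
  exact ⟨k, h1, h2.on⟩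

/-- Faces of a 3-connected structure have no chords. -/
theorem induced (h3 : ∀ u v, Conn D.G {u, v}ᶜ) {F : ℕ} {a b : V} (ha : D.On F a) (hb : D.On F b)
    (hab : D.G.Adj a b) : D.E F a b := by
  obtain ⟨w, hw⟩ := ha
  obtain ⟨c, t, hf⟩ := Pl.face_start hw
  by_contra hn
  have hb' : b ∈ c :: t := by
    have := (Pl.on_iff hf).1 hb
    rcases List.mem_cons.1 this with e | e
    · exact absurd e hab.ne'
    · exact (List.mem_cons.1 e).resolve_left fun e' => hn (e' ▸ hw)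
  obtain ⟨l1, l2, e⟩ := List.append_of_mem hb'
  have hf' : IsFace D.G D.f F (a :: (w :: l1) ++ b :: l2) := by simpa [e] using hf
  obtain ⟨χ1, χ2, z1, z2, c1, c2, c3⟩ := exists_split D hf' hab
  obtain _ | ⟨u, l2⟩ := l2
  · exact hn ((Pl.E_iff hf').2 (cyc_ends (w :: l1) a b))
  have nd := hf'.1
  have st : ∀ v ∈ w :: l1, ∀ k, k ≠ F → D.On k v → χ1 k = 1 := by
    intro v hv k hk h
    have h1 : χ2 k = χ2 F := by
      by_contra e'
      have := D.link_mem c2 h ((Pl.on_iff hf').2 (by grind)) e'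
      grind
    rw [← c3 k v hk h, h1, z2, add_zero]
  have key := (h3 a b w (by grind) u (by grind)).ind
    (P := fun v => ∀ k, k ≠ F → D.On k v → χ1 k = 1) (st w (by simp)) (by
      intro x y hx hy hxy ih k hk h
      by_cases hy' : y ∈ w :: l1
      · exact st y hy' k hk h
      · obtain ⟨k', k1, k2⟩ : ∃ k', k' ≠ F ∧ D.E k' x y := by
          by_cases e' : D.f x y = F
          · exact Pl.exists_other (e' ▸ D.E_left hxy)
          · exact ⟨_, e', D.E_left hxy⟩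
        rw [← ih k' k1 k2.on]
        by_contra e'
        have := D.link_mem c1 h k2.on' e'
        grind)
  have hu : D.On F u := (Pl.on_iff hf').2 (by simp)
  obtain ⟨k, k1, k2⟩ := exists_other_on hu
  have := D.link_mem c1 k2 hu (by rw [key k k1 k2, z1]; exact one_ne_zero)
  grind

/-- The saturated situation. -/
structure Sat (D : Pl V) (X : Finset V) : Prop where
  card : 4 ≤ Fintype.card V
  conn : ∀ u v, Conn D.G {u, v}ᶜ
  sat : ∀ k a b, a ∈ X → b ∈ X → D.On k a → D.On k b → a ≠ b → D.G.Adj a b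

/-- `T` is a component of the graph outside `X`. -/
structure Comp (G : SimpleGraph V) (X T : Finset V) : Prop where
  ne : T.Nonempty
  out : ∀ t ∈ T, t ∉ X
  conn : Conn G (T : Set V)
  cl : ∀ t ∈ T, ∀ w, G.Adj t w → w ∉ X → w ∈ T

/-- `x` has a neighbour in `T`. -/
def Sees (G : SimpleGraph V) (T : Finset V) (x : V) : Prop := ∃ t ∈ T, G.Adj t x

/-- The face `j` meets `T`. -/
def Psi (D : Pl V) (T : Finset V) (j : ℕ) : Prop := ∃ t ∈ T, D.On j t

variable {X T T' : Finset V}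

theorem Comp.rch {G : SimpleGraph V} (h : Comp G X T) {S : Set V} {a b : V} (hr : Rch G S a b)
    (hS : ∀ v ∈ S, v ∉ X) (ha : a ∈ T) : b ∈ T :=
  hr.ind (P := (· ∈ T)) ha fun x y _ hy e hx => h.cl x hx y e (hS y hy)

theorem Comp.eq {G : SimpleGraph V} (h : Comp G X T) (h' : Comp G X T') {t : V} (h1 : t ∈ T)
    (h2 : t ∈ T') : T = T' :=
  Subset.antisymm (fun s hs => h'.rch (h.conn t h1 s hs) h.out h2)
    fun s hs => h.rch (h'.conn t h2 s hs) h'.out h1

theorem exists_comp (G : SimpleGraph V) (X : Finset V) {t : V} (ht : t ∉ X) :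
    ∃ T, Comp G X T ∧ t ∈ T := by
  classical
  have hm : ∀ s, Rch G (X : Set V)ᶜ t s → s ∉ X := fun s hs => hs.mem ht
  refine ⟨univ.filter (Rch G (X : Set V)ᶜ t), ⟨⟨t, by simp [Rch.refl]⟩, fun s hs => ?_, ?_,
    fun s hs w e hw => ?_⟩, by simp [Rch.refl]⟩
  · exact hm s (mem_filter.1 hs).2
  · have key : ∀ s, Rch G (X : Set V)ᶜ t s →
        Rch G (univ.filter (Rch G (X : Set V)ᶜ t) : Finset V) t s := by
      intro s hs
      induction hs with
      | refl => exact Rch.refl _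
      | tail h e ih =>
        exact ih.trans (Rch.single e.1 (mem_coe.2 (mem_filter.2 ⟨mem_univ _, h⟩))
          (mem_coe.2 (mem_filter.2 ⟨mem_univ _, Relation.ReflTransGen.tail h e⟩)))
    intro a ha b hb
    exact (key a (by simpa using ha)).symm.trans (key b (by simpa using hb))
  · have := (mem_filter.1 hs).2
    exact mem_filter.2 ⟨mem_univ _, this.trans (Rch.single e (hm s this) hw)⟩

theorem Sat.face_two (hS : Sat D X) (hT : Comp D.G X T) {k : ℕ} {a b t : V} (ha : a ∈ X)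
    (hb : b ∈ X) (hab : D.E k a b) (ht : t ∈ T) (hk : D.On k t) :
    (∀ w, D.On k w → w ∉ X → w ∈ T) ∧ Sees D.G T b := by
  obtain ⟨c, s, hf⟩ := Pl.face_start hab
  have nd := hf.1
  have hbc : D.E k b c := (Pl.E_iff hf).2 (cyc_mid [a] s b c)
  have hm : ∀ w, D.On k w → w ∉ X → w ∈ c :: s := fun w h1 h2 => by
    have := (Pl.on_iff hf).1 h1
    grind
  have hs : ∀ x ∈ c :: s, x ∉ X := by
    intro x hx hX
    have ox : D.On k x := (Pl.on_iff hf).2 (by grind)
    have e1 : D.E k b x := induced hS.conn hab.on' ox (hS.sat k b x hb hX hab.on' ox (by grind))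
    have e2 : D.E k a x := induced hS.conn hab.on ox (hS.sat k a x ha hX hab.on ox (by grind))
    have e3 : x = c := by
      have := Pl.E_two hab.symm hbc e1
      grind
    subst e3
    obtain rfl | ⟨s', e, rfl⟩ := List.eq_nil_or_concat' s
    · have := hm t hk (hT.out t ht)
      have := hT.out t ht
      grind
    · have e4 : D.E k a e := (Pl.E_iff hf).2 (by simpa using cyc_ends (b :: x :: s') a e)
      have := Pl.E_two hab e2 e4
      grind
  have hr : ∀ w ∈ c :: s, w ∈ T := fun w hw =>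
    hT.rch (rch_of_list (S := {v | v ∈ c :: s}) (l := c :: s) (fun x y ⟨l1, l2, e⟩ =>
      ((Pl.E_iff hf).2 (by rw [e]; exact cyc_mid (a :: b :: l1) l2 x y)).1) (fun _ h => h)
      (hm t hk (hT.out t ht)) hw) hs ht
  exact ⟨fun w h1 h2 => hr w (hm w h1 h2), c, hr c (by simp), hbc.1.symm⟩

theorem Sat.face_comp (hS : Sat D X) (hT : Comp D.G X T) {k : ℕ} {w : V} (hk : Psi D T k)
    (hw : D.On k w) (hX : w ∉ X) : w ∈ T := by
  obtain ⟨t, ht, hk⟩ := hk
  by_cases h : ∃ a ∈ X, ∃ b ∈ X, D.On k a ∧ D.On k b ∧ a ≠ b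
  · obtain ⟨a, ha, b, hb, h1, h2, h3⟩ := h
    exact (hS.face_two hT ha hb (induced hS.conn h1 h2 (hS.sat k a b ha hb h1 h2 h3)) ht hk).1
      w hw hX
  · by_cases h' : ∃ a ∈ X, D.On k a
    · obtain ⟨a, ha, h1⟩ := h'
      exact hT.rch (Pl.rch_face (v := a) hk hw (fun e => hT.out t ht (e ▸ ha))
        (fun e => hX (e ▸ ha))) (fun v hv hx => h ⟨v, hx, a, ha, hv.1, h1, hv.2⟩) ht
    · obtain ⟨l, hl⟩ := Pl.exists_face hk
      exact hT.rch (rch_of_list (S := {v | v ∈ l}) (l := l)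
        (fun x y e => ((Pl.E_iff hl).2 (cyc_of_nx e)).1) (fun _ h => h) ((Pl.on_iff hl).1 hk)
        ((Pl.on_iff hl).1 hw)) (fun v hv hx => h' ⟨v, hx, (Pl.on_iff hl).2 hv⟩) ht

theorem Sat.psi_eq (hS : Sat D X) (hT : Comp D.G X T) (hT' : Comp D.G X T') {k : ℕ}
    (h : Psi D T k) (h' : Psi D T' k) : T = T' := by
  obtain ⟨t, h1, h2⟩ := h'
  exact hT.eq hT' (hS.face_comp hT h h2 (hT'.out t h1)) h1

theorem Sat.sep_left (hS : Sat D X) (hT : Comp D.G X T) {a b : V} (h : Sep D (Psi D T) a b) :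
    a ∈ X := by
  by_contra hX
  have h1 : ∀ k, D.E k a b → Psi D T k → ∀ j, D.E j a b → Psi D T j := fun k e hk j e' =>
    ⟨a, hS.face_comp hT hk e.on hX, e'.on⟩
  exact h.2 ⟨fun e => h1 _ (D.E_left h.1) e _ (D.E_right h.1),
    fun e => h1 _ (D.E_right h.1) e _ (D.E_left h.1)⟩

theorem Sat.sep_sees (hS : Sat D X) (hT : Comp D.G X T) {a b : V} (h : Sep D (Psi D T) a b) :
    b ∈ X ∧ Sees D.G T b := by
  have ha := hS.sep_left hT h
  have hb := hS.sep_left hT h.symm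
  obtain ⟨k, e, t, h1, h2⟩ : ∃ k, D.E k a b ∧ Psi D T k := by
    by_cases e : Psi D T (D.f a b)
    · exact ⟨_, D.E_left h.1, e⟩
    · exact ⟨_, D.E_right h.1, by_contra fun e' => h.2 (iff_of_false e e')⟩
  exact ⟨hb, (hS.face_two hT ha hb e h1 h2).2⟩

theorem Sees.psi {x : V} (h : Sees D.G T x) : ∃ j, D.On j x ∧ Psi D T j := by
  obtain ⟨t, h1, h2⟩ := h
  exact ⟨_, (D.E_left h2).on', t, h1, (D.E_left h2).on⟩

theorem Sat.sees (hS : Sat D X) (hX : X.Nonempty) (hT : Comp D.G X T) : ∃ x ∈ X, Sees D.G T x := by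
  obtain ⟨x, hx⟩ := hX
  obtain ⟨t, ht⟩ := hT.ne
  by_contra hc
  push Not at hc
  have cl : ∀ a ∈ T, ∀ b, D.G.Adj a b → b ∈ T := fun a ha b e =>
    hT.cl a ha b e fun hb => hc b hb ⟨a, ha, e⟩
  obtain ⟨v, v1, v2⟩ : ∃ v, v ≠ t ∧ v ≠ x := by
    by_contra h
    push Not at h
    have : (univ : Finset V) ⊆ {t, x} := fun v _ => by
      by_cases e : v = t
      · simp [e]
      · simp [h v e]
    have h1 := card_le_card this
    have h2 := card_le_two (a := t) (b := x)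
    have := hS.card
    rw [card_univ] at h1
    omega
  exact hT.out x ((hS.conn v v t (by simpa using v1.symm) x (by simpa using v2.symm)).ind
    (P := (· ∈ T)) ht fun a b _ _ e ha => cl a ha b e) hx

end PE

end Pool.Agent.Lib.MP_0fc16c_co
end

-- part Pool.Agent.Lib.MP_0fc16c_co.Global2
section

/-! Induced substructures and flaps. -/

set_option autoImplicit false
set_option linter.unusedSectionVars false

open Finset

namespace Pool.Agent.Lib.MP_0fc16c_co

variable {V : Type*} [Fintype V] [DecidableEq V]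

namespace PE

/-- Faces merged when only the edges inside `P` are kept. -/
def Mrg (D : Pl V) (P : Finset V) : ℕ → ℕ → Prop :=
  Relation.EqvGen fun i j => ∃ a b, D.G.Adj a b ∧ ¬ (a ∈ P ∧ b ∈ P) ∧ D.f a b = i ∧ D.f b a = j

/-- `D'` is the structure induced on `P`. -/
structure Sub (D D' : Pl V) (P : Finset V) (r : ℕ → ℕ) : Prop where
  adj : ∀ a b, D'.G.Adj a b ↔ D.G.Adj a b ∧ a ∈ P ∧ b ∈ P
  f : ∀ a b, D'.f a b = r (D.f a b)
  eqv : ∀ i j, r i = r j ↔ Mrg D P i j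
  supp : ∀ v ∈ P, v ∈ D'.G.support
  ne : P.Nonempty

variable {D D' : Pl V} {P : Finset V} {r : ℕ → ℕ}

theorem mrg_edge {a b : V} (h : D.G.Adj a b) (hn : ¬ (a ∈ P ∧ b ∈ P)) :
    Mrg D P (D.f a b) (D.f b a) := Relation.EqvGen.rel _ _ ⟨a, b, h, hn, rfl, rfl⟩

theorem Sub.E_iff (h : Sub D D' P r) {k : ℕ} {a b : V} :
    D'.E k a b ↔ Sep D (fun j => r j = k) a b := by
  constructor
  · rintro ⟨h1, h2⟩
    have := D'.ne a b h1
    rw [h.f, h.f] at h2 this
    exact ⟨((h.adj a b).1 h1).1, by omega⟩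
  · rintro ⟨h1, h2⟩
    have : a ∈ P ∧ b ∈ P := by
      by_contra hc
      have := (h.eqv _ _).2 (mrg_edge h1 hc)
      exact h2 (by beta_reduce; rw [this])
    refine ⟨(h.adj a b).2 ⟨h1, this⟩, ?_⟩
    rw [h.f, h.f]
    tauto

theorem Sub.mem (h : Sub D D' P r) {k : ℕ} {v : V} (hv : D'.On k v) : v ∈ P := by
  obtain ⟨w, hw⟩ := hv
  exact ((h.adj v w).1 hw.1).2.1

theorem Sub.out (h : Sub D D' P r) {v : V} (hv : v ∉ P) {j j' : ℕ} (h1 : D.On j v)
    (h2 : D.On j' v) : r j' = r j := by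
  by_contra hc
  obtain ⟨w, hw⟩ := sep_link (p := fun i => r i = r j) h1 h2 rfl hc
  exact hv (h.mem (h.E_iff.2 hw).on)

theorem Sub.other (h : Sub D D' P r) {v : V} (hv : v ∈ P) (k : ℕ) : ∃ j, D.On j v ∧ r j ≠ k := by
  obtain ⟨w, hw⟩ := h.supp v hv
  have := D'.ne v w hw
  rw [h.f, h.f] at this
  have a := ((h.adj v w).1 hw).1
  by_cases e : r (D.f v w) = k
  · exact ⟨_, (D.E_right a).on, by omega⟩
  · exact ⟨_, (D.E_left a).on, e⟩

theorem Sub.on (h : Sub D D' P r) {v : V} (hv : v ∈ P) {j : ℕ} (h1 : D.On j v) :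
    D'.On (r j) v := by
  obtain ⟨j', h2, h3⟩ := h.other hv (r j)
  obtain ⟨w, hw⟩ := sep_link (p := fun i => r i = r j) h1 h2 rfl h3
  exact (h.E_iff.2 hw).on

theorem Sub.used (h : Sub D D' P r) {v : V} {j : ℕ} (h1 : D.On j v) : ∃ w, D'.On (r j) w := by
  obtain ⟨u, hu⟩ := h.ne
  obtain ⟨j', h2, h3⟩ := h.other hu (r j)
  obtain ⟨a, b, hw⟩ := sep_dual (p := fun i => r i = r j) h1 h2 rfl h3
  exact ⟨a, (h.E_iff.2 hw).on⟩

theorem Sub.cyc (h : Sub D D' P r) {k : ℕ} {B : List V} (hB : IsFace D'.G D'.f k B) (a b : V) :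
    Sep D (fun j => r j = k) a b ↔ Cyc B a b := h.E_iff.symm.trans (Pl.E_iff hB)

theorem Sub.cut (h : Sub D D' P r) {k : ℕ} {B : List V} (hB : IsFace D'.G D'.f k B) :
    cutf D.G D.f (ch fun j => r j = k) = cz B := by
  funext a b
  by_cases e : Cyc B a b
  · rw [cz_of_cyc hB.1 hB.2.1 e, sep_iff.2 ((h.cyc hB a b).2 e)]
  · have e1 : cz B a b = 0 := by by_contra hc; exact e (cyc_of_cz hc)
    rw [e1, ← z2_ne_one]
    exact fun hc => e ((h.cyc hB a b).1 (sep_iff.1 hc))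

/-- All faces meeting a connected set outside `P` are merged. -/
theorem Sub.cls (h : Sub D D' P r) {T : Finset V} (hT : Conn D.G (T : Set V))
    (hP : ∀ t ∈ T, t ∉ P) {j j' : ℕ} (h1 : Psi D T j) (h2 : Psi D T j') : r j' = r j := by
  obtain ⟨t, t1, t2⟩ := h1
  obtain ⟨s, s1, s2⟩ := h2
  refine (hT t t1 s s1).ind (P := fun s => ∀ i, D.On i s → r i = r j)
    (fun i hi => h.out (hP t t1) t2 hi) (fun x y _ hy e ih i hi => ?_) j' s2
  rw [← ih _ (D.E_left e).on]
  exact h.out (hP y hy) (D.E_left e).on' hi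

/-! ### Flaps -/

/-- The neighbours in `Y` of `A` lie in `A` or are equal to `z`. -/
structure Flap (G : SimpleGraph V) (Y A : Finset V) (z : V) : Prop where
  ne : A.Nonempty
  sub : A ⊆ Y
  nz : z ∉ A
  cl : ∀ a ∈ A, ∀ b ∈ Y, G.Adj a b → b ∈ A ∨ b = z

/-- A flap that is minimal for inclusion. -/
def MinFlap (G : SimpleGraph V) (Y A : Finset V) (z : V) : Prop :=
  Flap G Y A z ∧ ∀ A' z', Flap G Y A' z' → A' ⊆ A → A' = A

variable {G : SimpleGraph V} {Y A : Finset V} {z : V}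

theorem Flap.exists_min (h : Flap G Y A z) : ∃ A' z', A' ⊆ A ∧ MinFlap G Y A' z' := by
  induction A using Finset.strongInduction generalizing z with
  | H A ih =>
    by_cases hm : MinFlap G Y A z
    · exact ⟨A, z, Subset.rfl, hm⟩
    · unfold MinFlap at hm
      push Not at hm
      obtain ⟨A', z', h1, h2, h3⟩ := hm h
      obtain ⟨A'', z'', h4, h5⟩ := ih A' (Finset.ssubset_iff_subset_ne.2 ⟨h2, h3⟩) h1
      exact ⟨A'', z'', h4.trans h2, h5⟩

theorem exists_flap (h2 : 2 ≤ Fintype.card V) (hY : Y.Nonempty) : ∃ A z, Flap G Y A z := by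
  obtain ⟨y, hy⟩ := hY
  obtain ⟨z, hz⟩ := Fintype.exists_ne_of_one_lt_card (by omega) y
  refine ⟨Y.erase z, z, ⟨y, mem_erase.2 ⟨hz.symm, hy⟩⟩, erase_subset _ _, by simp,
    fun a _ b hb _ => ?_⟩
  by_cases e : b = z
  · exact Or.inr e
  · exact Or.inl (mem_erase.2 ⟨e, hb⟩)

/-- No vertex of `Y` has at most one neighbour in `Y`. -/
def NoOne (G : SimpleGraph V) (Y : Finset V) : Prop := ∀ x z, ¬ Flap G Y {x} z

theorem Flap.two (hn : NoOne G Y) (h : Flap G Y A z) (a : V) : ∃ b ∈ A, b ≠ a := by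
  by_contra hc
  push Not at hc
  obtain ⟨b, hb⟩ := h.ne
  have : A = {a} := eq_singleton_iff_unique_mem.2 ⟨hc b hb ▸ hb, hc⟩
  exact hn a z (this ▸ h)

theorem MinFlap.root (hn : NoOne G Y) (h : MinFlap G Y A z) : z ∈ Y ∧ ∃ a ∈ A, G.Adj a z := by
  by_contra hc
  obtain ⟨a, ha⟩ := h.1.ne
  obtain ⟨b, hb, hba⟩ := h.1.two hn a
  have := h.2 (A.erase a) a ⟨⟨b, mem_erase.2 ⟨hba, hb⟩⟩, (erase_subset _ _).trans h.1.sub,
    by simp, fun c hc' d hd e => by
      rcases h.1.cl c (mem_of_mem_erase hc') d hd e with h1 | rfl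
      · by_cases e' : d = a
        · exact Or.inr e'
        · exact Or.inl (mem_erase.2 ⟨e', h1⟩)
      · exact absurd ⟨hd, c, mem_of_mem_erase hc', e⟩ hc⟩ (erase_subset _ _)
  rw [← this] at ha
  simp at ha

theorem MinFlap.exists_sub (hn : NoOne D.G Y) (h : MinFlap D.G Y A z) :
    ∃ D' r, Sub D D' (insert z A) r := by
  classical
  let H : SimpleGraph V :=
    { Adj := fun a b => D.G.Adj a b ∧ a ∈ insert z A ∧ b ∈ insert z A
      symm := ⟨fun a b h => ⟨h.1.symm, h.2.2, h.2.1⟩⟩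
      loopless := ⟨fun a h => h.1.ne rfl⟩ }
  obtain ⟨hz, a1, ha1, e1⟩ := h.root hn
  have hs : ∀ v ∈ insert z A, v ∈ H.support := by
    intro v hv
    rcases mem_insert.1 hv with rfl | hA
    · exact ⟨a1, e1.symm, hv, mem_insert_of_mem ha1⟩
    · by_contra hc
      refine hn v z ⟨by simp, by simpa using h.1.sub hA, ?_, fun a ha b hb e => ?_⟩
      · rw [mem_singleton]; rintro rfl; exact h.1.nz hA
      · rw [mem_singleton] at ha
        subst ha
        exact absurd ⟨b, e, hv, mem_insert.2 (h.1.cl a hA b hb e).symm⟩ hc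
  have hc : ∀ v, Conn H {a | a ∈ H.support ∧ a ≠ v} := by
    intro v
    obtain ⟨w, hw⟩ : ∃ w, w = if v = z then a1 else z := ⟨_, rfl⟩
    have st : ∀ a b, D.G.Adj a b → a ∈ insert z A → b ∈ insert z A → a ≠ v → b ≠ v →
        Rch H {a | a ∈ H.support ∧ a ≠ v} a b := fun a b e h1 h2 h3 h4 =>
      Rch.single ⟨e, h1, h2⟩ ⟨hs a h1, h3⟩ ⟨hs b h2, h4⟩
    have kA : ∀ c ∈ A, c ≠ v → Rch H {a | a ∈ H.support ∧ a ≠ v} c w := by
      by_contra hc
      push Not at hc
      obtain ⟨c, c1, c2, c3⟩ := hc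
      have := h.2 (A.filter fun c => c ≠ v ∧ ¬ Rch H {a | a ∈ H.support ∧ a ≠ v} c w) v
        ⟨⟨c, mem_filter.2 ⟨c1, c2, c3⟩⟩, (filter_subset _ _).trans h.1.sub, by simp,
          fun a ha b hb e => by
            obtain ⟨m1, m2, m3⟩ := mem_filter.1 ha
            by_cases e' : b = v
            · exact Or.inr e'
            · have hb' := h.1.cl a m1 b hb e
              have hr := st a b e (mem_insert_of_mem m1) (mem_insert.2 hb'.symm) m2 e'
              rcases hb' with hb' | rfl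
              · exact Or.inl (mem_filter.2 ⟨hb', e', fun h' => m3 (hr.trans h')⟩)
              · rw [if_neg (Ne.symm e')] at hw
                exact absurd (hw ▸ hr) m3⟩ (filter_subset _ _)
      rw [← this] at ha1
      obtain ⟨m1, m2, m3⟩ := mem_filter.1 ha1
      by_cases e' : v = z
      · rw [if_pos e'] at hw
        exact m3 (hw ▸ Rch.refl _)
      · rw [if_neg e'] at hw
        exact m3 (hw ▸ st a1 z e1 (mem_insert_of_mem m1) (mem_insert_self _ _) m2 (Ne.symm e'))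
    have kP : ∀ c ∈ H.support, c ≠ v → Rch H {a | a ∈ H.support ∧ a ≠ v} c w := by
      rintro c ⟨d, hd⟩ hv
      rcases mem_insert.1 hd.2.1 with rfl | hA
      · rw [if_neg (Ne.symm hv)] at hw
        exact hw ▸ Rch.refl _
      · exact kA c hA hv
    intro a ha b hb
    exact (kP a ha.1 ha.2).trans (kP b hb.1 hb.2).symm
  obtain ⟨D1, r, g1, g2, g3⟩ := prePl_sub D.toPrePl H (fun a b h => h.1)
  obtain ⟨D', rfl⟩ := pl_of_prePl D1 (g1 ▸ hc) (by
    rw [g1]
    intro a b hab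
    obtain ⟨a2, ha2, e2⟩ := h.1.two hn a1
    have n1 : z ≠ a1 := e1.ne'
    have n2 : z ≠ a2 := fun e => h.1.nz (e ▸ ha2)
    have s0 := hs z (mem_insert_self _ _)
    have s1 := hs a1 (mem_insert_of_mem ha1)
    have s2 := hs a2 (mem_insert_of_mem ha2)
    by_contra hc
    push Not at hc
    have t0 := or_iff_not_imp_left.2 (hc z s0)
    have t1 := or_iff_not_imp_left.2 (hc a1 s1)
    have t2 := or_iff_not_imp_left.2 (hc a2 s2)
    rcases t0 with rfl | rfl <;> rcases t1 with rfl | rfl <;> rcases t2 with rfl | rfl <;>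
      contradiction)
  refine ⟨D', r, fun a b => by rw [g1], g2, fun i j => (g3 i j).trans ?_, by rw [g1]; exact hs,
    insert_nonempty _ _⟩
  unfold Mrg
  refine iff_of_eq (congrFun (congrFun (congrArg _ ?_) i) j)
  funext i j
  refine propext (exists_congr fun a => exists_congr fun b => and_congr_right fun e => ?_)
  exact and_congr_left' (not_congr ⟨fun h => h.2, fun h => ⟨e, h⟩⟩)

open Classical in
/-- The faces that are not merged with `o`. -/
noncomputable def cnt (D : Pl V) (o : ℕ) (P : Finset V) : Finset ℕ :=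
  (univ.image fun p : V × V => D.f p.1 p.2).filter fun j => (∃ v, D.On j v) ∧ ¬ Mrg D P j o

theorem mem_cnt {o j : ℕ} : j ∈ cnt D o P ↔ (∃ v, D.On j v) ∧ ¬ Mrg D P j o := by
  classical
  unfold cnt
  rw [mem_filter, and_iff_right_iff_imp]
  rintro ⟨⟨v, w, -, rfl | rfl⟩, -⟩
  · exact mem_image.2 ⟨(v, w), mem_univ _, rfl⟩
  · exact mem_image.2 ⟨(w, v), mem_univ _, rfl⟩

/-- An innermost minimal flap. -/
theorem exists_inner (hn : NoOne D.G Y) {A0 : Finset V} {z0 : V} (h0 : Flap D.G Y A0 z0) {o : ℕ}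
    {v0 : V} (ho : D.On o v0) : ∃ A z D' r, MinFlap D.G Y A z ∧ Sub D D' (insert z A) r ∧
      ∀ y ∈ Y, y ∉ insert z A → ∀ j, D.On j y → r j = r o := by
  classical
  have hex : ∃ n, ∃ A z, MinFlap D.G Y A z ∧ (cnt D o (insert z A)).card = n := by
    obtain ⟨A, z, -, h⟩ := h0.exists_min
    exact ⟨_, A, z, h, rfl⟩
  obtain ⟨A, z, hm, hc⟩ := Nat.find_spec hex
  obtain ⟨D', r, hs⟩ := hm.exists_sub hn
  refine ⟨A, z, D', r, hm, hs, fun y hy hP j hj => ?_⟩
  by_contra hk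
  have hf : Flap D.G Y (Y.filter fun y => y ∉ insert z A ∧ ∃ i, D.On i y ∧ r i = r j) z :=
    ⟨⟨y, mem_filter.2 ⟨hy, hP, j, hj, rfl⟩⟩, filter_subset _ _, by simp, fun a ha b hb e => by
      obtain ⟨m1, m2, i, m3, m4⟩ := mem_filter.1 ha
      by_cases hb' : b ∈ insert z A
      · rcases mem_insert.1 hb' with h | h
        · exact Or.inr h
        · exact absurd (mem_insert.2 (hm.1.cl b h a m1 e.symm).symm) m2
      · exact Or.inl (mem_filter.2 ⟨hb, hb', _, (D.E_left e).on',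
          (hs.out m2 m3 (D.E_left e).on).trans m4⟩)⟩
  obtain ⟨A2, z2, hsub, hm2⟩ := hf.exists_min
  have mg : ∀ a b, D.G.Adj a b → r (D.f a b) ≠ r j → Mrg D (insert z2 A2) (D.f a b) (D.f b a) := by
    intro a b e hne
    refine mrg_edge e fun hc => hne ?_
    have key : ∀ x ∈ A2, D.On (D.f a b) x → r (D.f a b) = r j := fun x hx hon => by
      obtain ⟨-, m2, i, m3, m4⟩ := mem_filter.1 (hsub hx)
      exact (hs.out m2 m3 hon).trans m4
    rcases mem_insert.1 hc.1 with rfl | h1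
    · rcases mem_insert.1 hc.2 with h2 | h2
      · exact absurd h2 e.ne'
      · exact key b h2 (D.E_left e).on'
    · exact key a h1 (D.E_left e).on
  obtain ⟨w, hw⟩ := hs.used hj
  obtain ⟨B, hB⟩ := Pl.exists_face hw
  have all : ∀ i v, D.On i v → r i ≠ r j → Mrg D (insert z2 A2) i o := by
    intro i v hi hne
    have := cyc_dich (p := fun i => Mrg D (insert z2 A2) i o → r i = r j) (q := fun i => r i = r j)
      hB.1 hB.2.1 (hs.cyc hB) (fun a b e => ⟨e.1, fun e' => e.2 ?_⟩) hj ho (fun _ => rfl)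
      (fun h => hk (h (Relation.EqvGen.refl _)).symm) hj hi (by simp)
    · by_contra hc
      exact hne (this.1 fun h => absurd h hc)
    · by_cases e1 : r (D.f a b) = r j
      · exact iff_of_true (fun _ => e1) fun _ => e'.1 e1
      · have m := mg a b e.1 e1
        exact ⟨fun h h' => absurd (h (m.trans _ _ _ h')) e1,
          fun h h' => e'.2 (h ((m.symm _ _).trans _ _ _ h'))⟩
  have lt : cnt D o (insert z2 A2) ⊂ cnt D o (insert z A) := by
    have sub : ∀ i v, D.On i v → r i = r j → i ∈ cnt D o (insert z A) := fun i v hi e =>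
      mem_cnt.2 ⟨⟨v, hi⟩, fun h => hk (e.symm.trans ((hs.eqv _ _).2 h))⟩
    refine ⟨fun i hi => ?_, fun hc => ?_⟩
    · obtain ⟨⟨v, hv⟩, h2⟩ := mem_cnt.1 hi
      exact sub i v hv (by_contra fun e => h2 (all i v hv e))
    · obtain ⟨w', hw'⟩ := hw
      have key : ∀ a b, D.G.Adj a b → r (D.f a b) = r j → r (D.f b a) = r j := by
        intro a b e e1
        by_contra e2
        exact (mem_cnt.1 (hc (sub _ a (D.E_left e).on e1))).2
          (((mg b a e.symm e2).symm _ _).trans _ _ _ (all _ a (D.E_right e).on e2))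
      have := hs.E_iff.1 hw'
      exact this.2 ⟨key _ _ this.1, key _ _ this.1.symm⟩
  exact Nat.find_min hex (hc ▸ card_lt_card lt) ⟨A2, z2, hm2, rfl⟩

end PE

end Pool.Agent.Lib.MP_0fc16c_co
end

-- part Pool.Agent.Lib.MP_0fc16c_co.Global3
section

/-! The global reduction to the disc colouring theorem. -/

set_option autoImplicit false
set_option linter.unusedSectionVars false

open Finset

namespace Pool.Agent.Lib.MP_0fc16c_co

variable {V : Type*} [Fintype V] [DecidableEq V] {C : Type*} [DecidableEq C]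

/-- The statement of the disc colouring theorem. -/
def HDisc (V C : Type*) [Fintype V] [DecidableEq V] [DecidableEq C] : Prop :=
  ∀ (D : Pl V) (o : ℕ) (R : V → V → Prop) (_ : ∀ a b, R a b → R b a)
    (L : V → Finset C) (bad : ℕ → (V → C) → Prop) (x y : V) (m : List V)
    (_ : IsFace D.G D.f o (x :: m ++ [y]))
    (_ : ∀ k, k ≠ o → (∃ v, D.On k v) → Loc (D.E k) (bad k) ∧ Weak (D.E k) (bad k) ∧
      (¬ D.E k x y → Strong (D.E k) (fun a b => D.E k a b ∧ R a b) (bad k)))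
    (_ : (L x).Nonempty) (_ : (L y).Nonempty) (_ : R x y → Disjoint (L x) (L y))
    (_ : ∀ v ∈ m, 6 ≤ (L v).card)
    (_ : ∀ v ∈ D.G.support, v ∉ x :: m ++ [y] → 10 ≤ (L v).card),
    ∃ φ : V → C, (∀ v ∈ D.G.support, φ v ∈ L v) ∧ (∀ a b, D.G.Adj a b → R a b → φ a ≠ φ b) ∧
      ∀ k, k ≠ o → (∃ v, D.On k v) → ¬ bad k φ

/-- The statement that four colours per neighbour protect a component. -/
def HW4 (V C : Type*) : Prop :=
  ∀ (G : SimpleGraph V) (T : Finset V) (L : V → Finset C) (_ : TCtx G T L)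
    (_ : ∀ S : Finset V, S ⊆ T → S.card = 5 → ¬ G.IsClique (S : Set V))
    (K : Set V) (ψ : V → C) (_ : ∃ x, x ∉ T ∧ x ∉ K ∧ ∃ t ∈ T, G.Adj t x),
    ∃ P : V → Finset C, (∀ v, (P v).card ≤ 4) ∧
      ∀ φ, (∀ v ∈ K, φ v = ψ v) → (∀ x, x ∉ T → x ∉ K → (∃ t ∈ T, G.Adj t x) → φ x ∉ P x) →
        ¬ badT G T L φ

/-- The statement that simple components give good face constraints. -/
def HSimple (V C : Type*) : Prop :=
  ∀ (G : SimpleGraph V) (T : Finset V) (L : V → Finset C) (B : List V), TCtx G T L →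
    Simple G T B → Weak (Cyc B) (badT G T L) ∧ Strong (Cyc B) (Cyc B) (badT G T L)

namespace PE

variable {D D' : Pl V} {X Y T P : Finset V} {r : ℕ → ℕ} {L : V → Finset C}

/-- All neighbours of `T` are in `Y`. -/
def Cpl (G : SimpleGraph V) (X Y T : Finset V) : Prop :=
  Comp G X T ∧ ∀ x, x ∉ T → Sees G T x → x ∈ Y

theorem badT_congr {G : SimpleGraph V} {φ ψ : V → C}
    (h : ∀ x, x ∉ T → Sees G T x → φ x = ψ x) (hb : badT G T L φ) : badT G T L ψ := by
  rintro ⟨χ, h1, h2, h3⟩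
  exact hb ⟨χ, h1, h2, fun t ht x hx e => h x hx ⟨t, ht, e⟩ ▸ h3 t ht x hx e⟩

theorem badT_graph {G G' : SimpleGraph V} (h : ∀ t ∈ T, ∀ x, G'.Adj t x ↔ G.Adj t x) :
    badT G' T L = badT G T L := by
  funext φ
  unfold badT
  refine congrArg _ (propext (exists_congr fun χ => and_congr_right' (and_congr ?_ ?_)))
  · exact forall₂_congr fun t ht => forall₂_congr fun s _ => by rw [h t ht]
  · exact forall₂_congr fun t ht => forall₂_congr fun s _ => by rw [h t ht]

theorem Comp.tctx {G : SimpleGraph V} (hT : Comp G X T)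
    (hd : ∀ v ∉ X, (G.neighborSet v).ncard ≤ (L v).card) : TCtx G T L :=
  ⟨hT.ne, hT.conn, fun t ht => hd t (hT.out t ht)⟩

theorem w4_family (hW : HW4 V C) (hd : ∀ v ∉ X, (D.G.neighborSet v).ncard ≤ (L v).card)
    (Q : Finset V → Prop) (hQ : ∀ T T', Q T → Q T' → T = T') (K : Set V) (ψ : V → C)
    (hx : ∀ T, Q T → Comp D.G X T ∧ ∃ x, x ∉ T ∧ x ∉ K ∧ Sees D.G T x) :
    ∃ W : V → Finset C, (∀ v, (W v).card ≤ 4) ∧ ∀ T, Q T → ∀ φ, (∀ v ∈ K, φ v = ψ v) →
      (∀ x, x ∉ T → x ∉ K → Sees D.G T x → φ x ∉ W x) → ¬ badT D.G T L φ := by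
  by_cases h : ∃ T, Q T
  · obtain ⟨T, hT⟩ := h
    obtain ⟨W, h1, h2⟩ := hW D.G T L ((hx T hT).1.tctx hd) (fun S _ hS => no_clique5 D S hS) K ψ
      (hx T hT).2
    exact ⟨W, h1, fun T' hT' => hQ T T' hT hT' ▸ h2⟩
  · exact ⟨fun _ => ∅, by simp, fun T hT => absurd ⟨T, hT⟩ h⟩

/-- The property proved by induction on `Y`. -/
def Col (D : Pl V) (X : Finset V) (L : V → Finset C) (Y : Finset V) : Prop :=
  ∃ φ : V → C, (∀ v ∈ Y, φ v ∈ L v) ∧ (∀ a ∈ Y, ∀ b ∈ Y, D.G.Adj a b → φ a ≠ φ b) ∧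
    ∀ T, Cpl D.G X Y T → ¬ badT D.G T L φ

theorem Sat.sep_mem (hS : Sat D X) (hT : Cpl D.G X Y T) {a b : V} (h : Sep D (Psi D T) a b) :
    b ∈ Y := by
  obtain ⟨h1, h2⟩ := hS.sep_sees hT.1 h
  exact hT.2 b (fun e => hT.1.out b e h1) h2

theorem col_one (hW : HW4 V C) (hS : Sat D X) (hL : ∀ v ∈ X, 10 ≤ (L v).card)
    (hd : ∀ v ∉ X, (D.G.neighborSet v).ncard ≤ (L v).card) (hY : Y ⊆ X) {x z : V}
    (hf : Flap D.G Y {x} z) (ih : Col D X L (Y.erase x)) : Col D X L Y := by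
  obtain ⟨φ, h1, h2, h3⟩ := ih
  have hx : x ∈ Y := hf.sub (mem_singleton_self x)
  have hz : ∀ b ∈ Y, D.G.Adj x b → b = z := fun b hb e =>
    (hf.cl x (mem_singleton_self x) b hb e).resolve_left fun h => e.ne' (mem_singleton.1 h)
  have all : ∀ T, Cpl D.G X Y T → Sees D.G T x → ∀ j, D.On j x → Psi D T j := by
    intro T hT hs j hj
    by_contra hc
    obtain ⟨i, i1, i2⟩ := hs.psi
    obtain ⟨w, hw⟩ := sep_link i1 hj i2 hc
    obtain ⟨w', e, hw'⟩ := sep_two hw
    exact e ((hz w' (hS.sep_mem hT hw') hw'.1).trans (hz w (hS.sep_mem hT hw) hw.1).symm)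
  obtain ⟨W, w1, w2⟩ := w4_family hW hd (fun T => Cpl D.G X Y T ∧ Sees D.G T x)
    (fun T T' a b => by
      obtain ⟨i, i1, i2⟩ := a.2.psi
      exact hS.psi_eq a.1.1 b.1.1 i2 (all T' b.1 b.2 i i1)) {x}ᶜ φ
    (fun T a => ⟨a.1.1, x, fun e => a.1.1.out x e (hY hx), by simp, a.2⟩)
  obtain ⟨c, c1, c2⟩ : ∃ c ∈ L x, c ∉ insert (φ z) (W x) := by
    apply exists_mem_notMem_of_card_lt_card
    have := card_insert_le (φ z) (W x)
    have := w1 x
    have := hL x (hY hx)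
    omega
  rw [mem_insert, not_or] at c2
  have up : ∀ v, v ≠ x → Function.update φ x c v = φ v := fun v hv => Function.update_of_ne hv _ _
  have key : ∀ b ∈ Y, D.G.Adj x b → Function.update φ x c x ≠ Function.update φ x c b := by
    intro b hb e
    rw [Function.update_self, up b e.ne', hz b hb e]
    exact c2.1
  refine ⟨Function.update φ x c, fun v hv => ?_, fun a ha b hb e => ?_, fun T hT => ?_⟩
  · by_cases e : v = x
    · rw [e, Function.update_self]; exact c1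
    · rw [up v e]; exact h1 v (mem_erase.2 ⟨e, hv⟩)
  · by_cases e1 : a = x
    · subst e1; exact key b hb e
    · by_cases e2 : b = x
      · subst e2; exact (key a ha e.symm).symm
      · rw [up a e1, up b e2]
        exact h2 a (mem_erase.2 ⟨e1, ha⟩) b (mem_erase.2 ⟨e2, hb⟩) e
  · by_cases hs : Sees D.G T x
    · refine w2 T ⟨hT, hs⟩ _ (fun v hv => up v hv) fun y _ hy _ => ?_
      have : y = x := by simpa using hy
      rw [this, Function.update_self]
      exact c2.2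
    · have hne : ∀ y, Sees D.G T y → y ≠ x := fun y hy e => hs (e ▸ hy)
      exact fun hb => h3 T ⟨hT.1, fun y a b => mem_erase.2 ⟨hne y b, hT.2 y a b⟩⟩
        (badT_congr (fun y _ b => up y (hne y b)) hb)

theorem Sub.cls' (hs : Sub D D' P r) (hP : P ⊆ X) (hT : Comp D.G X T) {j j' : ℕ}
    (h1 : Psi D T j) (h2 : Psi D T j') : r j' = r j :=
  hs.cls hT.conn (fun t ht e => hT.out t ht (hP e)) h1 h2

theorem Sub.sep_cls (hs : Sub D D' P r) {k : ℕ} (hk : ∀ i, Psi D T i → r i = k) {a b : V}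
    (h : Sep D (Psi D T) a b) (ha : a ∈ P) (hb : b ∈ P) : D'.E k a b := by
  refine ⟨(hs.adj a b).2 ⟨h.1, ha, hb⟩, ?_⟩
  rw [hs.f, hs.f]
  by_cases e : Psi D T (D.f a b)
  · exact Or.inl (hk _ e)
  · exact Or.inr (hk _ (by_contra fun e' => h.2 (iff_of_false e e')))

/-- Local form: at a vertex all of whose cut edges are kept, the edges of the class are cut
edges. -/
theorem Sub.local (hs : Sub D D' P r) {k : ℕ} (hk : ∀ i, Psi D T i → r i = k) {v : V}
    (hv : v ∈ P) (hc : ∀ w, Sep D (Psi D T) v w → w ∈ P) (hg : ∃ j, D.On j v ∧ Psi D T j) {w : V}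
    (hw : D'.E k v w) : Sep D (Psi D T) v w := by
  obtain ⟨j, j1, j2⟩ := hg
  obtain ⟨i, i1, i2⟩ := hs.other hv k
  obtain ⟨w1, s1⟩ := sep_link j1 i1 j2 fun e => i2 (hk i e)
  obtain ⟨w2, e, s2⟩ := sep_two s1
  rcases Pl.E_two (hs.sep_cls hk s1 hv (hc _ s1)) (hs.sep_cls hk s2 hv (hc _ s2)) hw
    with h | rfl | rfl
  · exact absurd h.symm e
  · exact s1
  · exact s2

theorem Sep.good {a b : V} (h : Sep D (Psi D T) a b) : ∃ j, D.E j a b ∧ Psi D T j := by
  by_cases e : Psi D T (D.f a b)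
  · exact ⟨_, D.E_left h.1, e⟩
  · exact ⟨_, D.E_right h.1, by_contra fun e' => h.2 (iff_of_false e e')⟩

/-- The edges of one face, as a graph. -/
def faceG (D : Pl V) (k : ℕ) : SimpleGraph V where
  Adj := D.E k
  symm := ⟨fun _ _ h => h.symm⟩
  loopless := ⟨fun _ h => h.1.ne rfl⟩

theorem outer_unique (hS : Sat D X) (hs : Sub D D' P r) {k : ℕ} {z0 : V}
    {l : List V} (hf : IsFace D'.G D'.f k (z0 :: l))
    (hA : ∀ v ∈ l, ∀ b ∈ Y, D.G.Adj v b → b ∈ P) {T T' : Finset V} (hT : Cpl D.G X Y T)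
    (hT' : Cpl D.G X Y T') (hk : ∀ i, Psi D T i → r i = k) (hk' : ∀ i, Psi D T' i → r i = k)
    {x x' : V} (hx : x ∈ l) (hx' : x' ∈ l) (s : Sees D.G T x) (s' : Sees D.G T' x') : T = T' := by
  have on : ∀ v ∈ l, D'.On k v := fun v hv => (Pl.on_iff hf).2 (List.mem_cons_of_mem _ hv)
  have loc : ∀ T, Cpl D.G X Y T → (∀ i, Psi D T i → r i = k) → ∀ v ∈ l,
      (∃ j, D.On j v ∧ Psi D T j) → ∀ w, D'.E k v w → Sep D (Psi D T) v w :=
    fun T hT hk v hv hg w hw => hs.local hk (hs.mem (on v hv))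
      (fun w e => hA v hv w (hS.sep_mem hT e) e.1) hg hw
  have hr : Rch (faceG D' k) {v | v ∈ l} x x' := rch_of_list (l := l) (fun a b ⟨l1, l2, e⟩ =>
    (Pl.E_iff hf).2 (by rw [e]; exact cyc_mid (z0 :: l1) l2 a b)) (fun _ h => h) hx hx'
  have g := hr.ind (P := fun v => ∃ j, D.On j v ∧ Psi D T j) s.psi fun a b ha _ e ih => by
    obtain ⟨j, j1, j2⟩ := (loc T hT hk a ha ih b e).good
    exact ⟨j, j1.on', j2⟩
  obtain ⟨w, hw⟩ := on x' hx'
  obtain ⟨j, j1, j2⟩ := (loc T hT hk x' hx' g w hw).good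
  obtain ⟨i, i1, i2⟩ := (loc T' hT' hk' x' hx' s'.psi w hw).good
  have e1 := hk j j2
  have e2 := hk' i i2
  have e3 := (hs.E_iff.1 hw).2
  have : i = j := by
    rcases j1.2 with rfl | rfl <;> rcases i1.2 with rfl | rfl
    · rfl
    · exact absurd (iff_of_true e1 e2) e3
    · exact absurd (iff_of_true e2 e1) e3
    · rfl
  exact hS.psi_eq hT.1 hT'.1 j2 (this ▸ i2)

theorem inner_psi (hS : Sat D X) (hs : Sub D D' P r) (hP : P ⊆ X) (hT : Cpl D.G X P T) {o j : ℕ}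
    {v0 : V} (ho : D.On o v0) (hj : Psi D T j) (hko : r j ≠ r o) {i : ℕ} {v : V}
    (hi : D.On i v) : Psi D T i ↔ r i = r j := by
  have hk : ∀ i, Psi D T i → r i = r j := fun i hi => hs.cls' hP hT.1 hj hi
  obtain ⟨s, s1, s2⟩ := hj
  obtain ⟨B, hB⟩ := Pl.exists_face (hs.used s2).choose_spec
  exact cyc_dich (p := Psi D T) (q := fun i => r i = r j) hB.1 hB.2.1 (hs.cyc hB)
    (fun a b h => hs.E_iff.1 (hs.sep_cls hk h (hS.sep_mem hT h.symm) (hS.sep_mem hT h))) s2 ho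
    ⟨s, s1, s2⟩ (fun h => hko (hk o h).symm) s2 hi (iff_of_true ⟨s, s1, s2⟩ rfl)

theorem inner_simple (hS : Sat D X) (hs : Sub D D' P r) (hP : P ⊆ X) (hT : Cpl D.G X P T)
    (hd : ∀ v ∉ X, (D.G.neighborSet v).ncard ≤ (L v).card) {o j : ℕ}
    {v0 : V} (ho : D.On o v0) (hj : Psi D T j) (hko : r j ≠ r o) {B : List V}
    (hB : IsFace D'.G D'.f (r j) B) :
    ∃ G : SimpleGraph V, TCtx G T L ∧ Simple G T B ∧ badT G T L = badT D.G T L := by
  have ps := fun i v => inner_psi hS hs hP hT ho hj hko (i := i) (v := v)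
  obtain ⟨E, hE, hf⟩ := exists_restr D (ch fun i => r i = r j) o (ch_zero.2 hko.symm) B hB.1 hB.2.1
    (hs.cut hB)
  have adj : ∀ t ∈ T, ∀ x, E.G.Adj t x ↔ D.G.Adj t x := fun t ht x =>
    ⟨fun h => hE.le h, fun h => (hE.adj t x).2 ⟨h, Or.inl (ch_one.2
      ((ps _ t (D.E_left h).on).1 ⟨t, ht, (D.E_left h).on⟩))⟩⟩
  have disj : ∀ b ∈ B, b ∉ T := fun b hb e =>
    hT.1.out b e (hP (hs.mem ((Pl.on_iff hB).2 hb)))
  have nbr : ∀ t ∈ T, ∀ x, D.G.Adj t x → x ∈ T ∨ x ∈ B := fun t ht x e => by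
    refine or_iff_not_imp_left.2 fun hx => (Pl.on_iff hB).1 ?_
    rw [← (ps _ t (D.E_left e).on).1 ⟨t, ht, (D.E_left e).on⟩]
    exact hs.on (hT.2 x hx ⟨t, ht, e⟩) (D.E_left e).on'
  have on : {v | E.On o v} = {v | v ∈ B} := Set.ext fun v => Pl.on_iff hf
  refine ⟨E.G, ⟨hT.1.ne, fun a ha b hb => ?_, fun t ht => le_trans ?_ (hd t (hT.1.out t ht))⟩,
    ⟨hB.1, hB.2.1, fun a b h => ((Pl.E_iff hf).2 h).1, disj,
      fun t ht x e => nbr t ht x (hE.le e), fun b hb => ?_, fun v K hK hKT hv hcl => ?_,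
      on ▸ noK33_face E o, on ▸ noK5_face E o⟩, badT_graph adj⟩
  · exact (hT.1.conn a ha b hb).ind (P := fun b => Rch E.G (T : Set V) a b) (Rch.refl _)
      fun x y hx hy e ih => ih.trans (Rch.single ((adj x hx y).2 e) hx hy)
  · exact Set.ncard_le_ncard (fun x hx => hE.le hx) (Set.toFinite _)
  · obtain ⟨w, hw⟩ := exists_cyc_of_mem hb
    have h1 := (hs.cyc hB b w).2 hw
    have h2 : Sep D (Psi D T) w b := Sep.symm ⟨h1.1, by
      rw [ps _ b (D.E_left h1.1).on, ps _ b (D.E_right h1.1).on]; exact h1.2⟩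
    obtain ⟨t, ht, e⟩ := (hS.sep_sees hT.1 h2).2
    exact ⟨t, ht, (adj t ht b).2 e⟩
  · by_contra hc
    obtain ⟨b1, b2, b3, m1, m2, m3, n1, n2, n3⟩ : ∃ b1 b2 b3, b1 ∈ B ∧ b2 ∈ B ∧ b3 ∈ B ∧
        b1 ≠ b2 ∧ b1 ≠ b3 ∧ b2 ≠ b3 := by
      have nd := hB.1
      have := hB.2.1
      obtain _ | ⟨b1, _ | ⟨b2, _ | ⟨b3, B⟩⟩⟩ := B
      · simp at this
      · simp at this
      · simp at this
      · exact ⟨b1, b2, b3, by simp, by simp, by simp, by grind, by grind, by grind⟩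
    obtain ⟨x, hx, hx'⟩ : ∃ x ∈ B, ∀ y ∈ B, (∃ a ∈ K, E.G.Adj a y) → y = x := by
      by_cases h : ∃ x ∈ B, ∃ a ∈ K, E.G.Adj a x
      · obtain ⟨x, h1, h2⟩ := h
        exact ⟨x, h1, fun y h3 h4 => by_contra fun e => hc ⟨y, h3, x, h1, e, h4, h2⟩⟩
      · exact ⟨b1, m1, fun y h3 h4 => absurd ⟨y, h3, h4⟩ h⟩
    obtain ⟨w, w1, w2, w3⟩ : ∃ w ∈ B, w ≠ v ∧ w ≠ x := by
      by_contra h
      push Not at h
      have t0 := or_iff_not_imp_left.2 (h b1 m1)
      have t1 := or_iff_not_imp_left.2 (h b2 m2)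
      have t2 := or_iff_not_imp_left.2 (h b3 m3)
      rcases t0 with rfl | rfl <;> rcases t1 with rfl | rfl <;> rcases t2 with rfl | rfl <;>
        contradiction
    obtain ⟨a, ha⟩ := hK
    have := (hS.conn v x a (by
      simp only [Set.mem_compl_iff, Set.mem_insert_iff, Set.mem_singleton_iff, not_or]
      exact ⟨fun e => hv (e ▸ ha), fun e => disj x hx (e ▸ hKT ha)⟩) w (by simp [w2, w3])).ind
      (P := (· ∈ K)) ha fun c d _ hd' e ih => by
        simp only [Set.mem_compl_iff, Set.mem_insert_iff, Set.mem_singleton_iff, not_or] at hd'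
        have e' := (adj c (hKT ih) d).2 e
        rcases nbr c (hKT ih) d e with h | h
        · exact (hcl c ih d h e').resolve_right hd'.1
        · exact absurd (hx' d h ⟨c, ih, e'⟩) hd'.2
    exact disj w w1 (hKT this)

theorem strong_false [Nonempty C] (E Q : V → V → Prop) :
    Strong E Q (fun _ : V → C => False) := by
  have pay : ∀ p u u' (c : C) i j n, Pay E Q (fun _ : V → C => False) p u u' c i j n :=
    fun p u u' c i j n => ⟨fun _ => ∅, by simp, by simp, by simp, fun _ _ _ _ => id⟩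
  exact ⟨fun _ _ _ _ _ _ _ => pay .., fun _ _ _ _ _ _ => ⟨∅, by simp, fun _ _ => pay ..⟩,
    fun _ _ _ _ _ _ => Or.inr fun _ => pay ..,
    fun _ _ _ _ _ _ _ _ _ => ⟨fun _ => ∅, by simp, fun _ _ _ _ _ => id⟩,
    fun _ _ _ _ _ _ => Or.inl fun _ _ => ⟨∅, by simp, fun _ _ _ _ _ => id⟩,
    fun _ _ _ _ _ _ => Or.inl ⟨Classical.arbitrary C, fun _ _ => ⟨∅, by simp,
      fun _ _ _ _ => id⟩⟩⟩

/-- The constraint carried by the class `k`. -/
def bad (D : Pl V) (X P : Finset V) (r : ℕ → ℕ) (L : V → Finset C) (k : ℕ) (φ : V → C) : Prop :=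
  ∃ T, (Cpl D.G X P T ∧ ∃ j, Psi D T j ∧ r j = k) ∧ badT D.G T L φ

theorem bad_good [Nonempty C] (hH : HSimple V C) (hS : Sat D X) (hs : Sub D D' P r) (hP : P ⊆ X)
    (hd : ∀ v ∉ X, (D.G.neighborSet v).ncard ≤ (L v).card) {o k : ℕ}
    {v0 : V} (ho : D.On o v0) (hko : k ≠ r o) (hk : ∃ v, D'.On k v) :
    Loc (D'.E k) (bad D X P r L k) ∧ Weak (D'.E k) (bad D X P r L k) ∧
      Strong (D'.E k) (fun a b => D'.E k a b ∧ True) (bad D X P r L k) := by
  by_cases h : ∃ T, Cpl D.G X P T ∧ ∃ j, Psi D T j ∧ r j = k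
  · obtain ⟨T, hT, j, hj, rfl⟩ := h
    obtain ⟨B, hB⟩ := Pl.exists_face hk.choose_spec
    obtain ⟨G, g1, g2, g3⟩ := inner_simple hS hs hP hT hd ho hj hko hB
    have e1 : bad D X P r L (r j) = badT G T L := by
      rw [g3]
      funext φ
      refine propext ⟨?_, fun h => ⟨T, ⟨hT, j, hj, rfl⟩, h⟩⟩
      rintro ⟨T', ⟨hT', i, ⟨t, t1, t2⟩, hi⟩, h⟩
      rwa [hS.psi_eq hT.1 hT'.1 ((inner_psi hS hs hP hT ho hj hko t2).2 hi) ⟨t, t1, t2⟩]
    have e2 : D'.E (r j) = Cyc B := by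
      funext a b
      exact propext (Pl.E_iff hB)
    simp only [and_true]
    rw [e1, e2]
    refine ⟨fun φ ψ h => badT_congr fun x hx ⟨t, ht, e⟩ => h x ?_, hH G T L B g1 g2⟩
    exact exists_cyc_of_mem ((g2.nbr t ht x e).resolve_left hx)
  · have e1 : bad D X P r L k = fun _ => False := by
      funext φ
      exact propext ⟨fun ⟨T, h1, _⟩ => h ⟨T, h1⟩, False.elim⟩
    rw [e1]
    exact ⟨fun _ _ _ => id, fun _ _ _ => ⟨fun _ => ∅, by simp, fun _ _ _ => id⟩, strong_false _ _⟩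

theorem col_step (hD : HDisc V C) (hW : HW4 V C) (hH : HSimple V C) (hS : Sat D X)
    (hL : ∀ v ∈ X, 10 ≤ (L v).card) (hd : ∀ v ∉ X, (D.G.neighborSet v).ncard ≤ (L v).card)
    (hY : Y ⊆ X) (hn : NoOne D.G Y) (hne : Y.Nonempty)
    (ih : ∀ Y' ⊂ Y, Col D X L Y') : Col D X L Y := by
  classical
  obtain ⟨A0, z1, h0⟩ := exists_flap (G := D.G) (by have := hS.card; omega) hne
  obtain ⟨v0, o, ho⟩ : ∃ v0 o, D.On o v0 := by
    obtain ⟨A, z, -, hm⟩ := h0.exists_min
    obtain ⟨-, a, -, e⟩ := hm.root hn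
    exact ⟨a, _, (D.E_left e).on⟩
  obtain ⟨A, z, D', r, hm, hs, hout⟩ := exists_inner hn h0 ho
  obtain ⟨P, hP⟩ : ∃ P, P = insert z A := ⟨_, rfl⟩
  rw [← hP] at hs hout
  have PY : P ⊆ Y := hP ▸ insert_subset (hm.root hn).1 hm.1.sub
  obtain ⟨z0, z01, z02⟩ : ∃ z0, D'.On (r o) z0 ∧ (D'.On (r o) z → z0 = z) := by
    by_cases h : D'.On (r o) z
    · exact ⟨z, h, fun _ => rfl⟩
    · obtain ⟨w, hw⟩ := hs.used ho
      exact ⟨w, hw, fun e => absurd e h⟩
  obtain ⟨m, y, hf⟩ : ∃ m y, IsFace D'.G D'.f (r o) (z0 :: m ++ [y]) := by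
    obtain ⟨w, hw⟩ := z01
    obtain ⟨c, t, hf⟩ := Pl.face_start hw
    obtain h | ⟨m, y, h⟩ := List.eq_nil_or_concat' (w :: c :: t)
    · simp at h
    · exact ⟨m, y, by rw [h] at hf; exact hf⟩
  have nd := hf.1
  have yz : y ≠ z0 := by grind
  have onl : ∀ v, D'.On (r o) v ↔ v = z0 ∨ v ∈ m ∨ v = y := fun v => by
    rw [Pl.on_iff hf]; simp
  have zP : z0 ∈ P := hs.mem z01
  have yP : y ∈ P := hs.mem ((onl y).2 (by simp))
  have hA : ∀ v, D'.On (r o) v → v ≠ z0 → ∀ b ∈ Y, D.G.Adj v b → b ∈ P := by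
    intro v hv hz b hb e
    have := hs.mem hv
    rw [hP] at this ⊢
    rcases mem_insert.1 this with rfl | h
    · exact absurd (z02 hv).symm hz
    · exact mem_insert.2 (hm.1.cl v h b hb e).symm
  have cross : ∀ a ∈ P, ∀ b ∈ Y, b ∉ P → D.G.Adj a b → a = z0 := fun a ha b hb hb' e => by
    by_contra hc
    refine hb' (hA a ?_ hc b hb e)
    rw [← hout b hb hb' _ (D.E_left e).on']
    exact hs.on ha (D.E_left e).on
  obtain ⟨φ, p1, p2, p3⟩ := ih (Y \ P.erase z0)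
    (sdiff_ssubset ((erase_subset _ _).trans PY) ⟨y, mem_erase.2 ⟨yz, yP⟩⟩)
  have : Nonempty C := ⟨φ y⟩
  have mY : ∀ v ∈ Y, (v ∈ P → v = z0) → v ∈ Y \ P.erase z0 := fun v hv h =>
    mem_sdiff.2 ⟨hv, fun e => (mem_erase.1 e).1 (h (mem_erase.1 e).2)⟩
  have seeo : ∀ T, (∀ i, Psi D T i → r i = r o) → ∀ x ∈ P, Sees D.G T x → D'.On (r o) x := by
    intro T hk x hx s
    obtain ⟨j, j1, j2⟩ := s.psi
    exact hk j j2 ▸ hs.on hx j1
  obtain ⟨W, w1, w2⟩ := w4_family hW hd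
    (fun T => Cpl D.G X Y T ∧ (∀ i, Psi D T i → r i = r o) ∧ ∃ x ∈ P.erase z0, Sees D.G T x)
    (fun T T' ⟨a1, a2, x, a3, a4⟩ ⟨b1, b2, x', b3, b4⟩ => by
      have ml : ∀ v, D'.On (r o) v → v ≠ z0 → v ∈ m ++ [y] := fun v h1 h2 => by
        simpa [h2] using (onl v).1 h1
      exact outer_unique hS hs (l := m ++ [y]) hf
        (fun v hv => hA v ((onl v).2 (Or.inr (by simpa using hv))) (by grind)) a1 b1 a2 b2
        (ml x (seeo T a2 x (mem_erase.1 a3).2 a4) (mem_erase.1 a3).1)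
        (ml x' (seeo T' b2 x' (mem_erase.1 b3).2 b4) (mem_erase.1 b3).1) a4 b4)
    (P.erase z0 : Finset V)ᶜ φ
    (fun T ⟨a1, _, x, a3, a4⟩ => ⟨a1.1, x, fun e => a1.1.out x e (hY (PY (mem_erase.1 a3).2)),
      fun e => e a3, a4⟩)
  have c6 : ∀ v ∈ P, 6 ≤ (L v \ W v).card := fun v hv => by
    have := le_card_sdiff (W v) (L v)
    have := w1 v
    have := hL v (hY (PY hv))
    omega
  obtain ⟨L', hL'⟩ : ∃ L' : V → Finset C, L' = fun v => if v = z0 then {φ z0} else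
    if v = y then (L v \ W v).erase (φ z0) else if v ∈ m then L v \ W v else L v := ⟨_, rfl⟩
  have l0 : L' z0 = {φ z0} := by simp [hL']
  have ly : L' y = (L y \ W y).erase (φ z0) := by simp [hL', yz]
  have lm : ∀ v ∈ m, L' v = L v \ W v := fun v hv => by
    rw [hL']
    beta_reduce
    rw [if_neg (by grind), if_neg (by grind), if_pos hv]
  have li : ∀ v, ¬ D'.On (r o) v → L' v = L v := fun v hv => by
    rw [onl] at hv
    rw [hL']
    beta_reduce
    rw [if_neg (by grind), if_neg (by grind), if_neg (by grind)]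
  obtain ⟨ψ, q1, q2, q3⟩ := hD D' (r o) (fun _ _ => True) (fun _ _ => id) L' (bad D X P r L) z0 y m
    hf (fun k hk hu => by
      obtain ⟨g1, g2, g3⟩ := bad_good hH hS hs (PY.trans hY) hd ho hk hu
      exact ⟨g1, g2, fun _ => g3⟩) (by simp [l0]) (by
      rw [ly, ← card_pos]
      have := pred_card_le_card_erase (s := L y \ W y) (a := φ z0)
      have := c6 y yP
      omega) (fun _ => by simp [l0, ly])
    (fun v hv => lm v hv ▸ c6 v (hs.mem ((onl v).2 (Or.inr (Or.inl hv)))))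
    (fun v ⟨w, hw⟩ hv => by
      rw [li v fun h => hv ((Pl.on_iff hf).1 h)]
      exact hL v (hY (PY ((hs.adj v w).1 hw).2.1)))
  have s0 : ψ z0 = φ z0 := by simpa [l0] using q1 z0 (hs.supp z0 zP)
  have so : ∀ v, D'.On (r o) v → v ≠ z0 → ψ v ∈ L v \ W v := fun v hv hz => by
    have := q1 v hv.supp
    rcases (onl v).1 hv with h | h | rfl
    · exact absurd h hz
    · rwa [lm v h] at this
    · rw [ly] at this
      exact mem_of_mem_erase this
  obtain ⟨θ, hθ⟩ : ∃ θ : V → C, θ = fun v => if v ∈ P then ψ v else φ v := ⟨_, rfl⟩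
  have t1 : ∀ v ∈ P, θ v = ψ v := fun v hv => by simp [hθ, hv]
  have t2 : ∀ v, (v ∈ P → v = z0) → θ v = φ v := fun v hv => by
    by_cases h : v ∈ P
    · rw [t1 v h, hv h, s0]
    · simp [hθ, h]
  refine ⟨θ, fun v hv => ?_, fun a ha b hb e => ?_, fun T hT => ?_⟩
  · by_cases h : v ∈ P → v = z0
    · rw [t2 v h]; exact p1 v (mY v hv h)
    · push Not at h
      rw [t1 v h.1]
      by_cases h' : D'.On (r o) v
      · exact (mem_sdiff.1 (so v h' h.2)).1
      · exact li v h' ▸ q1 v (hs.supp v h.1)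
  · by_cases h : a ∈ P ∧ b ∈ P
    · rw [t1 a h.1, t1 b h.2]
      exact q2 a b ((hs.adj a b).2 ⟨e, h⟩) trivial
    · have ha' : a ∈ P → a = z0 := fun h' => cross a h' b hb (fun h'' => h ⟨h', h''⟩) e
      have hb' : b ∈ P → b = z0 := fun h' => cross b h' a ha (fun h'' => h ⟨h'', h'⟩) e.symm
      rw [t2 a ha', t2 b hb']
      exact p2 a (mY a ha ha') b (mY b hb hb') e
  · by_cases h : ∃ x ∈ P.erase z0, Sees D.G T x
    · obtain ⟨x, hx, s⟩ := id h
      obtain ⟨j, -, hj⟩ := s.psi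
      have hk : ∀ i, Psi D T i → r i = r j := fun i hi => hs.cls' (PY.trans hY) hT.1 hj hi
      by_cases e : r j = r o
      · rw [e] at hk
        refine w2 T ⟨hT, hk, h⟩ θ (fun v hv => t2 v fun h' => by_contra fun h'' =>
          hv (mem_erase.2 ⟨h'', h'⟩)) fun v _ hv s => ?_
        have hv' := mem_erase.1 (not_not.1 hv)
        rw [t1 v hv'.2]
        exact (mem_sdiff.1 (so v (seeo T hk v hv'.2 s) hv'.1)).2
      · have hT' : Cpl D.G X P T := ⟨hT.1, fun v hv s => by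
          by_contra hc
          obtain ⟨i, i1, i2⟩ := s.psi
          exact e ((hk i i2).symm.trans (hout v (hT.2 v hv s) hc i i1))⟩
        obtain ⟨t, -, ht⟩ := id hj
        exact fun hb => q3 (r j) e (hs.used ht) ⟨T, ⟨hT', j, hj, rfl⟩,
          badT_congr (fun v hv s => t1 v (hT'.2 v hv s)) hb⟩
    · have hz : ∀ v, Sees D.G T v → v ∈ P → v = z0 := fun v s hv =>
        by_contra fun e => h ⟨v, mem_erase.2 ⟨e, hv⟩, s⟩
      exact fun hb => p3 T ⟨hT.1, fun v hv s => mY v (hT.2 v hv s) (hz v s)⟩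
        (badT_congr (fun v _ s => t2 v (hz v s)) hb)

theorem col_all (hD : HDisc V C) (hW : HW4 V C) (hH : HSimple V C) (hS : Sat D X)
    (hX : X.Nonempty) (hL : ∀ v ∈ X, 10 ≤ (L v).card)
    (hd : ∀ v ∉ X, (D.G.neighborSet v).ncard ≤ (L v).card) (hY : Y ⊆ X) : Col D X L Y := by
  induction Y using Finset.strongInduction with
  | H Y ih =>
    have ih' : ∀ Y' ⊂ Y, Col D X L Y' := fun Y' h => ih Y' h (h.1.trans hY)
    rcases Y.eq_empty_or_nonempty with rfl | hne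
    · obtain ⟨x, hx⟩ := id hX
      obtain ⟨c, -⟩ := card_pos.1 (show 0 < (L x).card by have := hL x hx; omega)
      refine ⟨fun _ => c, by simp, by simp, fun T hT => ?_⟩
      obtain ⟨y, hy, s⟩ := hS.sees hX hT.1
      simpa using hT.2 y (fun e => hT.1.out y e hy) s
    · by_cases hn : NoOne D.G Y
      · exact col_step hD hW hH hS hL hd hY hn hne ih'
      · unfold NoOne at hn
        push Not at hn
        obtain ⟨x, z, hf⟩ := hn
        exact col_one hW hS hL hd hY hf (ih' _ (erase_ssubset (hf.sub (mem_singleton_self x))))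

theorem main_sat (hD : HDisc V C) (hW : HW4 V C) (hH : HSimple V C) (hS : Sat D X)
    (hX : X.Nonempty) (hL : ∀ v ∈ X, 10 ≤ (L v).card)
    (hd : ∀ v ∉ X, (D.G.neighborSet v).ncard ≤ (L v).card) :
    ∃ φ : V → C, (∀ v, φ v ∈ L v) ∧ ∀ a b, D.G.Adj a b → φ a ≠ φ b := by
  obtain ⟨φ, p1, p2, p3⟩ := col_all hD hW hH hS hX hL hd Subset.rfl
  have h1 : ∀ T, ∃ ψ : V → C, Comp D.G X T → (∀ t ∈ T, ψ t ∈ L t) ∧
      (∀ t ∈ T, ∀ s ∈ T, D.G.Adj t s → ψ t ≠ ψ s) ∧
      ∀ t ∈ T, ∀ x, x ∉ T → D.G.Adj t x → ψ t ≠ φ x := fun T => by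
    by_cases h : Comp D.G X T
    · obtain ⟨ψ, hψ⟩ := not_not.1 (p3 T ⟨h, fun x hx ⟨t, ht, e⟩ =>
        by_contra fun hc => hx (h.cl t ht x e hc)⟩)
      exact ⟨ψ, fun _ => hψ⟩
    · exact ⟨φ, fun e => absurd e h⟩
  have h2 : ∀ t, ∃ T, t ∉ X → Comp D.G X T ∧ t ∈ T := fun t => by
    by_cases h : t ∈ X
    · exact ⟨∅, fun e => absurd h e⟩
    · obtain ⟨T, hT⟩ := exists_comp D.G X h
      exact ⟨T, fun _ => hT⟩
  choose ext he using h1
  choose cmp hc using h2
  have key : ∀ a b, a ∉ X → b ∈ X → D.G.Adj a b → ext (cmp a) a ≠ φ b := fun a b ha hb e =>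
    (he _ (hc a ha).1).2.2 a (hc a ha).2 b (fun h => (hc a ha).1.out b h hb) e
  refine ⟨fun v => if v ∈ X then φ v else ext (cmp v) v, fun v => ?_, fun a b e => ?_⟩
  · beta_reduce
    split_ifs with h
    · exact p1 v h
    · exact (he _ (hc v h).1).1 v (hc v h).2
  · beta_reduce
    split_ifs with ha hb hb
    · exact p2 a ha b hb e
    · exact (key b a hb ha e.symm).symm
    · exact key a b ha hb e
    · have m := (hc a ha).1.cl a (hc a ha).2 b e hb
      rw [← (hc a ha).1.eq (hc b hb).1 m (hc b hb).2]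
      exact (he _ (hc a ha).1).2.1 a (hc a ha).2 b m e

end PE

open PE in
theorem main_pl_of (hD : HDisc V C) (hW : HW4 V C) (hH : HSimple V C) (D : Pl V)
    (h4 : 4 ≤ Fintype.card V) (h3 : ∀ u v, Conn D.G {u, v}ᶜ) (X : Finset V) (hX : X.Nonempty)
    (L : V → Finset C) (hL : ∀ v ∈ X, 10 ≤ (L v).card)
    (hT : ∀ v ∉ X, (D.G.neighborSet v).ncard ≤ (L v).card) :
    ∃ φ : V → C, (∀ v, φ v ∈ L v) ∧ ∀ a b, D.G.Adj a b → φ a ≠ φ b := by
  classical
  obtain ⟨n, hn⟩ : ∃ n, (univ.filter fun p : V × V => ¬ D.G.Adj p.1 p.2).card = n := ⟨_, rfl⟩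
  induction n using Nat.strong_induction_on generalizing D with
  | _ n ih =>
    by_cases hS : Sat D X
    · exact main_sat hD hW hH hS hX hL hT
    · obtain ⟨k, a, b, ha, hb, oa, ob, hne, hab⟩ : ∃ k a b, a ∈ X ∧ b ∈ X ∧ D.On k a ∧ D.On k b ∧
          a ≠ b ∧ ¬ D.G.Adj a b := by
        by_contra hc
        push Not at hc
        exact hS ⟨h4, h3, hc⟩
      obtain ⟨l, hl⟩ := Pl.exists_face oa
      obtain ⟨l1, l2, rfl⟩ := List.append_of_mem ((Pl.on_iff hl).1 oa)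
      have hl' : IsFace D.G D.f k (a :: (l2 ++ l1)) := by simpa using hl.rot
      obtain ⟨m1, m2, e⟩ := List.append_of_mem
        ((List.mem_cons.1 ((Pl.on_iff hl').1 ob)).resolve_left hne.symm)
      rw [e] at hl'
      obtain ⟨D', n', hE⟩ := exists_addE D (t := k) (m1 := m1) (m2 := m2) hl' hab
      have le : D.G ≤ D'.G := fun x y h => (hE.adj x y).2 (Or.inl h)
      obtain ⟨φ, p1, p2⟩ := ih _ (by
        rw [← hn]
        refine card_lt_card ⟨fun p hp => ?_, fun h => ?_⟩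
        · exact mem_filter.2 ⟨mem_univ _, fun h => (mem_filter.1 hp).2 (le h)⟩
        · exact (mem_filter.1 (h (mem_filter.2 ⟨mem_univ (a, b), hab⟩))).2
            ((hE.adj a b).2 (Or.inr (Or.inl ⟨rfl, rfl⟩)))) D'
        (fun u v x hx y hy => (h3 u v x hx y hy).mono le subset_rfl) (fun v hv => by
          refine le_trans (Set.ncard_le_ncard (fun w hw => ?_) (Set.toFinite _)) (hT v hv)
          rcases (hE.adj v w).1 hw with h | ⟨rfl, -⟩ | ⟨rfl, -⟩
          · exact h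
          · exact absurd ha hv
          · exact absurd hb hv) rfl
      exact ⟨φ, p1, fun x y h => p2 x y (le h)⟩

end Pool.Agent.Lib.MP_0fc16c_co
end

-- part Pool.Agent.Lib.MP_0fc16c_co.Global4
section

/-! From the rotation system form of planarity to the final colouring statement. -/

set_option autoImplicit false
set_option linter.unusedSectionVars false

open Finset

namespace Pool.Agent.Lib.MP_0fc16c_co

variable {V : Type*} [Fintype V] [DecidableEq V] {C : Type*} [DecidableEq C]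

/-- The statement of the list version of the theorem of Brooks that is used. -/
def HBrooks (V C : Type*) [Fintype V] : Prop :=
  ∀ (G : SimpleGraph V) (L : V → Finset C) (_ : TCtx G univ L) (_ : ∀ v, Conn G {v}ᶜ)
    (_ : ∀ v, 3 ≤ (G.neighborSet v).ncard) (_ : G ≠ ⊤) (φ : V → C), ¬ badT G univ L φ

theorem conn_of_induce {G : SimpleGraph V} {S : Set V} (h : (G.induce S).Connected) :
    Conn G S := by
  intro a ha b hb
  have := (SimpleGraph.reachable_iff_reflTransGen _ _).1 (h.preconnected ⟨a, ha⟩ ⟨b, hb⟩)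
  have key : ∀ y : S, Relation.ReflTransGen (G.induce S).Adj ⟨a, ha⟩ y → Rch G S a y := by
    intro y hy
    induction hy with
    | refl => exact Rch.refl _
    | @tail x y _ e ih => exact ih.trans (Rch.single e x.2 y.2)
  exact key _ this

theorem exists_third (h4 : 4 ≤ Fintype.card V) (a b c : V) : ∃ w, w ≠ a ∧ w ≠ b ∧ w ≠ c := by
  by_contra h
  push Not at h
  have : (univ : Finset V) ⊆ {a, b, c} := fun v _ => by
    by_cases e : v = a
    · simp [e]
    · by_cases e' : v = b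
      · simp [e']
      · simp [h v e e']
  have h1 := card_le_card this
  have h2 := card_le_three (a := a) (b := b) (c := c)
  rw [card_univ] at h1
  omega

theorem nbr_out {G : SimpleGraph V} (h4 : 4 ≤ Fintype.card V) (h3 : ∀ u v, Conn G {u, v}ᶜ)
    {v a b : V} (ha : a ≠ v) (hb : b ≠ v) : ∃ w, G.Adj v w ∧ w ≠ a ∧ w ≠ b := by
  by_contra hc
  push Not at hc
  obtain ⟨w, w1, w2, w3⟩ := exists_third h4 v a b
  refine w1 ((h3 a b v (by simp [ha.symm, hb.symm]) w (by simp [w2, w3])).ind (P := (· = v)) rfl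
    fun x y _ hy e hx => ?_)
  subst hx
  simp only [Set.mem_compl_iff, Set.mem_insert_iff, Set.mem_singleton_iff, not_or] at hy
  exact absurd (hc y e hy.1) hy.2

theorem three_le_deg {G : SimpleGraph V} (h4 : 4 ≤ Fintype.card V) (h3 : ∀ u v, Conn G {u, v}ᶜ)
    (v : V) : 3 ≤ (G.neighborSet v).ncard := by
  obtain ⟨u, hu, -⟩ := exists_third h4 v v v
  obtain ⟨a, a1, -⟩ := nbr_out h4 h3 hu hu
  obtain ⟨b, b1, b2, -⟩ := nbr_out h4 h3 a1.ne' a1.ne'
  obtain ⟨c, c1, c2, c3⟩ := nbr_out h4 h3 a1.ne' b1.ne'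
  exact (Set.two_lt_ncard_iff (Set.toFinite _)).2 ⟨a, b, c, a1, b1, c1, b2.symm, c2.symm, c3.symm⟩

theorem final_of (hD : HDisc V C) (hW : HW4 V C) (hH : HSimple V C) (hB : HBrooks V C)
    (G : SimpleGraph V) (h4 : 4 ≤ Fintype.card V)
    (h3 : ∀ S : Finset V, S.card ≤ 2 → (G.induce (S : Set V)ᶜ).Connected)
    (hp : ∃ k : ℕ, k + Fintype.card V = 2 + Nat.card G.edgeSet ∧
        ∃ (σ φ : Equiv.Perm G.Dart) (face : G.Dart → Fin k),
          (∀ d : G.Dart, (σ d).fst = d.fst) ∧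
          (∀ d d' : G.Dart, d.fst = d'.fst → ∃ n : ℕ, (σ ^ n) d = d') ∧
          (∀ d : G.Dart, φ d = σ d.symm) ∧
          (∀ d d' : G.Dart, face d = face d' ↔ ∃ n : ℕ, (φ ^ n) d = d') ∧
          Function.Surjective face)
    (hne : G ≠ ⊤) (L : V → Finset C) (hL : ∀ v, min 10 (G.neighborSet v).ncard ≤ (L v).card) :
    ∃ φ : V → C, (∀ v, φ v ∈ L v) ∧ ∀ a b, G.Adj a b → φ a ≠ φ b := by
  classical
  have c3 : ∀ u v, Conn G {u, v}ᶜ := fun u v => by
    simpa using conn_of_induce (h3 {u, v} card_le_two)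
  have c2 : ∀ v, Conn G {v}ᶜ := fun v => by simpa using c3 v v
  have c1 : Conn G Set.univ := by simpa using conn_of_induce (h3 ∅ (by simp))
  have dg := three_le_deg h4 c3
  have : Nonempty V := Fintype.card_pos_iff.1 (by omega)
  by_cases hX : (univ.filter fun v => 10 < (G.neighborSet v).ncard).Nonempty
  · have sp : ∀ v, v ∈ G.support := fun v => by
      obtain ⟨w, hw⟩ := (Set.ncard_pos (Set.toFinite _)).1
        (show 0 < (G.neighborSet v).ncard by have := dg v; omega)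
      exact ⟨w, hw⟩
    obtain ⟨D, rfl⟩ := prePl_of_rotation G ⟨fun a b => (c1 a trivial b trivial).ind
      (P := fun b => G.Reachable a b) (.refl _) fun x y _ _ e ih => ih.trans e.reachable⟩ hp
    obtain ⟨D', rfl⟩ := pl_of_prePl D (fun v => by
      have : {a | a ∈ D.G.support ∧ a ≠ v} = {v}ᶜ := Set.ext fun a => by simp [sp a]
      rw [this]
      exact c2 v) (fun a b _ => by
      obtain ⟨c, h1, h2, -⟩ := exists_third h4 a b b
      exact ⟨c, sp c, h1, h2⟩)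
    exact main_pl_of hD hW hH D' h4 c3 _ hX L (fun v hv => by
      have := (mem_filter.1 hv).2
      have := hL v
      omega) (fun v hv => by
      have : ¬ 10 < (D'.G.neighborSet v).ncard := fun h => hv (mem_filter.2 ⟨mem_univ _, h⟩)
      have := hL v
      omega)
  · have hd : ∀ v, (G.neighborSet v).ncard ≤ (L v).card := fun v => by
      have : ¬ 10 < (G.neighborSet v).ncard := fun h => hX ⟨v, mem_filter.2 ⟨mem_univ _, h⟩⟩
      have := hL v
      omega
    have : ∀ v, ∃ c, c ∈ L v := fun v => card_pos.1 (by have := hd v; have := dg v; omega)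
    choose φ _ using this
    obtain ⟨ψ, h1, h2, -⟩ := not_not.1 (hB G L ⟨univ_nonempty, by simpa using c1, fun t _ => hd t⟩
      c2 dg hne φ)
    exact ⟨ψ, fun v => h1 v (mem_univ _), fun a b => h2 a (mem_univ _) b (mem_univ _)⟩

end Pool.Agent.Lib.MP_0fc16c_co
end
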