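import Pool.Agent.Lib.MP_0fc16c_co.Side
import Pool.Agent.Lib.MP_0fc16c_co.Global4
import Pool.Agent.Shared.Planar.Drawing

/-! A plane drawing of a 2-connected graph gives a plane structure. -/

set_option autoImplicit false
set_option linter.unusedSectionVars false

open Finset

namespace Pool.Agent.Lib.MP_0fc16c_co

open Pool.Agent.Shared.Planar (Coc HT ht_of_drawing)

variable {V : Type*} [Fintype V] [DecidableEq V]

/-- The cocycle of the subdivided graph gives a side function. -/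
theorem sd_of_coc {X : Type*} {G : SimpleGraph V} {T : SimpleGraph X} (c : Coc T) (ι : V → X)
    (μ : V → V → X) (hs : ∀ x y, μ x y = μ y x) (hι : Function.Injective ι)
    (hadj : ∀ x y, G.Adj x y → T.Adj (ι x) (μ x y))
    (hne : ∀ u x y, G.Adj x y → ι u ≠ μ x y)
    (hμ : ∀ x y x' y', G.Adj x y → G.Adj x' y' → μ x y = μ x' y' → s(x, y) = s(x', y')) :
    Nonempty (Sd G) := by
  refine ⟨⟨fun z a x => ∑ u, ∑ v, z u v * c.x (ι u) (μ u v) (μ a x),
    fun a z => ∑ u ∈ univ.erase a, ∑ v, z u v * c.x (ι u) (μ u v) (ι a)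
      + ∑ w, z a w * c.t (μ a w) (ι a),
    fun a w x => c.x (ι a) (μ a w) (μ a x) + c.x (ι a) (μ a x) (μ a w) + c.t (μ a w) (μ a x),
    fun z a x => by rw [hs a x], fun z z' a x => ?_, fun a z z' => ?_, fun a x y hx hy h => ?_,
    fun z a x hz hx h0 => ?_⟩⟩
  · simp only [Pi.add_apply, add_mul, sum_add_distrib]
  · simp only [Pi.add_apply, add_mul, sum_add_distrib]
    ring
  · have := c.anti (μ a x) (μ a y) fun e => h (Sym2.congr_right.1 (hμ _ _ _ _ hx hy e))
    linear_combination (norm := (ring_nf; reduce_mod_char)) this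
  · obtain ⟨g, hg⟩ : ∃ g : X → ZMod 2,
        g = fun P => c.x (ι a) (μ a x) P + c.t P (ι a) + c.t P (μ a x) := ⟨_, rfl⟩
    have h1 : ∀ u ∈ univ.erase a, ∀ v, z u v * c.x (ι u) (μ u v) (μ a x) =
        z u v * c.x (ι u) (μ u v) (ι a) + z u v * g (ι u) + z u v * g (μ u v) := by
      intro u hu v
      by_cases h : z u v = 0
      · simp [h]
      have huv : G.Adj u v := by
        by_contra k
        exact h (hz.2.1 u v k)
      have hua : u ≠ a := ne_of_mem_erase hu
      have := c.eqn (ι u) (μ u v) (ι a) (μ a x) (hadj u v huv) (hadj a x hx) (hι.ne hua)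
        (hne u a x hx) (hne a u v huv).symm (fun e => by
          rcases Sym2.eq_iff.1 (hμ _ _ _ _ huv hx e) with ⟨e1, -⟩ | ⟨e1, e2⟩
          · exact hua e1
          · rw [e1, e2, hz.1] at h
            exact h h0)
      rw [hg]
      linear_combination (norm := (ring_nf; reduce_mod_char)) z u v * this
    have h2 : ∑ u ∈ univ.erase a, ∑ v, z u v * g (ι u) = 0 :=
      sum_eq_zero fun u _ => by rw [← sum_mul, hz.2.2, zero_mul]
    have h3 := PD.cross_sum (fun u v => z u v * g (μ u v)) (fun u v => by rw [hz.1, hs])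
      (fun u => by rw [hz.2.1 u u (G.irrefl), zero_mul]) univ (fun _ _ w hw => absurd (mem_univ w) hw)
    rw [← add_sum_erase _ _ (mem_univ a)] at h3
    rw [← add_sum_erase _ _ (mem_univ a), sum_congr rfl fun u hu => sum_congr rfl fun v _ =>
      h1 u hu v]
    simp only [sum_add_distrib, h2]
    simp only [hg, mul_add, sum_add_distrib] at h3 ⊢
    linear_combination (norm := (ring_nf; reduce_mod_char)) h3

/-- The graph obtained by subdividing every edge once. -/
def subd (G : SimpleGraph V) : SimpleGraph (V ⊕ G.edgeSet) where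
  Adj
    | .inl v, .inr e => v ∈ e.1
    | .inr e, .inl v => v ∈ e.1
    | _, _ => False
  symm := ⟨by rintro (_ | _) (_ | _) h <;> exact h⟩
  loopless := ⟨by rintro (_ | _) h <;> exact h⟩

open unitInterval in
/-- The first half of the unit interval. -/
noncomputable def half : C(I, I) :=
  ⟨fun t => ⟨t / 2, by constructor <;> linarith [t.2.1, t.2.2]⟩, by fun_prop⟩

open unitInterval in
theorem ht_subd (G : SimpleGraph V) (p : V → ℝ × ℝ) (γ : V → V → I → ℝ × ℝ)
    (hp : Function.Injective p)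
    (h1 : ∀ u v, G.Adj u v → Continuous (γ u v) ∧ Function.Injective (γ u v) ∧
      γ u v 0 = p u ∧ γ u v 1 = p v ∧ ∀ t w, γ u v t = p w → t = 0 ∨ t = 1)
    (h2 : ∀ u v x y, G.Adj u v → G.Adj x y → s(u, v) ≠ s(x, y) →
      ∀ a b, γ u v a = γ x y b → (a = 0 ∨ a = 1) ∧ (b = 0 ∨ b = 1)) : HT (subd G) := by
  have he : ∀ e : G.edgeSet, ∃ u v, e.1 = s(u, v) ∧ G.Adj u v := by
    rintro ⟨e, h⟩
    induction e using Sym2.ind with
    | h u v => exact ⟨u, v, rfl, h⟩
  choose u v he ha using he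
  let Γ : G.edgeSet → C(I, ℝ × ℝ) := fun e => ⟨γ (u e) (v e), (h1 _ _ (ha e)).1⟩
  let sg : C(I, I) := ⟨symm, continuous_symm⟩
  let r : V → G.edgeSet → C(I, I) := fun w e => if w = u e then half else sg.comp half
  have r1 : ∀ w e t, (w = u e ∧ (r w e t : ℝ) = t / 2) ∨ (w ≠ u e ∧ (r w e t : ℝ) = 1 - t / 2) := by
    intro w e t
    by_cases h : w = u e
    · exact Or.inl ⟨h, by simp only [r, if_pos h]; rfl⟩
    · exact Or.inr ⟨h, by simp only [r, if_neg h]; rfl⟩
  have r2 : ∀ w e t, r w e t = 0 ∨ r w e t = 1 → t = 0 := by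
    intro w e t h
    have := t.2.1
    have := t.2.2
    apply Subtype.ext
    rcases h with h | h <;> have h' := congrArg Subtype.val h <;>
      simp only [Set.Icc.coe_zero, Set.Icc.coe_one] at h' ⊢ <;>
      rcases r1 w e t with ⟨-, k⟩ | ⟨-, k⟩ <;> linarith
  have r3 : ∀ w e t, r w e t = half 1 → t = 1 := by
    intro w e t h
    have h' : (r w e t : ℝ) = 1 / 2 := congrArg Subtype.val h
    apply Subtype.ext
    simp only [Set.Icc.coe_one]
    rcases r1 w e t with ⟨-, k⟩ | ⟨-, k⟩ <;> linarith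
  have r4 : ∀ w e, r w e 1 = half 1 := by
    intro w e
    apply Subtype.ext
    change _ = (1 : ℝ) / 2
    rcases r1 w e 1 with ⟨-, k⟩ | ⟨-, k⟩ <;> rw [k] <;> norm_num
  have r5 : ¬ (half 1 = 0 ∨ half 1 = 1) := fun h => by
    rcases h with h | h <;> have h' : (1 : ℝ) / 2 = _ := congrArg Subtype.val h <;> norm_num at h'
  have g1 : ∀ e t w, Γ e t = p w → t = 0 ∨ t = 1 := fun e => (h1 _ _ (ha e)).2.2.2.2
  have g2 : ∀ e e' s t, Γ e s = Γ e' t → (e = e' ∧ s = t) ∨ (s = 0 ∨ s = 1) ∧ (t = 0 ∨ t = 1) := by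
    intro e e' s t h
    by_cases k : e = e'
    · subst k
      exact Or.inl ⟨rfl, (h1 _ _ (ha e)).2.1 h⟩
    · exact Or.inr (h2 _ _ _ _ (ha e) (ha e') (fun k' => k (Subtype.ext (by rw [he, he, k'])))
        s t h)
  have g3 : ∀ w e, w ∈ e.1 → Γ e (r w e 0) = p w := by
    intro w e h
    rcases r1 w e 0 with ⟨k, k'⟩ | ⟨k, k'⟩
    · have : r w e 0 = 0 := Subtype.ext (by simpa using k')
      rw [this, k]
      exact (h1 _ _ (ha e)).2.2.1
    · have : r w e 0 = 1 := Subtype.ext (by simpa using k')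
      rw [he, Sym2.mem_iff] at h
      rw [this, h.resolve_left k]
      exact (h1 _ _ (ha e)).2.2.2.1
  let P : V ⊕ G.edgeSet → ℝ × ℝ := Sum.elim p fun e => Γ e (half 1)
  let H : V → G.edgeSet → C(I, ℝ × ℝ) := fun w e => (Γ e).comp (r w e)
  have k1 : ∀ w e t x, H w e t = P x → t = 0 ∨ t = 1 := by
    rintro w e t (x | x) h
    · exact Or.inl (r2 w e t (g1 e _ x h))
    · rcases g2 e x _ _ h with ⟨-, k⟩ | ⟨-, k⟩
      · exact Or.inr (r3 w e t k)
      · exact absurd k r5
  have k2 : ∀ w e w' e', w ∈ e.1 → w' ∈ e'.1 → (w ≠ w' ∨ e ≠ e') → ∀ s t, H w e s = H w' e' t →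
      (s = 0 ∨ s = 1) ∧ (t = 0 ∨ t = 1) := by
    intro w e w' e' m m' hne s t h
    rcases g2 e e' _ _ h with ⟨rfl, k⟩ | ⟨k, k'⟩
    · have hw : w ≠ w' := hne.resolve_right (not_not.2 rfl)
      have k' := congrArg Subtype.val k
      have := s.2.2
      have := t.2.2
      rw [he, Sym2.mem_iff] at m m'
      have : (s : ℝ) = 1 ∧ (t : ℝ) = 1 := by
        rcases r1 w e s with ⟨a, b⟩ | ⟨a, b⟩ <;> rcases r1 w' e t with ⟨a', b'⟩ | ⟨a', b'⟩
        · exact absurd (a.trans a'.symm) hw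
        · constructor <;> linarith
        · constructor <;> linarith
        · exact absurd ((m.resolve_left a).trans (m'.resolve_left a').symm) hw
      exact ⟨Or.inr (Subtype.ext this.1), Or.inr (Subtype.ext this.2)⟩
    · exact ⟨Or.inl (r2 _ _ _ k), Or.inl (r2 _ _ _ k')⟩
  have sy : ∀ t : I, sg t = 0 ∨ sg t = 1 → t = 0 ∨ t = 1 := fun t h =>
    h.symm.imp symm_eq_one.1 symm_eq_zero.1
  let A : V ⊕ G.edgeSet → V ⊕ G.edgeSet → C(I, ℝ × ℝ)
    | .inl w, .inr e => H w e
    | .inr e, .inl w => (H w e).comp sg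
    | _, _ => 0
  refine ht_of_drawing (subd G) P ?_ A ?_ ?_
  · rintro (x | x) (y | y) h
    · exact congrArg _ (hp h)
    · exact absurd (g1 y _ x h.symm) r5
    · exact absurd (g1 x _ y h) r5
    · rcases g2 x y _ _ h with ⟨k, -⟩ | ⟨k, -⟩
      · rw [k]
      · exact absurd k r5
  · rintro (w | e) (w' | e') h
    · exact h.elim
    · exact ⟨g3 w e' h, congrArg (Γ e') (r4 w e'), fun x t k => k1 w e' t x k⟩
    · refine ⟨?_, ?_, fun x t k => sy t (k1 w' e _ x k)⟩
      · change Γ e (r w' e (symm 0)) = Γ e (half 1)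
        rw [symm_zero, r4]
      · change Γ e (r w' e (symm 1)) = p w'
        rw [symm_one]
        exact g3 w' e h
    · exact h.elim
  · have ne : ∀ {w w' : V} {e e' : G.edgeSet},
        s(Sum.inl w, Sum.inr e) ≠ s((Sum.inl w' : V ⊕ G.edgeSet), Sum.inr e') →
        w ≠ w' ∨ e ≠ e' := fun h => by
      by_contra k
      push Not at k
      exact h (by rw [k.1, k.2])
    rintro (w | e) (w1 | e1) (w' | e') (w1' | e1') h h' hne s t k
    all_goals first | exact h.elim | exact h'.elim | skip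
    · exact k2 _ _ _ _ h h' (ne hne) s t k
    · exact (k2 _ _ _ _ h h' (ne (by rwa [Sym2.eq_swap (a := Sum.inr e')] at hne)) _ _ k).imp
        id (sy t)
    · exact (k2 _ _ _ _ h h' (ne (by rwa [Sym2.eq_swap (a := Sum.inr e)] at hne)) _ _ k).imp
        (sy s) id
    · exact (k2 _ _ _ _ h h' (ne (by
        rwa [Sym2.eq_swap (a := Sum.inr e), Sym2.eq_swap (a := Sum.inr e')] at hne)) _ _ k).imp
        (sy s) (sy t)

theorem sd_of_ht {G : SimpleGraph V} [Nonempty V] (h : HT (subd G)) : Nonempty (Sd G) := by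
  classical
  obtain ⟨c⟩ := h
  let μ : Sym2 V → V ⊕ G.edgeSet := fun e =>
    if h : e ∈ G.edgeSet then .inr ⟨e, h⟩ else .inl (Classical.arbitrary V)
  have hμ : ∀ x y (h : G.Adj x y), μ s(x, y) = .inr ⟨s(x, y), h⟩ := fun x y h => dif_pos h
  refine sd_of_coc c Sum.inl (fun x y => μ s(x, y)) (fun x y => by rw [Sym2.eq_swap])
    Sum.inl_injective (fun x y h => ?_) (fun u x y h => ?_) fun x y x' y' h h' e => ?_
  · rw [hμ x y h]
    exact Sym2.mem_mk_left x y
  · rw [hμ x y h]
    exact Sum.inl_ne_inr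
  · rw [hμ x y h, hμ x' y' h'] at e
    exact congrArg Subtype.val (Sum.inr_injective e)

theorem final_of_side {C : Type*} [DecidableEq C] (hD : HDisc V C) (hW : HW4 V C)
    (hH : HSimple V C) (hB : HBrooks V C) (G : SimpleGraph V) (h4 : 4 ≤ Fintype.card V)
    (h3 : ∀ S : Finset V, S.card ≤ 2 → (G.induce (S : Set V)ᶜ).Connected) (hp : HT (subd G))
    (hne : G ≠ ⊤) (L : V → Finset C) (hL : ∀ v, min 10 (G.neighborSet v).ncard ≤ (L v).card) :
    ∃ φ : V → C, (∀ v, φ v ∈ L v) ∧ ∀ a b, G.Adj a b → φ a ≠ φ b := by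
  classical
  have c3 : ∀ u v, Conn G {u, v}ᶜ := fun u v => by
    simpa using conn_of_induce (h3 {u, v} card_le_two)
  have c2 : ∀ v, Conn G {v}ᶜ := fun v => by simpa using c3 v v
  have c1 : Conn G Set.univ := by simpa using conn_of_induce (h3 ∅ (by simp))
  have dg := three_le_deg h4 c3
  have : Nonempty V := Fintype.card_pos_iff.1 (by omega)
  by_cases hX : (univ.filter fun v => 10 < (G.neighborSet v).ncard).Nonempty
  · obtain ⟨S⟩ := sd_of_ht hp
    obtain ⟨u⟩ := this
    obtain ⟨u', hu, -⟩ := exists_third h4 u u u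
    obtain ⟨v, hv, -⟩ := nbr_out h4 c3 hu hu
    obtain ⟨l, l1, l2, l3⟩ := PD.exists_cycle G (fun x y h => by
      obtain ⟨w, w1, w2, -⟩ := nbr_out h4 c3 h.ne' h.ne'
      exact ⟨w, w2, w1⟩) (Fintype.card V) u v [] (by simp [hv.ne]) (by simpa using hv) (by simp)
    rw [List.isChain_iff_forall_rel_of_append_cons_cons] at l3
    obtain ⟨D, rfl⟩ := pl_of_side S c1 c2 l1 l2 (fun x y h => by
      rcases h with ⟨s, t, h⟩ | ⟨s, t, h⟩
      · exact l3 h
      · exact (l3 h).symm)
    exact main_pl_of hD hW hH D h4 c3 _ hX L (fun v hv => by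
      have := (mem_filter.1 hv).2
      have := hL v
      omega) (fun v hv => by
      have : ¬ 10 < (D.G.neighborSet v).ncard := fun h => hv (mem_filter.2 ⟨mem_univ _, h⟩)
      have := hL v
      omega)
  · have hd : ∀ v, (G.neighborSet v).ncard ≤ (L v).card := fun v => by
      have : ¬ 10 < (G.neighborSet v).ncard := fun h => hX ⟨v, mem_filter.2 ⟨mem_univ _, h⟩⟩
      have := hL v
      omega
    have : ∀ v, ∃ c, c ∈ L v := fun v => card_pos.1 (by have := hd v; have := dg v; omega)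
    choose φ _ using this
    obtain ⟨ψ, h1, h2, -⟩ := not_not.1 (hB G L ⟨univ_nonempty, by simpa using c1, fun t _ => hd t⟩
      c2 dg hne φ)
    exact ⟨ψ, fun v => h1 v (mem_univ _), fun a b => h2 a (mem_univ _) b (mem_univ _)⟩

end Pool.Agent.Lib.MP_0fc16c_co
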