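import Pool.Agent.Lib.MP_0fc16c_co.Cut
import Pool.Agent.Lib.MP_0fc16c_co.Kur

/-! Adding a path inside a face, and the plane structure of a cycle. -/

set_option autoImplicit false
set_option linter.unusedSectionVars false

open Finset

namespace Pool.Agent.Lib.MP_0fc16c_co

variable {V : Type*} [Fintype V] [DecidableEq V]

/-- A symmetric function with even degrees at the inner vertices of a path that vanishes on the
first edge vanishes on the path. -/
theorem path_zero {z : V → V → ZMod 2} (hs : ∀ x y, z x y = z y x) {b : V} :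
    ∀ (m : List V) (u : V), (u :: m ++ [b]).Nodup → (∀ v ∈ m, ∑ w, z v w = 0) →
      (∀ v ∈ m, ∀ w, z v w ≠ 0 → Nx (u :: m ++ [b]) v w ∨ Nx (u :: m ++ [b]) w v) →
      (∀ q t, m ++ [b] = q :: t → z u q = 0) → ∀ x y, Nx (u :: m ++ [b]) x y → z x y = 0
  | [], u, _, _, _, h4 => by
    intro x y h
    rcases nx_cons_cons.1 h with ⟨rfl, rfl⟩ | h
    · exact h4 _ [] rfl
    · exact absurd h nx_single
  | v :: m, u, h1, h2, h3, h4 => by
    have hu : u ∉ v :: m ++ [b] := (List.nodup_cons.1 h1).1
    have hn : (v :: m ++ [b]).Nodup := (List.nodup_cons.1 h1).2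
    have h0 : z u v = 0 := h4 v _ rfl
    intro x y h
    rcases nx_cons_cons.1 h with ⟨rfl, rfl⟩ | h
    · exact h0
    refine path_zero hs m v hn (fun v' hv' => h2 v' (List.mem_cons_of_mem _ hv'))
      (fun v' hv' w hw => ?_) (fun q t e => ?_) x y h
    · rcases h3 v' (List.mem_cons_of_mem _ hv') w hw with h | h <;>
        rcases nx_cons_cons.1 h with ⟨e1, e2⟩ | h
      · exact absurd (by rw [← e1]; simp [hv']) hu
      · exact Or.inl h
      · have := (List.nodup_cons.1 hn).1
        exact absurd (by rw [← e2]; simp [hv']) this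
      · exact Or.inr h
    · have h5 := h2 v (by simp)
      rw [sum_eq_single q] at h5
      · exact h5
      · intro w _ hw
        by_contra hc
        have hv : v ∉ m ++ [b] := (List.nodup_cons.1 hn).1
        rcases h3 v (by simp) w hc with h | h <;> rcases nx_cons_cons.1 h with ⟨e1, e2⟩ | h
        · exact hu (by rw [← e1]; simp)
        · change Nx (v :: (m ++ [b])) v w at h
          rw [e] at h hv
          rcases nx_cons_cons.1 h with ⟨-, e2⟩ | h
          · exact hw e2
          · exact hv h.mem_left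
        · rw [e1, hs, h0] at hc
          exact hc rfl
        · exact hv (Nx.mem_tail h)
      · simp

/-- The chain of a path at its first vertex. -/
theorem pz_head {a u : V} {t : List V} (h : a ∉ u :: t) (w : V) :
    pz (a :: u :: t) a w = if w = u then 1 else 0 := by
  have hau : a ≠ u := fun e => h (by simp [e])
  rw [pz_cons_cons, Pi.add_apply, Pi.add_apply, pz_eq_zero h, add_zero]
  simp [ez, hau]

/-- `D'` is obtained from `D` by drawing the path `a :: m ++ [b]` inside the face `t`. -/
structure AddP (D D' : Pl V) (t n : ℕ) (a b : V) (m m1 m2 : List V) : Prop where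
  adj : ∀ x y, D'.G.Adj x y ↔ D.G.Adj x y ∨ Nx (a :: m ++ [b]) x y ∨ Nx (a :: m ++ [b]) y x
  nt : n ≠ t
  cut : ∀ k, k ≠ t → k ≠ n → cutf D'.G D'.f (ind k) = cutf D.G D.f (ind k)
  c1 : cutf D'.G D'.f (ind n) = pz (a :: m1 ++ [b]) + pz (a :: m ++ [b])
  c2 : cutf D'.G D'.f (ind t) = pz (b :: m2 ++ [a]) + pz (a :: m ++ [b])
  f1 : IsFace D'.G D'.f n (a :: m1 ++ b :: m.reverse)
  f2 : IsFace D'.G D'.f t (b :: m2 ++ a :: m)

theorem cz_two (a b : V) (m1 m2 : List V) :
    cz (a :: m1 ++ b :: m2) = pz (a :: m1 ++ [b]) + pz (b :: m2 ++ [a]) := by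
  have e1 : a :: (m1 ++ b :: m2) ++ [a] = (a :: m1) ++ b :: (m2 ++ [a]) := by simp
  rw [List.cons_append, cz_cons, e1, pz_append]; rfl

theorem pz_rev (a b : V) (m : List V) : pz (b :: m.reverse ++ [a]) = pz (a :: m ++ [b]) := by
  rw [← pz_reverse]
  simp

theorem exists_addP (D : Pl V) {t : ℕ} {a b : V} {m m1 m2 : List V}
    (hf : IsFace D.G D.f t (a :: m1 ++ b :: m2)) (hm : m.Nodup)
    (hs : ∀ v ∈ m, v ∉ D.G.support) (hab : m = [] → ¬ D.G.Adj a b) (N : ℕ) :
    ∃ D' n, N < n ∧ AddP D D' t n a b m m1 m2 := by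
  classical
  have hadj : ∀ x y, Cyc (a :: m1 ++ b :: m2) x y → D.E t x y := fun x y h => (Pl.E_iff hf).2 h
  have hsup : ∀ v ∈ a :: m1 ++ b :: m2, v ∉ m := fun v hv h =>
    hs v h ((Pl.on_iff hf).2 hv).supp
  have hnd := hf.1
  have hne : a ≠ b := by
    rintro rfl; simp at hnd
  have hQ : (a :: m ++ [b]).Nodup := by
    have h1 := hsup a (by simp)
    have h2 := hsup b (by simp)
    simp only [List.cons_append, List.nodup_cons, List.mem_append, List.mem_singleton, not_or,
      List.nodup_append, List.not_mem_nil, not_false_eq_true,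
      List.nodup_nil, and_self, true_and]
    refine ⟨⟨h1, hne⟩, hm, fun x hx y hy e => h2 ?_⟩
    rw [← hy, ← e]
    exact hx
  have hout : ∀ x y, Nx (a :: m ++ [b]) x y → ¬ D.G.Adj x y := by
    intro x y h e
    cases m with
    | nil =>
      rcases nx_cons_cons.1 h with ⟨rfl, rfl⟩ | h
      · exact hab rfl e
      · exact nx_single h
    | cons q m =>
      rcases nx_cons_cons.1 h with ⟨rfl, rfl⟩ | h
      · exact hs y (by simp) ⟨x, e.symm⟩
      · exact hs x (Nx.mem_dropLast h) ⟨y, e⟩
  have hl1 : 3 ≤ (a :: m1 ++ b :: m.reverse).length := by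
    cases m with
    | nil =>
      have : m1 ≠ [] := by
        rintro rfl; exact hab rfl (hadj a b (cyc_mid [] m2 a b)).1
      have := List.length_pos_iff.2 this
      simp; omega
    | cons q m => simp; omega
  have hl2 : 3 ≤ (b :: m2 ++ a :: m).length := by
    cases m with
    | nil =>
      have : m2 ≠ [] := by
        rintro rfl; exact hab rfl (hadj a b (cyc_ends m1 a b)).1
      have := List.length_pos_iff.2 this
      simp; omega
    | cons q m => simp; omega
  have hn1 : (a :: m1 ++ b :: m.reverse).Nodup := by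
    have e : a :: m1 ++ b :: m.reverse = (a :: m1 ++ [b]) ++ m.reverse := by simp
    rw [e, List.nodup_append]
    refine ⟨hnd.sublist ?_, List.nodup_reverse.2 hm, fun x hx y hy e => hsup x ?_ ?_⟩
    · exact List.Sublist.append (List.Sublist.refl _)
        (List.cons_sublist_cons.2 (List.nil_sublist _))
    · simp only [List.mem_append, List.mem_cons, List.not_mem_nil] at hx ⊢
      tauto
    · rw [e]; exact List.mem_reverse.1 hy
  have hn2 : (b :: m2 ++ a :: m).Nodup := by
    have e : b :: m2 ++ a :: m = (b :: m2 ++ [a]) ++ m := by simp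
    have : ((b :: m2) ++ (a :: m1)).Nodup := (hf.rot (l1 := a :: m1)).1
    rw [e, List.nodup_append]
    refine ⟨this.sublist ?_, hm, fun x hx y hy e => hsup x ?_ ?_⟩
    · exact List.Sublist.append (List.Sublist.refl _)
        (List.cons_sublist_cons.2 (List.nil_sublist _))
    · simp only [List.mem_append, List.mem_cons, List.not_mem_nil] at hx ⊢
      tauto
    · rw [e]; exact hy
  obtain ⟨n, hN, hn⟩ : ∃ n, N < n ∧ ∀ x y, D.f x y < n :=
    ⟨(Finset.univ.sup fun p : V × V => D.f p.1 p.2) + N + 1, by omega, fun x y => by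
      have := Finset.le_sup (f := fun p : V × V => D.f p.1 p.2) (mem_univ (x, y))
      simp only at this
      omega⟩
  have hton : D.On t a := (Pl.on_iff hf).2 (by simp)
  have hnt : n ≠ t := by
    obtain ⟨w, -, h | h⟩ := hton
    · have := hn a w; omega
    · have := hn w a; omega
  obtain ⟨P1, hP1⟩ : ∃ P, P = pz (a :: m1 ++ [b]) := ⟨_, rfl⟩
  obtain ⟨Q, hQe⟩ : ∃ Q, Q = a :: m ++ [b] := ⟨_, rfl⟩
  rw [← hQe] at hQ hout
  have hP1E : ∀ x y, P1 x y ≠ 0 → D.E t x y := fun x y h => by
    rw [hP1] at h
    rcases nx_of_pz h with h | h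
    · exact hadj _ _ (cyc_of_nx (nx_append.2 (Or.inl h)))
    · exact (hadj _ _ (cyc_of_nx (nx_append.2 (Or.inl h)))).symm
  let G' : SimpleGraph V :=
    { Adj := fun x y => D.G.Adj x y ∨ Nx Q x y ∨ Nx Q y x
      symm := ⟨fun x y h => by
        rcases h with h | h | h
        · exact Or.inl h.symm
        · exact Or.inr (Or.inr h)
        · exact Or.inr (Or.inl h)⟩
      loopless := ⟨fun x h => by
        rcases h with h | h | h
        · exact h.ne rfl
        · exact h.ne hQ rfl
        · exact h.ne hQ rfl⟩ }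
  let f' : V → V → ℕ := fun x y => if Nx Q x y then n else if Nx Q y x then t else
    if D.f x y = t ∧ P1 x y = 1 then n else D.f x y
  have fab : ∀ x y, Nx Q x y → f' x y = n := fun x y h => by simp [f', h]
  have fba : ∀ x y, Nx Q x y → f' y x = t := fun x y h => by simp [f', h, nx_asymm hQ h]
  have fold : ∀ x y, D.G.Adj x y → f' x y = if D.f x y = t ∧ P1 x y = 1 then n else D.f x y := by
    intro x y h
    simp only [f', if_neg fun e => hout x y e h, if_neg fun e => hout y x e h.symm]
  have hq0 : ∀ x y, ¬ Nx Q x y → ¬ Nx Q y x → pz Q x y = 0 := fun x y h1 h2 => by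
    by_contra hc
    exact (nx_of_pz hc).elim h1 h2
  have hcut : ∀ χ : ℕ → ZMod 2, ∀ x y, cutf G' f' χ x y =
      cutf D.G D.f χ x y + (χ n + χ t) * (P1 x y + pz Q x y) := by
    intro χ x y
    by_cases h : D.G.Adj x y
    · have h' : G'.Adj x y := Or.inl h
      rw [cutf_adj h', cutf_adj h, fold x y h, fold y x h.symm,
        hq0 x y (fun e => hout x y e h) (fun e => hout y x e h.symm), add_zero]
      have hs : P1 y x = P1 x y := by rw [hP1]; exact pz_symm _ _ _
      rw [hs]
      rcases z2_cases (P1 x y) with h0 | h0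
      · simp [h0]
      · have hE := hP1E x y (by rw [h0]; exact one_ne_zero)
        have hd := D.ne x y h
        rcases hE.2 with e | e
        · have e' : D.f y x ≠ t := by rw [← e]; exact hd.symm
          simp only [h0, e, e', and_self, if_true, false_and, if_false]
          generalize χ n = p; generalize χ t = q; generalize χ (D.f y x) = r
          revert p q r; decide
        · have e' : D.f x y ≠ t := by rw [← e]; exact hd
          simp only [h0, e, e', and_self, if_true, false_and, if_false]
          generalize χ n = p; generalize χ t = q; generalize χ (D.f x y) = r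
          revert p q r; decide
    · have h0 : P1 x y = 0 := by by_contra hc; exact h (hP1E x y hc).1
      rw [cutf_nadj h, h0, zero_add, zero_add]
      by_cases h1 : Nx Q x y
      · rw [cutf_adj (show G'.Adj x y from Or.inr (Or.inl h1)), fab x y h1, fba x y h1,
          pz_of_nx hQ h1, mul_one]
      · by_cases h2 : Nx Q y x
        · rw [cutf_adj (show G'.Adj x y from Or.inr (Or.inr h2)), fab y x h2, fba y x h2, pz_symm,
            pz_of_nx hQ h2, mul_one, add_comm]
        · rw [hq0 x y h1 h2, mul_zero, cutf_nadj]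
          rintro (h' | h' | h')
          · exact h h'
          · exact h1 h'
          · exact h2 h'
  have hc1 : cz (a :: m1 ++ b :: m.reverse) = P1 + pz Q := by rw [cz_two, pz_rev, hP1, hQe]
  have hc1' : ∀ x y, P1 x y + pz Q x y = cz (a :: m1 ++ b :: m.reverse) x y := fun x y => by
    rw [hc1]; rfl
  have hupd : ∀ (χ : ℕ → ZMod 2) (c : ZMod 2), cutf D.G D.f (Function.update χ n c) =
      cutf D.G D.f χ := by
    intro χ c; funext x y
    by_cases h : D.G.Adj x y
    · rw [cutf_adj h, cutf_adj h, Function.update_of_ne (hn x y).ne,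
        Function.update_of_ne (hn y x).ne]
    · rw [cutf_nadj h, cutf_nadj h]
  have hne' : ∀ x y, G'.Adj x y → f' x y ≠ f' y x := by
    rintro x y (h | h | h)
    · rw [fold x y h, fold y x h.symm]
      have hd := D.ne x y h
      have h1 := hn x y
      have h2 := hn y x
      split_ifs with e1 e2 e2
      · exact absurd (e1.1.trans e2.1.symm) hd
      · omega
      · omega
      · exact hd
    · rw [fab x y h, fba x y h]; exact hnt
    · rw [fab y x h, fba y x h]; exact hnt.symm
  have hd1 : cutf G' f' (ind n) = P1 + pz Q := by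
    funext x y
    rw [hcut]
    have : cutf D.G D.f (ind n) x y = 0 := by
      by_cases h : D.G.Adj x y
      · rw [cutf_adj h]; simp [ind, (hn x y).ne, (hn y x).ne]
      · exact cutf_nadj h
    rw [this]; simp [ind, hnt.symm]
  have hd2 : cutf G' f' (ind t) = pz (b :: m2 ++ [a]) + pz Q := by
    funext x y
    rw [hcut, hf.2.2, cz_two]
    simp only [ind, hnt, if_false, if_true, Pi.add_apply, ← hP1]
    generalize P1 x y = p
    generalize pz (b :: m2 ++ [a]) x y = q
    generalize pz Q x y = r
    revert p q r; decide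
  have hf1 : IsFace G' f' n (a :: m1 ++ b :: m.reverse) := ⟨hn1, hl1, by rw [hd1, hc1]⟩
  have hf2 : IsFace G' f' t (b :: m2 ++ a :: m) := ⟨hn2, hl2, by rw [hd2, cz_two, hQe]⟩
  have hE : ∀ k, k ≠ t → k ≠ n → cutf G' f' (ind k) = cutf D.G D.f (ind k) := by
    intro k h1 h2; funext x y
    rw [hcut]; simp [ind, h1.symm, h2.symm]
  obtain ⟨q, tq, hq⟩ : ∃ q tq, m ++ [b] = q :: tq := by cases m <;> simp
  have haq : Nx Q a q := ⟨[], tq, by rw [hQe, List.cons_append, hq]; rfl⟩
  refine ⟨{ G := G', f := f', even := ?_, span := ?_, dual := ?_, ne := hne', face := ?_ }, n, hN,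
    ⟨fun _ _ => by rw [← hQe], hnt, hE, by rw [← hP1, ← hQe]; exact hd1,
      by rw [← hQe]; exact hd2, hf1, hf2⟩⟩
  · intro χ v
    simp only [hcut, hc1', Finset.sum_add_distrib, ← Finset.mul_sum, D.even, sum_cz]; simp
  · intro z hz
    let z' : V → V → ZMod 2 := fun x y => z x y + z a q * cz (a :: m1 ++ b :: m.reverse) x y
    have s1 : ∀ x y, z' x y = z' y x := fun x y => by simp only [z']; rw [hz.1 x y, cz_symm]
    have s2 : ∀ v, ∑ w, z' v w = 0 := fun v => by
      simp only [z', Finset.sum_add_distrib, ← Finset.mul_sum, hz.2.2, sum_cz]; simp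
    have s3 : ∀ x y, ¬ D.G.Adj x y → ¬ Nx Q x y → ¬ Nx Q y x → z' x y = 0 := by
      intro x y h h1 h2
      have h0 : P1 x y = 0 := by by_contra hc; exact h (hP1E x y hc).1
      simp only [z']
      rw [← hc1', h0, hq0 x y h1 h2, add_zero, mul_zero, add_zero]
      apply hz.2.1
      rintro (h' | h' | h')
      · exact h h'
      · exact h1 h'
      · exact h2 h'
    have s4 : ∀ x y, Nx Q x y → z' x y = 0 := by
      rw [hQe]
      refine path_zero s1 m a (hQe ▸ hQ) (fun v _ => s2 v) (fun v hv w hw => ?_)
        (fun q' t' e => ?_)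
      · by_contra hc
        rw [not_or, ← hQe] at hc
        exact hw (s3 v w (fun e => hs v hv ⟨w, e⟩) hc.1 hc.2)
      · have : q' = q := by rw [hq] at e; exact (List.cons.inj e).1.symm
        have h0 : P1 a q = 0 := by by_contra hc; exact hout a q haq (hP1E a q hc).1
        simp only [z']
        rw [this, ← hc1', h0, zero_add, pz_of_nx hQ haq, mul_one, z2_add_self]
    obtain ⟨χ, hχ⟩ := D.span z' ⟨s1, fun x y h => by
      by_cases h1 : Nx Q x y
      · exact s4 x y h1
      · by_cases h2 : Nx Q y x
        · rw [s1]; exact s4 y x h2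
        · exact s3 x y h h1 h2, s2⟩
    refine ⟨Function.update χ n (χ t + z a q), ?_⟩
    funext x y
    rw [hcut, hupd, ← hχ, hc1', Function.update_self, Function.update_of_ne hnt.symm]
    simp only [z']
    generalize z x y = p; generalize z a q = q; generalize χ t = r
    generalize cz (a :: m1 ++ b :: m.reverse) x y = s
    revert p q r s; decide
  · intro χ hχ x y x' y' h h'
    have hnt' : χ n = χ t := by
      have := hχ a q (Or.inr (Or.inl haq)); rwa [fab a q haq, fba a q haq] at this
    have h0 : cutf D.G D.f χ = 0 := by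
      funext u v
      have := hcut χ u v
      rw [hnt', z2_add_self, zero_mul, add_zero] at this
      rw [← this]
      by_cases h : G'.Adj u v
      · rw [cutf_adj h, hχ u v h]; exact z2_add_self _
      · exact cutf_nadj h
    have key : ∀ u v, G'.Adj u v → χ (f' u v) = χ t := by
      rintro u v (h | h | h)
      · rw [fold u v h]; split_ifs
        · exact hnt'
        · exact D.dual' χ h0 (D.E_left h).on hton
      · rw [fab u v h, hnt']
      · rw [fba v u h]
    rw [key x y h, key x' y' h']
  · intro x y h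
    by_cases e1 : f' x y = n
    · exact ⟨_, e1 ▸ hf1⟩
    · by_cases e2 : f' x y = t
      · exact ⟨_, e2 ▸ hf2⟩
      · have hold : D.G.Adj x y := by
          rcases h with h | h | h
          · exact h
          · exact absurd (fab x y h) e1
          · exact absurd (fba y x h) e2
        have e3 : f' x y = D.f x y := by
          rw [fold x y hold] at e1 ⊢; split_ifs at e1 ⊢
          · exact absurd rfl e1
          · rfl
        obtain ⟨l, hl⟩ := D.face x y hold
        exact ⟨l, hl.1, hl.2.1, by rw [hE _ e2 e1, e3]; exact hl.2.2⟩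

/-- The plane structure of a cycle. -/
theorem exists_pl_cycle {l : List V} (h1 : l.Nodup) (h3 : 3 ≤ l.length) :
    ∃ D : Pl V, (∀ x y, D.G.Adj x y ↔ Cyc l x y) ∧ IsFace D.G D.f 0 l ∧ IsFace D.G D.f 1 l := by
  classical
  let G : SimpleGraph V :=
    { Adj := Cyc l
      symm := ⟨fun x y h => h.symm⟩
      loopless := ⟨fun x h => h.ne h1 (by omega) rfl⟩ }
  let ρ := Fintype.equivFin V
  let f : V → V → ℕ := fun x y => if ρ x < ρ y then 0 else 1
  have hf : ∀ x y, G.Adj x y → (f x y = 0 ∧ f y x = 1) ∨ (f x y = 1 ∧ f y x = 0) := by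
    intro x y h
    have : ρ x ≠ ρ y := ρ.injective.ne h.ne
    rcases lt_or_gt_of_ne this with e | e
    · exact Or.inl ⟨if_pos e, if_neg e.not_gt⟩
    · exact Or.inr ⟨if_neg e.not_gt, if_pos e⟩
  have hcut : ∀ χ x y, cutf G f χ x y = (χ 0 + χ 1) * cz l x y := by
    intro χ x y
    by_cases h : G.Adj x y
    · rw [cutf_adj h, cz_of_cyc h1 h3 h, mul_one]
      rcases hf x y h with e | e <;> rw [e.1, e.2]
      exact add_comm _ _
    · have : cz l x y = 0 := by by_contra hc; exact h (cyc_of_cz hc)
      rw [cutf_nadj h, this, mul_zero]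
  have f0 : IsFace G f 0 l := ⟨h1, h3, by funext x y; rw [hcut]; simp [ind]⟩
  have f1 : IsFace G f 1 l := ⟨h1, h3, by funext x y; rw [hcut]; simp [ind]⟩
  refine ⟨{ G := G, f := f, even := ?_, span := ?_, dual := ?_, ne := ?_, face := ?_ },
    fun _ _ => Iff.rfl, f0, f1⟩
  · intro χ v
    simp only [hcut, ← Finset.mul_sum, sum_cz, mul_zero]
  · intro z hz
    rcases eq_zero_or_cz h1 h3 hz.1 hz.2.2 (fun a b h => by
      by_contra hc; exact h (hz.2.1 a b hc)) with e | e
    · exact ⟨0, by funext x y; rw [hcut, e]; simp⟩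
    · exact ⟨ind 0, e.trans f0.2.2.symm⟩
  · intro χ h a b c d hab hcd
    have e : χ 0 = χ 1 := by
      have := h a b hab
      rcases hf a b hab with e | e <;> rw [e.1, e.2] at this
      · exact this
      · exact this.symm
    rcases hf a b hab with e1 | e1 <;> rcases hf c d hcd with e2 | e2 <;> rw [e1.1, e2.1]
    · exact e
    · exact e.symm
  · intro a b h
    rcases hf a b h with e | e <;> rw [e.1, e.2] <;> decide
  · intro a b h
    rcases hf a b h with e | e <;> rw [e.1]
    · exact ⟨l, f0⟩
    · exact ⟨l, f1⟩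

end Pool.Agent.Lib.MP_0fc16c_co
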