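import Pool.Agent.Lib.MP_0fc16c_co.Rot

-- part Pool.Agent.Lib.MP_0fc16c_co.Gallai1
section

/-! Bad pairs of degree list assignments: surplus, flaps, leaves, splitting at a root. -/

set_option autoImplicit false
set_option linter.unusedSectionVars false

open Finset

namespace Pool.Agent.Lib.MP_0fc16c_co.GC

variable {V : Type*} [Fintype V] [DecidableEq V] {C : Type*} [DecidableEq C]
variable {G : SimpleGraph V} [DecidableRel G.Adj]

/-! ### Connectivity -/

theorem rch_exit {S A : Set V} {a b : V} (h : Rch G S a b) (ha : a ∈ A) :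
    (b ∈ A ∧ Rch G (S ∩ A) a b) ∨
      ∃ x ∈ A, ∃ y ∈ S, y ∉ A ∧ G.Adj x y ∧ x ∈ S ∧ Rch G (S ∩ A) a x := by
  induction h with
  | refl => exact Or.inl ⟨ha, Rch.refl _⟩
  | @tail b c _ h ih =>
    rcases ih with ⟨hb, ih⟩ | ih
    · by_cases hc : c ∈ A
      · exact Or.inl ⟨hc, ih.trans (Rch.single h.1 ⟨h.2.1, hb⟩ ⟨h.2.2, hc⟩)⟩
      · exact Or.inr ⟨b, hb, c, h.2.2, hc, h.1, h.2.1, ih⟩
    · exact Or.inr ih

theorem conn_of_root {S : Set V} (r : V) (h : ∀ a ∈ S, Rch G S a r) : Conn G S :=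
  fun a ha b hb => (h a ha).trans (h b hb).symm

theorem conn_single (a : V) : Conn G {a} :=
  conn_of_root a fun b hb => by rw [hb]; exact Rch.refl _

theorem conn_union {A B : Set V} (hA : Conn G A) (hB : Conn G B) {r : V} (h1 : r ∈ A)
    (h2 : r ∈ B) : Conn G (A ∪ B) :=
  conn_of_root r fun a ha => by
    rcases ha with ha | ha
    · exact (hA a ha r h1).mono le_rfl Set.subset_union_left
    · exact (hB a ha r h2).mono le_rfl Set.subset_union_right

theorem conn_insert {A : Set V} (hA : Conn G A) {t m : V} (ht : t ∈ A) (h : G.Adj t m) :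
    Conn G (insert m A) :=
  conn_of_root t fun a ha => by
    rcases ha with rfl | ha
    · exact Rch.single h.symm (Or.inl rfl) (Or.inr ht)
    · exact (hA a ha t ht).mono le_rfl (Set.subset_insert _ _)

theorem conn_pair {a b : V} (h : G.Adj a b) : Conn G {a, b} :=
  conn_insert (conn_single b) rfl h.symm

/-- The component of `a` in `S`. -/
def cmp (G : SimpleGraph V) (S : Set V) (a : V) : Set V := {b | b ∈ S ∧ Rch G S a b}

theorem rch_cmp {S : Set V} {a b : V} (h : Rch G S a b) : Rch G (cmp G S a) a b := by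
  induction h with
  | refl => exact Rch.refl _
  | @tail b c h1 h ih =>
    exact ih.trans (Rch.single h.1 ⟨h.2.1, h1⟩ ⟨h.2.2, Rch.trans h1 (Rch.single h.1 h.2.1 h.2.2)⟩)

theorem conn_cmp (S : Set V) (a : V) : Conn G (cmp G S a) :=
  conn_of_root a fun _ hb => (rch_cmp hb.2).symm

theorem cmp_step {S : Set V} {a x y : V} (hx : x ∈ cmp G S a) (hy : y ∈ S) (e : G.Adj x y) :
    y ∈ cmp G S a := ⟨hy, hx.2.trans (Rch.single e hx.1 hy)⟩

/-! ### Colourings -/

/-- Neighbours of `t` inside `T`. -/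
def nb (G : SimpleGraph V) [DecidableRel G.Adj] (T : Finset V) (t : V) : Finset V :=
  T.filter (G.Adj t)

/-- Degree of `t` inside `T`. -/
def dg (G : SimpleGraph V) [DecidableRel G.Adj] (T : Finset V) (t : V) : ℕ := (nb G T t).card

theorem mem_nb {T : Finset V} {t s : V} : s ∈ nb G T t ↔ s ∈ T ∧ G.Adj t s := mem_filter

theorem dg_mono {T T' : Finset V} (h : T' ⊆ T) (t : V) : dg G T' t ≤ dg G T t :=
  card_le_card (filter_subset_filter _ h)

theorem dg_erase_adj {T : Finset V} {v t : V} (hv : v ∈ T) (e : G.Adj t v) :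
    dg G (T.erase v) t + 1 = dg G T t := by
  have : nb G (T.erase v) t = (nb G T t).erase v := by
    ext s; simp only [mem_nb, mem_erase]; tauto
  unfold dg
  rw [this, card_erase_add_one (mem_nb.2 ⟨hv, e⟩)]

theorem dg_erase_nadj {T : Finset V} {v t : V} (e : ¬ G.Adj t v) :
    dg G (T.erase v) t = dg G T t := by
  have : nb G (T.erase v) t = nb G T t := by
    ext s; simp only [mem_nb, mem_erase]
    exact ⟨fun h => ⟨h.1.2, h.2⟩, fun h => ⟨⟨fun h' => e (h' ▸ h.2), h.1⟩, h.2⟩⟩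
  unfold dg
  rw [this]

theorem dg_congr {T T' : Finset V} {t : V} (h : ∀ s, G.Adj t s → (s ∈ T ↔ s ∈ T')) :
    dg G T t = dg G T' t := by
  unfold dg
  congr 1
  ext s
  simp only [mem_nb]
  exact ⟨fun h' => ⟨(h s h'.2).1 h'.1, h'.2⟩, fun h' => ⟨(h s h'.2).2 h'.1, h'.2⟩⟩

theorem dg_lt_card {T : Finset V} {t : V} (ht : t ∈ T) : dg G T t + 1 ≤ T.card := by
  have : nb G T t ⊆ T.erase t := fun s hs =>
    mem_erase.2 ⟨(mem_nb.1 hs).2.ne', (mem_nb.1 hs).1⟩
  have h1 := card_le_card this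
  have h2 := card_erase_add_one ht
  unfold dg
  omega

/-- `T` has a proper colouring from the lists. -/
def Col (G : SimpleGraph V) (T : Finset V) (L : V → Finset C) : Prop :=
  ∃ ψ : V → C, (∀ t ∈ T, ψ t ∈ L t) ∧ ∀ t ∈ T, ∀ s ∈ T, G.Adj t s → ψ t ≠ ψ s

theorem Col.congr {T : Finset V} {L L' : V → Finset C} (h : Col G T L)
    (e : ∀ t ∈ T, L t = L' t) : Col G T L' := by
  obtain ⟨ψ, h1, h2⟩ := h
  exact ⟨ψ, fun t ht => e t ht ▸ h1 t ht, h2⟩

/-- Remove the colour `c` from the lists of the neighbours of `v`. -/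
def rm (G : SimpleGraph V) [DecidableRel G.Adj] (L : V → Finset C) (v : V) (c : C) (t : V) :
    Finset C := if G.Adj t v then (L t).erase c else L t

theorem rm_adj {L : V → Finset C} {v t : V} {c : C} (e : G.Adj t v) :
    rm G L v c t = (L t).erase c := if_pos e

theorem rm_nadj {L : V → Finset C} {v t : V} {c : C} (e : ¬ G.Adj t v) :
    rm G L v c t = L t := if_neg e

theorem rm_sub {L : V → Finset C} {v t : V} {c : C} : rm G L v c t ⊆ L t := by
  unfold rm; split_ifs
  · exact erase_subset _ _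
  · exact Subset.rfl

theorem col_erase {T : Finset V} {L : V → Finset C} {v : V} {c : C} (hc : c ∈ L v)
    (h : Col G (T.erase v) (rm G L v c)) : Col G T L := by
  obtain ⟨ψ, h1, h2⟩ := h
  have key : ∀ s ∈ T, G.Adj s v → ψ s ≠ c := fun s hs e => by
    have := h1 s (mem_erase.2 ⟨e.ne, hs⟩)
    rw [rm_adj e] at this
    exact (mem_erase.1 this).1
  refine ⟨Function.update ψ v c, fun t ht => ?_, fun t ht s hs e => ?_⟩
  · by_cases h : t = v
    · subst h; simpa using hc
    · rw [Function.update_of_ne h]; exact rm_sub (h1 t (mem_erase.2 ⟨h, ht⟩))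
  · by_cases h : t = v
    · subst h
      rw [Function.update_self, Function.update_of_ne e.ne']
      exact (key s hs e.symm).symm
    · rw [Function.update_of_ne h]
      by_cases h' : s = v
      · subst h'; rw [Function.update_self]; exact key t ht e
      · rw [Function.update_of_ne h']
        exact h2 t (mem_erase.2 ⟨h, ht⟩) s (mem_erase.2 ⟨h', hs⟩) e

variable [Nonempty C]

theorem col_of_surplus (T : Finset V) (L : V → Finset C) (hd : ∀ t ∈ T, dg G T t ≤ (L t).card)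
    (hs : ∀ t ∈ T, ∃ s ∈ T, Rch G T t s ∧ dg G T s < (L s).card) : Col G T L := by
  induction T using Finset.strongInduction with
  | H T ih =>
  rcases T.eq_empty_or_nonempty with rfl | ⟨t0, ht0⟩
  · exact ⟨fun _ => Classical.arbitrary C, by simp, by simp⟩
  obtain ⟨s, hsT, -, hs1⟩ := hs t0 ht0
  obtain ⟨ψ, h1, h2⟩ := ih (T.erase s) (erase_ssubset hsT)
    (fun t ht => (dg_mono (erase_subset _ _) t).trans (hd t (mem_of_mem_erase ht)))
    (fun t ht => by
      obtain ⟨s', hs', hr, hlt⟩ := hs t (mem_of_mem_erase ht)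
      have e : (T : Set V) ∩ {a | a ≠ s} = (T.erase s : Finset V) := by
        ext a; simp [and_comm]
      rcases rch_exit (A := {a | a ≠ s}) hr (mem_erase.1 ht).1 with ⟨h1, h2⟩ |
        ⟨x, hx, y, -, hy, e', hxT, h2⟩
      · rw [e] at h2
        exact ⟨s', mem_erase.2 ⟨h1, hs'⟩, h2, (dg_mono (erase_subset _ _) _).trans_lt hlt⟩
      · rw [e] at h2
        have hy' : y = s := not_not.1 hy
        subst hy'
        refine ⟨x, mem_erase.2 ⟨hx, hxT⟩, h2, ?_⟩
        have := dg_erase_adj hsT e'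
        have := hd x hxT
        omega)
  obtain ⟨c, hc, hc'⟩ : ∃ c ∈ L s, c ∉ (nb G T s).image ψ :=
    exists_mem_notMem_of_card_lt_card (card_image_le.trans_lt hs1)
  refine col_erase hc ⟨ψ, fun t ht => ?_, h2⟩
  by_cases e : G.Adj t s
  · rw [rm_adj e]
    refine mem_erase.2 ⟨fun h => hc' ?_, h1 t ht⟩
    exact mem_image.2 ⟨t, mem_nb.2 ⟨mem_of_mem_erase ht, e.symm⟩, h⟩
  · rw [rm_nadj e]; exact h1 t ht

/-- A bad pair. -/
structure BP (G : SimpleGraph V) [DecidableRel G.Adj] (T : Finset V) (L : V → Finset C) :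
    Prop where
  conn : Conn G (T : Set V)
  deg : ∀ t ∈ T, dg G T t ≤ (L t).card
  bad : ¬ Col G T L

variable {T K : Finset V} {L : V → Finset C} {r : V}

theorem BP.card (h : BP G T L) {t : V} (ht : t ∈ T) : (L t).card = dg G T t := by
  by_contra hne
  exact h.bad (col_of_surplus T L h.deg fun a ha =>
    ⟨t, ht, h.conn a ha t ht, lt_of_le_of_ne (h.deg t ht) (Ne.symm hne)⟩)

theorem BP.erase (h : BP G T L) {v : V} (hv : v ∈ T) (hc : Conn G (T.erase v : Finset V)) {c : C}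
    (hcv : c ∈ L v) : BP G (T.erase v) (rm G L v c) := by
  refine ⟨hc, fun t ht => ?_, fun h' => h.bad (col_erase hcv h')⟩
  have := h.deg t (mem_of_mem_erase ht)
  by_cases e : G.Adj t v
  · rw [rm_adj e]
    have := dg_erase_adj hv e
    have := pred_card_le_card_erase (s := L t) (a := c)
    omega
  · rw [rm_nadj e, dg_erase_nadj e]; exact this

theorem BP.sub (h : BP G T L) {v w : V} (hv : v ∈ T) (hc : Conn G (T.erase v : Finset V))
    (hw : w ∈ T) (e : G.Adj w v) : L v ⊆ L w := by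
  intro c hcv
  have h1 := (h.erase hv hc hcv).card (mem_erase.2 ⟨e.ne, hw⟩)
  rw [rm_adj e] at h1
  have h2 := dg_erase_adj hv e
  have h3 := h.card hw
  by_contra hc'
  rw [erase_eq_of_notMem hc'] at h1
  omega

theorem BP.eq_of_conn (h : BP G T L) (hK : K ⊆ T) (hc : Conn G (K : Set V))
    (hn : ∀ v ∈ K, Conn G (T.erase v : Finset V)) {v w : V} (hv : v ∈ K) (hw : w ∈ K) :
    L v = L w :=
  (hc v hv w hw).ind (P := fun w => L v = L w) rfl fun x y hx hy e ih =>
    ih.trans (Subset.antisymm (h.sub (hK hx) (hn x hx) (hK hy) e.symm)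
      (h.sub (hK hy) (hn y hy) (hK hx) e))

/-! ### Flaps -/

/-- No vertex separates `T`. -/
def NoCut (G : SimpleGraph V) (T : Finset V) : Prop := ∀ v ∈ T, Conn G (T.erase v : Finset V)

/-- `K` is attached to the rest of `T` only through `r`. -/
structure Flap (G : SimpleGraph V) (T K : Finset V) (r : V) : Prop where
  ne : K.Nonempty
  sub : K ⊆ T
  rT : r ∈ T
  rK : r ∉ K
  cl : ∀ a ∈ K, ∀ b ∈ T, G.Adj a b → b ∈ K ∨ b = r

theorem Flap.reach (h : Flap G T K r) (hT : Conn G (T : Set V)) {a : V} (ha : a ∈ K) :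
    ∃ x ∈ K, G.Adj x r ∧ Rch G K a x := by
  have e : (T : Set V) ∩ K = K := Set.inter_eq_right.2 (by exact_mod_cast h.sub)
  rcases rch_exit (A := (K : Set V)) (hT a (h.sub ha) r h.rT) ha with ⟨h1, -⟩ |
    ⟨x, hx, y, hy, hyK, e', -, h2⟩
  · exact absurd h1 h.rK
  · rw [e] at h2
    rcases h.cl x hx y hy e' with h' | rfl
    · exact absurd h' hyK
    · exact ⟨x, hx, e', h2⟩

theorem Flap.adj (h : Flap G T K r) (hT : Conn G (T : Set V)) : ∃ x ∈ K, G.Adj x r := by
  obtain ⟨a, ha⟩ := h.ne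
  obtain ⟨x, hx, e, -⟩ := h.reach hT ha
  exact ⟨x, hx, e⟩

theorem Flap.root_mem (h : Flap G T K r) : r ∈ T \ K := mem_sdiff.2 ⟨h.rT, h.rK⟩

theorem Flap.out (h : Flap G T K r) {a b : V} (ha : a ∈ T) (haK : a ∉ K) (har : a ≠ r)
    (e : G.Adj a b) : b ∉ K := fun hb => by
  rcases h.cl b hb a ha e.symm with h' | h'
  · exact haK h'
  · exact har h'

theorem Flap.conn_rest (h : Flap G T K r) (hT : Conn G (T : Set V)) :
    Conn G ((T \ K : Finset V) : Set V) := by
  refine conn_of_root r fun a ha => ?_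
  have ha' := mem_sdiff.1 (mem_coe.1 ha)
  by_cases har : a = r
  · rw [har]; exact Rch.refl _
  have hsub : (T : Set V) ∩ {b | b ∉ K ∧ b ≠ r} ⊆ ((T \ K : Finset V) : Set V) := by
    intro b hb; simp only [coe_sdiff]; exact ⟨hb.1, hb.2.1⟩
  rcases rch_exit (A := {b | b ∉ K ∧ b ≠ r}) (hT a ha'.1 r h.rT) ⟨ha'.2, har⟩ with ⟨h1, -⟩ |
    ⟨x, hx, y, hy, hyK, e', hxT, h2⟩
  · exact absurd rfl h1.2
  · have hyr : y = r := by
      by_contra hne
      exact hyK ⟨h.out hxT hx.1 hx.2 e', hne⟩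
    subst hyr
    exact (h2.mono le_rfl hsub).trans (Rch.single e' (hsub ⟨hxT, hx⟩) (mem_coe.2 h.root_mem))

theorem Flap.conn_ins (h : Flap G T K r) (hT : Conn G (T : Set V)) :
    Conn G ((insert r K : Finset V) : Set V) := by
  refine conn_of_root r fun a ha => ?_
  rcases mem_insert.1 (mem_coe.1 ha) with rfl | ha
  · exact Rch.refl _
  · obtain ⟨x, hx, e, hr⟩ := h.reach hT ha
    exact (hr.mono le_rfl (by simp)).trans (Rch.single e (by simp [hx]) (by simp))

theorem Flap.dg_ins (h : Flap G T K r) {t : V} (ht : t ∈ K) :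
    dg G (insert r K) t = dg G T t :=
  dg_congr fun s e => ⟨fun hs => (mem_insert.1 hs).elim (fun h' => h' ▸ h.rT) (fun h' => h.sub h'),
    fun hs => mem_insert.2 (h.cl t ht s hs e).symm⟩

theorem Flap.dg_rest (h : Flap G T K r) {t : V} (ht : t ∈ T \ K) (htr : t ≠ r) :
    dg G (T \ K) t = dg G T t :=
  dg_congr fun _ e => ⟨fun hs => (mem_sdiff.1 hs).1, fun hs =>
    mem_sdiff.2 ⟨hs, h.out (mem_sdiff.1 ht).1 (mem_sdiff.1 ht).2 htr e⟩⟩

theorem Flap.dg_root (h : Flap G T K r) : dg G (T \ K) r + dg G (insert r K) r = dg G T r := by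
  have e1 : nb G (insert r K) r = nb G K r := by
    ext s; simp only [mem_nb, mem_insert]
    exact ⟨fun h' => ⟨h'.1.resolve_left h'.2.ne', h'.2⟩, fun h' => ⟨Or.inr h'.1, h'.2⟩⟩
  have e2 : nb G T r = nb G (T \ K) r ∪ nb G K r := by
    unfold nb; rw [← filter_union, sdiff_union_of_subset h.sub]
  unfold dg
  rw [e1, e2]
  exact (card_union_of_disjoint (disjoint_filter_filter sdiff_disjoint)).symm

theorem Flap.card_ge (h : Flap G T K r) {t : V} (ht : t ∈ K) : dg G T t ≤ K.card := by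
  have := dg_lt_card (G := G) (mem_insert_of_mem (b := r) ht)
  rw [h.dg_ins ht, card_insert_of_notMem h.rK] at this
  omega

/-- A flap that is a block without its root. -/
structure Lf (G : SimpleGraph V) (T K : Finset V) (r : V) : Prop extends Flap G T K r where
  conn : Conn G (K : Set V)
  nc : NoCut G (insert r K)

theorem Lf.noncut (h : Lf G T K r) (hT : Conn G (T : Set V)) {v : V} (hv : v ∈ K) :
    Conn G (T.erase v : Finset V) := by
  have hvr : r ≠ v := fun e => h.rK (e ▸ hv)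
  have := conn_union (h.nc v (mem_insert_of_mem hv)) (h.conn_rest hT) (r := r)
    (by simp [hvr]) (mem_coe.2 h.root_mem)
  convert this using 1
  ext a
  simp only [coe_erase, coe_insert, coe_sdiff, Set.mem_union, Set.mem_sdiff, mem_coe,
    Set.mem_singleton_iff, Set.mem_insert_iff]
  constructor
  · rintro ⟨h1, h2⟩
    by_cases ha : a ∈ K
    · exact Or.inl ⟨Or.inr ha, h2⟩
    · exact Or.inr ⟨h1, ha⟩
  · rintro (⟨rfl | h1, h2⟩ | ⟨h1, h2⟩)
    · exact ⟨h.rT, h2⟩
    · exact ⟨h.sub h1, h2⟩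
    · exact ⟨h1, fun e => h2 (e ▸ hv)⟩

theorem Flap.exists_lf (h : Flap G T K r) : ∃ K' r', K' ⊆ K ∧ Lf G T K' r' := by
  classical
  induction K using Finset.strongInduction generalizing r with
  | H K ih =>
  by_cases hc : Conn G (K : Set V)
  · by_cases hn : NoCut G (insert r K)
    · exact ⟨K, r, Subset.rfl, h, hc, hn⟩
    · unfold NoCut at hn
      push Not at hn
      obtain ⟨v, hv, hn⟩ := hn
      have hvr : v ≠ r := by
        rintro rfl
        rw [erase_insert h.rK] at hn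
        exact hn hc
      have hvK : v ∈ K := (mem_insert.1 hv).resolve_left hvr
      set S : Set V := (((insert r K).erase v : Finset V) : Set V) with hS
      have : ∃ a ∈ S, ¬ Rch G S a r := by
        by_contra hh
        push Not at hh
        exact hn (conn_of_root r hh)
      obtain ⟨a, ha, har⟩ := this
      have hmem : ∀ b, b ∈ S ↔ b ≠ v ∧ (b = r ∨ b ∈ K) := fun b => by simp [hS, and_comm]
      have hf : Flap G T (K.filter fun b => b ≠ v ∧ ¬ Rch G S b r) v := by
        refine ⟨⟨a, mem_filter.2 ⟨?_, ((hmem a).1 ha).1, har⟩⟩,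
          (filter_subset _ _).trans h.sub, h.sub hvK, by simp, fun b hb c hc e => ?_⟩
        · refine ((hmem a).1 ha).2.resolve_left ?_
          rintro rfl
          exact har (Rch.refl _)
        · obtain ⟨hbK, hbv, hbr⟩ := mem_filter.1 hb
          by_cases hcv : c = v
          · exact Or.inr hcv
          have hbS := (hmem b).2 ⟨hbv, Or.inr hbK⟩
          have hcS := (hmem c).2 ⟨hcv, (h.cl b hbK c hc e).symm⟩
          have hcr : ¬ Rch G S c r := fun h' => hbr ((Rch.single e hbS hcS).trans h')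
          refine Or.inl (mem_filter.2 ⟨(h.cl b hbK c hc e).resolve_right ?_, hcv, hcr⟩)
          rintro rfl
          exact hcr (Rch.refl _)
      obtain ⟨K', r', h1, h2⟩ := ih _ (filter_ssubset.2 ⟨v, hvK, by simp⟩) hf
      exact ⟨K', r', h1.trans (filter_subset _ _), h2⟩
  · unfold Conn at hc
    push Not at hc
    obtain ⟨a, ha, b, hb, hab⟩ := hc
    have hf : Flap G T (K.filter fun b => Rch G K a b) r := by
      refine ⟨⟨a, mem_filter.2 ⟨ha, Rch.refl _⟩⟩, (filter_subset _ _).trans h.sub, h.rT,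
        fun h' => h.rK (mem_filter.1 h').1, fun x hx y hy e => ?_⟩
      obtain ⟨hxK, hxr⟩ := mem_filter.1 hx
      rcases h.cl x hxK y hy e with h' | h'
      · exact Or.inl (mem_filter.2 ⟨h', hxr.trans (Rch.single e hxK h')⟩)
      · exact Or.inr h'
    obtain ⟨K', r', h1, h2⟩ := ih _ (filter_ssubset.2 ⟨b, hb, hab⟩) hf
    exact ⟨K', r', h1.trans (filter_subset _ _), h2⟩

/-- Two independent connected flaps. -/
structure Ind (G : SimpleGraph V) (T K1 : Finset V) (r1 : V) (K2 : Finset V) (r2 : V) : Prop where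
  f1 : Flap G T K1 r1
  f2 : Flap G T K2 r2
  c1 : Conn G (K1 : Set V)
  c2 : Conn G (K2 : Set V)
  dj : ∀ a ∈ K1, a ∉ K2
  r1K : r1 ∉ K2
  r2K : r2 ∉ K1

/-- Two independent leaves. -/
structure Two (G : SimpleGraph V) (T K1 : Finset V) (r1 : V) (K2 : Finset V) (r2 : V) : Prop
    extends Ind G T K1 r1 K2 r2 where
  n1 : NoCut G (insert r1 K1)
  n2 : NoCut G (insert r2 K2)

variable {K1 K2 : Finset V} {r1 r2 : V}

theorem Ind.symm (h : Ind G T K1 r1 K2 r2) : Ind G T K2 r2 K1 r1 :=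
  ⟨h.f2, h.f1, h.c2, h.c1, fun a ha ha' => h.dj a ha' ha, h.r2K, h.r1K⟩

theorem Two.symm (h : Two G T K1 r1 K2 r2) : Two G T K2 r2 K1 r1 := ⟨h.toInd.symm, h.n2, h.n1⟩

theorem Two.l1 (h : Two G T K1 r1 K2 r2) : Lf G T K1 r1 := ⟨h.f1, h.c1, h.n1⟩

theorem Two.l2 (h : Two G T K1 r1 K2 r2) : Lf G T K2 r2 := ⟨h.f2, h.c2, h.n2⟩

theorem Ind.sub_rest (h : Ind G T K1 r1 K2 r2) : K2 ⊆ T \ K1 := fun a ha =>
  mem_sdiff.2 ⟨h.f2.sub ha, fun h' => h.dj a h' ha⟩

theorem Ind.conn_rest (h : Ind G T K1 r1 K2 r2) (hT : Conn G (T : Set V)) :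
    Conn G (((T \ K1) \ K2 : Finset V) : Set V) :=
  Flap.conn_rest (r := r2) ⟨h.f2.ne, h.sub_rest, mem_sdiff.2 ⟨h.f2.rT, h.r2K⟩, h.f2.rK,
    fun a ha b hb e => h.f2.cl a ha b (mem_sdiff.1 hb).1 e⟩ (h.f1.conn_rest hT)

theorem exists_two (hT : Conn G (T : Set V)) (hn : ¬ NoCut G T) :
    ∃ K1 r1 K2 r2, Two G T K1 r1 K2 r2 := by
  classical
  unfold NoCut Conn at hn
  push Not at hn
  obtain ⟨v, hv, a, ha, b, hb, hab⟩ := hn
  set S : Set V := ((T.erase v : Finset V) : Set V) with hS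
  have f1 : Flap G T ((T.erase v).filter fun b => Rch G S a b) v := by
    refine ⟨⟨a, mem_filter.2 ⟨ha, Rch.refl _⟩⟩, (filter_subset _ _).trans (erase_subset _ _), hv,
      by simp, fun x hx y hy e => ?_⟩
    obtain ⟨hxK, hxr⟩ := mem_filter.1 hx
    by_cases h' : y = v
    · exact Or.inr h'
    · have h'' := mem_erase.2 ⟨h', hy⟩
      exact Or.inl (mem_filter.2 ⟨h'', hxr.trans (Rch.single e hxK h'')⟩)
  have f2 : Flap G T ((T.erase v).filter fun b => ¬ Rch G S a b) v := by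
    refine ⟨⟨b, mem_filter.2 ⟨hb, hab⟩⟩, (filter_subset _ _).trans (erase_subset _ _), hv,
      by simp, fun x hx y hy e => ?_⟩
    obtain ⟨hxK, hxr⟩ := mem_filter.1 hx
    by_cases h' : y = v
    · exact Or.inr h'
    · have h'' := mem_erase.2 ⟨h', hy⟩
      exact Or.inl (mem_filter.2 ⟨h'', fun h3 => hxr (h3.trans (Rch.single e.symm h'' hxK))⟩)
  obtain ⟨K1, r1, s1, l1⟩ := f1.exists_lf
  obtain ⟨K2, r2, s2, l2⟩ := f2.exists_lf
  refine ⟨K1, r1, K2, r2, ⟨l1.toFlap, l2.toFlap, l1.conn, l2.conn, fun x h1 h2 =>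
    (mem_filter.1 (s2 h2)).2 (mem_filter.1 (s1 h1)).2, fun h => ?_, fun h => ?_⟩, l1.nc, l2.nc⟩
  · obtain ⟨x, hx, e⟩ := l1.adj hT
    rcases f1.cl x (s1 hx) r1 l1.rT e with h' | h'
    · exact (mem_filter.1 (s2 h)).2 (mem_filter.1 h').2
    · exact f2.rK (h' ▸ s2 h)
  · obtain ⟨x, hx, e⟩ := l2.adj hT
    rcases f2.cl x (s2 hx) r2 l2.rT e with h' | h'
    · exact (mem_filter.1 h').2 (mem_filter.1 (s1 h)).2
    · exact f1.rK (h' ▸ s1 h)

theorem NoCut.lf (hn : NoCut G T) (hr : r ∈ T) (hne : (T.erase r).Nonempty) :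
    Lf G T (T.erase r) r :=
  ⟨⟨hne, erase_subset _ _, hr, by simp, fun _ _ b hb _ => by
    by_cases h : b = r
    · exact Or.inr h
    · exact Or.inl (mem_erase.2 ⟨h, hb⟩)⟩, hn r hr, by rw [insert_erase hr]; exact hn⟩

/-! ### Splitting at the root of a flap -/

open Classical in
/-- The colours of the root that block the flap. -/
noncomputable def blk (G : SimpleGraph V) [DecidableRel G.Adj] (K : Finset V) (r : V)
    (L : V → Finset C) : Finset C :=
  (K.biUnion L).filter fun c => ¬ Col G K (rm G L r c)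

theorem blk_congr {L L' : V → Finset C} (h : ∀ t ∈ K, L t = L' t) :
    blk G K r L = blk G K r L' := by
  classical
  have e : ∀ c, ∀ t ∈ K, rm G L r c t = rm G L' r c t := fun c t ht => by
    unfold rm; rw [h t ht]
  unfold blk
  rw [biUnion_congr rfl h]
  refine filter_congr fun c _ => not_congr ⟨fun h' => h'.congr (e c),
    fun h' => h'.congr fun t ht => (e c t ht).symm⟩

theorem Flap.col_of_notMem (h : Flap G T K r) (hT : Conn G (T : Set V))
    (hd : ∀ t ∈ K, dg G T t ≤ (L t).card) {c : C} (hc : c ∉ blk G K r L) :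
    Col G K (rm G L r c) := by
  classical
  by_cases hc' : c ∈ K.biUnion L
  · by_contra h'
    exact hc (by unfold blk; exact mem_filter.2 ⟨hc', h'⟩)
  · have e : ∀ t ∈ K, L t = rm G L r c t := fun t ht => by
      unfold rm
      split_ifs
      · rw [erase_eq_of_notMem fun h' => hc' (mem_biUnion.2 ⟨t, ht, h'⟩)]
      · rfl
    refine Col.congr (col_of_surplus K L (fun t ht => (dg_mono h.sub t).trans (hd t ht))
      fun t ht => ?_) e
    obtain ⟨x, hx, e', hr⟩ := h.reach hT ht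
    refine ⟨x, hx, hr, ?_⟩
    have h1 := dg_erase_adj (mem_insert_self r K) e'
    rw [erase_insert h.rK, h.dg_ins hx] at h1
    have := hd x hx
    omega

theorem Flap.not_col (h : Flap G T K r) :
    ¬ Col G (insert r K) (Function.update L r (blk G K r L)) := by
  classical
  rintro ⟨ψ, h1, h2⟩
  have hr := h1 r (mem_insert_self _ _)
  rw [Function.update_self] at hr
  unfold blk at hr
  refine (mem_filter.1 hr).2 ⟨ψ, fun t ht => ?_, fun t ht s hs =>
    h2 t (mem_insert_of_mem ht) s (mem_insert_of_mem hs)⟩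
  have h3 := h1 t (mem_insert_of_mem ht)
  rw [Function.update_of_ne fun e => h.rK (by rw [← e]; exact ht)] at h3
  by_cases e : G.Adj t r
  · rw [rm_adj e]
    exact mem_erase.2 ⟨h2 t (mem_insert_of_mem ht) r (mem_insert_self _ _) e, h3⟩
  · rw [rm_nadj e]; exact h3

theorem Flap.blk_card (h : Flap G T K r) (hT : Conn G (T : Set V))
    (hd : ∀ t ∈ K, dg G T t ≤ (L t).card) : (blk G K r L).card ≤ dg G (insert r K) r := by
  by_contra hlt
  push Not at hlt
  refine h.not_col (L := L) (col_of_surplus _ _ (fun t ht => ?_) fun t ht =>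
    ⟨r, mem_insert_self _ _, h.conn_ins hT t ht r (by simp), by rwa [Function.update_self]⟩)
  rcases mem_insert.1 ht with rfl | ht
  · rw [Function.update_self]; exact hlt.le
  · rw [Function.update_of_ne fun e => h.rK (by rw [← e]; exact ht), h.dg_ins ht]
    exact hd t ht

theorem Flap.glue (h : Flap G T K r) (hT : Conn G (T : Set V))
    (hd : ∀ t ∈ K, dg G T t ≤ (L t).card)
    (hc : Col G (T \ K) (Function.update L r (L r \ blk G K r L))) : Col G T L := by
  obtain ⟨ψ, h1, h2⟩ := hc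
  have hr := h1 r h.root_mem
  rw [Function.update_self] at hr
  obtain ⟨χ, k1, k2⟩ := h.col_of_notMem hT hd (mem_sdiff.1 hr).2
  have key : ∀ t ∈ K, ∀ s ∈ T, s ∉ K → G.Adj t s → χ t ≠ ψ s := fun t ht s hs hsK e => by
    have := (h.cl t ht s hs e).resolve_left hsK
    subst this
    have := k1 t ht
    rw [rm_adj e] at this
    exact (mem_erase.1 this).1
  refine ⟨fun t => if t ∈ K then χ t else ψ t, fun t ht => ?_, fun t ht s hs e => ?_⟩
  · by_cases htK : t ∈ K
    · simp only [if_pos htK]; exact rm_sub (k1 t htK)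
    · simp only [if_neg htK]
      by_cases htr : t = r
      · rw [htr]; exact (mem_sdiff.1 hr).1
      · have := h1 t (mem_sdiff.2 ⟨ht, htK⟩)
        rwa [Function.update_of_ne htr] at this
  · by_cases htK : t ∈ K <;> by_cases hsK : s ∈ K
    · simp only [if_pos htK, if_pos hsK]; exact k2 t htK s hsK e
    · simp only [if_pos htK, if_neg hsK]; exact key t htK s hs hsK e
    · simp only [if_neg htK, if_pos hsK]; exact (key s hsK t ht htK e.symm).symm
    · simp only [if_neg htK, if_neg hsK]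
      exact h2 t (mem_sdiff.2 ⟨ht, htK⟩) s (mem_sdiff.2 ⟨hs, hsK⟩) e

theorem BP.rest (h : BP G T L) (hf : Flap G T K r) :
    BP G (T \ K) (Function.update L r (L r \ blk G K r L)) := by
  have hd : ∀ t ∈ K, dg G T t ≤ (L t).card := fun t ht => h.deg t (hf.sub ht)
  refine ⟨hf.conn_rest h.conn, fun t ht => ?_, fun hc => h.bad (hf.glue h.conn hd hc)⟩
  by_cases htr : t = r
  · subst htr
    rw [Function.update_self]
    have := hf.blk_card h.conn hd
    have := hf.dg_root
    have := h.deg t hf.rT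
    have := le_card_sdiff (blk G K t L) (L t)
    omega
  · rw [Function.update_of_ne htr, hf.dg_rest ht htr]
    exact h.deg t (mem_sdiff.1 ht).1

theorem BP.blk (h : BP G T L) (hf : Flap G T K r) :
    blk G K r L ⊆ L r ∧ BP G (insert r K) (Function.update L r (blk G K r L)) := by
  have hd : ∀ t ∈ K, dg G T t ≤ (L t).card := fun t ht => h.deg t (hf.sub ht)
  have h1 := (h.rest hf).card hf.root_mem
  rw [Function.update_self] at h1
  have h2 := hf.blk_card h.conn hd
  have h3 := hf.dg_root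
  have h4 := h.card hf.rT
  have h5 := card_sdiff_add_card_inter (L r) (GC.blk G K r L)
  have h6 := card_le_card (inter_subset_right (s₁ := L r) (s₂ := GC.blk G K r L))
  refine ⟨?_, hf.conn_ins h.conn, fun t ht => ?_, hf.not_col⟩
  · rw [← eq_of_subset_of_card_le (inter_subset_right (s₁ := L r) (s₂ := GC.blk G K r L))
      (by omega)]
    exact inter_subset_left
  · rcases mem_insert.1 ht with rfl | ht
    · rw [Function.update_self]; omega
    · rw [Function.update_of_ne fun e => hf.rK (by rw [← e]; exact ht), hf.dg_ins ht]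
      exact hd t ht

/-! ### The theorem of Brooks for bad pairs -/

theorem BP.eq_of_noCut (h : BP G T L) (hn : NoCut G T) {v w : V} (hv : v ∈ T) (hw : w ∈ T) :
    L v = L w := h.eq_of_conn Subset.rfl h.conn hn hv hw

theorem BP.eq_of_lf (h : BP G T L) (hl : Lf G T K r) {v w : V} (hv : v ∈ K) (hw : w ∈ K) :
    L v = L w := h.eq_of_conn hl.sub hl.conn (fun _ hv => hl.noncut h.conn hv) hv hw

theorem BP.lf_blk (h : BP G T L) (hl : Lf G T K r) {v : V} (hv : v ∈ K) :
    L v = GC.blk G K r L := by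
  have := (h.blk hl.toFlap).2.eq_of_noCut hl.nc (mem_insert_of_mem hv) (mem_insert_self _ _)
  rwa [Function.update_self, Function.update_of_ne fun e => hl.rK (by rw [← e]; exact hv)] at this

theorem BP.brooks_vertex (h : BP G T L) (hn : NoCut G T) {v : V} (hv : v ∈ T) :
    (∀ t ∈ T, t ≠ v → G.Adj t v) ∨ dg G T v ≤ 2 := by
  rcases (L v).eq_empty_or_nonempty with h0 | ⟨c, hc⟩
  · have := h.card hv
    rw [h0] at this
    right; simp at this; omega
  have h' := h.erase hv (hn v hv) hc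
  have key : ∀ t ∈ T, ∀ w ∈ T, G.Adj w v → rm G L v c t = rm G L v c w → G.Adj t v := by
    intro t ht w _ e he
    by_contra hna
    rw [rm_nadj hna, rm_adj e, ← h.eq_of_noCut hn hv ht] at he
    rw [he] at hc
    simp at hc
  by_cases hn' : NoCut G (T.erase v)
  · left
    intro t ht htv
    obtain ⟨w, hw, e⟩ := (hn.lf hv ⟨t, mem_erase.2 ⟨htv, ht⟩⟩).adj h.conn
    exact key t ht w (mem_of_mem_erase hw) e (h'.eq_of_noCut hn' (mem_erase.2 ⟨htv, ht⟩) hw)
  · right
    have leaf : ∀ K r, Lf G (T.erase v) K r → K ⊆ nb G T v ∧ dg G T v ≤ K.card + 1 := by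
      intro K r hl
      have hr := mem_erase.1 hl.rT
      have : ∃ w ∈ K, G.Adj w v := by
        by_contra hh
        push Not at hh
        obtain ⟨a, ha⟩ := hl.ne
        have haT := mem_erase.1 (hl.sub ha)
        have := (hn r hr.2 a (mem_coe.2 (mem_erase.2 ⟨fun e => hl.rK (e ▸ ha), haT.2⟩)) v
          (mem_coe.2 (mem_erase.2 ⟨hr.1.symm, hv⟩))).ind (P := (· ∈ K)) ha
          fun x y _ hy e hx => by
            have hy' := mem_erase.1 (mem_coe.1 hy)
            have hyv : y ≠ v := fun e' => hh x hx (e' ▸ e)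
            exact (hl.cl x hx y (mem_erase.2 ⟨hyv, hy'.2⟩) e).resolve_right hy'.1
        exact (mem_erase.1 (hl.sub this)).1 rfl
      obtain ⟨w, hw, e⟩ := this
      have hwT := mem_of_mem_erase (hl.sub hw)
      refine ⟨fun t ht => ?_, ?_⟩
      · have htT := mem_of_mem_erase (hl.sub ht)
        exact mem_nb.2 ⟨htT, (key t htT w hwT e (h'.eq_of_lf hl ht hw)).symm⟩
      · have h1 := hl.card_ge hw
        have h2 := dg_erase_adj hv e
        have h3 := h.card hwT
        have h4 := h.card hv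
        rw [h.eq_of_noCut hn hv hwT] at h4
        omega
    obtain ⟨K1, r1, K2, r2, h2⟩ := exists_two h'.conn hn'
    obtain ⟨a1, b1⟩ := leaf K1 r1 h2.l1
    obtain ⟨a2, b2⟩ := leaf K2 r2 h2.l2
    have := card_le_card (union_subset a1 a2)
    rw [card_union_of_disjoint (disjoint_left.2 h2.dj)] at this
    unfold dg at b1 b2 ⊢
    omega

theorem BP.brooks (h : BP G T L) (hn : NoCut G T) :
    (∀ t ∈ T, dg G T t ≤ 2) ∨ ∀ a ∈ T, ∀ b ∈ T, a ≠ b → G.Adj a b := by
  by_cases hc : ∃ v ∈ T, dg G T v ≤ 2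
  · obtain ⟨v, hv, hd⟩ := hc
    left
    intro t ht
    rw [← h.card ht, h.eq_of_noCut hn ht hv, h.card hv]
    exact hd
  · right
    intro a ha b hb hab
    exact ((h.brooks_vertex hn hb).resolve_right fun h' => hc ⟨b, hb, h'⟩) a ha hab

theorem BP.brooks_lf (h : BP G T L) (hl : Lf G T K r) :
    (∀ t ∈ K, dg G T t ≤ 2) ∨ ∀ a ∈ insert r K, ∀ b ∈ insert r K, a ≠ b → G.Adj a b := by
  rcases (h.blk hl.toFlap).2.brooks hl.nc with h' | h'
  · exact Or.inl fun t ht => hl.dg_ins ht ▸ h' t (mem_insert_of_mem ht)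
  · exact Or.inr h'

end Pool.Agent.Lib.MP_0fc16c_co.GC
end

-- part Pool.Agent.Lib.MP_0fc16c_co.Gallai2
section

/-! Components with uncoloured outside neighbours: paying colours, peeling flaps. -/

set_option autoImplicit false
set_option linter.unusedSectionVars false

open Finset

namespace Pool.Agent.Lib.MP_0fc16c_co.GC

variable {V : Type*} [Fintype V] [DecidableEq V] {C : Type*} [DecidableEq C]
variable {G : SimpleGraph V} [DecidableRel G.Adj]

/-- The lists after removing the colours of the outside neighbours. -/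
def rs (N : V → Finset V) (L : V → Finset C) (φ : V → C) (t : V) : Finset C :=
  L t \ (N t).image φ

/-- Lists are as long as the inner degree plus the number of outside neighbours. -/
structure Cx (G : SimpleGraph V) [DecidableRel G.Adj] (T : Finset V) (N : V → Finset V)
    (L : V → Finset C) : Prop where
  conn : Conn G (T : Set V)
  deg : ∀ t ∈ T, dg G T t + (N t).card ≤ (L t).card

/-- The outside colouring does not extend. -/
def Bd (G : SimpleGraph V) (T : Finset V) (N : V → Finset V) (L : V → Finset C) (φ : V → C) :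
    Prop := ¬ Col G T (rs N L φ)

/-- The vertices in `Py` can prevent `bad` by avoiding `n` colours each. -/
def Pays (bad : (V → C) → Prop) (Py : Set V) (n : ℕ) : Prop :=
  ∃ P : V → Finset C, (∀ x, (P x).card ≤ n) ∧ (∀ x, x ∉ Py → P x = ∅) ∧
    ∀ φ, (∀ x, φ x ∉ P x) → ¬ bad φ

theorem Pays.mono {bad bad' : (V → C) → Prop} {Py : Set V} {n : ℕ} (h : Pays bad Py n)
    (hb : ∀ φ, bad' φ → bad φ) : Pays bad' Py n := by
  obtain ⟨P, h1, h2, h3⟩ := h
  exact ⟨P, h1, h2, fun φ hφ h' => h3 φ hφ (hb φ h')⟩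

theorem pays_of_not {bad : (V → C) → Prop} {Py : Set V} {n : ℕ} (h : ∀ φ, ¬ bad φ) :
    Pays bad Py n := ⟨fun _ => ∅, by simp, by simp, fun φ _ => h φ⟩

theorem squeeze {bad : (V → C) → Prop} {Py : Set V} {n k : ℕ} (W U : Finset V) (D : Finset C)
    (hW : ∃ x ∈ W, x ∈ Py) (hU : ∀ x ∈ W, x ∉ Py → x ∈ U) (hn : k + U.card + 1 ≤ n)
    (h : ∀ φ, bad φ → Set.InjOn φ W ∧ (∀ x ∈ W, φ x ∈ D) ∧ D.card ≤ W.card + k) :
    Pays bad Py n := by
  classical
  obtain ⟨Z, hZ, hZc⟩ := exists_subset_card_eq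
    (min_le_left D.card (k + (W.filter (· ∉ Py)).card + 1))
  have hj : (W.filter (· ∉ Py)).card ≤ U.card :=
    card_le_card fun x hx => hU x (mem_filter.1 hx).1 (mem_filter.1 hx).2
  refine ⟨fun x => if x ∈ W ∧ x ∈ Py then Z else ∅, fun x => ?_, fun x hx => ?_,
    fun φ hφ hb => ?_⟩
  · dsimp only
    split_ifs
    · omega
    · simp
  · exact if_neg fun h' => hx h'.2
  obtain ⟨h1, h2, h3⟩ := h φ hb
  have h4 : (W.filter (· ∈ Py)).card ≤ (D \ Z).card := by
    refine card_le_card_of_injOn φ (fun x hx => ?_) 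
      (h1.mono (coe_subset.2 (filter_subset _ _)))
    obtain ⟨hx1, hx2⟩ := mem_filter.1 (mem_coe.1 hx)
    have := hφ x
    simp only [if_pos (And.intro hx1 hx2)] at this
    exact mem_coe.2 (mem_sdiff.2 ⟨h2 x hx1, this⟩)
  have h5 := card_filter_add_card_filter_not (s := W) (· ∈ Py)
  have h6 : W.card ≤ D.card := card_le_card_of_injOn φ (fun x hx => h2 x hx) h1
  have h7 : 0 < (W.filter (· ∈ Py)).card := by
    obtain ⟨x, hx, hx'⟩ := hW
    exact card_pos.2 ⟨x, mem_filter.2 ⟨hx, hx'⟩⟩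
  rw [card_sdiff_of_subset hZ] at h4
  omega

variable [Nonempty C] {T K : Finset V} {N : V → Finset V} {L : V → Finset C} {φ : V → C} {r : V}
  {Py : Set V} {n : ℕ}

theorem Cx.bp (h : Cx G T N L) (hb : Bd G T N L φ) : BP G T (rs N L φ) := by
  refine ⟨h.conn, fun t ht => ?_, hb⟩
  have := h.deg t ht
  have h1 := le_card_sdiff ((N t).image φ) (L t)
  have h2 := card_image_le (s := N t) (f := φ)
  unfold rs
  omega

theorem Cx.tight (h : Cx G T N L) (hb : Bd G T N L φ) {t : V} (ht : t ∈ T) :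
    (L t).card = dg G T t + (N t).card ∧ Set.InjOn φ (N t) ∧ ∀ x ∈ N t, φ x ∈ L t := by
  have h1 := (h.bp hb).card ht
  unfold rs at h1
  have h2 := h.deg t ht
  have h3 := card_sdiff_add_card_inter (L t) ((N t).image φ)
  have h4 := card_le_card (inter_subset_right (s₁ := L t) (s₂ := (N t).image φ))
  have h5 := card_image_le (s := N t) (f := φ)
  refine ⟨by omega, card_image_iff.1 (by omega), fun x hx => ?_⟩
  have := eq_of_subset_of_card_le (inter_subset_right (s₁ := L t) (s₂ := (N t).image φ))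
    (by omega)
  have h6 : φ x ∈ (N t).image φ := mem_image_of_mem _ hx
  rw [← this] at h6
  exact (mem_inter.1 h6).1

theorem Cx.handle (h : Cx G T N L) {v : V} (hv : v ∈ T) (U : Finset V)
    (hW : ∃ x ∈ N v, x ∈ Py) (hU : ∀ x ∈ N v, x ∉ Py → x ∈ U)
    (hn : dg G T v + U.card + 1 ≤ n) : Pays (Bd G T N L) Py n :=
  squeeze (N v) U (L v) hW hU hn fun _ hb => by
    obtain ⟨h1, h2, h3⟩ := h.tight hb hv
    exact ⟨h2, h3, by omega⟩

/-- The two vertices have the same list in every bad pair. -/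
def Same (C : Type*) (G : SimpleGraph V) [DecidableRel G.Adj] (T : Finset V) (v w : V) : Prop :=
  ∀ L : V → Finset C, BP G T L → L v = L w

theorem Cx.diff_fact (h : Cx G T N L) (hb : Bd G T N L φ) {v w : V} (hv : v ∈ T) (hw : w ∈ T)
    (hs : Same C G T v w) (hN : N w ⊆ N v) :
    (∀ x ∈ N v \ N w, φ x ∈ L v \ L w) ∧ (L v \ L w).card ≤ (N v \ N w).card := by
  have e := hs _ (h.bp hb)
  obtain ⟨-, a2, a3⟩ := h.tight hb hv
  obtain ⟨-, -, b3⟩ := h.tight hb hw
  unfold rs at e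
  refine ⟨fun x hx => ?_, ?_⟩
  · obtain ⟨hx1, hx2⟩ := mem_sdiff.1 hx
    refine mem_sdiff.2 ⟨a3 x hx1, fun h' => ?_⟩
    have : φ x ∈ L w \ (N w).image φ := mem_sdiff.2 ⟨h', fun h'' => by
      obtain ⟨y, hy, e'⟩ := mem_image.1 h''
      exact hx2 (a2 (hN hy) hx1 e' ▸ hy)⟩
    rw [← e] at this
    exact (mem_sdiff.1 this).2 (mem_image_of_mem _ hx1)
  · refine le_trans (card_le_card fun c hc => ?_) (card_image_le (f := φ))
    obtain ⟨hc1, hc2⟩ := mem_sdiff.1 hc
    have : c ∉ L v \ (N v).image φ := by rw [e]; exact fun h' => hc2 (mem_sdiff.1 h').1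
    have : c ∈ (N v).image φ := by
      by_contra h'
      exact this (mem_sdiff.2 ⟨hc1, h'⟩)
    obtain ⟨x, hx, rfl⟩ := mem_image.1 this
    exact mem_image_of_mem _ (mem_sdiff.2 ⟨hx, fun h' => hc2 (b3 x h')⟩)

theorem Cx.diff (h : Cx G T N L) {v w : V} (hv : v ∈ T) (hw : w ∈ T) (hs : Same C G T v w)
    (hN : N w ⊆ N v) (U : Finset V) (hW : ∃ x ∈ N v, x ∉ N w ∧ x ∈ Py)
    (hU : ∀ x ∈ N v, x ∉ N w → x ∉ Py → x ∈ U) (hn : U.card + 1 ≤ n) :
    Pays (Bd G T N L) Py n :=
  squeeze (k := 0) (N v \ N w) U (L v \ L w)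
    (by obtain ⟨x, h1, h2, h3⟩ := hW; exact ⟨x, mem_sdiff.2 ⟨h1, h2⟩, h3⟩)
    (fun x hx => hU x (mem_sdiff.1 hx).1 (mem_sdiff.1 hx).2) (by omega) fun _ hb => by
    obtain ⟨h1, h2⟩ := h.diff_fact hb hv hw hs hN
    exact ⟨(h.tight hb hv).2.1.mono (by simp), h1, h2⟩

/-- If the neighbourhoods differ in one vertex, its colour is determined. -/
theorem Cx.diff_fix (h : Cx G T N L) {v w x : V} (hv : v ∈ T) (hw : w ∈ T) (hs : Same C G T v w)
    (hN : N w ⊆ N v) (hx : x ∈ N v) (hx' : x ∉ N w) (h1 : ∀ y ∈ N v, y ∉ N w → y = x) :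
    ∃ c, ∀ φ, Bd G T N L φ → φ x = c := by
  by_cases hb : ∃ φ, Bd G T N L φ
  · obtain ⟨φ0, hb⟩ := hb
    refine ⟨φ0 x, fun φ hφ => ?_⟩
    have hm := mem_sdiff.2 ⟨hx, hx'⟩
    obtain ⟨a1, a2⟩ := h.diff_fact hb hv hw hs hN
    have : (N v \ N w).card ≤ 1 := card_le_one.2 fun a ha b hb => by
      rw [h1 a (mem_sdiff.1 ha).1 (mem_sdiff.1 ha).2, h1 b (mem_sdiff.1 hb).1 (mem_sdiff.1 hb).2]
    exact card_le_one.1 (a2.trans this) _ ((h.diff_fact hφ hv hw hs hN).1 x hm) _ (a1 x hm)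
  · exact ⟨Classical.arbitrary C, fun φ hφ => absurd ⟨φ, hφ⟩ hb⟩

/-! ### Peeling -/

theorem Cx.rest (h : Cx G T N L) (hf : Flap G T K r) (hN : ∀ t ∈ K, N t = ∅) :
    Cx G (T \ K) N (Function.update L r (L r \ blk G K r L)) ∧
      ∀ φ, Bd G T N L φ → Bd G (T \ K) N (Function.update L r (L r \ blk G K r L)) φ := by
  have hd : ∀ t ∈ K, dg G T t ≤ (L t).card := fun t ht => by
    have := h.deg t (hf.sub ht); omega
  refine ⟨⟨hf.conn_rest h.conn, fun t ht => ?_⟩, fun φ hb hc => ?_⟩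
  · by_cases htr : t = r
    · subst htr
      rw [Function.update_self]
      have := hf.blk_card h.conn hd
      have := hf.dg_root
      have := h.deg t hf.rT
      have := le_card_sdiff (blk G K t L) (L t)
      omega
    · rw [Function.update_of_ne htr, hf.dg_rest ht htr]
      exact h.deg t (mem_sdiff.1 ht).1
  · refine ((h.bp hb).rest hf).bad (hc.congr fun t _ => ?_)
    have e : blk G K r (rs N L φ) = blk G K r L :=
      blk_congr fun t ht => by unfold rs; rw [hN t ht]; simp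
    by_cases htr : t = r
    · subst htr
      rw [Function.update_self, e]
      unfold rs
      rw [Function.update_self, sdiff_right_comm]
    · rw [Function.update_of_ne htr]
      unfold rs
      rw [Function.update_of_ne htr]

theorem peel_ind (Inv : Finset V → Prop)
    (hInv : ∀ (T K : Finset V) (r : V), Conn G (T : Set V) → Inv T → Flap G T K r →
      (∀ t ∈ K, N t = ∅) → Inv (T \ K))
    (base : ∀ (T : Finset V) (L : V → Finset C), Cx G T N L → Inv T →
      (∀ K r, Flap G T K r → ∃ t ∈ K, (N t).Nonempty) → Pays (Bd G T N L) Py n)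
    (T : Finset V) (L : V → Finset C) (h : Cx G T N L) (hI : Inv T) :
    Pays (Bd G T N L) Py n := by
  induction T using Finset.strongInduction generalizing L with
  | H T ih =>
  by_cases hc : ∀ K r, Flap G T K r → ∃ t ∈ K, (N t).Nonempty
  · exact base T L h hI hc
  · push Not at hc
    obtain ⟨K, r, hf, hN⟩ := hc
    obtain ⟨h1, h2⟩ := h.rest hf hN
    exact (ih _ (sdiff_ssubset hf.sub hf.ne) _ h1 (hInv T K r h.conn hI hf hN)).mono h2

theorem card_le_four (h5 : ∀ S : Finset V, S ⊆ T → S.card = 5 → ¬ G.IsClique (S : Set V))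
    {D : Finset V} (hD : D ⊆ T) (hc : ∀ a ∈ D, ∀ b ∈ D, a ≠ b → G.Adj a b) : D.card ≤ 4 := by
  by_contra hlt
  obtain ⟨S, hS, hSc⟩ := exists_subset_card_eq (show 5 ≤ D.card by omega)
  exact h5 S (hS.trans hD) hSc fun a ha b hb hab => hc a (hS ha) b (hS hb) hab

theorem w4_core (h : Cx G T N L) (hN : ∀ t ∈ T, ∀ x ∈ N t, x ∈ Py)
    (h5 : ∀ S : Finset V, S ⊆ T → S.card = 5 → ¬ G.IsClique (S : Set V))
    (hx : ∃ t ∈ T, (N t).Nonempty) : Pays (Bd G T N L) Py 4 := by
  refine peel_ind (fun T => (∃ t ∈ T, (N t).Nonempty) ∧ (∀ t ∈ T, ∀ x ∈ N t, x ∈ Py) ∧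
    ∀ S : Finset V, S ⊆ T → S.card = 5 → ¬ G.IsClique (S : Set V)) ?_ ?_ T L h ⟨hx, hN, h5⟩
  · rintro T K r - ⟨⟨t, ht, hne⟩, hN, h5⟩ - hK
    exact ⟨⟨t, mem_sdiff.2 ⟨ht, fun h' => by simp [hK t h'] at hne⟩, hne⟩,
      fun t ht => hN t (mem_sdiff.1 ht).1, fun S hS => h5 S (hS.trans sdiff_subset)⟩
  · rintro T L h ⟨hx, hN, h5⟩ hK
    by_cases hb : ∃ φ, Bd G T N L φ
    swap
    · exact pays_of_not fun φ hφ => hb ⟨φ, hφ⟩
    obtain ⟨φ, hb⟩ := hb
    have : ∃ v ∈ T, (N v).Nonempty ∧ dg G T v ≤ 3 := by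
      by_cases hn : NoCut G T
      · obtain ⟨v, hv, hne⟩ := hx
        refine ⟨v, hv, hne, ?_⟩
        rcases (h.bp hb).brooks hn with h' | h'
        · have := h' v hv; omega
        · have := card_le_four h5 Subset.rfl h'
          have := dg_lt_card (G := G) hv
          omega
      · obtain ⟨K1, r1, K2, r2, h2⟩ := exists_two h.conn hn
        obtain ⟨v, hv, hne⟩ := hK _ _ h2.f1
        refine ⟨v, h2.f1.sub hv, hne, ?_⟩
        rcases (h.bp hb).brooks_lf h2.l1 with h' | h'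
        · have := h' v hv; omega
        · have := card_le_four h5 (insert_subset h2.f1.rT h2.f1.sub) h'
          have := h2.f1.card_ge hv
          rw [card_insert_of_notMem h2.f1.rK] at *
          omega
    obtain ⟨v, hv, ⟨x, hx⟩, hd⟩ := this
    exact h.handle hv ∅ ⟨x, hx, hN _ hv _ hx⟩ (fun y hy hy' => absurd (hN _ hv _ hy) hy')
      (by simp; omega)

/-! ### Known colours -/

/-- The neighbours outside `T`. -/
def N0 (G : SimpleGraph V) [DecidableRel G.Adj] (T : Finset V) (t : V) : Finset V :=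
  univ.filter fun x => x ∉ T ∧ G.Adj t x

theorem mem_N0 {t x : V} : x ∈ N0 G T t ↔ x ∉ T ∧ G.Adj t x := by simp [N0]

theorem cx_of_tctx (h : TCtx G T L) : Cx G T (N0 G T) L := by
  refine ⟨h.conn, fun t ht => le_trans (le_of_eq ?_) (h.deg t ht)⟩
  have : G.neighborSet t = ((nb G T t ∪ N0 G T t : Finset V) : Set V) := by
    ext x
    simp only [SimpleGraph.mem_neighborSet, coe_union, Set.mem_union, mem_coe, mem_nb, mem_N0]
    tauto
  rw [this, Set.ncard_coe_finset, card_union_of_disjoint]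
  · rfl
  · exact disjoint_left.2 fun x h1 h2 => (mem_N0.1 h2).1 (mem_nb.1 h1).1

theorem badT_iff : badT G T L φ ↔ Bd G T (N0 G T) L φ := by
  unfold badT Bd Col rs
  refine not_congr (exists_congr fun ψ => ⟨fun h => ⟨fun t ht => mem_sdiff.2 ⟨h.1 t ht,
    fun h' => ?_⟩, h.2.1⟩, fun h => ⟨fun t ht => (mem_sdiff.1 (h.1 t ht)).1, h.2,
      fun t ht x hx e h' => (mem_sdiff.1 (h.1 t ht)).2 ?_⟩⟩)
  · obtain ⟨x, hx, e⟩ := mem_image.1 h'
    exact h.2.2 t ht x (mem_N0.1 hx).1 (mem_N0.1 hx).2 e.symm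
  · exact mem_image.2 ⟨x, mem_N0.2 ⟨hx, e⟩, h'.symm⟩

open Classical in
/-- The outside neighbours that are not yet coloured. -/
noncomputable def kN (N : V → Finset V) (S : Set V) (t : V) : Finset V := (N t).filter (· ∉ S)

open Classical in
/-- The lists after removing the known colours. -/
noncomputable def kL (N : V → Finset V) (L : V → Finset C) (S : Set V) (ψ : V → C) (t : V) :
    Finset C := L t \ ((N t).filter (· ∈ S)).image ψ

theorem mem_kN {S : Set V} {t x : V} : x ∈ kN N S t ↔ x ∈ N t ∧ x ∉ S := by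
  unfold kN; simp

theorem Cx.known (h : Cx G T N L) (S : Set V) (ψ : V → C) : Cx G T (kN N S) (kL N L S ψ) := by
  classical
  refine ⟨h.conn, fun t ht => ?_⟩
  have h1 := h.deg t ht
  have h2 := le_card_sdiff (((N t).filter (· ∈ S)).image ψ) (L t)
  have h3 := card_image_le (s := (N t).filter (· ∈ S)) (f := ψ)
  have h4 := card_filter_add_card_filter_not (s := N t) (· ∈ S)
  unfold kN kL
  convert (show dg G T t + ((N t).filter (· ∉ S)).card ≤
    (L t \ ((N t).filter (· ∈ S)).image ψ).card by omega)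

theorem Bd.known (hb : Bd G T N L φ) {S : Set V} {ψ : V → C} (e : ∀ v ∈ S, φ v = ψ v) :
    Bd G T (kN N S) (kL N L S ψ) φ := by
  refine fun hc => hb (hc.congr fun t _ => ?_)
  ext c
  unfold rs kL
  simp only [mem_sdiff, mem_image, mem_filter, mem_kN]
  constructor
  · rintro ⟨⟨h1, h2⟩, h3⟩
    refine ⟨h1, ?_⟩
    rintro ⟨x, hx, rfl⟩
    by_cases hS : x ∈ S
    · exact h2 ⟨x, ⟨hx, hS⟩, (e x hS).symm⟩
    · exact h3 ⟨x, ⟨hx, hS⟩, rfl⟩
  · rintro ⟨h1, h2⟩
    refine ⟨⟨h1, ?_⟩, ?_⟩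
    · rintro ⟨x, ⟨hx, hS⟩, rfl⟩
      exact h2 ⟨x, hx, e x hS⟩
    · rintro ⟨x, ⟨hx, -⟩, rfl⟩
      exact h2 ⟨x, hx, rfl⟩

end Pool.Agent.Lib.MP_0fc16c_co.GC

namespace Pool.Agent.Lib.MP_0fc16c_co

open GC

variable {V : Type*} [Fintype V] [DecidableEq V] {C : Type*} [DecidableEq C]

theorem W4 {G : SimpleGraph V} {T : Finset V} {L : V → Finset C} (h : TCtx G T L)
    (h5 : ∀ S : Finset V, S ⊆ T → S.card = 5 → ¬ G.IsClique (S : Set V))
    (K : Set V) (ψ : V → C) (hx : ∃ x, x ∉ T ∧ x ∉ K ∧ ∃ t ∈ T, G.Adj t x) :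
    ∃ P : V → Finset C, (∀ v, (P v).card ≤ 4) ∧
      ∀ φ, (∀ v ∈ K, φ v = ψ v) → (∀ x, x ∉ T → x ∉ K → (∃ t ∈ T, G.Adj t x) → φ x ∉ P x) →
        ¬ badT G T L φ := by
  classical
  obtain ⟨x, hx1, hx2, t, ht, e⟩ := hx
  have : Nonempty C := ⟨ψ x⟩
  obtain ⟨P, h1, h2, h3⟩ := w4_core (Py := {x | x ∉ T ∧ x ∉ K ∧ ∃ t ∈ T, G.Adj t x})
    ((cx_of_tctx h).known K ψ)
    (fun t ht x hx => by
      simp only [mem_kN, mem_N0] at hx
      exact ⟨hx.1.1, hx.2, t, ht, hx.1.2⟩) h5
    ⟨t, ht, x, by simp only [mem_kN, mem_N0]; exact ⟨⟨hx1, e⟩, hx2⟩⟩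
  refine ⟨P, h1, fun φ k1 k2 hb => h3 φ (fun y => ?_) ((badT_iff.1 hb).known k1)⟩
  by_cases hy : y ∉ T ∧ y ∉ K ∧ ∃ t ∈ T, G.Adj t y
  · exact k2 y hy.1 hy.2.1 hy.2.2
  · rw [h2 y hy]; simp

theorem simple_loc {G : SimpleGraph V} {T : Finset V} {L : V → Finset C} {B : List V}
    (hs : Simple G T B) : Loc (Cyc B) (badT G T L) := by
  rintro φ ψ h hb ⟨χ, h1, h2, h3⟩
  refine hb ⟨χ, h1, h2, fun t ht x hx e => ?_⟩
  rw [h x (exists_cyc_of_mem ((hs.nbr t ht x e).resolve_left hx))]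
  exact h3 t ht x hx e

theorem brooks3 {G : SimpleGraph V} {L : V → Finset C} (h : TCtx G univ L)
    (h2 : ∀ v, Conn G {v}ᶜ) (h3 : ∀ v, 3 ≤ (G.neighborSet v).ncard) (hne : G ≠ ⊤) (φ : V → C) :
    ¬ badT G univ L φ := by
  classical
  intro hb
  obtain ⟨v, -⟩ := h.ne
  have : Nonempty C := ⟨φ v⟩
  rcases ((cx_of_tctx h).bp (badT_iff.1 hb)).brooks (fun w _ => by
    convert h2 w using 1
    ext a; simp) with h' | h'
  · have h4 := h' v (mem_univ _)
    have h5 := h3 v
    have : G.neighborSet v = ((nb G univ v : Finset V) : Set V) := by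
      ext x; simp [mem_nb]
    rw [this, Set.ncard_coe_finset] at h5
    unfold dg at h4
    omega
  · refine hne ?_
    ext a b
    exact ⟨fun e => e.ne, fun e => h' a (mem_univ _) b (mem_univ _) e⟩

end Pool.Agent.Lib.MP_0fc16c_co
end
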