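import Pool.Agent.Lib.MP_0fc16c_co.Gallai2

-- part Pool.Agent.Lib.MP_0fc16c_co.Gallai3
section

/-! Planarity constraints on leaves and the paying lemmas for a single leaf. -/

set_option autoImplicit false
set_option linter.unusedSectionVars false

open Finset

namespace Pool.Agent.Lib.MP_0fc16c_co.GC

variable {V : Type*} [Fintype V] [DecidableEq V] {C : Type*} [DecidableEq C]
variable {G : SimpleGraph V} [DecidableRel G.Adj]

/-- `T` lies inside a face with boundary `O`. -/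
structure Geo (G : SimpleGraph V) (O : Set V) (T : Finset V) : Prop where
  disj : ∀ t ∈ T, t ∉ O
  k33 : NoK33 G O
  k5 : NoK5 G O

/-- The outside neighbours lie on the boundary. -/
def Nok (G : SimpleGraph V) (O : Set V) (T : Finset V) (N : V → Finset V) : Prop :=
  ∀ t ∈ T, ∀ x ∈ N t, x ∈ O ∧ G.Adj t x

/-- `A` sees `x`. -/
def Sv (G : SimpleGraph V) (A : Set V) (x : V) : Prop := ∃ a ∈ A, G.Adj a x

/-- `A` sees two boundary vertices. -/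
def Sv2 (G : SimpleGraph V) (O A : Set V) : Prop :=
  ∃ x ∈ O, ∃ y ∈ O, x ≠ y ∧ Sv G A x ∧ Sv G A y

/-- Every flap sees two boundary vertices. -/
def See2 (G : SimpleGraph V) (O : Set V) (T : Finset V) : Prop :=
  ∀ K r, Flap G T K r → Sv2 G O K

variable {O : Set V} {T K K1 K2 : Finset V} {r r1 r2 : V}

theorem Sv.mono {A B : Set V} {x : V} (h : Sv G A x) (e : A ⊆ B) : Sv G B x := by
  obtain ⟨a, ha, h⟩ := h
  exact ⟨a, e ha, h⟩

theorem Sv2.mono {A B : Set V} (h : Sv2 G O A) (e : A ⊆ B) : Sv2 G O B := by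
  obtain ⟨x, hx, y, hy, hxy, h1, h2⟩ := h
  exact ⟨x, hx, y, hy, hxy, h1.mono e, h2.mono e⟩

theorem Sv2.other {A : Set V} (h : Sv2 G O A) (p : V) : ∃ y ∈ O, y ≠ p ∧ Sv G A y := by
  obtain ⟨x, hx, y, hy, hxy, h1, h2⟩ := h
  by_cases e : x = p
  · exact ⟨y, hy, fun e' => hxy (e.trans e'.symm), h2⟩
  · exact ⟨x, hx, e, h1⟩

theorem sv_single {a x : V} (h : G.Adj a x) : Sv G {a} x := ⟨a, rfl, h⟩

theorem Sv.tch {A : Set V} {x : V} (h : Sv G A x) : Tch G A {x} := by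
  obtain ⟨a, ha, h⟩ := h
  exact ⟨a, ha, x, rfl, h⟩

theorem Sv.tch' {A S : Set V} {x : V} (h : Sv G A x) (hx : x ∈ S) : Tch G A S := by
  obtain ⟨a, ha, h⟩ := h
  exact ⟨a, ha, x, hx, h⟩

theorem Geo.mono {T' : Finset V} (h : Geo G O T) (e : T' ⊆ T) : Geo G O T' :=
  ⟨fun t ht => h.disj t (e ht), h.k33, h.k5⟩

theorem Geo.dj (h : Geo G O T) {A S : Set V} (hA : A ⊆ T) (hS : S ⊆ O) : Disjoint A S :=
  Set.disjoint_left.2 fun a ha ha' => h.disj a (hA ha) (hS ha')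

theorem Geo.nm (h : Geo G O T) {A : Set V} (hA : A ⊆ T) {x : V} (hx : x ∈ O) : x ∉ A :=
  fun h' => h.disj x (hA h') hx

theorem Geo.k33a (h : Geo G O T) {A1 A2 A3 S1 S2 : Set V} {m : V} (s1 : A1 ⊆ T) (s2 : A2 ⊆ T)
    (s3 : A3 ⊆ T) (c1 : Conn G A1) (c2 : Conn G A2) (c3 : Conn G A3) (d12 : Disjoint A1 A2)
    (d13 : Disjoint A1 A3) (d23 : Disjoint A2 A3) (t13 : Tch G A1 A3) (t23 : Tch G A2 A3)
    (o1 : S1 ⊆ O) (o2 : S2 ⊆ O) (k1 : Conn G S1) (k2 : Conn G S2) (d : Disjoint S1 S2)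
    (t11 : Tch G A1 S1) (t12 : Tch G A1 S2) (t21 : Tch G A2 S1) (t22 : Tch G A2 S2)
    (hm : m ∈ O) (m1 : m ∉ S1) (m2 : m ∉ S2) (hs : Sv G A3 m) : False := by
  obtain ⟨t, ht, e⟩ := hs
  have up : ∀ {A : Set V}, Tch G A A3 → Tch G A (insert m A3) := fun ⟨a, ha, b, hb, e⟩ =>
    ⟨a, ha, b, Or.inr hb, e⟩
  refine h.k33 A1 A2 S1 S2 (insert m A3) c1 c2 k1 k2 (conn_insert c3 ht e) d12 (h.dj s1 o1)
    (h.dj s1 o2) (Set.disjoint_insert_right.2 ⟨h.nm s1 hm, d13⟩) (h.dj s2 o1) (h.dj s2 o2)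
    (Set.disjoint_insert_right.2 ⟨h.nm s2 hm, d23⟩) d
    (Set.disjoint_insert_right.2 ⟨m1, (h.dj s3 o1).symm⟩)
    (Set.disjoint_insert_right.2 ⟨m2, (h.dj s3 o2).symm⟩) t11 t12 (up t13) t21 t22 (up t23)
    ?_ ?_ ⟨m, hm, Or.inl rfl⟩
  · obtain ⟨-, -, b, hb, -⟩ := t11
    exact ⟨b, o1 hb, hb⟩
  · obtain ⟨-, -, b, hb, -⟩ := t12
    exact ⟨b, o2 hb, hb⟩

theorem Geo.k33b (h : Geo G O T) {v w a b : V} {S : Set V} (hv : v ∈ T) (hw : w ∈ T)
    (hvw : v ≠ w) (ha : a ∈ O) (hb : b ∈ O) (hab : a ≠ b) (hS : S ⊆ O) (cS : Conn G S)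
    (aS : a ∉ S) (bS : b ∉ S) (e1 : G.Adj v a) (e2 : G.Adj v b) (e3 : ∃ x ∈ S, G.Adj v x)
    (e4 : G.Adj w a) (e5 : G.Adj w b) (e6 : ∃ x ∈ S, G.Adj w x) : False := by
  have sv : ({v} : Set V) ⊆ T := by simpa using hv
  have sw : ({w} : Set V) ⊆ T := by simpa using hw
  have oa : ({a} : Set V) ⊆ O := by simpa using ha
  have ob : ({b} : Set V) ⊆ O := by simpa using hb
  obtain ⟨x, hx, e3⟩ := e3
  obtain ⟨y, hy, e6⟩ := e6
  exact h.k33 {v} {w} {a} {b} S (conn_single _) (conn_single _) (conn_single _) (conn_single _) cS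
    (by simpa using hvw) (h.dj sv oa) (h.dj sv ob) (h.dj sv hS) (h.dj sw oa) (h.dj sw ob)
    (h.dj sw hS) (by simpa using hab) (by simpa using aS) (by simpa using bS)
    (sv_single e1).tch (sv_single e2).tch ((sv_single e3).tch' hx) (sv_single e4).tch
    (sv_single e5).tch ((sv_single e6).tch' hy) ⟨a, ha, rfl⟩ ⟨b, hb, rfl⟩ ⟨x, hS hx, hx⟩

/-- Three mutually touching connected parts of `T`. -/
structure Tri (G : SimpleGraph V) (T : Finset V) (A1 A2 A3 : Set V) : Prop where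
  s1 : A1 ⊆ T
  s2 : A2 ⊆ T
  s3 : A3 ⊆ T
  c1 : Conn G A1
  c2 : Conn G A2
  c3 : Conn G A3
  d12 : Disjoint A1 A2
  d13 : Disjoint A1 A3
  d23 : Disjoint A2 A3
  t12 : Tch G A1 A2
  t13 : Tch G A1 A3
  t23 : Tch G A2 A3

variable {A1 A2 A3 : Set V}

theorem Tri.one (h : Tri G T A1 A2 A3) (g : Geo G O T) {p : V} (hp : p ∈ O) (p1 : Sv G A1 p)
    (p2 : Sv G A2 p) (p3 : Sv G A3 p) (q1 : ∃ y ∈ O, y ≠ p ∧ Sv G A1 y)
    (q2 : ∃ y ∈ O, y ≠ p ∧ Sv G A2 y) (q3 : ∃ y ∈ O, y ≠ p ∧ Sv G A3 y) : False := by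
  have op : ({p} : Set V) ⊆ O := by simpa using hp
  have out : ∀ {A B D : Set V}, B ⊆ T → D ⊆ T → (∃ y ∈ O, y ≠ p ∧ Sv G A y) →
      Out G O A B D {p} := fun hB hD ⟨y, hy, hyp, e⟩ =>
    ⟨y, hy, g.nm hB hy, g.nm hD hy, hyp, Or.inr e⟩
  exact g.k5 A1 A2 A3 {p} h.c1 h.c2 h.c3 (conn_single _) h.d12 h.d13 (g.dj h.s1 op) h.d23
    (g.dj h.s2 op) (g.dj h.s3 op) h.t12 h.t13 p1.tch h.t23 p2.tch p3.tch (out h.s2 h.s3 q1)
    (out h.s1 h.s3 q2) (out h.s1 h.s2 q3)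
    ⟨p, hp, g.nm h.s1 hp, g.nm h.s2 hp, g.nm h.s3 hp, Or.inl rfl⟩

theorem Tri.two (h : Tri G T A1 A2 A3) (g : Geo G O T) {x y : V} (hx : x ∈ O) (hy : y ∈ O)
    (hxy : x ≠ y) (x1 : Sv G A1 x) (y1 : Sv G A1 y) (x2 : Sv G A2 x) (y2 : Sv G A2 y)
    (h3 : Sv2 G O A3) : False := by
  by_cases hz : ∃ z ∈ O, z ≠ x ∧ z ≠ y ∧ Sv G A3 z
  · obtain ⟨z, hz, zx, zy, e⟩ := hz
    exact g.k33a h.s1 h.s2 h.s3 h.c1 h.c2 h.c3 h.d12 h.d13 h.d23 h.t13 h.t23
      (S1 := {x}) (S2 := {y}) (by simpa using hx) (by simpa using hy) (conn_single _)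
      (conn_single _) (by simpa using hxy) x1.tch y1.tch x2.tch y2.tch hz zx zy e
  · obtain ⟨a, ha, hay, e⟩ := h3.other y
    have hax : a = x := by
      by_contra h'
      exact hz ⟨a, ha, h', hay, e⟩
    exact h.one g hx x1 x2 (hax ▸ e) ⟨y, hy, hxy.symm, y1⟩ ⟨y, hy, hxy.symm, y2⟩ (h3.other x)

theorem Lf.tri (h : Lf G T K r) (hT : Conn G (T : Set V)) (h2 : 2 ≤ K.card) :
    ∃ v1 ∈ K, ∃ v2 ∈ K, ∃ A2 : Set V, v2 ∈ A2 ∧ Tri G T {v1} A2 ((T \ K : Finset V) : Set V) := by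
  obtain ⟨v1, h1, e⟩ := h.adj hT
  obtain ⟨v2, hv2, hne⟩ := exists_mem_ne h2 v1
  have hS : v2 ∈ ((K.erase v1 : Finset V) : Set V) := by simp [hv2, hne]
  have hsub : cmp G ((K.erase v1 : Finset V) : Set V) v2 ⊆ K := fun a ha =>
    mem_of_mem_erase (mem_coe.1 ha.1)
  have h1A : v1 ∉ cmp G ((K.erase v1 : Finset V) : Set V) v2 := fun h' => by simpa using h'.1
  have hr1 : r ≠ v1 := e.ne'
  refine ⟨v1, h1, v2, hv2, cmp G (K.erase v1 : Finset V) v2, ⟨hS, Rch.refl _⟩,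
    by simpa using h.sub h1, hsub.trans (coe_subset.2 h.sub), coe_subset.2 sdiff_subset,
    conn_single _, conn_cmp _ _, h.conn_rest hT, by simpa using h1A, by simp [h1], ?_, ?_,
    ⟨v1, rfl, r, mem_coe.2 h.root_mem, e⟩, ?_⟩
  · exact Set.disjoint_left.2 fun a ha ha' => (mem_sdiff.1 (mem_coe.1 ha')).2 (hsub ha)
  · rcases rch_exit (A := cmp G ((K.erase v1 : Finset V) : Set V) v2) (h.conn v2 hv2 v1 h1)
      ⟨hS, Rch.refl _⟩ with ⟨k1, -⟩ | ⟨x, hx, y, hy, hyA, e', -, -⟩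
    · exact absurd k1 h1A
    · refine ⟨y, ?_, x, hx, e'.symm⟩
      by_contra hy1
      exact hyA (cmp_step hx (mem_coe.2 (mem_erase.2 ⟨hy1, hy⟩)) e')
  · rcases rch_exit (A := cmp G ((K.erase v1 : Finset V) : Set V) v2)
      (h.nc v1 (mem_insert_of_mem h1) v2 (by simp [hv2, hne]) r (by simp [hr1]))
      ⟨hS, Rch.refl _⟩ with ⟨k1, -⟩ | ⟨x, hx, y, hy, hyA, e', -, -⟩
    · exact absurd (hsub k1) h.rK
    · have hy' := mem_erase.1 (mem_coe.1 hy)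
      rcases mem_insert.1 hy'.2 with rfl | hyK
      · exact ⟨x, hx, y, mem_coe.2 h.root_mem, e'⟩
      · exact absurd (cmp_step hx (mem_coe.2 (mem_erase.2 ⟨hy'.1, hyK⟩)) e') hyA

theorem Lf.big (h : Lf G T K r) (hT : Conn G (T : Set V)) (g : Geo G O T) (h3 : 3 ≤ K.card)
    (hc : ∀ a ∈ insert r K, ∀ b ∈ insert r K, a ≠ b → G.Adj a b)
    (hs : ∀ v ∈ K, ∃ x ∈ O, G.Adj v x) (hr : ∃ x ∈ O, Sv G ((T \ K : Finset V) : Set V) x) :
    False := by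
  obtain ⟨a, b, c, ha, hb, hc', hab, hac, hbc⟩ := two_lt_card_iff.1 h3
  have sub : ∀ v ∈ K, ({v} : Set V) ⊆ T := fun v hv => by simpa using h.sub hv
  have s4 : ((T \ K : Finset V) : Set V) ⊆ T := coe_subset.2 sdiff_subset
  have tt : ∀ v ∈ K, ∀ w ∈ K, v ≠ w → Tch G {v} {w} := fun v hv w hw e =>
    (sv_single (hc v (mem_insert_of_mem hv) w (mem_insert_of_mem hw) e)).tch
  have t4 : ∀ v ∈ K, Tch G {v} ((T \ K : Finset V) : Set V) := fun v hv =>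
    (sv_single (hc v (mem_insert_of_mem hv) r (mem_insert_self _ _)
      fun e => h.rK (e ▸ hv))).tch' (mem_coe.2 h.root_mem)
  have out : ∀ {A B D E : Set V}, B ⊆ T → D ⊆ T → E ⊆ T → (∃ y ∈ O, Sv G A y) →
      Out G O A B D E := fun hB hD hE ⟨y, hy, e⟩ =>
    ⟨y, hy, g.nm hB hy, g.nm hD hy, g.nm hE hy, Or.inr e⟩
  have hs' : ∀ v ∈ K, ∃ y ∈ O, Sv G {v} y := fun v hv => by
    obtain ⟨x, hx, e⟩ := hs v hv
    exact ⟨x, hx, sv_single e⟩
  exact g.k5 {a} {b} {c} ((T \ K : Finset V) : Set V) (conn_single _) (conn_single _)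
    (conn_single _) (h.conn_rest hT) (by simpa using hab) (by simpa using hac) (by simp [ha])
    (by simpa using hbc) (by simp [hb]) (by simp [hc']) (tt a ha b hb hab) (tt a ha c hc' hac)
    (t4 a ha) (tt b hb c hc' hbc) (t4 b hb) (t4 c hc')
    (out (sub b hb) (sub c hc') s4 (hs' a ha)) (out (sub a ha) (sub c hc') s4 (hs' b hb))
    (out (sub a ha) (sub b hb) s4 (hs' c hc')) (out (sub a ha) (sub b hb) (sub c hc') hr)

theorem Ind.k33 (h : Ind G T K1 r1 K2 r2) (hT : Conn G (T : Set V)) (g : Geo G O T)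
    {S1 S2 : Set V} {m : V} (o1 : S1 ⊆ O) (o2 : S2 ⊆ O) (k1 : Conn G S1) (k2 : Conn G S2)
    (d : Disjoint S1 S2) (t11 : Tch G K1 S1) (t12 : Tch G K1 S2) (t21 : Tch G K2 S1)
    (t22 : Tch G K2 S2) (hm : m ∈ O) (m1 : m ∉ S1) (m2 : m ∉ S2)
    (hs : ∃ t ∈ T, t ∉ K1 ∧ t ∉ K2 ∧ G.Adj t m) : False := by
  obtain ⟨a, ha, e1⟩ := h.f1.adj hT
  obtain ⟨b, hb, e2⟩ := h.f2.adj hT
  obtain ⟨t, t1, t2, t3, e⟩ := hs
  refine g.k33a (A3 := (((T \ K1) \ K2 : Finset V) : Set V)) (coe_subset.2 h.f1.sub)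
    (coe_subset.2 h.f2.sub) (coe_subset.2 (sdiff_subset.trans sdiff_subset)) h.c1 h.c2
    (h.conn_rest hT) (Set.disjoint_left.2 h.dj) ?_ ?_
    ⟨a, ha, r1, by simp [h.f1.rT, h.f1.rK, h.r1K], e1⟩
    ⟨b, hb, r2, by simp [h.f2.rT, h.f2.rK, h.r2K], e2⟩ o1 o2 k1 k2 d t11 t12 t21 t22 hm m1 m2
    ⟨t, by simp [t1, t2, t3], e⟩
  · exact Set.disjoint_left.2 fun x hx hx' =>
      (mem_sdiff.1 (mem_sdiff.1 (mem_coe.1 hx')).1).2 hx
  · exact Set.disjoint_left.2 fun x hx hx' => (mem_sdiff.1 (mem_coe.1 hx')).2 hx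

/-- Both flaps see `x` and `y`, the rest sees a third boundary vertex. -/
theorem Ind.k33' (h : Ind G T K1 r1 K2 r2) (hT : Conn G (T : Set V)) (g : Geo G O T)
    {x y m : V} (hx : x ∈ O) (hy : y ∈ O) (hxy : x ≠ y) (t11 : Sv G K1 x) (t12 : Sv G K1 y)
    (t21 : Sv G K2 x) (t22 : Sv G K2 y) (hm : m ∈ O) (m1 : m ≠ x) (m2 : m ≠ y)
    (hs : ∃ t ∈ T, t ∉ K1 ∧ t ∉ K2 ∧ G.Adj t m) : False :=
  h.k33 hT g (S1 := {x}) (S2 := {y}) (by simpa using hx) (by simpa using hy) (conn_single _)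
    (conn_single _) (by simpa using hxy) t11.tch t12.tch t21.tch t22.tch hm m1 m2 hs

/-! ### Tips -/

/-- A leaf with an independent companion, or all of `T` if there is no cut vertex. -/
def Tip (G : SimpleGraph V) (T K : Finset V) : Prop :=
  (∃ r K2 r2, Two G T K r K2 r2) ∨ (NoCut G T ∧ K = T)

theorem Two.tip (h : Two G T K1 r1 K2 r2) : Tip G T K1 := Or.inl ⟨_, _, _, h⟩

theorem NoCut.tip (h : NoCut G T) : Tip G T T := Or.inr ⟨h, rfl⟩

theorem Tip.sub (h : Tip G T K) : K ⊆ T := by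
  rcases h with ⟨r, K2, r2, h⟩ | ⟨-, rfl⟩
  · exact h.f1.sub
  · exact Subset.rfl

theorem Tip.tri (h : Tip G T K) (hT : Conn G (T : Set V)) {v : V} (hv : v ∈ K)
    (hd : 2 ≤ dg G T v) : ∃ v1 ∈ K, ∃ v2 ∈ K, ∃ A2 A3 : Set V, v2 ∈ A2 ∧ Tri G T {v1} A2 A3 ∧
      ∀ Q : Set V → Prop, (∀ v ∈ K, Q {v}) →
        (∀ r K2 r2, Two G T K r K2 r2 → Q ((T \ K : Finset V) : Set V)) → Q A3 := by
  rcases h with ⟨r, K2, r2, h⟩ | ⟨hn, rfl⟩
  · obtain ⟨v1, h1, v2, h2, A2, h3, h4⟩ := h.l1.tri hT (hd.trans (h.f1.card_ge hv))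
    exact ⟨v1, h1, v2, h2, A2, _, h3, h4, fun Q _ hQ => hQ _ _ _ h⟩
  · obtain ⟨r, hr⟩ := card_pos.1 (show 0 < (nb G K v).card by unfold dg at hd; omega)
    obtain ⟨hrK, e⟩ := mem_nb.1 hr
    have hv' : v ∈ K.erase r := mem_erase.2 ⟨e.ne, hv⟩
    have hl := hn.lf hrK ⟨v, hv'⟩
    obtain ⟨v1, h1, v2, h2, A2, h3, h4⟩ := hl.tri hT (hd.trans (hl.card_ge hv'))
    refine ⟨v1, mem_of_mem_erase h1, v2, mem_of_mem_erase h2, A2, _, h3, h4, fun Q hQ _ => ?_⟩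
    rw [sdiff_erase_self hrK, coe_singleton]
    exact hQ r hrK

variable [Nonempty C] {N : V → Finset V} {L : V → Finset C} {φ : V → C} {Py : Set V} {n : ℕ}

theorem Tip.same (h : Tip G T K) {v w : V} (hv : v ∈ K) (hw : w ∈ K) : Same C G T v w := by
  intro L hb
  rcases h with ⟨r, K2, r2, h⟩ | ⟨hn, rfl⟩
  · exact hb.eq_of_lf h.l1 hv hw
  · exact hb.eq_of_noCut hn hv hw

theorem Tip.dg_eq (h : Tip G T K) (hb : BP G T L) {v w : V} (hv : v ∈ K) (hw : w ∈ K) :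
    dg G T v = dg G T w := by
  rw [← hb.card (h.sub hv), ← hb.card (h.sub hw), h.same hv hw L hb]

theorem Tip.small (h : Tip G T K) (hb : BP G T L) (g : Geo G O T)
    (hs : ∀ v ∈ K, ∃ x ∈ O, G.Adj v x)
    (hr : ∀ r K2 r2, Two G T K r K2 r2 → ∃ x ∈ O, Sv G K2 x) {v : V} (hv : v ∈ K) :
    dg G T v ≤ 2 := by
  by_contra hd
  rcases h with ⟨r, K2, r2, h⟩ | ⟨hn, rfl⟩
  · rcases hb.brooks_lf h.l1 with h' | h'
    · exact hd (h' v hv)
    · obtain ⟨x, hx, e⟩ := hr _ _ _ h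
      exact h.l1.big hb.conn g (by have := h.f1.card_ge hv; omega) h' hs
        ⟨x, hx, e.mono (coe_subset.2 h.sub_rest)⟩
  · rcases hb.brooks hn with h' | h'
    · exact hd (h' v hv)
    · obtain ⟨r, hr⟩ := card_pos.1 (show 0 < (nb G K v).card by unfold dg at hd; omega)
      obtain ⟨hrK, e⟩ := mem_nb.1 hr
      have hv' : v ∈ K.erase r := mem_erase.2 ⟨e.ne, hv⟩
      have hl := hn.lf hrK ⟨v, hv'⟩
      refine hl.big hb.conn g (by have := hl.card_ge hv'; omega) (by rwa [insert_erase hrK])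
        (fun w hw => hs w (mem_of_mem_erase hw)) ?_
      obtain ⟨x, hx, e⟩ := hs r hrK
      exact ⟨x, hx, r, by simp [hrK], e⟩

theorem See2.one (h : See2 G O T) (r : V) (K2 : Finset V) (r2 : V) (h2 : Two G T K r K2 r2) :
    ∃ x ∈ O, Sv G K2 x := by
  obtain ⟨x, hx, -, -, -, e, -⟩ := h _ _ h2.f2
  exact ⟨x, hx, e⟩

theorem See2.rest (h : See2 G O T) (r : V) (K2 : Finset V) (r2 : V) (h2 : Two G T K r K2 r2) :
    Sv2 G O ((T \ K : Finset V) : Set V) := (h _ _ h2.f2).mono (coe_subset.2 h2.sub_rest)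

theorem Nok.sees (h : Nok G O T N) (hK : K ⊆ T) (hs : ∀ v ∈ K, (N v).Nonempty) :
    ∀ v ∈ K, ∃ x ∈ O, G.Adj v x := fun v hv => by
  obtain ⟨x, hx⟩ := hs v hv
  exact ⟨x, h v (hK hv) x hx⟩

/-- Either some vertex of the tip sees nothing, or the tip has degree at most two. -/
theorem Tip.pay (h : Tip G T K) (hc : Cx G T N L) (g : Geo G O T) (hN : Nok G O T N)
    (hr : ∀ r K2 r2, Two G T K r K2 r2 → ∃ x ∈ O, Sv G K2 x) {v : V} (hv : v ∈ K)
    (hW : ∃ x ∈ N v, x ∈ Py) (U : Finset V) (hU : ∀ x ∈ N v, x ∉ Py → x ∈ U)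
    (hn : U.card + 1 ≤ n)
    (H : (∃ φ, Bd G T N L φ) → (∀ w ∈ K, (N w).Nonempty) → (∀ w ∈ K, dg G T w ≤ 2) →
      Pays (Bd G T N L) Py n) : Pays (Bd G T N L) Py n := by
  by_cases hb : ∃ φ, Bd G T N L φ
  swap
  · exact pays_of_not fun φ hφ => hb ⟨φ, hφ⟩
  by_cases h1 : ∀ w ∈ K, (N w).Nonempty
  · obtain ⟨φ, hφ⟩ := hb
    exact H ⟨φ, hφ⟩ h1 fun w hw => h.small (hc.bp hφ) g (hN.sees h.sub h1) hr hw
  · push Not at h1
    obtain ⟨w, hw, h0⟩ := h1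
    obtain ⟨x, hx, hx'⟩ := hW
    exact hc.diff (h.sub hv) (h.sub hw) (h.same hv hw) (by simp [h0]) U
      ⟨x, hx, by simp [h0], hx'⟩ (fun y hy _ => hU y hy) hn

theorem sees_of_flaps (hN : Nok G O T N) (hK : ∀ K r, Flap G T K r → ∃ t ∈ K, (N t).Nonempty)
    (r : V) (K2 : Finset V) (r2 : V) (h2 : Two G T K r K2 r2) : ∃ x ∈ O, Sv G K2 x := by
  obtain ⟨t, ht, x, hx⟩ := hK _ _ h2.f2
  exact ⟨x, (hN t (h2.f2.sub ht) x hx).1, t, ht, (hN t (h2.f2.sub ht) x hx).2⟩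

theorem weak_core (h : Cx G T N L) (g : Geo G O T) (hN : Nok G O T N)
    (hP : ∀ t ∈ T, ∀ x ∈ N t, x ∈ Py) (hx : ∃ t ∈ T, (N t).Nonempty) :
    Pays (Bd G T N L) Py 3 := by
  refine peel_ind (fun T => (∃ t ∈ T, (N t).Nonempty) ∧ (∀ t ∈ T, ∀ x ∈ N t, x ∈ Py) ∧
    Geo G O T ∧ Nok G O T N) ?_ ?_ T L h ⟨hx, hP, g, hN⟩
  · rintro T K r - ⟨⟨t, ht, hne⟩, hP, g, hN⟩ - hK
    exact ⟨⟨t, mem_sdiff.2 ⟨ht, fun h' => by simp [hK t h'] at hne⟩, hne⟩,
      fun t ht => hP t (mem_sdiff.1 ht).1, g.mono sdiff_subset,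
      fun t ht => hN t (mem_sdiff.1 ht).1⟩
  · rintro T L h ⟨hx, hP, g, hN⟩ hK
    have : ∃ K, Tip G T K ∧ ∃ v ∈ K, (N v).Nonempty := by
      by_cases hn : NoCut G T
      · exact ⟨T, hn.tip, hx⟩
      · obtain ⟨K1, r1, K2, r2, h2⟩ := exists_two h.conn hn
        exact ⟨K1, h2.tip, hK _ _ h2.f1⟩
    obtain ⟨K, ht, v, hv, x, hx⟩ := this
    have hv' := ht.sub hv
    refine ht.pay h g hN (sees_of_flaps hN hK) hv ⟨x, hx, hP v hv' x hx⟩ ∅
      (fun y hy hy' => absurd (hP v hv' y hy) hy') (by simp) fun _ _ hd => ?_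
    exact h.handle hv' ∅ ⟨x, hx, hP v hv' x hx⟩ (fun y hy hy' => absurd (hP v hv' y hy) hy')
      (by have := hd v hv; simp; omega)

theorem Flap.lift {K0 : Finset V} {r0 : V} (h0 : Flap G T K0 r0) (hT : Conn G (T : Set V))
    (h : Flap G (T \ K0) K r) (hc : Conn G (K : Set V)) :
    Flap G T (if r0 ∈ K then K ∪ K0 else K) r ∧
      Conn G ((if r0 ∈ K then K ∪ K0 else K : Finset V) : Set V) := by
  have hr := mem_sdiff.1 h.rT
  have key : ∀ a ∈ K, ∀ b ∈ T, G.Adj a b → b ∈ K ∨ b = r ∨ (b ∈ K0 ∧ r0 ∈ K) := by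
    intro a ha b hb e
    by_cases hb0 : b ∈ K0
    · have ha' := mem_sdiff.1 (h.sub ha)
      exact Or.inr (Or.inr ⟨hb0, ((h0.cl b hb0 a ha'.1 e.symm).resolve_left ha'.2) ▸ ha⟩)
    · rcases h.cl a ha b (mem_sdiff.2 ⟨hb, hb0⟩) e with h' | h'
      · exact Or.inl h'
      · exact Or.inr (Or.inl h')
  split_ifs with hr0
  · refine ⟨⟨h.ne.mono subset_union_left, union_subset (h.sub.trans sdiff_subset) h0.sub, hr.1,
      fun h' => (mem_union.1 h').elim h.rK hr.2, fun a ha b hb e => ?_⟩, ?_⟩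
    · rcases mem_union.1 ha with ha | ha
      · rcases key a ha b hb e with h' | h' | h'
        · exact Or.inl (mem_union_left _ h')
        · exact Or.inr h'
        · exact Or.inl (mem_union_right _ h'.1)
      · rcases h0.cl a ha b hb e with h' | h'
        · exact Or.inl (mem_union_right _ h')
        · exact Or.inl (mem_union_left _ (h' ▸ hr0))
    · have := conn_union hc (h0.conn_ins hT) (r := r0) hr0 (by simp)
      convert this using 1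
      ext a
      simp only [coe_union, coe_insert, Set.mem_union, mem_coe, Set.mem_insert_iff]
      constructor
      · tauto
      · rintro (h' | rfl | h')
        · exact Or.inl h'
        · exact Or.inl hr0
        · exact Or.inr h'
  · refine ⟨⟨h.ne, h.sub.trans sdiff_subset, hr.1, h.rK, fun a ha b hb e => ?_⟩, hc⟩
    rcases key a ha b hb e with h' | h' | h'
    · exact Or.inl h'
    · exact Or.inr h'
    · exact absurd h'.2 hr0

theorem Ind.lift {K0 : Finset V} {r0 : V} (h0 : Flap G T K0 r0) (hT : Conn G (T : Set V))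
    (h : Ind G (T \ K0) K1 r1 K2 r2) : ∃ K1' K2', Ind G T K1' r1 K2' r2 ∧ K1 ⊆ K1' ∧ K2 ⊆ K2' ∧
      K1' ⊆ K1 ∪ K0 ∧ K2' ⊆ K2 ∪ K0 := by
  have up : ∀ K : Finset V, K ⊆ (if r0 ∈ K then K ∪ K0 else K) := fun K => by
    split_ifs
    · exact subset_union_left
    · exact Subset.rfl
  have dn : ∀ (K : Finset V), ∀ a ∈ (if r0 ∈ K then K ∪ K0 else K), a ∈ K ∨ (a ∈ K0 ∧ r0 ∈ K) :=
    fun K a ha => by
    split_ifs at ha with h'
    · exact (mem_union.1 ha).imp id fun h'' => ⟨h'', h'⟩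
    · exact Or.inl ha
  obtain ⟨a1, b1⟩ := h0.lift hT h.f1 h.c1
  obtain ⟨a2, b2⟩ := h0.lift hT h.f2 h.c2
  refine ⟨_, _, ⟨a1, a2, b1, b2, fun a ha ha' => ?_, fun h' => ?_, fun h' => ?_⟩, up _, up _,
    fun a ha => mem_union.2 ((dn _ a ha).imp id And.left),
    fun a ha => mem_union.2 ((dn _ a ha).imp id And.left)⟩
  · rcases dn _ a ha with k1 | k1 <;> rcases dn _ a ha' with k2 | k2
    · exact h.dj a k1 k2
    · exact (mem_sdiff.1 (h.f1.sub k1)).2 k2.1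
    · exact (mem_sdiff.1 (h.f2.sub k2)).2 k1.1
    · exact h.dj r0 k1.2 k2.2
  · rcases dn _ _ h' with k | k
    · exact h.r1K k
    · exact (mem_sdiff.1 h.f1.rT).2 k.1
  · rcases dn _ _ h' with k | k
    · exact h.r2K k
    · exact (mem_sdiff.1 h.f2.rT).2 k.1

theorem sl_core (h : Cx G T N L) (g : Geo G O T) (hN : Nok G O T N) {w : V}
    (hP : ∀ t ∈ T, ∀ x ∈ N t, x ∉ Py → x = w) (hx : ∃ t ∈ T, ∃ x ∈ N t, x ∈ Py)
    (hI : ∀ K1 r1 K2 r2, Ind G T K1 r1 K2 r2 → (∃ t ∈ K1, w ∈ N t) → (∃ t ∈ K2, w ∈ N t) →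
      ∃ t, (t ∈ K1 ∨ t ∈ K2) ∧ ∃ x ∈ N t, x ∈ Py) : Pays (Bd G T N L) Py 4 := by
  refine peel_ind (fun T => (∃ t ∈ T, ∃ x ∈ N t, x ∈ Py) ∧ (∀ t ∈ T, ∀ x ∈ N t, x ∉ Py → x = w) ∧
    Geo G O T ∧ Nok G O T N ∧ ∀ K1 r1 K2 r2, Ind G T K1 r1 K2 r2 → (∃ t ∈ K1, w ∈ N t) →
      (∃ t ∈ K2, w ∈ N t) → ∃ t, (t ∈ K1 ∨ t ∈ K2) ∧ ∃ x ∈ N t, x ∈ Py) ?_ ?_ T L h
      ⟨hx, hP, g, hN, hI⟩
  · rintro T K r hT ⟨⟨t, ht, x, hx, hx'⟩, hP, g, hN, hI⟩ hf hK
    refine ⟨⟨t, mem_sdiff.2 ⟨ht, fun h' => by simp [hK t h'] at hx⟩, x, hx, hx'⟩,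
      fun t ht => hP t (mem_sdiff.1 ht).1, g.mono sdiff_subset,
      fun t ht => hN t (mem_sdiff.1 ht).1, ?_⟩
    rintro K1 r1 K2 r2 hi ⟨a, ha, ha'⟩ ⟨b, hb, hb'⟩
    obtain ⟨K1', K2', hi', s1, s2, s3, s4⟩ := hi.lift hf hT
    obtain ⟨t, ht, y, hy, hy'⟩ := hI _ _ _ _ hi' ⟨a, s1 ha, ha'⟩ ⟨b, s2 hb, hb'⟩
    have htK : t ∉ K := fun h' => by simp [hK t h'] at hy
    exact ⟨t, ht.imp (fun h' => (mem_union.1 (s3 h')).resolve_right htK)
      (fun h' => (mem_union.1 (s4 h')).resolve_right htK), y, hy, hy'⟩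
  · rintro T L h ⟨hx, hP, g, hN, hI⟩ hK
    have : ∃ K, Tip G T K ∧ ∃ v ∈ K, ∃ x ∈ N v, x ∈ Py := by
      by_cases hn : NoCut G T
      · exact ⟨T, hn.tip, hx⟩
      · obtain ⟨K1, r1, K2, r2, h2⟩ := exists_two h.conn hn
        by_contra hc
        have k : ∀ K r K' r', Two G T K r K' r' → ∃ t ∈ K, w ∈ N t := fun K r K' r' h2 => by
          obtain ⟨t, ht, x, hx⟩ := hK _ _ h2.f1
          refine ⟨t, ht, hP t (h2.f1.sub ht) x hx (fun h' => hc ⟨K, h2.tip, t, ht, x, hx, h'⟩) ▸ hx⟩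
        obtain ⟨t, ht | ht, hx⟩ := hI _ _ _ _ h2.toInd (k _ _ _ _ h2) (k _ _ _ _ h2.symm)
        · exact hc ⟨K1, h2.tip, t, ht, hx⟩
        · exact hc ⟨K2, h2.symm.tip, t, ht, hx⟩
    obtain ⟨K, ht, v, hv, hx⟩ := this
    have hv' := ht.sub hv
    have hU : ∀ y ∈ N v, y ∉ Py → y ∈ ({w} : Finset V) := fun y hy hy' =>
      mem_singleton.2 (hP v hv' y hy hy')
    refine ht.pay h g hN (sees_of_flaps hN hK) hv hx {w} hU (by simp) fun _ _ hd => ?_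
    exact h.handle hv' {w} hx hU (by have := hd v hv; simp; omega)

theorem exists_other_three {A S : Finset C} (h : 4 ≤ A.card) :
    ∃ S' ⊆ A, S'.card = 3 ∧ S' ≠ S := by
  obtain ⟨D, hD, hc⟩ := exists_subset_card_eq h
  obtain ⟨a, ha, b, hb, hab⟩ := one_lt_card.1 (show 1 < D.card by omega)
  by_cases e : D.erase a = S
  · refine ⟨D.erase b, (erase_subset _ _).trans hD, by rw [card_erase_of_mem hb]; omega, ?_⟩
    intro e'
    have : a ∈ D.erase a := by rw [e, ← e']; exact mem_erase.2 ⟨hab, ha⟩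
    simp at this
  · exact ⟨D.erase a, (erase_subset _ _).trans hD, by rw [card_erase_of_mem ha]; omega, e⟩

/-- A tip that sees a paying vertex and at most one other vertex. -/
theorem Tip.kl (h : Tip G T K) (hc : Cx G T N L) (g : Geo G O T) (hN : Nok G O T N)
    (h2 : See2 G O T) (hW : ∃ v ∈ K, ∃ x ∈ N v, x ∈ Py) {w : V}
    (hw : ∀ v ∈ K, ∀ x ∈ N v, x ∉ Py → x = w) : Pays (Bd G T N L) Py 3 := by
  classical
  obtain ⟨v, hv, hW⟩ := hW
  have hU : ∀ y ∈ N v, y ∉ Py → y ∈ ({w} : Finset V) := fun y hy hy' =>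
    mem_singleton.2 (hw v hv y hy hy')
  refine h.pay hc g hN h2.one hv hW {w} hU (by simp) fun ⟨φ0, hb⟩ hne hd => ?_
  by_cases d1 : dg G T v ≤ 1
  · exact hc.handle (h.sub hv) {w} hW hU (by simp; omega)
  have d2 : ∀ t ∈ K, dg G T t = 2 := fun t ht => by
    have := h.dg_eq (hc.bp hb) hv ht
    have := hd t ht
    omega
  by_cases k1 : ∃ t ∈ K, ∀ x ∈ N t, x ∈ Py
  · obtain ⟨t, ht, k1⟩ := k1
    obtain ⟨x, hx⟩ := hne t ht
    exact hc.handle (h.sub ht) ∅ ⟨x, hx, k1 x hx⟩ (fun y hy hy' => absurd (k1 y hy) hy')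
      (by simp [d2 t ht])
  push Not at k1
  have k2 : ∀ t ∈ K, w ∈ N t ∧ w ∉ Py := fun t ht => by
    obtain ⟨x, hx, hx'⟩ := k1 t ht
    exact hw t ht x hx hx' ▸ ⟨hx, hx'⟩
  by_cases k3 : ∃ t ∈ K, ∀ x ∈ N t, x ∉ Py
  · obtain ⟨t, ht, k3⟩ := k3
    obtain ⟨x, hx, hx'⟩ := hW
    exact hc.diff (h.sub hv) (h.sub ht) (h.same hv ht)
      (fun y hy => hw t ht y hy (k3 y hy) ▸ (k2 v hv).1) ∅ ⟨x, hx, fun h' => k3 x h' hx', hx'⟩
      (fun y hy hy' hy'' => absurd (hw v hv y hy hy'' ▸ (k2 t ht).1) hy') (by simp)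
  push Not at k3
  have wO : w ∈ O := (hN v (h.sub hv) w (k2 v hv).1).1
  have wA : ∀ t ∈ K, G.Adj t w := fun t ht => (hN t (h.sub ht) w (k2 t ht).1).2
  obtain ⟨v1, h1, v2, h2', A2, A3, hA, tri, hQ⟩ := h.tri hc.conn hv (by omega)
  have s3 : Sv2 G O A3 := hQ (Sv2 G O) (fun t ht => by
    obtain ⟨x, hx, hx'⟩ := k3 t ht
    have := hN t (h.sub ht) x hx
    exact ⟨w, wO, x, this.1, fun e => (k2 t ht).2 (e ▸ hx'), sv_single (wA t ht),
      sv_single this.2⟩) h2.rest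
  have dj : ∀ y ∈ N v1, y ∈ Py → y ∉ N v2 := fun y hy hy' hy2 =>
    tri.two g wO (hN v1 (h.sub h1) y hy).1 (fun e => (k2 v hv).2 (e ▸ hy'))
      (sv_single (wA v1 h1)) (sv_single (hN v1 (h.sub h1) y hy).2) ⟨v2, hA, wA v2 h2'⟩
      ⟨v2, hA, (hN v2 (h.sub h2') y hy2).2⟩ s3
  have big : ∀ t ∈ K, 4 ≤ (L t).card := fun t ht => by
    obtain ⟨x, hx, hx'⟩ := k3 t ht
    have : 1 < (N t).card := one_lt_card.2 ⟨x, hx, w, (k2 t ht).1,
      fun e => (k2 t ht).2 (e ▸ hx')⟩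
    have := hc.deg t (h.sub ht)
    have := d2 t ht
    omega
  obtain ⟨S1, s1, c1⟩ := exists_subset_card_eq (show 3 ≤ (L v1).card by
    have := big v1 h1; omega)
  obtain ⟨S2, s2, c2, hne⟩ := exists_other_three (S := S1) (big v2 h2')
  refine ⟨fun x => if x ∈ N v1 ∧ x ∈ Py then S1 else if x ∈ N v2 ∧ x ∈ Py then S2 else ∅,
    fun x => ?_, fun x hx => ?_, fun φ hφ hb => hne ?_⟩
  · dsimp only
    split_ifs
    · omega
    · omega
    · simp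
  · dsimp only
    rw [if_neg fun h' => hx h'.2, if_neg fun h' => hx h'.2]
  have key : ∀ t ∈ K, ∀ S ⊆ L t, S.card = 3 → (∀ x ∈ N t, x ∈ Py → φ x ∉ S) →
      S = insert (φ w) (rs N L φ t) := fun t ht S hS hSc hx => by
    refine eq_of_subset_of_card_le (fun c hc' => ?_) ?_
    · by_cases e : c ∈ (N t).image φ
      · obtain ⟨x, hx', rfl⟩ := mem_image.1 e
        rw [hw t ht x hx' fun h' => hx x hx' h' hc']
        exact mem_insert_self _ _
      · exact mem_insert_of_mem (mem_sdiff.2 ⟨hS hc', e⟩)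
    · have := card_insert_le (φ w) (rs N L φ t)
      have := (hc.bp hb).card (h.sub ht)
      have := d2 t ht
      omega
  rw [key v2 h2' S2 s2 c2, key v1 h1 S1 s1 c1, h.same h1 h2' _ (hc.bp hb)]
  · intro x hx hx'
    have := hφ x
    simp only [if_pos (And.intro hx hx')] at this
    exact this
  · intro x hx hx'
    have := hφ x
    simp only [if_neg fun h' : x ∈ N v1 ∧ x ∈ Py => dj x h'.1 h'.2 hx,
      if_pos (And.intro hx hx')] at this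
    exact this

/-- A tip that sees the connected set of paying vertices and at most two other vertices. -/
theorem Tip.p4 (h : Tip G T K) (hc : Cx G T N L) (g : Geo G O T) (hN : Nok G O T N)
    (h2 : See2 G O T) (hW : ∃ v ∈ K, ∃ x ∈ N v, x ∈ Py) {u u' : V} (huu : u ≠ u')
    (hu : u ∉ Py) (hu' : u' ∉ Py) (hPO : Py ⊆ O) (hPc : Conn G Py)
    (hw : ∀ v ∈ K, ∀ x ∈ N v, x ∉ Py → x = u ∨ x = u') : Pays (Bd G T N L) Py 4 := by
  obtain ⟨v, hv, hW⟩ := hW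
  have hU : ∀ t ∈ K, ∀ y ∈ N t, y ∉ Py → y ∈ ({u, u'} : Finset V) := fun t ht y hy hy' => by
    simpa using hw t ht y hy hy'
  have c2 : ({u, u'} : Finset V).card ≤ 2 := card_le_two
  refine h.pay hc g hN h2.one hv hW {u, u'} (hU v hv) (by omega) fun ⟨φ0, hb⟩ hne hd => ?_
  by_cases d1 : dg G T v ≤ 1
  · exact hc.handle (h.sub hv) {u, u'} hW (hU v hv) (by omega)
  by_cases k1 : ∃ t ∈ K, (∃ x ∈ N t, x ∈ Py) ∧ (u ∈ N t → u' ∉ N t)
  · obtain ⟨t, ht, hx, k1⟩ := k1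
    have := hd t ht
    by_cases e : u ∈ N t
    · exact hc.handle (h.sub ht) {u} hx (fun y hy hy' => mem_singleton.2
        ((hw t ht y hy hy').resolve_right fun e' => k1 e (e' ▸ hy))) (by simp; omega)
    · exact hc.handle (h.sub ht) {u'} hx (fun y hy hy' => mem_singleton.2
        ((hw t ht y hy hy').resolve_left fun e' => e (e' ▸ hy))) (by simp; omega)
  push Not at k1
  by_cases k3 : ∃ t ∈ K, ∀ x ∈ N t, x ∉ Py
  · obtain ⟨t, ht, k3⟩ := k3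
    have k4 := k1 v hv hW
    obtain ⟨x, hx, hx'⟩ := hW
    refine hc.diff (h.sub hv) (h.sub ht) (h.same hv ht) (fun y hy => ?_) {u, u'}
      ⟨x, hx, fun h' => k3 x h' hx', hx'⟩ (fun y hy _ => hU v hv y hy) (by omega)
    rcases hw t ht y hy (k3 y hy) with rfl | rfl
    · exact k4.1
    · exact k4.2
  push Not at k3
  obtain ⟨v1, h1, v2, h2', A2, A3, hA, tri, -⟩ := h.tri hc.conn hv (by omega)
  have a1 := k1 v1 h1 (k3 v1 h1)
  have a2 := k1 v2 h2' (k3 v2 h2')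
  have b : ∀ t ∈ K, ∃ x ∈ Py, G.Adj t x := fun t ht => by
    obtain ⟨x, hx, hx'⟩ := k3 t ht
    exact ⟨x, hx', (hN t (h.sub ht) x hx).2⟩
  exact (g.k33b (h.sub h1) (h.sub h2') (fun e => Set.disjoint_left.1 tri.d12 rfl (e ▸ hA))
    (hN v1 (h.sub h1) u a1.1).1 (hN v1 (h.sub h1) u' a1.2).1 huu hPO hPc hu hu'
    (hN v1 (h.sub h1) u a1.1).2 (hN v1 (h.sub h1) u' a1.2).2 (b v1 h1)
    (hN v2 (h.sub h2') u a2.1).2 (hN v2 (h.sub h2') u' a2.2).2 (b v2 h2')).elim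

theorem Nok.known (h : Nok G O T N) (S : Set V) : Nok G O T (kN N S) :=
  fun t ht x hx => h t ht x (mem_kN.1 hx).1

theorem Pays.known {S : Set V} {ψ : V → C} (h : Pays (Bd G T (kN N S) (kL N L S ψ)) Py n) :
    Pays (fun φ => Bd G T N L φ ∧ ∀ v ∈ S, φ v = ψ v) Py n :=
  h.mono fun _ hφ => hφ.1.known hφ.2

theorem Pays.known1 {p : V} {c : C}
    (h : Pays (Bd G T (kN N {p}) (kL N L {p} fun _ => c)) Py n) :
    Pays (fun φ => Bd G T N L φ ∧ φ p = c) Py n :=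
  h.mono fun _ hφ => hφ.1.known fun _ hv => hv ▸ hφ.2

/-- A tip that sees exactly `p` and `u`. -/
theorem Tip.pu (h : Tip G T K) (hc : Cx G T N L) (g : Geo G O T) (hN : Nok G O T N)
    (h2 : See2 G O T) {p u : V} (hpu : p ≠ u) (hp : ∃ v ∈ K, p ∈ N v) (hu : ∃ v ∈ K, u ∈ N v)
    (hw : ∀ v ∈ K, ∀ x ∈ N v, x = p ∨ x = u) :
    (∃ c, ∀ φ, Bd G T N L φ → φ p = c) ∨
      ∀ c, Pays (fun φ => Bd G T N L φ ∧ φ p = c) {u} 2 := by
  by_cases hb : ∃ φ, Bd G T N L φ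
  swap
  · exact Or.inr fun c => pays_of_not fun φ hφ => hb ⟨φ, hφ.1⟩
  obtain ⟨φ0, hb⟩ := hb
  obtain ⟨v, hv, hu⟩ := hu
  have hW : ∃ x ∈ kN N {p} v, x ∈ ({u} : Set V) := ⟨u, mem_kN.2 ⟨hu, hpu.symm⟩, rfl⟩
  have hU : ∀ t ∈ K, ∀ x ∈ kN N {p} t, x = u := fun t ht x hx =>
    (hw t ht x (mem_kN.1 hx).1).resolve_left (mem_kN.1 hx).2
  by_cases k1 : ∃ t ∈ K, u ∉ N t
  · obtain ⟨t, ht, k1⟩ := k1
    have k2 : ∀ x, x ∉ kN N {p} t := fun x hx => k1 (hU t ht x hx ▸ (mem_kN.1 hx).1)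
    refine Or.inr fun c => Pays.known1 ((hc.known _ _).diff (h.sub hv) (h.sub ht) (h.same hv ht)
      (fun x hx => absurd hx (k2 x)) ∅ ⟨u, mem_kN.2 ⟨hu, hpu.symm⟩, k2 u, rfl⟩
      (fun x hx _ hx' => absurd (hU v hv x hx) hx') (by simp))
  push Not at k1
  by_cases d1 : dg G T v ≤ 1
  · exact Or.inr fun c => Pays.known1 ((hc.known _ _).handle (h.sub hv) ∅ hW
      (fun x hx hx' => absurd (hU v hv x hx) hx') (by simp; omega))
  by_cases k2 : ∃ t ∈ K, p ∉ N t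
  · obtain ⟨t, ht, k2⟩ := k2
    obtain ⟨s, hs, hp⟩ := hp
    exact Or.inl (hc.diff_fix (h.sub hs) (h.sub ht) (h.same hs ht)
      (fun x hx => (hw t ht x hx).resolve_left (fun e => k2 (e ▸ hx)) ▸ k1 s hs) hp k2
      fun y hy hy' => (hw s hs y hy).resolve_right fun e => hy' (e ▸ k1 t ht))
  push Not at k2
  obtain ⟨v1, h1, v2, h2', A2, A3, hA, tri, hQ⟩ := h.tri hc.conn hv (by omega)
  have pO := (hN v (h.sub hv) p (k2 v hv)).1
  have uO := (hN v (h.sub hv) u hu).1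
  have pA : ∀ t ∈ K, G.Adj t p := fun t ht => (hN t (h.sub ht) p (k2 t ht)).2
  have uA : ∀ t ∈ K, G.Adj t u := fun t ht => (hN t (h.sub ht) u (k1 t ht)).2
  exact (tri.two g pO uO hpu (sv_single (pA v1 h1)) (sv_single (uA v1 h1)) ⟨v2, hA, pA v2 h2'⟩
    ⟨v2, hA, uA v2 h2'⟩ (hQ (Sv2 G O) (fun t ht =>
      ⟨p, pO, u, uO, hpu, sv_single (pA t ht), sv_single (uA t ht)⟩) h2.rest)).elim

end Pool.Agent.Lib.MP_0fc16c_co.GC
end

-- part Pool.Agent.Lib.MP_0fc16c_co.Gallai4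
section

/-! Linear functionals vanishing on bad pairs, neutral boundary vertices. -/

set_option autoImplicit false
set_option linter.unusedSectionVars false

open Finset

namespace Pool.Agent.Lib.MP_0fc16c_co.GC

variable {V : Type*} [Fintype V] [DecidableEq V] {C : Type*} [DecidableEq C]
variable {G : SimpleGraph V} [DecidableRel G.Adj]

/-- Total weight of the vertices whose set contains `e`. -/
def wt {α : Type*} [DecidableEq α] (T : Finset V) (L : V → Finset α) (lam : V → ℤ) (e : α) : ℤ :=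
  ∑ t ∈ T, if e ∈ L t then lam t else 0

/-- A weighting that vanishes on every colour of every bad pair. -/
def Fn (C : Type*) [DecidableEq C] (G : SimpleGraph V) [DecidableRel G.Adj] (T : Finset V)
    (lam : V → ℤ) : Prop := ∀ L : V → Finset C, BP G T L → ∀ e, wt T L lam e = 0

theorem wt_single {α : Type*} [DecidableEq α] {T : Finset V} {L : V → Finset α} {lam : V → ℤ}
    {e : α} {v : V} (hv : v ∈ T) (h : ∀ t ∈ T, t ≠ v → e ∈ L t → lam t = 0) :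
    wt T L lam e = if e ∈ L v then lam v else 0 :=
  sum_eq_single_of_mem v hv fun t ht htv => by
    split_ifs with h'
    · exact h t ht htv h'
    · rfl

theorem wt_pair {α : Type*} [DecidableEq α] {T : Finset V} (L : V → Finset α) (e : α) {v w : V}
    (hv : v ∈ T) (hw : w ∈ T) :
    wt T L (fun t => (if t = v then 1 else 0) - (if t = w then 1 else 0)) e =
      (if e ∈ L v then 1 else 0) - (if e ∈ L w then 1 else 0) := by
  have a1 := wt_single (L := L) (lam := fun t => if t = v then 1 else 0) (e := e) hv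
    fun t _ h _ => if_neg h
  have a2 := wt_single (L := L) (lam := fun t => if t = w then 1 else 0) (e := e) hw
    fun t _ h _ => if_neg h
  simp only [if_true] at a1 a2
  rw [← a1, ← a2]
  unfold wt
  rw [← sum_sub_distrib]
  refine sum_congr rfl fun t _ => ?_
  split_ifs <;> simp

theorem exists_of_wt {α : Type*} [DecidableEq α] {T : Finset V} {L : V → Finset α} {lam : V → ℤ}
    {e : α} (h : wt T L lam e ≠ 0) : ∃ t ∈ T, e ∈ L t := by
  obtain ⟨t, ht, h'⟩ := exists_ne_zero_of_sum_ne_zero h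
  exact ⟨t, ht, by by_contra h''; exact h' (if_neg h'')⟩

variable [Nonempty C] {O : Set V} {T K : Finset V} {r : V} {N : V → Finset V} {L : V → Finset C}
  {φ : V → C} {Py : Set V} {lam : V → ℤ}

theorem Same.fn {v w : V} (h : Same C G T v w) (hv : v ∈ T) (hw : w ∈ T) :
    Fn C G T fun t => (if t = v then 1 else 0) - (if t = w then 1 else 0) := fun L hb e => by
  rw [wt_pair L e hv hw, h L hb, sub_self]

theorem Lf.fn (h : Lf G T K r) {v : V} (hv : v ∈ K) (hf : Fn C G (T \ K) lam) :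
    Fn C G T fun t => if t = v then - lam r else if t ∈ K then 0 else lam t := by
  intro L hb e
  have h1 := hf _ (hb.rest h.toFlap) e
  have h2 := (hb.blk h.toFlap).1
  have h3 := hb.lf_blk h hv
  unfold wt at h1 ⊢
  rw [← sum_sdiff h.sub, sum_eq_single_of_mem v hv fun t ht htv => by simp [htv, ht]]
  rw [← add_sum_erase _ _ h.root_mem] at h1 ⊢
  have hrv : r ≠ v := fun e => h.rK (e ▸ hv)
  have e1 : ∑ x ∈ (T \ K).erase r, (if e ∈ L x then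
      (if x = v then - lam r else if x ∈ K then 0 else lam x) else 0) =
      ∑ x ∈ (T \ K).erase r,
        (if e ∈ Function.update L r (L r \ blk G K r L) x then lam x else 0) := by
    refine sum_congr rfl fun x hx => ?_
    obtain ⟨hxr, hx⟩ := mem_erase.1 hx
    have hxK := (mem_sdiff.1 hx).2
    have hxv : x ≠ v := fun e => hxK (e ▸ hv)
    rw [Function.update_of_ne hxr, if_neg hxv, if_neg hxK]
  rw [e1, h3]
  rw [Function.update_self] at h1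
  simp only [if_neg hrv, if_neg h.rK, if_true]
  by_cases k1 : e ∈ blk G K r L
  · rw [if_neg fun h' => (mem_sdiff.1 h').2 k1] at h1
    rw [if_pos k1, if_pos (h2 k1)]
    omega
  · rw [if_neg k1]
    by_cases k2 : e ∈ L r
    · rw [if_pos (mem_sdiff.2 ⟨k2, k1⟩)] at h1
      rw [if_pos k2]
      omega
    · rw [if_neg fun h' => k2 (mem_sdiff.1 h').1] at h1
      rw [if_neg k2]
      omega

theorem exists_fn (C : Type*) [DecidableEq C] [Nonempty C] (hT : Conn G (T : Set V))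
    (hr : r ∈ T) : ∃ lam, Fn C G T lam ∧ lam r ≠ 0 := by
  induction T using Finset.strongInduction with
  | H T ih =>
  by_cases hn : NoCut G T
  · by_cases h1 : ∃ w ∈ T, w ≠ r
    · obtain ⟨w, hw, hwr⟩ := h1
      exact ⟨_, (hn.tip.same hr hw).fn hr hw, by simp [hwr.symm]⟩
    · push Not at h1
      refine ⟨fun _ => 1, fun L hb e => ?_, by simp⟩
      rw [wt_single hr fun t ht htr => absurd (h1 t ht) htr, if_neg]
      have h2 := hb.card hr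
      have h3 := dg_lt_card (G := G) hr
      have h4 : T.card ≤ 1 := card_le_one.2 fun a ha b hb => (h1 a ha).trans (h1 b hb).symm
      rw [card_eq_zero.1 (show (L r).card = 0 by omega)]
      simp
  · have key : ∀ K1 r1, Lf G T K1 r1 → r ∉ K1 → ∃ lam, Fn C G T lam ∧ lam r ≠ 0 := by
      intro K1 r1 hl hrK
      obtain ⟨lam, h1, h2⟩ := ih _ (sdiff_ssubset hl.sub hl.ne) (hl.conn_rest hT)
        (mem_sdiff.2 ⟨hr, hrK⟩)
      obtain ⟨v, hv⟩ := hl.ne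
      have : r ≠ v := fun e => hrK (e ▸ hv)
      exact ⟨_, hl.fn hv h1, by simpa [this, hrK] using h2⟩
    obtain ⟨K1, r1, K2, r2, h2⟩ := exists_two hT hn
    by_cases h : r ∈ K1
    · exact key _ _ h2.l2 (h2.dj r h)
    · exact key _ _ h2.l1 h

theorem Cx.ident (hc : Cx G T N L) (hb : Bd G T N L φ) (hf : Fn C G T lam) (e : C) :
    wt T L lam e = ∑ x, if φ x = e then wt T N lam x else 0 := by
  have h0 := hf _ (hc.bp hb) e
  have h1 : ∀ t ∈ T, (if e ∈ L t then lam t else 0) = (if e ∈ rs N L φ t then lam t else 0) +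
      ∑ x, if φ x = e then (if x ∈ N t then lam t else 0) else 0 := by
    intro t ht
    obtain ⟨-, a2, a3⟩ := hc.tight hb ht
    by_cases k : e ∈ (N t).image φ
    · obtain ⟨x, hx, rfl⟩ := mem_image.1 k
      rw [if_pos (a3 x hx), if_neg fun h' : φ x ∈ rs N L φ t => (mem_sdiff.1 h').2 k, zero_add,
        sum_eq_single_of_mem x (mem_univ _), if_pos rfl, if_pos hx]
      intro y _ hyx
      split_ifs with h1 h2
      · exact absurd (a2 h2 hx h1) hyx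
      · rfl
      · rfl
    · rw [sum_eq_zero, add_zero]
      · exact if_congr ⟨fun h' => mem_sdiff.2 ⟨h', k⟩, fun h' => (mem_sdiff.1 h').1⟩ rfl rfl
      · intro y _
        split_ifs with h1 h2
        · exact absurd (mem_image.2 ⟨y, h2, h1⟩) k
        · rfl
        · rfl
  unfold wt at h0 ⊢
  rw [sum_congr rfl h1, sum_add_distrib, h0, zero_add, sum_comm]
  refine sum_congr rfl fun x _ => ?_
  split_ifs
  · rfl
  · simp

theorem Cx.ident1 (hc : Cx G T N L) (hb : Bd G T N L φ) (hf : Fn C G T lam) {e : C}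
    (he : wt T L lam e ≠ 0) : ∃ x, φ x = e ∧ wt T N lam x ≠ 0 := by
  rw [hc.ident hb hf] at he
  obtain ⟨x, -, h⟩ := exists_ne_zero_of_sum_ne_zero he
  split_ifs at h with h'
  · exact ⟨x, h', h⟩
  · exact absurd rfl h

theorem Cx.ident2 (hc : Cx G T N L) (hb : Bd G T N L φ) (hf : Fn C G T lam) {x : V}
    (hx : ∀ t ∈ T, ∀ y ∈ N t, y ≠ x → φ y ≠ φ x) : wt T L lam (φ x) = wt T N lam x := by
  rw [hc.ident hb hf, sum_eq_single_of_mem x (mem_univ _), if_pos rfl]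
  intro y _ hy
  split_ifs with h'
  · by_contra h''
    obtain ⟨t, ht, hy'⟩ := exists_of_wt h''
    exact hx t ht y hy' hy h'
  · rfl

/-- A boundary vertex with weight zero for all functionals. -/
def Neu (C : Type*) [DecidableEq C] (G : SimpleGraph V) [DecidableRel G.Adj] (T : Finset V)
    (N : V → Finset V) (x : V) : Prop := ∀ lam, Fn C G T lam → wt T N lam x = 0

theorem Neu.same {x v w : V} (h : Neu C G T N x) (hs : Same C G T v w) (hv : v ∈ T) (hw : w ∈ T)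
    (hx : x ∈ N v) : x ∈ N w := by
  have := h _ (hs.fn hv hw)
  rw [wt_pair N x hv hw, if_pos hx] at this
  by_contra h'
  simp [h'] at this

theorem Neu.other {x : V} (h : Neu C G T N x) (hT : Conn G (T : Set V)) (hr : r ∈ T)
    (hx : x ∈ N r) : ∃ t ∈ T, t ≠ r ∧ x ∈ N t := by
  obtain ⟨lam, h1, h2⟩ := exists_fn C hT hr
  by_contra hc
  have := h _ h1
  rw [wt_single hr fun t ht htr hx' => absurd ⟨t, ht, htr, hx'⟩ hc, if_pos hx] at this
  exact h2 this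

theorem Neu.rest {x v : V} (h : Neu C G T N x) (hT : Conn G (T : Set V)) (hl : Lf G T K r)
    (hv : v ∈ K) (hx : x ∈ N v) : ∃ t ∈ T, t ∉ K ∧ x ∈ N t := by
  obtain ⟨lam, h1, h2⟩ := exists_fn C (hl.conn_rest hT) hl.root_mem
  by_contra hc
  have := h _ (hl.fn hv h1)
  rw [wt_single (hl.sub hv) fun t ht htv hx' => by
    have : t ∈ K := by
      by_contra h'
      exact hc ⟨t, ht, h', hx'⟩
    simp [htv, this], if_pos hx] at this
  simp only [if_true] at this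
  omega

/-- The setting of a component alone in its face. -/
structure Full (G : SimpleGraph V) [DecidableRel G.Adj] (O : Set V) (T : Finset V)
    (N : V → Finset V) (L : V → Finset C) : Prop where
  cx : Cx G T N L
  geo : Geo G O T
  nok : Nok G O T N
  see : See2 G O T
  all : ∀ t ∈ T, ∀ x ∈ O, G.Adj t x → x ∈ N t
  seen : ∀ x ∈ O, ∃ t ∈ T, x ∈ N t

theorem Full.sv (h : Full G O T N L) (hK : K ⊆ T) {x : V} (hx : ∃ t ∈ K, x ∈ N t) : Sv G K x := by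
  obtain ⟨t, ht, hx⟩ := hx
  exact ⟨t, ht, (h.nok t (hK ht) x hx).2⟩

theorem Full.other (h : Full G O T N L) (hf : Flap G T K r) (p : V) :
    ∃ t ∈ K, ∃ y ∈ N t, y ≠ p := by
  obtain ⟨y, hy, hyp, t, ht, e⟩ := (h.see K r hf).other p
  exact ⟨t, ht, y, h.all t (hf.sub ht) y hy e, hyp⟩

theorem Full.rest (h : Full G O T N L) {K1 K2 : Finset V} {m : V} (hm : m ∈ O)
    (h1 : ∀ t ∈ K1, m ∉ N t) (h2 : ∀ t ∈ K2, m ∉ N t) :
    ∃ t ∈ T, t ∉ K1 ∧ t ∉ K2 ∧ G.Adj t m := by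
  obtain ⟨t, ht, hx⟩ := h.seen m hm
  exact ⟨t, ht, fun h' => h1 t h' hx, fun h' => h2 t h' hx, (h.nok t ht m hx).2⟩

theorem Full.both (h : Full G O T N L) (hf : Flap G T K r) {a b : V}
    (hab : ∀ t ∈ K, ∀ x ∈ N t, x = a ∨ x = b) : ∃ t ∈ K, a ∈ N t := by
  obtain ⟨t, ht, y, hy, hyb⟩ := h.other hf b
  exact ⟨t, ht, (hab t ht y hy).resolve_right hyb ▸ hy⟩

theorem Full.tip_neu (h : Full G O T N L) (hb : Bd G T N L φ) {p v : V} (hn : Neu C G T N p)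
    (ht : Tip G T K) (hv : v ∈ K) (hp : p ∈ N v) :
    dg G T v ≤ 1 ∨ ∃ w ∈ T, N w = {p} ∧ dg G T w ≤ 2 ∧ Same C G T v w := by
  have all : ∀ t ∈ K, p ∈ N t := fun t ht' => hn.same (ht.same hv ht') (ht.sub hv) (ht.sub ht') hp
  have pO := (h.nok v (ht.sub hv) p hp).1
  have pA : ∀ t ∈ K, G.Adj t p := fun t ht' => (h.nok t (ht.sub ht') p (all t ht')).2
  by_contra hc
  push Not at hc
  have oth : ∀ t ∈ K, ∃ y ∈ O, y ≠ p ∧ Sv G {t} y := fun t ht' => by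
    by_contra h'
    refine hc.2 t (ht.sub ht') (eq_singleton_iff_unique_mem.2 ⟨all t ht', fun y hy => ?_⟩)
      (ht.small (h.cx.bp hb) h.geo (fun s hs => ⟨p, pO, pA s hs⟩) h.see.one ht') (ht.same hv ht')
    by_contra h''
    exact h' ⟨y, (h.nok t (ht.sub ht') y hy).1, h'', sv_single (h.nok t (ht.sub ht') y hy).2⟩
  obtain ⟨v1, h1, v2, h2, A2, A3, hA, tri, hQ⟩ := ht.tri h.cx.conn hv hc.1
  have h3 := hQ (fun S => Sv G S p ∧ ∃ y ∈ O, y ≠ p ∧ Sv G S y)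
    (fun t ht' => ⟨sv_single (pA t ht'), oth t ht'⟩) fun r K2 r2 h2 => by
      obtain ⟨t, t1, t2, t3⟩ := hn.rest h.cx.conn h2.l1 hv hp
      exact ⟨⟨t, by simp [t1, t2], (h.nok t t1 p t3).2⟩, (h.see.rest r K2 r2 h2).other p⟩
  obtain ⟨y, hy, hyp, e⟩ := oth v2 h2
  exact tri.one h.geo pO (sv_single (pA v1 h1)) ⟨v2, hA, pA v2 h2⟩ h3.1 (oth v1 h1)
    ⟨y, hy, hyp, e.mono (by simpa using hA)⟩ h3.2

/-- The structure around a neutral boundary vertex. -/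
theorem Full.neu (h : Full G O T N L) (hb : Bd G T N L φ) {p u u' : V} (hn : Neu C G T N p)
    (hp : p ∈ O) (hpu : p ≠ u) (hpu' : p ≠ u') (huu : u ≠ u') :
    (∃ v ∈ T, p ∈ N v ∧ (∃ x ∈ N v, x ≠ p) ∧ (u ∈ N v → u' ∉ N v) ∧
      (dg G T v ≤ 1 ∨ ∃ w ∈ T, N w = {p} ∧ dg G T w ≤ 2 ∧ Same C G T v w)) ∨
    ∃ K r K2 r2, Two G T K r K2 r2 ∧ (∀ t ∈ K, p ∉ N t) ∧
      ((∀ t ∈ K, u ∉ N t) ∨ ∀ t ∈ K, u' ∉ N t) := by
  have uniq : ∀ v ∈ T, ∀ w ∈ T, v ≠ w → p ∈ N v → u ∈ N v → u' ∈ N v → p ∈ N w → u ∈ N w →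
      u' ∉ N w := fun v hv w hw hvw a1 a2 a3 b1 b2 b3 =>
    h.geo.k33b (S := {p}) hv hw hvw (h.nok v hv u a2).1 (h.nok v hv u' a3).1 huu
      (by simpa using hp) (conn_single _) hpu.symm hpu'.symm (h.nok v hv u a2).2
      (h.nok v hv u' a3).2 ⟨p, rfl, (h.nok v hv p a1).2⟩ (h.nok w hw u b2).2
      (h.nok w hw u' b3).2 ⟨p, rfl, (h.nok w hw p b1).2⟩
  obtain ⟨t0, ht0, hp0⟩ := h.seen p hp
  by_cases hc : NoCut G T
  · left
    have all : ∀ t ∈ T, p ∈ N t := fun t ht => hn.same (hc.tip.same ht0 ht) ht0 ht hp0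
    have : ∃ v0 ∈ T, ∀ v ∈ T, v ≠ v0 → u ∈ N v → u' ∉ N v := by
      by_cases k : ∃ v0 ∈ T, u ∈ N v0 ∧ u' ∈ N v0
      · obtain ⟨v0, hv0, k1, k2⟩ := k
        exact ⟨v0, hv0, fun v hv hne => uniq v0 hv0 v hv hne.symm (all v0 hv0) k1 k2 (all v hv)⟩
      · exact ⟨t0, ht0, fun v hv _ k1 k2 => k ⟨v, hv, k1, k2⟩⟩
    obtain ⟨v0, hv0, k⟩ := this
    obtain ⟨t, ht, htv, -⟩ := hn.other h.cx.conn hv0 (all v0 hv0)
    obtain ⟨v, hv, hy⟩ := h.other (hc.lf hv0 ⟨t, mem_erase.2 ⟨htv, ht⟩⟩).toFlap p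
    have hv' := mem_erase.1 hv
    exact ⟨v, hv'.2, all v hv'.2, hy, k v hv'.2 hv'.1,
      h.tip_neu hb hn hc.tip hv'.2 (all v hv'.2)⟩
  by_contra hcon
  rw [not_or] at hcon
  obtain ⟨hl, hr⟩ := hcon
  have all : ∀ K r K2 r2, Two G T K r K2 r2 → (∃ t ∈ K, p ∈ N t) → ∀ t ∈ K, p ∈ N t :=
    fun K r K2 r2 h2 ⟨s, hs, hps⟩ t ht =>
      hn.same (h2.tip.same hs ht) (h2.f1.sub hs) (h2.f1.sub ht) hps
  have k1 : ∀ K r K2 r2, Two G T K r K2 r2 → (∃ t ∈ K, p ∈ N t) → ∃ v ∈ K, u ∈ N v ∧ u' ∈ N v :=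
    fun K r K2 r2 h2 hs => by
      obtain ⟨v, hv, hy⟩ := h.other h2.f1 p
      have hpv := all _ _ _ _ h2 hs v hv
      by_contra k
      exact hl ⟨v, h2.f1.sub hv, hpv, hy, fun a b => k ⟨v, hv, a, b⟩,
        h.tip_neu hb hn h2.tip hv hpv⟩
  have k2 : ∀ K r K2 r2, Two G T K r K2 r2 → (∃ t ∈ K, u ∈ N t) ∧ ∃ t ∈ K, u' ∈ N t :=
    fun K r K2 r2 h2 => by
      by_cases hs : ∃ t ∈ K, p ∈ N t
      · obtain ⟨v, hv, a, b⟩ := k1 _ _ _ _ h2 hs
        exact ⟨⟨v, hv, a⟩, v, hv, b⟩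
      · push Not at hs
        by_contra k
        refine hr ⟨K, r, K2, r2, h2, hs, ?_⟩
        by_contra k'
        push Not at k'
        exact k k'
  obtain ⟨K1, r1, K2, r2, h2⟩ := exists_two h.cx.conn hc
  have fin : ∀ K1 r1 K2 r2, Two G T K1 r1 K2 r2 → (∀ t ∈ K2, p ∉ N t) → False := by
    intro K1 r1 K2 r2 h2 hs
    obtain ⟨a1, a2⟩ := k2 _ _ _ _ h2
    obtain ⟨b1, b2⟩ := k2 _ _ _ _ h2.symm
    have uO : u ∈ O := by obtain ⟨t, ht, hx⟩ := a1; exact (h.nok t (h2.f1.sub ht) u hx).1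
    have uO' : u' ∈ O := by obtain ⟨t, ht, hx⟩ := a2; exact (h.nok t (h2.f1.sub ht) u' hx).1
    refine h2.toInd.k33' h.cx.conn h.geo uO uO' huu (h.sv h2.f1.sub a1) (h.sv h2.f1.sub a2)
      (h.sv h2.f2.sub b1) (h.sv h2.f2.sub b2) hp hpu hpu' ?_
    by_cases hs1 : ∃ t ∈ K1, p ∈ N t
    · obtain ⟨s, hs1, hps⟩ := hs1
      obtain ⟨t, t1, t2, t3⟩ := hn.rest h.cx.conn h2.l1 hs1 hps
      exact ⟨t, t1, t2, fun h' => hs t h' t3, (h.nok t t1 p t3).2⟩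
    · push Not at hs1
      exact h.rest hp hs1 hs
  by_cases s2 : ∃ t ∈ K2, p ∈ N t
  · by_cases s1 : ∃ t ∈ K1, p ∈ N t
    · obtain ⟨v, hv, a1, a2⟩ := k1 _ _ _ _ h2 s1
      obtain ⟨w, hw, b1, b2⟩ := k1 _ _ _ _ h2.symm s2
      exact uniq v (h2.f1.sub hv) w (h2.f2.sub hw) (fun e => h2.dj v hv (e ▸ hw))
        (all _ _ _ _ h2 s1 v hv) a1 a2 (all _ _ _ _ h2.symm s2 w hw) b1 b2
    · push Not at s1
      exact fin _ _ _ _ h2.symm s1
  · push Not at s2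
    exact fin _ _ _ _ h2 s2

/-- The boundary vertices other than `p`, `u`, `u'`. -/
def Mid (O : Set V) (p u u' : V) : Set V := {x | x ∈ O ∧ x ≠ p ∧ x ≠ u ∧ x ≠ u'}

theorem not_mid {p u u' x : V} (hx : x ∈ O) (h : x ∉ Mid O p u u') : x = p ∨ x = u ∨ x = u' := by
  by_contra h'
  push Not at h'
  exact h ⟨hx, h'⟩

theorem Full.kf_nn (h : Full G O T N L) {p u u' : V} (hn : ¬ Neu C G T N p) :
    ∃ Tr : Finset C, Tr.card ≤ 3 ∧ ∀ c ∉ Tr,
      Pays (fun φ => Bd G T N L φ ∧ φ p = c ∧ φ u ≠ c ∧ φ u' ≠ c) (Mid O p u u') 3 := by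
  classical
  unfold Neu at hn
  push Not at hn
  obtain ⟨lam, hf, hp⟩ := hn
  have pays : ∀ (Z : Finset C) (bad : (V → C) → Prop), Z.card ≤ 3 →
      (∀ φ, (∀ x ∈ Mid O p u u', φ x ∉ Z) → ¬ bad φ) → Pays bad (Mid O p u u') 3 := by
    intro Z bad hZ hb
    refine ⟨fun x => if x ∈ Mid O p u u' then Z else ∅, fun x => ?_, fun x hx => if_neg hx,
      fun φ hφ => hb φ fun x hx => ?_⟩
    · dsimp only
      split_ifs
      · exact hZ
      · simp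
    · have := hφ x
      simp only [if_pos hx] at this
      exact this
  by_cases h3 : 3 ≤ ((T.biUnion L).filter fun e => wt T L lam e ≠ 0).card
  · obtain ⟨Tr, h1, h2⟩ := exists_subset_card_eq h3
    refine ⟨Tr, h2.le, fun c hc => pays Tr _ h2.le fun φ hφ hb => ?_⟩
    have : Tr ⊆ {φ u, φ u'} := fun e he => by
      obtain ⟨x, rfl, hx⟩ := h.cx.ident1 hb.1 hf (mem_filter.1 (h1 he)).2
      obtain ⟨t, ht, hx'⟩ := exists_of_wt hx
      rcases not_mid (h.nok t ht x hx').1 fun h' => hφ x h' he with rfl | rfl | rfl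
      · exact absurd (hb.2.1 ▸ he) hc
      · simp
      · simp
    have := card_le_card this
    have : ({φ u, φ u'} : Finset C).card ≤ 2 := card_le_two
    omega
  · refine ⟨_, le_of_lt (not_le.1 h3), fun c hc => pays {c} _ (by simp) fun φ hφ hb => hc ?_⟩
    obtain ⟨hb, rfl, k1, k2⟩ := hb
    have := h.cx.ident2 hb hf (x := p) fun t ht y hy hyp => by
      by_cases h' : y ∈ Mid O p u u'
      · simpa using hφ y h'
      · rcases not_mid (h.nok t ht y hy).1 h' with rfl | rfl | rfl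
        · exact absurd rfl hyp
        · exact k1
        · exact k2
    rw [← this] at hp
    obtain ⟨t, ht, he⟩ := exists_of_wt hp
    exact mem_filter.2 ⟨mem_biUnion.2 ⟨t, ht, he⟩, hp⟩

theorem Full.kf (h : Full G O T N L) {p u u' : V} (hp : p ∈ O) (hpu : p ≠ u) (hpu' : p ≠ u')
    (huu : u ≠ u') : ∃ Tr : Finset C, Tr.card ≤ 3 ∧ ∀ c ∉ Tr,
      Pays (fun φ => Bd G T N L φ ∧ φ p = c ∧ φ u ≠ c ∧ φ u' ≠ c) (Mid O p u u') 3 := by
  by_cases hn : Neu C G T N p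
  swap
  · exact h.kf_nn hn
  by_cases hb : ∃ φ, Bd G T N L φ
  swap
  · exact ⟨∅, by simp, fun c _ => pays_of_not fun φ hφ => hb ⟨φ, hφ.1⟩⟩
  obtain ⟨φ0, hb⟩ := hb
  have own : ∀ v ∈ T, p ∈ N v → dg G T v + (N v).card ≤ 3 → ∃ Tr : Finset C, Tr.card ≤ 3 ∧
      ∀ c ∉ Tr, Pays (fun φ => Bd G T N L φ ∧ φ p = c ∧ φ u ≠ c ∧ φ u' ≠ c) (Mid O p u u') 3 :=
    fun v hv hpv hd => ⟨L v, (h.cx.tight hb hv).1 ▸ hd, fun c hc => pays_of_not fun φ hφ =>
      hc (hφ.2.1 ▸ (h.cx.tight hφ.1 hv).2.2 p hpv)⟩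
  rcases h.neu hb hn hp hpu hpu' huu with ⟨v, hv, hpv, -, huv, hd | ⟨w, hw, hN, hd, -⟩⟩ |
    ⟨K, r, K2, r2, h2, k1, k2⟩
  · obtain ⟨z, hz⟩ : ∃ z, ∀ x ∈ N v, x ∉ Mid O p u u' → x = p ∨ x = z := by
      by_cases e : u ∈ N v
      · exact ⟨u, fun x hx hx' => (not_mid (h.nok v hv x hx).1 hx').imp id
          fun h' => h'.resolve_right fun e' => huv e (e' ▸ hx)⟩
      · exact ⟨u', fun x hx hx' => (not_mid (h.nok v hv x hx).1 hx').imp id
          fun h' => h'.resolve_left fun e' => e (e' ▸ hx)⟩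
    by_cases k : ∃ x ∈ N v, x ∈ Mid O p u u'
    · obtain ⟨x, hx, hx'⟩ := k
      refine ⟨∅, by simp, fun c _ => (Pays.known1 (((h.cx.known {p} fun _ => c).handle hv {z}
        ⟨x, mem_kN.2 ⟨hx, hx'.2.1⟩, hx'⟩ (fun y hy hy' => mem_singleton.2
          ((hz y (mem_kN.1 hy).1 hy').resolve_left (mem_kN.1 hy).2)) (by simp; omega)))).mono
          fun φ hφ => ⟨hφ.1, hφ.2.1⟩⟩
    · have : N v ⊆ {p, z} := fun x hx => by simpa using hz x hx fun h' => k ⟨x, hx, h'⟩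
      have := card_le_card this
      have : ({p, z} : Finset V).card ≤ 2 := card_le_two
      exact own v hv hpv (by omega)
  · exact own w hw (by simp [hN]) (by simp [hN]; omega)
  · obtain ⟨z, hz⟩ : ∃ z, ∀ t ∈ K, ∀ x ∈ N t, x ∉ Mid O p u u' → x = z := by
      rcases k2 with k2 | k2
      · exact ⟨u', fun t ht x hx hx' => ((not_mid (h.nok t (h2.f1.sub ht) x hx).1 hx').resolve_left
          fun e => k1 t ht (e ▸ hx)).resolve_left fun e => k2 t ht (e ▸ hx)⟩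
      · exact ⟨u, fun t ht x hx hx' => ((not_mid (h.nok t (h2.f1.sub ht) x hx).1 hx').resolve_left
          fun e => k1 t ht (e ▸ hx)).resolve_right fun e => k2 t ht (e ▸ hx)⟩
    obtain ⟨t, ht, y, hy, hyz⟩ := h.other h2.f1 z
    exact ⟨∅, by simp, fun c _ => (h2.tip.kl h.cx h.geo h.nok h.see
      ⟨t, ht, y, hy, by by_contra h'; exact hyz (hz t ht y hy h')⟩ hz).mono fun φ hφ => hφ.1⟩

theorem Full.kl (h : Full G O T N L) {p u u' : V} (hu : u ∈ O) (hpu : p ≠ u) (hpu' : p ≠ u')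
    (huu : u ≠ u') (c : C) :
    Pays (fun φ => Bd G T N L φ ∧ φ p = c) {x | x ∈ O ∧ x ≠ p ∧ x ≠ u'} 3 := by
  have : ∃ K, Tip G T K ∧ ∃ v ∈ K, ∃ x ∈ N v, x ≠ p ∧ x ≠ u' := by
    by_cases hn : NoCut G T
    · obtain ⟨t, ht, hx⟩ := h.seen u hu
      exact ⟨T, hn.tip, t, ht, u, hx, hpu.symm, huu⟩
    · obtain ⟨K1, r1, K2, r2, h2⟩ := exists_two h.cx.conn hn
      by_contra hc
      have k : ∀ K r K' r', Two G T K r K' r' → ∀ t ∈ K, ∀ x ∈ N t, x = p ∨ x = u' :=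
        fun K r K' r' h2 t ht x hx => by
          by_contra h'
          push Not at h'
          exact hc ⟨K, h2.tip, t, ht, x, hx, h'⟩
      have k' : ∀ K r K' r', Two G T K r K' r' → ∀ t ∈ K, u ∉ N t :=
        fun K r K' r' h2 t ht hx => (k _ _ _ _ h2 t ht u hx).elim hpu.symm huu
      have a1 := h.both h2.f1 (k _ _ _ _ h2)
      have a2 := h.both h2.f1 fun t ht x hx => (k _ _ _ _ h2 t ht x hx).symm
      have b1 := h.both h2.f2 (k _ _ _ _ h2.symm)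
      have b2 := h.both h2.f2 fun t ht x hx => (k _ _ _ _ h2.symm t ht x hx).symm
      have pO : p ∈ O := by obtain ⟨t, ht, hx⟩ := a1; exact (h.nok t (h2.f1.sub ht) p hx).1
      have uO' : u' ∈ O := by obtain ⟨t, ht, hx⟩ := a2; exact (h.nok t (h2.f1.sub ht) u' hx).1
      exact h2.toInd.k33' h.cx.conn h.geo pO uO' hpu' (h.sv h2.f1.sub a1) (h.sv h2.f1.sub a2)
        (h.sv h2.f2.sub b1) (h.sv h2.f2.sub b2) hu hpu.symm huu
        (h.rest hu (k' _ _ _ _ h2) (k' _ _ _ _ h2.symm))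
  obtain ⟨K, ht, v, hv, x, hx, hx1, hx2⟩ := this
  refine Pays.known1 (ht.kl (h.cx.known _ _) h.geo (h.nok.known _) h.see
    ⟨v, hv, x, mem_kN.2 ⟨hx, hx1⟩, (h.nok v (ht.sub hv) x hx).1, hx1, hx2⟩ (w := u')
    fun t ht' y hy hy' => ?_)
  by_contra h'
  exact hy' ⟨(h.nok t (ht.sub ht') y (mem_kN.1 hy).1).1, (mem_kN.1 hy).2, h'⟩

theorem Full.sl (h : Full G O T N L) {p u u' : V} (hp : p ∈ O) (hu : u ∈ O) (hu' : u' ∈ O)
    (hpu : G.Adj p u) (hpu' : p ≠ u') (huu : u ≠ u') (hM : (Mid O p u u').Nonempty) (ψ : V → C) :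
    Pays (fun φ => Bd G T N L φ ∧ ∀ v ∈ ({p, u} : Set V), φ v = ψ v) (Mid O p u u') 4 := by
  obtain ⟨m, hm⟩ := hM
  have kn : ∀ t, ∀ x ∈ N t, x ∈ Mid O p u u' → x ∈ kN N {p, u} t := fun t x hx hx' =>
    mem_kN.2 ⟨hx, fun h' => h'.elim hx'.2.1 hx'.2.2.1⟩
  refine Pays.known (sl_core (h.cx.known _ _) h.geo (h.nok.known _) (w := u')
    (fun t ht x hx hx' => ?_) ?_ ?_)
  · obtain ⟨hx, hx2⟩ := mem_kN.1 hx
    rcases not_mid (h.nok t ht x hx).1 hx' with h' | h' | h'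
    · exact absurd (Or.inl h') hx2
    · exact absurd (Or.inr h') hx2
    · exact h'
  · obtain ⟨t, ht, hx⟩ := h.seen m hm.1
    exact ⟨t, ht, m, kn t m hx hm, hm⟩
  · rintro K1 r1 K2 r2 hi ⟨a, ha, ha'⟩ ⟨b, hb, hb'⟩
    by_contra hc
    have k : ∀ K r, Flap G T K r → (∀ t ∈ K, t ∈ K1 ∨ t ∈ K2) → Tch G K {p, u} :=
      fun K r hf hK => by
        obtain ⟨t, ht, y, hy, hyu⟩ := h.other hf u'
        refine ⟨t, ht, y, ?_, (h.nok t (hf.sub ht) y hy).2⟩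
        rcases not_mid (h.nok t (hf.sub ht) y hy).1 fun h' =>
          hc ⟨t, hK t ht, y, kn t y hy h', h'⟩ with h' | h' | h'
        · exact Or.inl h'
        · exact Or.inr h'
        · exact absurd h' hyu
    exact hi.k33 h.cx.conn h.geo (S1 := {u'}) (S2 := {p, u}) (by simpa using hu')
      (Set.pair_subset hp hu) (conn_single _) (conn_pair hpu) (by simp [hpu'.symm, huu.symm])
      (h.sv hi.f1.sub ⟨a, ha, (mem_kN.1 ha').1⟩).tch (k _ _ hi.f1 fun _ => Or.inl)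
      (h.sv hi.f2.sub ⟨b, hb, (mem_kN.1 hb').1⟩).tch (k _ _ hi.f2 fun _ => Or.inr) hm.1 hm.2.2.2
      (fun h' => h'.elim hm.2.1 hm.2.2.1)
      (h.rest hm.1 (fun t ht hx => hc ⟨t, Or.inl ht, m, kn t m hx hm, hm⟩)
        fun t ht hx => hc ⟨t, Or.inr ht, m, kn t m hx hm, hm⟩)

theorem Full.p4 (h : Full G O T N L) {p u u' : V} (hp : p ∈ O) (hu : u ∈ O) (hu' : u' ∈ O)
    (hpu : G.Adj p u) (hpu' : G.Adj p u') (huu : u ≠ u') (hM : (Mid O p u u').Nonempty)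
    (hMc : Conn G (Mid O p u u')) :
    (∀ c, Pays (fun φ => Bd G T N L φ ∧ φ p = c) (Mid O p u u') 4) ∨
      (∃ c, ∀ φ, Bd G T N L φ → φ p = c) ∨
        ∀ c, Pays (fun φ => Bd G T N L φ ∧ φ p = c) {u} 2 := by
  obtain ⟨m, hm⟩ := hM
  by_cases k : ∃ K, Tip G T K ∧ ∃ v ∈ K, ∃ x ∈ N v, x ∈ Mid O p u u'
  · obtain ⟨K, ht, v, hv, x, hx, hx'⟩ := k
    exact Or.inl fun c => Pays.known1 (ht.p4 (h.cx.known _ _) h.geo (h.nok.known _) h.see
      ⟨v, hv, x, mem_kN.2 ⟨hx, hx'.2.1⟩, hx'⟩ huu (fun h' => h'.2.2.1 rfl)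
      (fun h' => h'.2.2.2 rfl) (fun _ h' => h'.1) hMc fun t ht' y hy hy' =>
        (not_mid (h.nok t (ht.sub ht') y (mem_kN.1 hy).1).1 hy').resolve_left (mem_kN.1 hy).2)
  right
  have hn : ¬ NoCut G T := fun hn => by
    obtain ⟨t, ht, hx⟩ := h.seen m hm.1
    exact k ⟨T, hn.tip, t, ht, m, hx, hm⟩
  have k1 : ∀ K r K' r', Two G T K r K' r' → ∀ t ∈ K, ∀ x ∈ N t, x = p ∨ x = u ∨ x = u' :=
    fun K r K' r' h2 t ht x hx => not_mid (h.nok t (h2.f1.sub ht) x hx).1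
      fun h' => k ⟨K, h2.tip, t, ht, x, hx, h'⟩
  have k2 : ∀ K r K' r', Two G T K r K' r' → ∃ t ∈ T, t ∉ K ∧ t ∉ K' ∧ G.Adj t m :=
    fun K r K' r' h2 => h.rest hm.1 (fun t ht hx => k ⟨K, h2.tip, t, ht, m, hx, hm⟩)
      fun t ht hx => k ⟨K', h2.symm.tip, t, ht, m, hx, hm⟩
  have k3 : ∀ a b : V, a ∈ O → b ∈ O → G.Adj p b → p ≠ a → a ≠ b → m ≠ a → m ≠ b →
      (∀ K r K' r', Two G T K r K' r' → ∀ t ∈ K, ∀ x ∈ N t, x = p ∨ x = a ∨ x = b) →
      ∀ K r K' r', Two G T K r K' r' → (∃ t ∈ K, a ∈ N t) → (∃ t ∈ K', a ∈ N t) → False := by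
    intro a b ha hb e hpa hab m1 m2 k1 K r K' r' h2 s1 s2
    have tch : ∀ K r K' r', Two G T K r K' r' → Tch G K {p, b} := fun K r K' r' h2 => by
      obtain ⟨t, ht, y, hy, hya⟩ := h.other h2.f1 a
      refine ⟨t, ht, y, ?_, (h.nok t (h2.f1.sub ht) y hy).2⟩
      rcases k1 _ _ _ _ h2 t ht y hy with h' | h' | h'
      · exact Or.inl h'
      · exact absurd h' hya
      · exact Or.inr h'
    exact h2.toInd.k33 h.cx.conn h.geo (S1 := {a}) (S2 := {p, b}) (by simpa using ha)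
      (Set.pair_subset hp hb) (conn_single _) (conn_pair e) (by simp [hpa.symm, hab])
      (h.sv h2.f1.sub s1).tch (tch _ _ _ _ h2) (h.sv h2.f2.sub s2).tch (tch _ _ _ _ h2.symm)
      hm.1 m1 (fun h' => h'.elim hm.2.1 m2) (k2 _ _ _ _ h2)
  have k4 := k3 u' u hu' hu hpu hpu'.ne huu.symm hm.2.2.2 hm.2.2.1 fun K r K' r' h2 t ht x hx =>
    (k1 K r K' r' h2 t ht x hx).imp id Or.symm
  have fin : ∀ K r K' r', Two G T K r K' r' → (∀ t ∈ K, u' ∉ N t) →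
      (∃ c, ∀ φ, Bd G T N L φ → φ p = c) ∨
        ∀ c, Pays (fun φ => Bd G T N L φ ∧ φ p = c) {u} 2 := fun K r K' r' h2 hs => by
    have : ∀ t ∈ K, ∀ x ∈ N t, x = p ∨ x = u := fun t ht x hx =>
      (k1 _ _ _ _ h2 t ht x hx).imp id fun h' => h'.resolve_right fun e => hs t ht (e ▸ hx)
    exact h2.tip.pu h.cx h.geo h.nok h.see hpu.ne (h.both h2.f1 this)
      (h.both h2.f1 fun t ht x hx => (this t ht x hx).symm) this
  obtain ⟨K1, r1, K2, r2, h2⟩ := exists_two h.cx.conn hn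
  by_cases s : ∃ t ∈ K1, u' ∈ N t
  · exact fin _ _ _ _ h2.symm fun t ht hx => k4 _ _ _ _ h2 s ⟨t, ht, hx⟩
  · push Not at s
    exact fin _ _ _ _ h2 s

/-- The colour of `x` is determined. -/
def Fx (bad : (V → C) → Prop) (x : V) : Prop := ∃ c, ∀ φ, bad φ → φ x = c

/-- The colours of `x` and `y` lie in a fixed set of three colours. -/
def Pa (bad : (V → C) → Prop) (x y : V) : Prop :=
  ∃ S : Finset C, S.card ≤ 3 ∧ ∀ φ, bad φ → φ x ∈ S ∧ φ y ∈ S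

theorem Full.tri (h : Full G O T N L) {bad : (V → C) → Prop}
    (hbad : ∀ φ, bad φ → Bd G T N L φ ∧ Set.InjOn φ O) {a b c : V} (ha : a ∈ O) (hb : b ∈ O)
    (hc : c ∈ O) (hab : a ≠ b) (hac : a ≠ c) (hbc : b ≠ c) (hO : ∀ x ∈ O, x = a ∨ x = b ∨ x = c) :
    Fx bad a ∨ Fx bad b ∨ Fx bad c ∨ Pa bad a b ∨ Pa bad a c := by
  classical
  by_cases h0 : ∃ φ, bad φ
  swap
  · exact Or.inl ⟨Classical.arbitrary C, fun φ hφ => absurd ⟨φ, hφ⟩ h0⟩
  obtain ⟨φ0, h0⟩ := h0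
  by_cases hn : Neu C G T N a
  · rcases h.neu (hbad _ h0).1 hn ha hab hac hbc with ⟨v, hv, hav, ⟨x, hx, hxa⟩, hbv, hd⟩ |
      ⟨K, r, K2, r2, h2, k1, k2⟩
    · have hxO := (h.nok v hv x hx).1
      have hN : ∀ y ∈ N v, y = a ∨ y = x := fun y hy => by
        rcases hO x hxO with rfl | rfl | rfl <;> rcases hO y (h.nok v hv y hy).1 with rfl | rfl | rfl
        all_goals tauto
      have : Fx bad x ∨ Pa bad a x := by
        rcases hd with hd | ⟨w, hw, hNw, -, hs⟩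
        · have : N v ⊆ {a, x} := fun y hy => by simpa using hN y hy
          have := card_le_card this
          have : ({a, x} : Finset V).card ≤ 2 := card_le_two
          have := (h.cx.tight (hbad _ h0).1 hv).1
          exact Or.inr ⟨L v, by omega, fun φ hφ => ⟨(h.cx.tight (hbad _ hφ).1 hv).2.2 a hav,
            (h.cx.tight (hbad _ hφ).1 hv).2.2 x hx⟩⟩
        · obtain ⟨e, he⟩ := h.cx.diff_fix hv hw hs (by simp [hNw, hav]) hx (by simp [hNw, hxa])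
            fun y hy hy' => (hN y hy).resolve_left (by simpa [hNw] using hy')
          exact Or.inl ⟨e, fun φ hφ => he φ (hbad _ hφ).1⟩
      rcases hO x hxO with rfl | rfl | rfl <;> tauto
    · exfalso
      rcases k2 with k2 | k2
      · obtain ⟨t, ht, y, hy, hyc⟩ := h.other h2.f1 c
        rcases hO y (h.nok t (h2.f1.sub ht) y hy).1 with rfl | rfl | rfl
        · exact k1 t ht hy
        · exact k2 t ht hy
        · exact hyc rfl
      · obtain ⟨t, ht, y, hy, hyc⟩ := h.other h2.f1 b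
        rcases hO y (h.nok t (h2.f1.sub ht) y hy).1 with rfl | rfl | rfl
        · exact k1 t ht hy
        · exact hyc rfl
        · exact k2 t ht hy
  · set R := (T.biUnion L).filter fun e => ∃ lam, Fn C G T lam ∧ wt T L lam e ≠ 0 with hR
    have r1 : ∀ φ, bad φ → ∀ x ∈ O, ¬ Neu C G T N x → φ x ∈ R := fun φ hφ x hx hn => by
      unfold Neu at hn
      push Not at hn
      obtain ⟨lam, hf, hp⟩ := hn
      rw [← h.cx.ident2 (hbad _ hφ).1 hf fun t ht y hy hyx e =>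
        hyx ((hbad _ hφ).2 (h.nok t ht y hy).1 hx e)] at hp
      obtain ⟨t, ht, he⟩ := exists_of_wt hp
      exact mem_filter.2 ⟨mem_biUnion.2 ⟨t, ht, he⟩, lam, hf, hp⟩
    have r2 : ∀ e ∈ R, ∃ x ∈ O, ¬ Neu C G T N x ∧ φ0 x = e := fun e he => by
      obtain ⟨lam, hf, hp⟩ := (mem_filter.1 he).2
      obtain ⟨x, h1, h2⟩ := h.cx.ident1 (hbad _ h0).1 hf hp
      obtain ⟨t, ht, hx⟩ := exists_of_wt h2
      exact ⟨x, (h.nok t ht x hx).1, fun h' => h2 (h' lam hf), h1⟩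
    have r3 : R.card ≤ 3 := by
      refine le_trans (card_le_card fun e he => ?_) (card_le_three (a := φ0 a) (b := φ0 b)
        (c := φ0 c))
      obtain ⟨x, hx, -, rfl⟩ := r2 e he
      rcases hO x hx with rfl | rfl | rfl <;> simp
    by_cases nb : Neu C G T N b
    · by_cases nc : Neu C G T N c
      · refine Or.inl ⟨φ0 a, fun φ hφ => ?_⟩
        obtain ⟨x, hx, h1, h2⟩ := r2 _ (r1 φ hφ a ha hn)
        rcases hO x hx with rfl | rfl | rfl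
        · exact h2.symm
        · exact absurd nb h1
        · exact absurd nc h1
      · exact Or.inr (Or.inr (Or.inr (Or.inr ⟨R, r3, fun φ hφ =>
          ⟨r1 φ hφ a ha hn, r1 φ hφ c hc nc⟩⟩)))
    · exact Or.inr (Or.inr (Or.inr (Or.inl ⟨R, r3, fun φ hφ =>
        ⟨r1 φ hφ a ha hn, r1 φ hφ b hb nb⟩⟩)))

end Pool.Agent.Lib.MP_0fc16c_co.GC
end
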