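import Pool.Agent.Lib.MP_0fc16c_co.Gallai4

/-! The face constraints carried by a component alone in its face. -/

set_option autoImplicit false
set_option linter.unusedSectionVars false

open Finset

namespace Pool.Agent.Lib.MP_0fc16c_co.GC

variable {V : Type*} [Fintype V] [DecidableEq V] {C : Type*} [DecidableEq C]

/-! ### Triangles -/

section tri
variable {bad : (V → C) → Prop} {p u u' : V}

theorem Pa.symm {x y : V} (h : Pa bad x y) : Pa bad y x := by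
  obtain ⟨S, h1, h2⟩ := h
  exact ⟨S, h1, fun φ hφ => (h2 φ hφ).symm⟩

theorem Pa.erase {x y : V} (h : Pa bad x y) (hd : ∀ φ, bad φ → φ x ≠ φ y) (c : C) :
    ∃ Z : Finset C, Z.card ≤ 2 ∧ ∀ φ, bad φ → φ x = c → φ y ∈ Z := by
  obtain ⟨S, h1, h2⟩ := h
  by_cases hc : c ∈ S
  · exact ⟨S.erase c, by rw [card_erase_of_mem hc]; omega, fun φ hφ e =>
      mem_erase.2 ⟨e ▸ (hd φ hφ).symm, (h2 φ hφ).2⟩⟩
  · exact ⟨∅, by simp, fun φ hφ e => absurd (e ▸ (h2 φ hφ).1) hc⟩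

theorem tri_p4 (hd : ∀ φ, bad φ → φ p ≠ φ u ∧ φ p ≠ φ u' ∧ φ u ≠ φ u')
    (H : Fx bad p ∨ Fx bad u ∨ Fx bad u' ∨ Pa bad p u ∨ (Pa bad p u' ∧ Pa bad u u')) :
    Fx bad p ∨ ∀ c, ∃ Z Z' : Finset C, Z.card ≤ 2 ∧ Z'.card ≤ 1 ∧
      ∀ φ, bad φ → φ p = c → φ u ∈ Z ∨ φ u' ∈ Z' := by
  rcases H with H | ⟨e, H⟩ | ⟨e, H⟩ | H | ⟨H, H'⟩
  · exact Or.inl H
  · exact Or.inr fun c => ⟨{e}, ∅, by simp, by simp, fun φ hφ _ => Or.inl (by simp [H φ hφ])⟩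
  · exact Or.inr fun c => ⟨∅, {e}, by simp, by simp, fun φ hφ _ => Or.inr (by simp [H φ hφ])⟩
  · refine Or.inr fun c => ?_
    obtain ⟨Z, h1, h2⟩ := H.erase (fun φ hφ => (hd φ hφ).1) c
    exact ⟨Z, ∅, h1, by simp, fun φ hφ e => Or.inl (h2 φ hφ e)⟩
  · refine Or.inr fun c => ?_
    obtain ⟨Z, h1, h2⟩ := H.erase (fun φ hφ => (hd φ hφ).2.1) c
    rcases Z.eq_empty_or_nonempty with rfl | ⟨t, ht⟩
    · exact ⟨∅, ∅, by simp, by simp, fun φ hφ e => Or.inr (h2 φ hφ e)⟩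
    · obtain ⟨Z', h3, h4⟩ := H'.symm.erase (fun φ hφ => (hd φ hφ).2.2.symm) t
      refine ⟨Z', Z.erase t, h3, by rw [card_erase_of_mem ht]; omega, fun φ hφ e => ?_⟩
      by_cases e' : φ u' = t
      · exact Or.inl (h4 φ hφ e')
      · exact Or.inr (mem_erase.2 ⟨e', h2 φ hφ e⟩)

theorem tri_star (hd : ∀ φ, bad φ → φ p ≠ φ u ∧ φ p ≠ φ u' ∧ φ u ≠ φ u')
    (H : Fx bad p ∨ Fx bad u ∨ Fx bad u' ∨ Pa bad p u' ∨ Pa bad u u') :
    (∀ c d, ∃ Z : Finset C, Z.card ≤ 2 ∧ ∀ φ, bad φ → φ p = c → φ u = d → φ u' ∈ Z) ∨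
      Fx bad p ∨ Fx bad u := by
  rcases H with H | H | ⟨e, H⟩ | H | H
  · exact Or.inr (Or.inl H)
  · exact Or.inr (Or.inr H)
  · exact Or.inl fun c d => ⟨{e}, by simp, fun φ hφ _ _ => by simp [H φ hφ]⟩
  · refine Or.inl fun c d => ?_
    obtain ⟨Z, h1, h2⟩ := H.erase (fun φ hφ => (hd φ hφ).2.1) c
    exact ⟨Z, h1, fun φ hφ e _ => h2 φ hφ e⟩
  · refine Or.inl fun c d => ?_
    obtain ⟨Z, h1, h2⟩ := H.erase (fun φ hφ => (hd φ hφ).2.2) d
    exact ⟨Z, h1, fun φ hφ _ e => h2 φ hφ e⟩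

theorem tri_p5 [Nonempty C] (hd : ∀ φ, bad φ → φ p ≠ φ u ∧ φ p ≠ φ u' ∧ φ u ≠ φ u')
    (H : Fx bad p ∨ Fx bad u ∨ Fx bad u' ∨ Pa bad p u ∨ (Pa bad p u' ∧ Pa bad u u')) :
    (∃ c₀, ∀ c ≠ c₀, ∃ Z : Finset C, Z.card ≤ 2 ∧ ∀ φ, bad φ → φ p = c → φ u ∈ Z) ∨
      Fx bad u' := by
  rcases H with ⟨e, H⟩ | ⟨e, H⟩ | H | H | ⟨⟨S', s1, s2⟩, ⟨S, t1, t2⟩⟩
  · exact Or.inl ⟨e, fun c hc => ⟨∅, by simp, fun φ hφ e' => absurd (e' ▸ H φ hφ) hc⟩⟩
  · exact Or.inl ⟨e, fun c _ => ⟨{e}, by simp, fun φ hφ _ => by simp [H φ hφ]⟩⟩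
  · exact Or.inr H
  · exact Or.inl ⟨Classical.arbitrary C, fun c _ => H.erase (fun φ hφ => (hd φ hφ).1) c⟩
  left
  by_contra hc
  push Not at hc
  have k : ∀ c, (∀ Z : Finset C, Z.card ≤ 2 → ∃ φ, bad φ ∧ φ p = c ∧ φ u ∉ Z) →
      (∀ s ∈ S, ∃ φ, bad φ ∧ φ p = c ∧ φ u = s) ∧ c ∉ S ∧ c ∈ S' := fun c hh => by
    have k1 : ∀ s ∈ S, ∃ φ, bad φ ∧ φ p = c ∧ φ u = s := fun s hs => by
      obtain ⟨φ, h1, h2, h3⟩ := hh (S.erase s) (by rw [card_erase_of_mem hs]; omega)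
      refine ⟨φ, h1, h2, ?_⟩
      by_contra h'
      exact h3 (mem_erase.2 ⟨h', (t2 φ h1).1⟩)
    refine ⟨k1, fun h' => ?_, ?_⟩
    · obtain ⟨φ, h1, h2, h3⟩ := k1 c h'
      exact (hd φ h1).1 (h2.trans h3.symm)
    · obtain ⟨φ, h1, h2, -⟩ := hh ∅ (by simp)
      exact h2 ▸ (s2 φ h1).1
  obtain ⟨c, -, h1⟩ := hc (Classical.arbitrary C)
  obtain ⟨c', hcc, h2⟩ := hc c
  obtain ⟨a1, a2, a3⟩ := k c h1
  obtain ⟨-, b2, b3⟩ := k c' h2
  obtain ⟨φ, p1, -, -⟩ := h1 ∅ (by simp)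
  obtain ⟨ψ, q1, -, q3⟩ := a1 _ (t2 φ p1).2
  have hne : φ u' ≠ ψ u' := q3 ▸ (hd ψ q1).2.2
  have m1 := (t2 φ p1).2
  have m2 := (t2 ψ q1).2
  have : ({c, c', φ u', ψ u'} : Finset C) ⊆ S' := by
    simp only [insert_subset_iff, singleton_subset_iff]
    exact ⟨a3, b3, (s2 φ p1).2, (s2 ψ q1).2⟩
  have := card_le_card this
  rw [card_insert_of_notMem, card_insert_of_notMem, card_pair hne] at this
  · omega
  · simp only [mem_insert, mem_singleton, not_or]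
    exact ⟨fun e => b2 (e ▸ m1), fun e => b2 (e ▸ m2)⟩
  · simp only [mem_insert, mem_singleton, not_or]
    exact ⟨hcc.symm, fun e => a2 (e ▸ m1), fun e => a2 (e ▸ m2)⟩

end tri

/-! ### The boundary cycle -/

theorem arc {B : List V} (hn : B.Nodup) (h3 : 3 ≤ B.length) {p u u' : V} (h1 : Cyc B p u)
    (h2 : Cyc B p u') (huu : u ≠ u') : ∃ m : List V,
      (∀ a b, Cyc B a b ↔ Cyc (p :: u :: m ++ [u']) a b) ∧ (p :: u :: m ++ [u']).Perm B := by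
  have : ∃ t, (∀ a b, Cyc B a b ↔ Cyc (p :: u :: t) a b) ∧ (p :: u :: t).Perm B := by
    obtain ⟨t, ⟨l1, l2, e1, e2⟩ | ⟨l1, l2, e1, e2⟩⟩ := cyc_start (by omega) h1
    · exact ⟨t, fun a b => by rw [← e2, e1, cyc_rot], by rw [← e2, e1]; exact List.perm_append_comm⟩
    · refine ⟨t, fun a b => by rw [← e2, ← cyc_reverse, e1, cyc_rot], ?_⟩
      rw [← e2]
      exact List.perm_append_comm.trans (e1 ▸ List.reverse_perm B)
  obtain ⟨t, k1, k2⟩ := this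
  rcases List.eq_nil_or_concat t with rfl | ⟨m, y, rfl⟩
  · have := k2.length_eq
    simp at this
    omega
  · rw [List.concat_eq_append] at k1 k2
    have hn' := k2.nodup_iff.2 hn
    have hy : u' = y := by
      rcases cyc_two hn h1 h2 ((k1 p y).2 (cyc_ends (u :: m) p y)) with h | h | h
      · exact absurd h huu
      · subst h; simp at hn'
      · exact h
    subst hy
    exact ⟨m, k1, k2⟩

theorem mid_facts {G : SimpleGraph V} {B : List V} (hn : B.Nodup) (h3 : 3 ≤ B.length)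
    (hl : ∀ a b, Cyc B a b → G.Adj a b) {p u u' : V} (h1 : Cyc B p u) (h2 : Cyc B p u')
    (huu : u ≠ u') : Conn G (Mid {v | v ∈ B} p u u') ∧
      (¬ Cyc B u u' → (Mid {v | v ∈ B} p u u').Nonempty) ∧
      (Cyc B u u' → ∀ x ∈ B, x = p ∨ x = u ∨ x = u') := by
  obtain ⟨m, k1, k2⟩ := arc hn h3 h1 h2 huu
  have hn' := k2.nodup_iff.2 hn
  have e : ∀ x, x ∈ Mid {v | v ∈ B} p u u' ↔ x ∈ m := fun x => by
    simp only [Mid, Set.mem_ofPred_eq, ← k2.mem_iff]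
    constructor
    · rintro ⟨a1, a2, a3, a4⟩
      simpa [a2, a3, a4] using a1
    · intro hx
      refine ⟨by simp [hx], ?_, ?_, ?_⟩ <;> rintro rfl
      · simp [hx] at hn'
      · simp [hx] at hn'
      · simp only [List.cons_append, List.nodup_cons, List.nodup_append] at hn'
        exact hn'.2.2.2.2 x hx x (by simp) rfl
  refine ⟨fun a ha b hb => rch_of_list (l := m) ?_ (fun v hv => (e v).2 hv) ((e a).1 ha)
    ((e b).1 hb), fun hc => ?_, fun hc x hx => ?_⟩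
  · rintro a b ⟨l1, l2, rfl⟩
    exact hl a b ((k1 a b).2 (cyc_of_nx ⟨p :: u :: l1, l2 ++ [u'], by simp⟩))
  · cases m with
    | nil => exact absurd ((k1 u u').2 (cyc_mid [p] [] u u')) hc
    | cons z m => exact ⟨z, (e z).2 (by simp)⟩
  · cases m with
    | nil => simpa using k2.mem_iff.2 hx
    | cons z m =>
      exfalso
      have hz := (e z).2 (by simp)
      rcases cyc_two hn h1.symm ((k1 u z).2 (cyc_mid [p] (m ++ [u']) u z)) hc with h | h | h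
      · exact hz.2.1 h.symm
      · exact h2.ne hn (by omega) h
      · exact hz.2.2.2 h

variable {G : SimpleGraph V} [DecidableRel G.Adj] {T : Finset V} {L : V → Finset C} {B : List V}

theorem nonempty_col (h : TCtx G T L) (hs : Simple G T B) : Nonempty C := by
  obtain ⟨b, hb⟩ := List.exists_mem_of_length_pos (show 0 < B.length by have := hs.len; omega)
  obtain ⟨t, ht, e⟩ := hs.sees b hb
  have h1 := h.deg t ht
  have h2 : 0 < (G.neighborSet t).ncard := (Set.ncard_pos (Set.toFinite _)).2 ⟨b, e⟩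
  obtain ⟨c, -⟩ := card_pos.1 (show 0 < (L t).card by omega)
  exact ⟨c⟩

theorem full_of_simple [Nonempty C] (h : TCtx G T L) (hs : Simple G T B) :
    Full G {v | v ∈ B} T (N0 G T) L := by
  refine ⟨cx_of_tctx h, ⟨fun t ht hb => hs.disj t hb ht, hs.k33, hs.k5⟩, fun t ht x hx => ?_,
    fun K r hf => ?_, fun t _ x hx e => mem_N0.2 ⟨hs.disj x hx, e⟩, fun x hx => ?_⟩
  · obtain ⟨h1, h2⟩ := mem_N0.1 hx
    exact ⟨(hs.nbr t ht x h2).resolve_left h1, h2⟩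
  · exact hs.lc r K hf.ne (coe_subset.2 hf.sub) hf.rK hf.cl
  · obtain ⟨t, ht, e⟩ := hs.sees x hx
    exact ⟨t, ht, mem_N0.2 ⟨hs.disj x hx, e⟩⟩

theorem Pays.pay {bad bad' : (V → C) → Prop} {Py : Set V} {k i j n : ℕ} {p u u' : V} {c : C}
    (h : Pays bad' Py k) (hP : ∀ x ∈ Py, x ∈ B ∧ x ≠ p) (hi : u ∈ Py → k ≤ i)
    (hj : u' ∈ Py → k ≤ j) (hn : k ≤ n)
    (hb : ∀ φ, Pr (Cyc B) φ → φ p = c → bad φ → bad' φ) :
    Pay (Cyc B) (Cyc B) bad p u u' c i j n := by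
  obtain ⟨P, h1, h2, h3⟩ := h
  have key : ∀ x m, (x ∈ Py → k ≤ m) → (P x).card ≤ m := fun x m hm => by
    by_cases hx : x ∈ Py
    · exact (h1 x).trans (hm hx)
    · simp [h2 x hx]
  refine ⟨P, key u i hi, key u' j hj, fun v => (h1 v).trans hn, fun φ k1 k2 k3 k4 =>
    h3 φ (fun x => ?_) (hb φ k1 k2 k4)⟩
  by_cases hx : x ∈ Py
  · exact k3 x (exists_cyc_of_mem (hP x hx).1) (hP x hx).2
  · simp [h2 x hx]

theorem tri_all [Nonempty C] (h : TCtx G T L) (hs : Simple G T B) {a b c : V} (hab : Cyc B a b)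
    (hac : Cyc B a c) (hbc : Cyc B b c) :
    Fx (fun φ => Pr (Cyc B) φ ∧ badT G T L φ) a ∨ Fx (fun φ => Pr (Cyc B) φ ∧ badT G T L φ) b ∨
      Fx (fun φ => Pr (Cyc B) φ ∧ badT G T L φ) c ∨
      Pa (fun φ => Pr (Cyc B) φ ∧ badT G T L φ) a b ∨
      Pa (fun φ => Pr (Cyc B) φ ∧ badT G T L φ) a c := by
  have l2 : 2 ≤ B.length := by have := hs.len; omega
  have hO := (mid_facts hs.nodup hs.len hs.link hab hac (hbc.ne hs.nodup l2)).2.2 hbc
  refine (full_of_simple h hs).tri (fun φ hφ => ⟨badT_iff.1 hφ.2, fun x hx y hy e => ?_⟩)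
    hab.mem_left hab.mem_right hac.mem_right (hab.ne hs.nodup l2) (hac.ne hs.nodup l2)
    (hbc.ne hs.nodup l2) hO
  have e1 := hφ.1 _ _ hab
  have e2 := hφ.1 _ _ hac
  have e3 := hφ.1 _ _ hbc
  rcases hO x hx with rfl | rfl | rfl <;> rcases hO y hy with rfl | rfl | rfl
  all_goals first
    | rfl | exact absurd e e1 | exact absurd e e2 | exact absurd e e3
    | exact absurd e.symm e1 | exact absurd e.symm e2 | exact absurd e.symm e3

theorem tri_two [Nonempty C] (h : TCtx G T L) (hs : Simple G T B) {a b c : V} (hab : Cyc B a b)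
    (hac : Cyc B a c) (hbc : Cyc B b c) :
    Fx (fun φ => Pr (Cyc B) φ ∧ badT G T L φ) a ∨ Fx (fun φ => Pr (Cyc B) φ ∧ badT G T L φ) b ∨
      Fx (fun φ => Pr (Cyc B) φ ∧ badT G T L φ) c ∨
      Pa (fun φ => Pr (Cyc B) φ ∧ badT G T L φ) a b ∨
      (Pa (fun φ => Pr (Cyc B) φ ∧ badT G T L φ) a c ∧
        Pa (fun φ => Pr (Cyc B) φ ∧ badT G T L φ) b c) := by
  have h1 := tri_all h hs hab hac hbc
  have h2 := tri_all h hs hab.symm hbc hac
  rcases h2 with h2 | h2 | h2 | h2 | h2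
  · tauto
  · tauto
  · tauto
  · have := h2.symm; tauto
  · tauto

theorem Fx.fix {bad : (V → C) → Prop} {Q : V → V → Prop} {x : V}
    (h : Fx (fun φ => Pr Q φ ∧ bad φ) x) : Fix Q bad x := by
  obtain ⟨c, h⟩ := h
  exact ⟨c, fun φ h1 h2 => h φ ⟨h1, h2⟩⟩

end Pool.Agent.Lib.MP_0fc16c_co.GC

namespace Pool.Agent.Lib.MP_0fc16c_co

open GC

variable {V : Type*} [Fintype V] [DecidableEq V] {C : Type*} [DecidableEq C]

theorem simple_weak {G : SimpleGraph V} {T : Finset V} {L : V → Finset C} {B : List V}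
    (h : TCtx G T L) (hs : Simple G T B) : Weak (Cyc B) (badT G T L) := by
  classical
  have := nonempty_col h hs
  have hf := full_of_simple h hs
  rintro K ψ ⟨v, ⟨w, hv⟩, hvK⟩
  obtain ⟨t, ht, hx⟩ := hf.seen v hv.mem_left
  obtain ⟨P, h1, h2, h3⟩ := weak_core (Py := {x | x ∈ B ∧ x ∉ K}) (hf.cx.known K ψ) hf.geo
    (hf.nok.known K) (fun t ht x hx => ⟨(hf.nok t ht x (mem_kN.1 hx).1).1, (mem_kN.1 hx).2⟩)
    ⟨t, ht, v, mem_kN.2 ⟨hx, hvK⟩⟩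
  refine ⟨P, h1, fun φ k1 k2 hb => h3 φ (fun y => ?_) ((badT_iff.1 hb).known k1)⟩
  by_cases hy : y ∈ B ∧ y ∉ K
  · exact k2 y (exists_cyc_of_mem hy.1) hy.2
  · rw [h2 y hy]; simp

theorem simple_strong {G : SimpleGraph V} {T : Finset V} {L : V → Finset C} {B : List V}
    (h : TCtx G T L) (hs : Simple G T B) : Strong (Cyc B) (Cyc B) (badT G T L) := by
  classical
  have := nonempty_col h hs
  have hf := full_of_simple h hs
  have l2 : 2 ≤ B.length := by have := hs.len; omega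
  have hd : ∀ {p u u' : V}, Cyc B p u → Cyc B p u' → Cyc B u u' → ∀ φ : V → C,
      Pr (Cyc B) φ ∧ badT G T L φ → φ p ≠ φ u ∧ φ p ≠ φ u' ∧ φ u ≠ φ u' :=
    fun h1 h2 h3 φ hφ => ⟨hφ.1 _ _ h1, hφ.1 _ _ h2, hφ.1 _ _ h3⟩
  have fixp : ∀ {p u u' : V}, (∃ e, ∀ φ, Pr (Cyc B) φ ∧ badT G T L φ → φ p = e) →
      ∃ Tr : Finset C, Tr.card ≤ 2 ∧ ∀ c ∉ Tr, Pay (Cyc B) (Cyc B) (badT G T L) p u u' c 0 0 4 :=
    fun ⟨e, he⟩ => ⟨{e}, by simp, fun c hc => ⟨fun _ => ∅, by simp, by simp, by simp,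
      fun φ k1 k2 _ k4 => hc (by rw [← k2, he φ ⟨k1, k4⟩]; simp)⟩⟩
  refine ⟨fun p u u' h1 h2 huu c => ?_, fun p u u' h1 h2 huu => ?_, fun p u u' h1 h2 huu => ?_,
    fun p u u' h1 h2 huu h3 c γ => ?_, fun p u u' h1 h2 h3 => ?_, fun p u u' h1 h2 h3 => ?_⟩
  · exact (hf.kl h1.mem_right (h1.ne hs.nodup l2) (h2.ne hs.nodup l2) huu c).pay
      (fun x hx => ⟨hx.1, hx.2.1⟩) (fun _ => le_rfl) (fun h' => absurd rfl h'.2.2) le_rfl
      fun φ _ k2 k3 => ⟨badT_iff.1 k3, k2⟩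
  · obtain ⟨Tr, k1, k2⟩ := hf.kf h1.mem_left (h1.ne hs.nodup l2) (h2.ne hs.nodup l2) huu
    exact ⟨Tr, k1, fun c hc => (k2 c hc).pay (fun x hx => ⟨hx.1, hx.2.1⟩)
      (fun h' => absurd rfl h'.2.2.1) (fun h' => absurd rfl h'.2.2.2) le_rfl
      fun φ a1 a2 a3 => ⟨badT_iff.1 a3, a2, a2 ▸ (a1 _ _ h1).symm, a2 ▸ (a1 _ _ h2).symm⟩⟩
  · by_cases h3 : Cyc B u u'
    · rcases tri_p4 (hd h1 h2 h3) (tri_two h hs h1 h2 h3) with k | k
      · exact Or.inl (fixp k)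
      · refine Or.inr fun c => ?_
        obtain ⟨Z, Z', z1, z2, z3⟩ := k c
        refine ⟨fun x => if x = u then Z else if x = u' then Z' else ∅, by simpa using z1,
          by simpa [huu.symm] using z2, fun v => ?_, fun φ a1 a2 a3 a4 => ?_⟩
        · dsimp only
          split_ifs
          · omega
          · omega
          · simp
        · rcases z3 φ ⟨a1, a4⟩ a2 with k' | k'
          · exact a3 u ⟨p, h1.symm⟩ (h1.ne hs.nodup l2).symm (by simpa using k')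
          · exact a3 u' ⟨p, h2.symm⟩ (h2.ne hs.nodup l2).symm (by simpa [huu.symm] using k')
    · obtain ⟨m1, m2, -⟩ := mid_facts hs.nodup hs.len hs.link h1 h2 huu
      rcases hf.p4 h1.mem_left h1.mem_right h2.mem_right (hs.link _ _ h1) (hs.link _ _ h2) huu
        (m2 h3) m1 with k | ⟨e, k⟩ | k
      · exact Or.inl ⟨∅, by simp, fun c _ => (k c).pay (fun x hx => ⟨hx.1, hx.2.1⟩)
          (fun h' => absurd rfl h'.2.2.1) (fun h' => absurd rfl h'.2.2.2) le_rfl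
          fun φ _ a2 a3 => ⟨badT_iff.1 a3, a2⟩⟩
      · exact Or.inl (fixp ⟨e, fun φ hφ => k φ (badT_iff.1 hφ.2)⟩)
      · exact Or.inr fun c => (k c).pay
          (fun x hx => hx ▸ ⟨h1.mem_right, (h1.ne hs.nodup l2).symm⟩) (fun _ => le_rfl)
          (fun h' => absurd h' huu.symm) (by omega) fun φ _ a2 a3 => ⟨badT_iff.1 a3, a2⟩
  · obtain ⟨-, m2, -⟩ := mid_facts hs.nodup hs.len hs.link h1 h2 huu
    obtain ⟨P, k1, k2, k3⟩ := hf.sl h1.mem_left h1.mem_right h2.mem_right (hs.link _ _ h1)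
      (h2.ne hs.nodup l2) huu (m2 h3) fun x => if x = p then c else γ
    refine ⟨P, k1, fun φ _ a2 a3 a4 a5 => k3 φ (fun x => ?_) ⟨badT_iff.1 a5, ?_⟩⟩
    · by_cases hx : x ∈ Mid {v | v ∈ B} p u u'
      · exact a4 x (exists_cyc_of_mem hx.1) hx.2.1 hx.2.2.1 hx.2.2.2
      · simp [k2 x hx]
    · rintro v (rfl | rfl)
      · simpa using a2
      · simpa [(h1.ne hs.nodup l2).symm] using a3
  · have H := tri_all h hs h2.symm h3.symm h1
    rcases tri_star (hd h1 h2 h3) (by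
      rcases H with H | H | H | H | H
      · tauto
      · tauto
      · tauto
      · have := H.symm; tauto
      · have := H.symm; tauto) with k | k | k
    · refine Or.inl fun c d => ?_
      obtain ⟨Z, z1, z2⟩ := k c d
      exact ⟨Z, z1, fun φ a1 a2 a3 a4 a5 => a4 (z2 φ ⟨a1, a5⟩ a2 a3)⟩
    · exact Or.inr (Or.inl k.fix)
    · exact Or.inr (Or.inr k.fix)
  · rcases tri_p5 (hd h1 h2 h3) (tri_two h hs h1 h2 h3) with ⟨c₀, k⟩ | k
    · refine Or.inl ⟨c₀, fun c hc => ?_⟩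
      obtain ⟨Z, z1, z2⟩ := k c hc
      exact ⟨Z, z1, fun φ a1 a2 a3 a4 => a3 (z2 φ ⟨a1, a4⟩ a2)⟩
    · exact Or.inr k.fix

end Pool.Agent.Lib.MP_0fc16c_co
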