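import Pool.Agent.Lib.MP_0fc16c_co.Ear

/-! A side function on the cycles of a 2-connected graph gives a plane structure. -/

set_option autoImplicit false
set_option linter.unusedSectionVars false

open Finset

namespace Pool.Agent.Lib.MP_0fc16c_co

variable {V : Type*} [Fintype V] [DecidableEq V]

/-- `W z a x` is the side of the cycle `z` on which the edge `ax` lies. -/
structure Sd (G : SimpleGraph V) where
  W : (V → V → ZMod 2) → V → V → ZMod 2
  Y : V → (V → V → ZMod 2) → ZMod 2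
  q : V → V → V → ZMod 2
  symm : ∀ z a x, W z a x = W z x a
  add : ∀ z z' a x, W (z + z') a x = W z a x + W z' a x
  addY : ∀ a z z', Y a (z + z') = Y a z + Y a z'
  anti : ∀ a x y, G.Adj a x → G.Adj a y → x ≠ y → q a x y + q a y x = 1
  loc : ∀ z a x, IsCyc G z → G.Adj a x → z a x = 0 → W z a x = Y a z + ∑ w, z a w * q a w x

namespace Sd

variable {G : SimpleGraph V} (S : Sd G)

theorem w2 {z : V → V → ZMod 2} (hz : IsCyc G z) {c x y : V} (h0 : ∀ w, z c w = 0)
    (hx : G.Adj c x) (hy : G.Adj c y) : S.W z c x = S.W z c y := by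
  rw [S.loc z c x hz hx (h0 x), S.loc z c y hz hy (h0 y)]
  simp [h0]

theorem walk {z : V → V → ZMod 2} (hz : IsCyc G z) {l : List V}
    (hl : ∀ a b, Nx l a b → G.Adj a b) (h0 : ∀ v ∈ l, ∀ w, z v w = 0) {c c' x x' : V}
    (hc : c ∈ l) (hc' : c' ∈ l) (hx : G.Adj c x) (hx' : G.Adj c' x') :
    S.W z c' x' = S.W z c x :=
  (rch_of_list (S := {v | v ∈ l}) hl (fun _ h => h) hc hc').ind
    (P := fun v => ∀ y, G.Adj v y → S.W z v y = S.W z c x)
    (fun _ hy => S.w2 hz (h0 c hc) hy hx)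
    (fun u v _ hv e ih y hy => by rw [S.w2 hz (h0 v hv) hy e.symm, S.symm, ih v e]) x' hx'

theorem w3 {p1 p2 p3 : V → V → ZMod 2} {a u1 u2 u3 : V}
    (h1 : ∀ w, p1 a w = if w = u1 then 1 else 0) (h2 : ∀ w, p2 a w = if w = u2 then 1 else 0)
    (h3 : ∀ w, p3 a w = if w = u3 then 1 else 0) (c12 : IsCyc G (p1 + p2))
    (c13 : IsCyc G (p1 + p3)) (c23 : IsCyc G (p2 + p3)) (a1 : G.Adj a u1) (a2 : G.Adj a u2)
    (a3 : G.Adj a u3) (n12 : u1 ≠ u2) (n13 : u1 ≠ u3) (n23 : u2 ≠ u3) :
    S.W (p2 + p3) a u1 + S.W (p1 + p3) a u2 + S.W (p1 + p2) a u3 = 1 := by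
  rw [S.loc _ a u1 c23 a1 (by simp [h2, h3, n12, n13]),
    S.loc _ a u2 c13 a2 (by simp [h1, h3, n12.symm, n23]),
    S.loc _ a u3 c12 a3 (by simp [h1, h2, n13.symm, n23.symm])]
  simp only [S.addY, Pi.add_apply, h1, h2, h3, add_mul, sum_add_distrib, ite_mul, one_mul,
    zero_mul, sum_ite_eq', mem_univ, if_true]
  have e1 := S.anti a u1 u2 a1 a2 n12
  have e2 := S.anti a u1 u3 a1 a3 n13
  have e3 := S.anti a u2 u3 a2 a3 n23
  linear_combination (norm := (ring_nf; reduce_mod_char)) e1 + e2 + e3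

end Sd

/-- The edges of `G` outside `D` are distributed among the faces of `D`. -/
structure Inv {G : SimpleGraph V} (S : Sd G) (D : Pl V) (F : V → V → ℕ) : Prop where
  le : D.G ≤ G
  ne : D.G.support.Nonempty
  symm : ∀ x y, F x y = F y x
  out : ∀ c x y, G.Adj c x → G.Adj c y → c ∉ D.G.support → F c x = F c y
  same : ∀ x y x' y', G.Adj x y → ¬ D.G.Adj x y → G.Adj x' y' → ¬ D.G.Adj x' y' →
    F x y = F x' y' →
    S.W (cutf D.G D.f (ind (F x y))) x y = S.W (cutf D.G D.f (ind (F x y))) x' y'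
  on : ∀ c x, G.Adj c x → ¬ D.G.Adj c x → c ∈ D.G.support → D.On (F c x) c

theorem isCyc_cutf {G : SimpleGraph V} (D : Pl V) (h : D.G ≤ G) (χ : ℕ → ZMod 2) :
    IsCyc G (cutf D.G D.f χ) :=
  ⟨cutf_symm _ _ _, fun _ _ e => cutf_nadj fun e' => e (h e'), D.even χ⟩

/-- Existence of an ear. -/
theorem exists_ear {G H : SimpleGraph V} (c1 : Conn G Set.univ) (c2 : ∀ v, Conn G {v}ᶜ)
    (hne : H.support.Nonempty) (hH : ∃ x y, G.Adj x y ∧ ¬ H.Adj x y) :
    ∃ a b m, a ∈ H.support ∧ b ∈ H.support ∧ a ≠ b ∧ m.Nodup ∧ (∀ v ∈ m, v ∉ H.support) ∧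
      (m = [] → ¬ H.Adj a b) ∧ ∀ x y, Nx (a :: m ++ [b]) x y → G.Adj x y := by
  obtain ⟨a, x, ha, hax, hn⟩ : ∃ a x, a ∈ H.support ∧ G.Adj a x ∧ ¬ H.Adj a x := by
    by_contra hc
    push Not at hc
    obtain ⟨r, hr⟩ := hne
    obtain ⟨x, y, h1, h2⟩ := hH
    exact h2 (hc x y ((c1 r trivial x trivial).ind (P := (· ∈ H.support)) hr
      fun u v _ _ e hu => ⟨u, (hc u v hu e).symm⟩) h1)
  by_cases hx : x ∈ H.support
  · refine ⟨a, x, [], ha, hx, hax.ne, List.nodup_nil, by simp, fun _ => hn, fun u v h => ?_⟩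
    rcases nx_cons_cons.1 h with ⟨rfl, rfl⟩ | h
    · exact hax
    · exact absurd h nx_single
  obtain ⟨c, hc⟩ := ha
  have key := (c2 a c hc.ne' x hax.ne').ind
    (P := fun y => (y ∈ H.support ∧ y ≠ a) ∨ ∃ m b, b ∈ H.support ∧ b ≠ a ∧ (y :: m).Nodup ∧
      (∀ v ∈ y :: m, v ∉ H.support) ∧ ∀ u v, Nx (y :: m ++ [b]) u v → G.Adj u v)
    (Or.inl ⟨⟨a, hc.symm⟩, hc.ne'⟩) (fun u v _ hv e ih => by
      by_cases h : v ∈ H.support
      · exact Or.inl ⟨h, hv⟩
      right
      rcases ih with ih | ⟨m, b, h1, h2, h3, h4, h5⟩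
      · refine ⟨[], u, ih.1, ih.2, by simp, by simpa using h, fun p q k => ?_⟩
        rcases nx_cons_cons.1 k with ⟨rfl, rfl⟩ | k
        · exact e.symm
        · exact absurd k nx_single
      · by_cases k : v ∈ u :: m
        · obtain ⟨s, t, e'⟩ := List.append_of_mem k
          rw [e'] at h3 h4 h5
          refine ⟨t, b, h1, h2, h3.of_append_right, fun w hw => h4 w (List.mem_append_right _ hw),
            fun p q k => h5 p q ?_⟩
          obtain ⟨l1, l2, k⟩ := k
          exact ⟨s ++ l1, l2, by rw [List.append_assoc, k, List.append_assoc]⟩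
        · refine ⟨u :: m, b, h1, h2, List.nodup_cons.2 ⟨k, h3⟩, fun w hw => ?_, fun p q k => ?_⟩
          · rcases List.mem_cons.1 hw with rfl | hw
            · exact h
            · exact h4 w hw
          · rcases nx_cons_cons.1 k with ⟨rfl, rfl⟩ | k
            · exact e.symm
            · exact h5 p q k)
  rcases key with h | ⟨m, b, h1, h2, h3, h4, h5⟩
  · exact absurd h.1 hx
  · refine ⟨a, b, x :: m, ⟨c, hc⟩, h1, h2.symm, h3, h4, by simp, fun p q k => ?_⟩
    rcases nx_cons_cons.1 k with ⟨rfl, rfl⟩ | k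
    · exact hax
    · exact h5 p q k

theorem nx_first {a b q : V} {m t : List V} (h : m ++ [b] = q :: t) : Nx (a :: m ++ [b]) a q :=
  ⟨[], t, by rw [List.cons_append, h]; rfl⟩

theorem nx_inner' {a b x y : V} {m : List V} (h : Nx m x y) : Nx (a :: m ++ [b]) x y := by
  obtain ⟨l1, l2, rfl⟩ := h
  exact ⟨a :: l1, l2 ++ [b], by simp⟩

theorem pz_first {a b q : V} {m t : List V} (h : m ++ [b] = q :: t) (ha : a ∉ m ++ [b]) (w : V) :
    pz (a :: m ++ [b]) a w = if w = q then 1 else 0 := by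
  rw [List.cons_append, h]
  exact pz_head (h ▸ ha) w

theorem Inv.step {G : SimpleGraph V} {S : Sd G} {D : Pl V} {F : V → V → ℕ} (I : Inv S D F)
    {a b : V} {m m1 m2 : List V} {t : ℕ} (hf : IsFace D.G D.f t (a :: m1 ++ b :: m2))
    (hm : m.Nodup) (hs : ∀ v ∈ m, v ∉ D.G.support) (hab : m = [] → ¬ D.G.Adj a b)
    (hQ : ∀ x y, Nx (a :: m ++ [b]) x y → G.Adj x y ∧ ¬ D.G.Adj x y ∧ F x y = t) :
    ∃ D' F', Inv S D' F' ∧ D.G < D'.G := by
  classical
  obtain ⟨D', n, hN, A⟩ := exists_addP D hf hm hs hab (univ.sup fun p : V × V => F p.1 p.2)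
  have hFn : ∀ x y, F x y ≠ n := fun x y =>
    ((Finset.le_sup (f := fun p : V × V => F p.1 p.2) (mem_univ (x, y))).trans_lt hN).ne
  have hle : D.G ≤ D'.G := fun x y h => (A.adj x y).2 (Or.inl h)
  have hle' : D'.G ≤ G := fun x y h => by
    rcases (A.adj x y).1 h with h | h | h
    · exact I.le h
    · exact (hQ x y h).1
    · exact (hQ y x h).1.symm
  obtain ⟨u1, t1, e1⟩ : ∃ q tq, m1 ++ [b] = q :: tq := by cases m1 <;> simp
  obtain ⟨u2, t2, e2⟩ : ∃ q tq, m2.reverse ++ [b] = q :: tq := by cases m2.reverse <;> simp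
  obtain ⟨u3, t3, e3⟩ : ∃ q tq, m ++ [b] = q :: tq := by cases m <;> simp
  have hadj : ∀ x y, Cyc (a :: m1 ++ b :: m2) x y → D.G.Adj x y :=
    fun x y h => ((Pl.E_iff hf).2 h).1
  have g1 : ∀ x y, Nx (a :: m1 ++ [b]) x y → D.G.Adj x y := fun x y h =>
    hadj _ _ (cyc_of_nx (nx_append.2 (Or.inl h)))
  have g2 : ∀ x y, Nx (a :: m2.reverse ++ [b]) x y → D.G.Adj x y := fun x y h => by
    have hf' := (hf.rot (l1 := a :: m1)).reverse
    have e : ((b :: m2) ++ (a :: m1)).reverse = m1.reverse ++ (a :: m2.reverse ++ [b]) := by simp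
    rw [e] at hf'
    obtain ⟨l1, l2, h⟩ := h
    exact ((Pl.E_iff hf').2 (cyc_of_nx ⟨m1.reverse ++ l1, l2, by rw [h, List.append_assoc]⟩)).1
  have hp2 : pz (b :: m2 ++ [a]) = pz (a :: m2.reverse ++ [b]) := (pz_rev b a m2).symm
  obtain ⟨p1, hp1⟩ : ∃ p, p = pz (a :: m1 ++ [b]) := ⟨_, rfl⟩
  obtain ⟨p2, hp2'⟩ : ∃ p, p = pz (a :: m2.reverse ++ [b]) := ⟨_, rfl⟩
  obtain ⟨p3, hp3⟩ : ∃ p, p = pz (a :: m ++ [b]) := ⟨_, rfl⟩
  have b12 : cutf D.G D.f (ind t) = p1 + p2 := by rw [hf.2.2, cz_two, hp2, hp1, hp2']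
  have b13 : cutf D'.G D'.f (ind n) = p1 + p3 := by rw [A.c1, hp1, hp3]
  have b23 : cutf D'.G D'.f (ind t) = p2 + p3 := by rw [A.c2, hp2, hp2', hp3]
  have c12 : IsCyc G (p1 + p2) := b12 ▸ isCyc_cutf D I.le _
  have c13 : IsCyc G (p1 + p3) := b13 ▸ isCyc_cutf D' hle' _
  have c23 : IsCyc G (p2 + p3) := b23 ▸ isCyc_cutf D' hle' _
  have sum : p1 + p3 = (p1 + p2) + (p2 + p3) := by
    funext x y
    simp only [Pi.add_apply]
    generalize p1 x y = p; generalize p2 x y = q; generalize p3 x y = r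
    revert p q r; decide
  have a1 := g1 _ _ (nx_first (a := a) e1)
  have a2 := g2 _ _ (nx_first (a := a) e2)
  have a3 := hQ _ _ (nx_first (a := a) e3)
  have z13 : ∀ v, v ∉ a :: m1 ++ b :: m.reverse → ∀ w, (p1 + p3) v w = 0 := fun v hv w => by
    rw [← b13, A.f1.2.2]
    by_contra hc
    exact hv (cyc_of_cz hc).mem_left
  have z23 : ∀ v, v ∉ b :: m2 ++ a :: m → ∀ w, (p2 + p3) v w = 0 := fun v hv w => by
    rw [← b23, A.f2.2.2]
    by_contra hc
    exact hv (cyc_of_cz hc).mem_left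
  have hnd := hf.1
  have hms : ∀ v ∈ a :: m1 ++ b :: m2, v ∉ m := fun v hv h => hs v h ((Pl.on_iff hf).2 hv).supp
  let F' : V → V → ℕ := fun x y =>
    if F x y = t then (if S.W (p2 + p3) x y = S.W (p2 + p3) a u1 then n else t) else F x y
  have old : ∀ x y, F x y ≠ t → F' x y = F x y := fun x y h => if_neg h
  have new : ∀ x y, F x y = t → (S.W (p2 + p3) x y = S.W (p2 + p3) a u1 ∧ F' x y = n) ∨
      (S.W (p2 + p3) x y ≠ S.W (p2 + p3) a u1 ∧ F' x y = t) := fun x y h => by
    by_cases e : S.W (p2 + p3) x y = S.W (p2 + p3) a u1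
    · exact Or.inl ⟨e, by simp only [F', if_pos h, if_pos e]⟩
    · exact Or.inr ⟨e, by simp only [F', if_pos h, if_neg e]⟩
  have both : ∀ c x, F c x = t → c = a ∨ c = b ∨ c ∈ m → D'.On (F' c x) c := by
    intro c x h hc
    rcases new c x h with ⟨-, e⟩ | ⟨-, e⟩ <;> rw [e]
    · refine (Pl.on_iff A.f1).2 ?_
      simp only [List.mem_append, List.mem_cons, List.mem_reverse]
      tauto
    · refine (Pl.on_iff A.f2).2 ?_
      simp only [List.mem_append, List.mem_cons]
      tauto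
  refine ⟨D', F', ⟨hle', I.ne.mono (SimpleGraph.support_mono hle), fun x y => ?_,
    fun c x y hx hy hc => ?_, fun x y x' y' h1 h2 h3 h4 e => ?_, fun c x h1 h2 hc => ?_⟩,
    lt_of_le_of_ne hle fun e => a3.2.1 ?_⟩
  · simp only [F', I.symm x y, S.symm _ x y]
  · have := S.w2 c23 (c := c) (fun w => by
      rw [← b23]; exact cutf_nadj fun e => hc ⟨w, e⟩) hx hy
    simp only [F', I.out c x y hx hy fun h => hc (SimpleGraph.support_mono hle h), this]
  · have k2 : ¬ D.G.Adj x y := fun h => h2 (hle h)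
    have k4 : ¬ D.G.Adj x' y' := fun h => h4 (hle h)
    by_cases e1 : F x y = t <;> by_cases e2 : F x' y' = t
    · have h5 := I.same x y x' y' h1 k2 h3 k4 (e1.trans e2.symm)
      rw [e1, b12] at h5
      rcases new x y e1 with ⟨r1, r2⟩ | ⟨r1, r2⟩ <;> rcases new x' y' e2 with ⟨r3, r4⟩ | ⟨r3, r4⟩
      · rw [r2, b13, sum, S.add, S.add (p1 + p2), h5, r1, r3]
      · exact absurd (r2.symm.trans (e.trans r4)) A.nt
      · exact absurd (r4.symm.trans (e.symm.trans r2)) A.nt
      · rw [r2, b23]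
        revert r1 r3
        generalize S.W (p2 + p3) x y = p
        generalize S.W (p2 + p3) x' y' = q
        generalize S.W (p2 + p3) a u1 = r
        revert p q r; decide
    · rw [old x' y' e2] at e
      rcases new x y e1 with ⟨-, r⟩ | ⟨-, r⟩
      · exact absurd (e.symm.trans r) (hFn _ _)
      · exact absurd (e.symm.trans r) e2
    · rw [old x y e1] at e
      rcases new x' y' e2 with ⟨-, r⟩ | ⟨-, r⟩
      · exact absurd (e.trans r) (hFn _ _)
      · exact absurd (e.trans r) e1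
    · rw [old x y e1, old x' y' e2] at e
      rw [old x y e1, A.cut _ e1 (hFn _ _)]
      exact I.same x y x' y' h1 k2 h3 k4 e
  · have k2 : ¬ D.G.Adj c x := fun h => h2 (hle h)
    by_cases hc' : c ∈ D.G.support
    · have h5 := I.on c x h1 k2 hc'
      by_cases e : F c x = t
      · rw [e] at h5
        have h6 := (Pl.on_iff hf).1 h5
        simp only [List.mem_append, List.mem_cons] at h6
        rcases h6 with (h6 | h6) | h6 | h6
        · exact both c x e (Or.inl h6)
        · have h7 : u1 ∈ m1 := by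
            cases m1 with
            | nil => simp at h6
            | cons v m1 => rw [← (List.cons.inj e1).1]; simp
          have h8 := S.walk c23 (l := m1) (fun p q k => I.le (g1 p q (nx_inner' k)))
            (fun v hv => z23 v (by
              have := hms v (by simp [hv])
              grind)) h7 h6 (I.le a1.symm) h1
          rcases new c x e with ⟨-, r⟩ | ⟨r, -⟩
          · rw [r]
            exact (Pl.on_iff A.f1).2 (by simp [h6])
          · exact absurd (h8.trans (S.symm _ _ _)) r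
        · exact both c x e (Or.inr (Or.inl h6))
        · have h7 : u2 ∈ m2.reverse := by
            have h6' := List.mem_reverse.2 h6
            cases hr : m2.reverse with
            | nil => simp [hr] at h6'
            | cons v r => rw [hr] at e2; rw [← (List.cons.inj e2).1]; simp
          have h8 := S.walk c13 (l := m2.reverse) (fun p q k => I.le (g2 p q (nx_inner' k)))
            (fun v hv => z13 v (by
              have hv' := List.mem_reverse.1 hv
              have := hms v (by simp [hv'])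
              grind)) h7 (List.mem_reverse.2 h6) (I.le a2.symm) h1
          have h9 := I.same c x a u3 h1 k2 a3.1 a3.2.1 (e.trans a3.2.2.symm)
          rw [e, b12] at h9
          have hu1 : u1 ∈ m1 ++ [b] := by rw [e1]; simp
          have th := S.w3 (p1 := p1) (p2 := p2) (p3 := p3) (a := a)
            (fun w => hp1 ▸ pz_first e1 (by grind) w) (fun w => hp2' ▸ pz_first e2 (by grind) w)
            (fun w => hp3 ▸ pz_first e3 (by have := hms a (by simp); grind) w) c12 c13 c23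
            (I.le a1) (I.le a2) a3.1 (by have := List.mem_reverse.1 h7; grind)
            (fun k => a3.2.1 (k ▸ a1)) (fun k => a3.2.1 (k ▸ a2))
          rcases new c x e with ⟨r, -⟩ | ⟨-, r⟩
          · exfalso
            rw [S.symm _ u2 a] at h8
            rw [← r, ← h8, ← h9, sum, S.add (p1 + p2)] at th
            revert th
            generalize S.W (p2 + p3) c x = p
            generalize S.W (p1 + p2) c x = q
            revert p q; decide
          · rw [r]
            exact (Pl.on_iff A.f2).2 (by simp [h6])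
      · rw [old c x e]
        obtain ⟨w, hw⟩ := h5
        refine ⟨w, (cutf_ind D'.ne).1 ?_⟩
        rw [A.cut _ e (hFn _ _)]
        exact (cutf_ind D.ne).2 hw
    · obtain ⟨w, hw⟩ := hc
      have ha : a ∈ D.G.support := ⟨_, a1⟩
      have hb : b ∈ D.G.support := ((Pl.on_iff hf).2 (by simp)).supp
      rcases (A.adj c w).1 hw with h | h | h
      · exact absurd ⟨w, h⟩ hc'
      · have h5 := h.mem_left
        refine both c x ((I.out c x w h1 (hQ _ _ h).1 hc').trans (hQ _ _ h).2.2) ?_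
        simp only [List.mem_append, List.mem_cons, List.not_mem_nil] at h5
        tauto
      · have h5 := h.mem_right
        refine both c x ((I.out c x w h1 (hQ _ _ h).1.symm hc').trans
          ((I.symm _ _).trans (hQ _ _ h).2.2)) ?_
        simp only [List.mem_append, List.mem_cons, List.not_mem_nil] at h5
        tauto
  · rw [e]
    exact (A.adj _ _).2 (Or.inr (Or.inl (nx_first e3)))

/-- All edges of an ear lie in one face. -/
theorem Inv.ear {G : SimpleGraph V} {S : Sd G} {D : Pl V} {F : V → V → ℕ} (I : Inv S D F)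
    {b : V} {t : ℕ} : ∀ (m : List V) (a : V), (∀ v ∈ m, v ∉ D.G.support) →
      (∀ x y, Nx (a :: m ++ [b]) x y → G.Adj x y) → (∀ q r, m ++ [b] = q :: r → F a q = t) →
      ∀ x y, Nx (a :: m ++ [b]) x y → F x y = t
  | [], a, _, _, h3 => by
    intro x y h
    rcases nx_cons_cons.1 h with ⟨rfl, rfl⟩ | h
    · exact h3 _ [] rfl
    · exact absurd h nx_single
  | v :: m, a, h1, h2, h3 => by
    intro x y h
    rcases nx_cons_cons.1 h with ⟨rfl, rfl⟩ | h
    · exact h3 _ _ rfl
    refine I.ear m v (fun w hw => h1 w (List.mem_cons_of_mem _ hw))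
      (fun p q k => h2 p q (nx_cons_cons.2 (Or.inr k))) (fun q r e => ?_) x y h
    rw [I.out v q a (h2 v q (nx_cons_cons.2 (Or.inr (nx_first e))))
      (h2 a v (nx_cons_cons.2 (Or.inl ⟨rfl, rfl⟩))).symm (h1 v (by simp)), I.symm]
    exact h3 _ _ rfl

theorem Inv.next {G : SimpleGraph V} {S : Sd G} {D : Pl V} {F : V → V → ℕ} (I : Inv S D F)
    (c1 : Conn G Set.univ) (c2 : ∀ v, Conn G {v}ᶜ) (hne : D.G ≠ G) :
    ∃ D' F', Inv S D' F' ∧ D.G < D'.G := by
  obtain ⟨a, b, m, ha, hb, hab, hm, hs, h0, hQ⟩ := exists_ear (H := D.G) c1 c2 I.ne (by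
    by_contra hc
    push Not at hc
    exact hne (le_antisymm I.le fun x y h => hc x y h))
  have hout : ∀ x y, Nx (a :: m ++ [b]) x y → ¬ D.G.Adj x y := by
    intro x y h e
    cases m with
    | nil =>
      rcases nx_cons_cons.1 h with ⟨rfl, rfl⟩ | h
      · exact h0 rfl e
      · exact nx_single h
    | cons q m =>
      rcases nx_cons_cons.1 h with ⟨rfl, rfl⟩ | h
      · exact hs y (by simp) ⟨x, e.symm⟩
      · exact hs x (Nx.mem_dropLast h) ⟨y, e⟩
  obtain ⟨q, r, e⟩ : ∃ q r, m ++ [b] = q :: r := by cases m <;> simp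
  have hF := I.ear (t := F a q) m a hs hQ (fun q' r' e' => by
    rw [e] at e'; rw [(List.cons.inj e').1])
  have oa : D.On (F a q) a := I.on a q (hQ _ _ (nx_first e)) (hout _ _ (nx_first e)) ha
  obtain ⟨s, v, e'⟩ : ∃ s v, a :: m = s ++ [v] :=
    ⟨_, _, (List.dropLast_append_getLast (List.cons_ne_nil a m)).symm⟩
  have hv : Nx (a :: m ++ [b]) v b := ⟨s, [], by rw [e']; simp⟩
  have ob : D.On (F a q) b := by
    rw [← hF v b hv, I.symm]
    exact I.on b v (hQ _ _ hv).symm (fun k => hout _ _ hv k.symm) hb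
  obtain ⟨l, hl⟩ := Pl.exists_face oa
  obtain ⟨l1, l2, rfl⟩ := List.append_of_mem ((Pl.on_iff hl).1 oa)
  have hl' : IsFace D.G D.f (F a q) (a :: (l2 ++ l1)) := by simpa using hl.rot
  obtain ⟨m1, m2, e2⟩ := List.append_of_mem
    ((List.mem_cons.1 ((Pl.on_iff hl').1 ob)).resolve_left hab.symm)
  rw [e2] at hl'
  exact I.step (m1 := m1) (m2 := m2) hl' hm hs h0
    fun x y h => ⟨hQ x y h, hout x y h, hF x y h⟩

/-- A 2-connected graph with a side function has a plane structure. -/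
theorem pl_of_side {G : SimpleGraph V} (S : Sd G) (c1 : Conn G Set.univ) (c2 : ∀ v, Conn G {v}ᶜ)
    {l : List V} (h1 : l.Nodup) (h3 : 3 ≤ l.length) (hl : ∀ x y, Cyc l x y → G.Adj x y) :
    ∃ D : Pl V, D.G = G := by
  classical
  obtain ⟨D0, d1, d2, d3⟩ := exists_pl_cycle h1 h3
  have hle : D0.G ≤ G := fun x y h => hl x y ((d1 x y).1 h)
  have hz : IsCyc G (cz l) := d2.2.2 ▸ isCyc_cutf D0 hle _
  have hf : ∀ x : ZMod 2, IsFace D0.G D0.f x.val l := fun x => by
    rcases z2_cases x with rfl | rfl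
    · exact d2
    · exact d3
  have I0 : Inv S D0 fun x y => (S.W (cz l) x y).val := by
    refine ⟨hle, ?_, fun x y => by rw [S.symm], fun c x y hx hy hc => ?_,
      fun x y x' y' _ _ _ _ e => ?_, fun c x _ _ hc => ?_⟩
    · obtain ⟨v, hv⟩ := List.exists_mem_of_length_pos (l := l) (by omega)
      exact ⟨v, ((Pl.on_iff d2).2 hv).supp⟩
    · rw [S.w2 hz (fun w => by
        by_contra k
        exact hc ⟨w, (d1 c w).2 (cyc_of_cz k)⟩) hx hy]
    · rw [(hf _).2.2]
      exact ZMod.val_injective 2 e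
    · obtain ⟨w, hw⟩ := hc
      exact (Pl.on_iff (hf _)).2 ((d1 c w).1 hw).mem_left
  have key : ∀ H : SimpleGraph V, ∀ D F, D.G = H → Inv S D F → ∃ D : Pl V, D.G = G := by
    intro H
    induction H using WellFoundedGT.induction with
    | ind H ih =>
      intro D F e I
      by_cases h : D.G = G
      · exact ⟨D, h⟩
      · obtain ⟨D', F', I', lt⟩ := I.next c1 c2 h
        exact ih _ (e ▸ lt) D' F' rfl I'
  exact key _ D0 _ rfl I0

end Pool.Agent.Lib.MP_0fc16c_co
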