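import Pool.Agent.Lib.MP_0fc16c_co.Cut

-- part Pool.Agent.Lib.MP_0fc16c_co.Merge
section

/-! Merging a face into the outer face; the boundary states of the main induction. -/

set_option autoImplicit false
set_option linter.unusedSectionVars false

open Finset

namespace Pool.Agent.Lib.MP_0fc16c_co

variable {V : Type*} [Fintype V] [DecidableEq V] {C : Type*} [DecidableEq C]

theorem IsFace.eq {G : SimpleGraph V} {f : V → V → ℕ} {k : ℕ} {l l' : List V}
    (h : IsFace G f k l) (e : l = l') : IsFace G f k l' := e ▸ h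

/-- Indicator of the faces other than `o` and `g`. -/
def mχ (o g : ℕ) : ℕ → ZMod 2 := fun k => (ind o + ind g) k + 1

theorem mχ_eq_one {o g k : ℕ} (h : g ≠ o) : mχ o g k = 1 ↔ k ≠ o ∧ k ≠ g := by
  simp only [mχ, ind, Pi.add_apply]
  by_cases h1 : k = o <;> by_cases h2 : k = g
  · exact absurd (h2.symm.trans h1) h
  · simp only [if_pos h1, if_neg h2]; simp [h1]
  · simp only [if_pos h2, if_neg h1]; simp [h2]
  · simp [h1, h2]

theorem mχ_o {o g : ℕ} (h : g ≠ o) : mχ o g o = 0 :=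
  z2_ne_one.1 fun e => ((mχ_eq_one h).1 e).1 rfl

theorem cut_mχ {D : Pl V} {o g : ℕ} {l1 l2 : List V} (h1 : IsFace D.G D.f o l1)
    (h2 : IsFace D.G D.f g l2) : cutf D.G D.f (mχ o g) = cz l1 + cz l2 := by
  unfold mχ; rw [cutf_const, cutf_add, h1.2.2, h2.2.2]

/-- `D'` is `D` with the face `g` merged into `o`. -/
structure Mrg (D D' : Pl V) (o g : ℕ) : Prop where
  ne : g ≠ o
  r : Restr D D' (mχ o g) o

namespace Mrg
variable {D D' : Pl V} {o g : ℕ}

theorem E_eq (h : Mrg D D' o g) {k : ℕ} (h1 : k ≠ o) (h2 : k ≠ g) : D'.E k = D.E k :=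
  h.r.E_in k ((mχ_eq_one h.ne).2 ⟨h1, h2⟩)

theorem ne_g (h : Mrg D D' o g) {k : ℕ} (h1 : k ≠ o) {v : V} (hv : D'.On k v) : k ≠ g :=
  ((mχ_eq_one h.ne).1 (h.r.chi_of_on h1 hv)).2

theorem adj_or (h : Mrg D D' o g) {a b : V} (hab : D.G.Adj a b) :
    D'.G.Adj a b ∨ (D.E o a b ∧ D.E g a b) := by
  by_cases h' : D'.G.Adj a b
  · exact Or.inl h'
  · right
    rw [h.r.adj, mχ_eq_one h.ne, mχ_eq_one h.ne] at h'
    have := D.ne a b hab
    refine ⟨⟨hab, ?_⟩, ⟨hab, ?_⟩⟩ <;> by_contra hc <;> apply h' <;> refine ⟨hab, ?_⟩ <;> omega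

theorem not_adj (h : Mrg D D' o g) {a b : V} (h1 : D.E o a b) (h2 : D.E g a b) :
    ¬ D'.G.Adj a b := by
  rw [h.r.adj, mχ_eq_one h.ne, mχ_eq_one h.ne]
  have := h.ne
  rintro ⟨-, h3⟩
  have := h1.2; have := h2.2; omega

theorem near (h : Mrg D D' o g) {g' : ℕ} {a b : V} (hn : Near D' o g' a b) : Near D o g a b := by
  rcases hn with hn | ⟨k, h1, -, h3, h4⟩
  · exact Or.inl (h.r.le hn)
  · exact Or.inr ⟨k, h1, h.ne_g h1 h3, h.r.on_le h1 h3, h.r.on_le h1 h4⟩

theorem n1 (h : Mrg D D' o g) (hn : N1 D o) : N1 D' o := by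
  refine ⟨fun k hk a b ha hb hab => ?_, fun k k' hk hk' hkk a b hab h1 h2 h3 h4 => ?_⟩
  · rw [h.r.E_eq hk ha]
    exact hn.1 k hk a b (h.r.on_le hk ha) (h.r.on_le hk hb) (h.r.le hab)
  · have := hn.2 k k' hk hk' hkk a b hab (h.r.on_le hk h1) (h.r.on_le hk h2) (h.r.on_le hk' h3)
      (h.r.on_le hk' h4)
    have := hn.1 k hk a b (h.r.on_le hk h1) (h.r.on_le hk h2) this
    rw [← h.r.E_eq hk h1] at this
    exact this.1

theorem QE_eq (h : Mrg D D' o g) {k : ℕ} (h1 : k ≠ o) (h2 : k ≠ g) (R : V → V → Prop) :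
    QE D' R k = QE D R k := by
  unfold QE; rw [h.E_eq h1 h2]

theorem good (h : Mrg D D' o g) {R : V → V → Prop} {bad : ℕ → (V → C) → Prop} {x y : V}
    (hg : Good D o R bad x y) : Good D' o R bad x y := by
  rintro k hk ⟨v, hv⟩
  rw [h.QE_eq hk (h.ne_g hk hv), h.r.E_eq hk hv]
  exact hg k hk ⟨v, h.r.on_le hk hv⟩

theorem lift (h : Mrg D D' o g) {R : V → V → Prop} {bad : ℕ → (V → C) → Prop}
    {L L' : V → Finset C} {φ : V → C} (hc : Col D' o R L' bad φ)
    (hL : ∀ v ∈ D.G.support, φ v ∈ L v)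
    (he : ∀ a b, D.E o a b → D.E g a b → R a b → φ a ≠ φ b)
    (hb : Pr (QE D R g) φ → ¬ bad g φ) : Col D o R L bad φ := by
  have hp : ∀ a b, D.G.Adj a b → R a b → φ a ≠ φ b := fun a b hab hR => by
    rcases h.adj_or hab with h' | h'
    · exact hc.2.1 a b h' hR
    · exact he a b h'.1 h'.2 hR
  refine ⟨hL, hp, fun k hk ⟨v, hv⟩ => ?_⟩
  by_cases hg : k = g
  · subst hg; exact hb fun a b hab => hp a b hab.1.1 hab.2
  · exact hc.2.2 k hk ⟨v, (on_congr (h.E_eq hk hg)).2 hv⟩

end Mrg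

theorem exists_mrg {D : Pl V} {o g : ℕ} (hog : g ≠ o) {l1 l2 l : List V}
    (h1 : IsFace D.G D.f o l1) (h2 : IsFace D.G D.f g l2) (hl : l.Nodup) (h3 : 3 ≤ l.length)
    (hc : cz l1 + cz l2 = cz l) : ∃ D', Mrg D D' o g ∧ IsFace D'.G D'.f o l := by
  obtain ⟨D', r, f⟩ := exists_restr D (mχ o g) o (mχ_o hog) l hl h3 ((cut_mχ h1 h2).trans hc)
  exact ⟨D', ⟨hog, r⟩, f⟩

theorem Col.update {D : Pl V} {o : ℕ} {R : V → V → Prop} {bad : ℕ → (V → C) → Prop}
    {L : V → Finset C} {φ : V → C} {x y : V} (hc : Col D o R L bad φ) (hg : Good D o R bad x y)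
    {p : V} (hp : p ∉ D.G.support) (c : C) : Col D o R L bad (Function.update φ p c) := by
  have e : ∀ v ∈ D.G.support, Function.update φ p c v = φ v := fun v hv =>
    Function.update_of_ne (by rintro rfl; exact hp hv) _ _
  refine ⟨fun v hv => by rw [e v hv]; exact hc.1 v hv, fun a b hab hR => by
    rw [e a ⟨b, hab⟩, e b ⟨a, hab.symm⟩]; exact hc.2.1 a b hab hR, fun k hk hv hb => ?_⟩
  exact hc.2.2 k hk hv ((hg k hk hv).1 _ _ (fun v hv => e v (PrePl.On.supp hv)) hb)

theorem cyc_three {x y z a b : V} (h : Cyc [x, y, z] a b) :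
    (a = x ∧ b = y) ∨ (a = y ∧ b = x) ∨ (a = y ∧ b = z) ∨ (a = z ∧ b = y) ∨
      (a = x ∧ b = z) ∨ (a = z ∧ b = x) := by
  rw [cyc_cons] at h
  simp only [List.cons_append, List.nil_append, nx_cons_cons, nx_single, or_false] at h
  tauto

theorem single_col {D : Pl V} {o g : ℕ} (hog : g ≠ o) {z p q : V}
    (h1 : IsFace D.G D.f o [z, p, q]) (h2 : IsFace D.G D.f g [z, p, q]) {R : V → V → Prop}
    (hR : ∀ a b, R a b → R b a) {bad : ℕ → (V → C) → Prop} {L : V → Finset C} {φ : V → C}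
    (hz : φ z ∈ L z) (hp : φ p ∈ L p) (hq : φ q ∈ L q) (e1 : R z p → φ z ≠ φ p)
    (e2 : R p q → φ p ≠ φ q) (e3 : R z q → φ z ≠ φ q) (hb : Pr (QE D R g) φ → ¬ bad g φ) :
    Col D o R L bad φ := by
  have hk : ∀ k v, D.On k v → k = o ∨ k = g := by
    intro k v hv
    have := D.dual' (mχ o g) (by rw [cut_mχ h1 h2]; funext a b; exact z2_add_self _) hv
      ((Pl.on_iff h1).2 (show z ∈ _ by simp))
    rw [mχ_o hog] at this
    by_contra hc
    push Not at hc
    rw [(mχ_eq_one hog).2 hc] at this; exact one_ne_zero this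
  have hE : ∀ a b, D.G.Adj a b → Cyc [z, p, q] a b := fun a b hab => by
    rcases hk _ a (D.E_left hab).on with e | e
    · exact (Pl.E_iff h1).1 (e ▸ D.E_left hab)
    · exact (Pl.E_iff h2).1 (e ▸ D.E_left hab)
  have hp' : ∀ a b, D.G.Adj a b → R a b → φ a ≠ φ b := fun a b hab hr => by
    rcases cyc_three (hE a b hab) with ⟨rfl, rfl⟩ | ⟨rfl, rfl⟩ | ⟨rfl, rfl⟩ | ⟨rfl, rfl⟩ |
      ⟨rfl, rfl⟩ | ⟨rfl, rfl⟩
    · exact e1 hr
    · exact (e1 (hR _ _ hr)).symm
    · exact e2 hr
    · exact (e2 (hR _ _ hr)).symm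
    · exact e3 hr
    · exact (e3 (hR _ _ hr)).symm
  refine ⟨fun v ⟨w, hw⟩ => ?_, hp', fun k hko ⟨v, hv⟩ => ?_⟩
  · have := (hE v w hw).mem_left
    simp only [List.mem_cons, List.not_mem_nil, or_false] at this
    rcases this with rfl | rfl | rfl <;> assumption
  · obtain rfl := (hk k v hv).resolve_left hko
    exact hb fun a b hab => hp' a b hab.1.1 hab.2

/-- The boundary is `z, τ, p, ws, q`, with root edge `zq`; `u` is the vertex before `p`. -/
structure GS (D : Pl V) (o : ℕ) (z : V) (τ pre : List V) (u p : V) (ws : List V) (q : V) :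
    Prop where
  face : IsFace D.G D.f o (z :: τ ++ p :: ws ++ [q])
  hz : z :: τ = pre ++ [u]
  n1 : N1 D o
  hp : ∀ y ∈ pre, ¬ Near D o o y p
  h2 : ∀ x ∈ p :: ws ++ [q], ∀ y ∈ p :: ws ++ [q], x ≠ y → Near D o o x y →
    Nx (p :: ws ++ [q]) x y ∨ Nx (p :: ws ++ [q]) y x

namespace GS
variable {D : Pl V} {o : ℕ} {z : V} {τ pre : List V} {u p : V} {ws : List V} {q : V}

theorem face' (h : GS D o z τ pre u p ws q) :
    IsFace D.G D.f o (pre ++ u :: p :: (ws ++ [q])) := by
  refine h.face.eq ?_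
  rw [h.hz]; simp

theorem Eup (h : GS D o z τ pre u p ws q) : D.E o u p :=
  (Pl.E_iff h.face').2 (cyc_mid _ _ _ _)

theorem Ezq (h : GS D o z τ pre u p ws q) : D.E o z q :=
  (Pl.E_iff h.face).2 (by simpa using cyc_ends (τ ++ p :: ws) z q)

theorem Epn (h : GS D o z τ pre u p ws q) {a : V} {rest : List V} (e : ws ++ [q] = a :: rest) :
    D.E o p a :=
  (Pl.E_iff h.face').2 (by rw [e]; simpa using cyc_mid (pre ++ [u]) rest p a)

theorem mem_bd (h : GS D o z τ pre u p ws q) {v : V} :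
    v ∈ z :: τ ++ p :: ws ++ [q] ↔ v ∈ pre ∨ v = u ∨ v = p ∨ v ∈ ws ++ [q] := by
  rw [h.hz]; simp

theorem nd (h : GS D o z τ pre u p ws q) : (pre ++ u :: p :: (ws ++ [q])).Nodup := h.face'.1

theorem u_mem (h : GS D o z τ pre u p ws q) : u ∈ z :: τ := by rw [h.hz]; simp

theorem u_τ (h : GS D o z τ pre u p ws q) (hτ : τ ≠ []) : u ∈ τ := by
  have := h.hz
  cases pre with
  | nil => simp at this; exact absurd this.2 hτ
  | cons x pre => simp at this; rw [this.2]; simp

theorem z_pre (h : GS D o z τ pre u p ws q) (hτ : τ ≠ []) : z ∈ pre := by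
  have := h.hz
  cases pre with
  | nil => simp at this; exact absurd this.2 hτ
  | cons x pre => simp at this; rw [this.1]; simp

theorem u_z (h : GS D o z [] pre u p ws q) : u = z ∧ pre = [] := by
  have := h.hz
  cases pre with
  | nil => simp at this; exact ⟨this.symm, rfl⟩
  | cons x pre => simp at this

theorem p_ne (h : GS D o z τ pre u p ws q) :
    p ∉ z :: τ ∧ p ∉ ws ∧ p ≠ q ∧ q ∉ z :: τ ∧ q ∉ ws ∧ ∀ w ∈ ws, w ∉ z :: τ := by
  have := h.face.1
  simp only [List.append_assoc, List.cons_append, List.nodup_cons, List.mem_append,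
    List.mem_cons, List.nodup_append, not_or, List.not_mem_nil, or_false] at this ⊢
  obtain ⟨h1, -, ⟨h2, -, -, h3⟩, h4⟩ := this
  refine ⟨⟨fun e => h1.2.1 e.symm, fun e => h4 p e p (Or.inl rfl) rfl⟩, h2.1, h2.2,
    ⟨fun e => h1.2.2.2 e.symm, fun e => h4 q e q (Or.inr (Or.inr rfl)) rfl⟩,
    fun e => h3 q e q rfl rfl, fun w hw => ⟨fun e => h1.2.2.1 (e ▸ hw),
      fun e => h4 w e w (Or.inr (Or.inl hw)) rfl⟩⟩

/-- The only vertex of `ws ++ [q]` near `p` is the next one. -/
theorem near_next (h : GS D o z τ pre u p ws q) {v : V} (hv : v ∈ ws ++ [q])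
    (hn : Near D o o p v) : ∃ rest, ws ++ [q] = v :: rest := by
  have hnd : (p :: (ws ++ [q])).Nodup := by
    have := h.nd
    exact ((List.nodup_append.1 this).2.1).of_cons
  have hpv : p ≠ v := by rintro rfl; exact (List.nodup_cons.1 hnd).1 hv
  rcases h.h2 p (by simp) v (List.mem_cons_of_mem _ hv) hpv hn with h' | h'
  · cases e : ws ++ [q] with
    | nil => simp at e
    | cons a rest =>
      rw [List.cons_append, e] at h'
      rw [e] at hnd
      rcases nx_cons_cons.1 h' with ⟨-, rfl⟩ | h'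
      · exact ⟨rest, rfl⟩
      · exact absurd h'.mem_left (List.nodup_cons.1 hnd).1
  · exact absurd (Nx.mem_tail h') (List.nodup_cons.1 hnd).1

theorem not_root (h : GS D o z τ pre u p ws q) (hne : τ ≠ [] ∨ ws ≠ []) {k : ℕ} (hk : k ≠ o)
    (hp : D.On k p) : ¬ D.E k z q := by
  intro hE
  rcases hne with hne | hne
  · exact h.hp z (h.z_pre hne) (Or.inr ⟨k, hk, hk, hE.on, hp⟩)
  · obtain ⟨rest, e⟩ := h.near_next (v := q) (by simp) (Or.inr ⟨k, hk, hk, hp, hE.on'⟩)
    cases ws with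
    | nil => exact hne rfl
    | cons w ws =>
      simp at e
      exact h.p_ne.2.2.2.2.1 (by simp [e.1])

theorem step (h : GS D o z τ pre u p ws q) {g : ℕ} (hg : g ≠ o) (hE : D.E g u p) :
    ∃ a as, IsFace D.G D.f g (u :: p :: a :: as) ∧ (∀ v ∈ as, v ∉ z :: τ ++ p :: ws ++ [q]) ∧
      (a ∉ z :: τ ++ p :: ws ++ [q] ∨ ∃ rest, ws ++ [q] = a :: rest) := by
  obtain ⟨a, as, hf⟩ := Pl.face_start hE
  have hnd := hf.1
  have Epa : D.E g p a := (Pl.E_iff hf).2 (cyc_mid [u] as p a)
  have key : ∀ v ∈ a :: as, v ∈ z :: τ ++ p :: ws ++ [q] → v = a ∧ ∃ rest, ws ++ [q] = a :: rest := by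
    intro v hv hb
    have hon : D.On g v := (Pl.on_iff hf).2 (by simp at hv ⊢; tauto)
    rcases h.mem_bd.1 hb with h' | rfl | rfl | h'
    · exact absurd (Or.inr ⟨g, hg, hg, hon, hE.on'⟩) (h.hp v h')
    · exact absurd (List.mem_cons_of_mem _ hv) (List.nodup_cons.1 hnd).1
    · exact absurd hv (List.nodup_cons.1 (List.nodup_cons.1 hnd).2).1
    · obtain ⟨rest, e⟩ := h.near_next h' (Or.inr ⟨g, hg, hg, hE.on', hon⟩)
      have := h.n1.1 g hg p v hE.on' hon (h.Epn e).1
      have hva : v = a := by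
        rcases Pl.E_two hE.symm Epa this with e' | e' | e'
        · subst e'; simp at hnd
        · subst e'; exact absurd (List.mem_cons_of_mem _ hv) (List.nodup_cons.1 hnd).1
        · exact e'.symm
      exact ⟨hva, rest, hva ▸ e⟩
  refine ⟨a, as, hf, fun v hv hb => ?_, ?_⟩
  · obtain ⟨rfl, -⟩ := key v (List.mem_cons_of_mem _ hv) hb
    simp [hv] at hnd
  · by_cases hb : a ∈ z :: τ ++ p :: ws ++ [q]
    · exact Or.inr (key a (by simp) hb).2
    · exact Or.inl hb

theorem stepNL (h : GS D o z τ pre u p ws q) {g : ℕ} (hg : g ≠ o) {a : V} {as : List V}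
    (hf : IsFace D.G D.f g (u :: p :: a :: as)) (has : ∀ v ∈ as, v ∉ z :: τ ++ p :: ws ++ [q])
    (ha : a ∉ z :: τ ++ p :: ws ++ [q]) :
    ∃ D', Mrg D D' o g ∧ GS D' o z (τ ++ as.reverse ++ [a]) (pre ++ u :: as.reverse) a p ws q ∧
      mu D' < mu D ∧ ∀ (R : V → V → Prop) (L L' : V → Finset C) (bad : ℕ → (V → C) → Prop)
        (φ : V → C), (∀ a b, R a b → R b a) → Col D' o R L' bad φ → (∀ v, L' v ⊆ L v) →
        (R u p → φ u ≠ φ p) → (Pr (QE D R g) φ → ¬ bad g φ) → Col D o R L bad φ := by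
  have hnd := hf.1
  have hnd' := h.nd
  have hE : D.E g u p := (Pl.E_iff hf).2 (cyc_mid [] _ u p)
  have Epa : D.E g p a := (Pl.E_iff hf).2 (cyc_mid [u] as p a)
  have hall : ∀ v ∈ a :: as, v ∉ pre ++ u :: p :: (ws ++ [q]) := fun v hv hc => by
    have : v ∈ z :: τ ++ p :: ws ++ [q] := by rw [h.hz]; simpa using hc
    rcases List.mem_cons.1 hv with rfl | hv
    · exact ha this
    · exact has v hv this
  obtain ⟨D', m, f'⟩ := exists_mrg hg h.face' hf
    (l := pre ++ u :: (as.reverse ++ a :: p :: (ws ++ [q]))) (by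
      have p1 : (pre ++ u :: (as.reverse ++ a :: p :: (ws ++ [q]))).Perm
          ((a :: as) ++ (pre ++ u :: p :: (ws ++ [q]))) := by
        rw [List.perm_iff_count]; intro x; simp [List.count_cons]; omega
      rw [p1.nodup_iff, List.nodup_append]
      exact ⟨hnd.of_cons.of_cons, hnd', fun x hx y hy e => hall x hx (e ▸ hy)⟩)
    (by simp; omega) (by
      rw [cz_rot pre, cz_rot pre]
      simp only [List.cons_append, cz_cons, pz_cons_cons]
      have e1 : u :: ((as.reverse ++ a :: p :: (ws ++ [q]) ++ pre) ++ [u]) =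
        (u :: as.reverse ++ [a]) ++ p :: (ws ++ [q] ++ pre ++ [u]) := by simp
      have e2 : (u :: as.reverse ++ [a]) ++ [p] = (p :: a :: (as ++ [u])).reverse := by simp
      rw [e1, pz_append, e2, pz_reverse, pz_cons_cons]
      funext x y
      simp only [Pi.add_apply]
      generalize ez u p x y = r; generalize ez p a x y = s
      generalize pz (a :: (as ++ [u])) x y = t
      generalize pz (p :: (ws ++ [q] ++ pre ++ [u])) x y = w
      revert r s t w; decide)
  have hcommon : ∀ x y, D.E o x y → D.E g x y → x = u ∨ x = p := fun x y h1 h2 => by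
    have m1 := (Pl.on_iff h.face').1 h1.on
    have m2 := (Pl.on_iff hf).1 h2.on
    rcases List.mem_cons.1 m2 with e | m2
    · exact Or.inl e
    · rcases List.mem_cons.1 m2 with e | m2
      · exact Or.inr e
      · exact absurd m1 (hall x m2)
  have ez1 : z :: (τ ++ as.reverse ++ [a]) = pre ++ u :: as.reverse ++ [a] := by
    rw [← List.cons_append, ← List.cons_append, h.hz]; simp
  refine ⟨D', m, ⟨f'.eq (by rw [ez1]; simp), ez1, m.n1 h.n1,
    fun y hy hn => ?_, fun x hx y hy hxy hn => h.h2 x hx y hy hxy (m.near hn).weaken⟩,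
    mu_lt_of_le m.r.le hE.1 (m.not_adj h.Eup hE), fun R L L' bad φ hR hc hL hup hb => ?_⟩
  · have hn' := m.near hn
    simp only [List.mem_append, List.mem_cons, List.mem_reverse] at hy
    rcases hy with hy | rfl | hy
    · exact h.hp y hy hn'.weaken
    · rcases hn with hn | ⟨k, h1, -, h3, h4⟩
      · exact m.not_adj h.Eup hE hn
      · have := h.n1.1 k h1 y p (m.r.on_le h1 h3) (m.r.on_le h1 h4) hE.1
        rcases Pl.E_sides h.Eup hE this hg.symm with e | e
        · exact h1 e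
        · exact m.ne_g h1 h3 e
    · have hon : D.On g y := (Pl.on_iff hf).2 (by simp [hy])
      have hyp : y ≠ p := by rintro rfl; simp [hy] at hnd
      have hadj : D.G.Adj y p := by
        rcases hn' with hn' | ⟨k, h1, h2, h3, h4⟩
        · exact hn'
        · exact h.n1.2 k g h1 hg h2 y p hyp h3 h4 hon hE.on'
      have := h.n1.1 g hg p y hE.on' hon hadj.symm
      rcases Pl.E_two hE.symm Epa this with e | e | e <;> subst e <;> simp [hy] at hnd
  · refine m.lift hc (fun v ⟨w, hw⟩ => hL v (hc.1 v ?_)) (fun x y h1 h2 hr => ?_) hb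
    · rcases m.adj_or hw with h' | h'
      · exact ⟨w, h'⟩
      · refine ((Pl.on_iff f').2 ?_).supp
        rcases hcommon v w h'.1 h'.2 with rfl | rfl <;> simp
    · rcases hcommon x y h1 h2 with rfl | rfl <;>
        rcases hcommon y _ h1.symm h2.symm with rfl | rfl
      · exact absurd rfl h1.1.ne
      · exact hup hr
      · exact (hup (hR _ _ hr)).symm
      · exact absurd rfl h1.1.ne

theorem stepL (h : GS D o z τ pre u p ws q) {g : ℕ} (hg : g ≠ o) {a : V} {as rest : List V}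
    (hf : IsFace D.G D.f g (u :: p :: a :: as)) (has : ∀ v ∈ as, v ∉ z :: τ ++ p :: ws ++ [q])
    (ha : ws ++ [q] = a :: rest) (hne : τ ≠ [] ∨ as ≠ [] ∨ rest ≠ []) :
    ∃ D', Mrg D D' o g ∧ IsFace D'.G D'.f o (z :: τ ++ as.reverse ++ a :: rest) ∧
      mu D' < mu D ∧ ∀ (R : V → V → Prop) (L L' : V → Finset C) (bad : ℕ → (V → C) → Prop)
        (φ : V → C) (c : C), (∀ a b, R a b → R b a) → Good D o R bad z q → Col D' o R L' bad φ →
        (∀ v, L' v ⊆ L v) → c ∈ L p → (R u p → φ u ≠ c) → (R p a → c ≠ φ a) →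
        (Pr (QE D R g) (Function.update φ p c) → ¬ bad g (Function.update φ p c)) →
        Col D o R L bad (Function.update φ p c) := by
  have hnd := hf.1
  have hfo := h.face'
  rw [ha] at hfo
  have hnd' := hfo.1
  have hE : D.E g u p := (Pl.E_iff hf).2 (cyc_mid [] _ u p)
  have hall : ∀ v ∈ as, v ∉ pre ++ u :: p :: a :: rest := fun v hv hc => by
    apply has v hv
    rw [h.hz, List.append_assoc, List.cons_append, ha]; simpa using hc
  have hnew : (pre ++ u :: (as.reverse ++ a :: rest)).Nodup := by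
    have p1 : (pre ++ u :: (as.reverse ++ a :: rest)).Perm (as ++ (pre ++ u :: a :: rest)) := by
      rw [List.perm_iff_count]; intro x; simp [List.count_cons]; omega
    rw [p1.nodup_iff, List.nodup_append]
    refine ⟨hnd.of_cons.of_cons.of_cons, hnd'.sublist (by simp), fun x hx y hy e => hall x hx ?_⟩
    subst e; simp at hy ⊢; tauto
  have hcz : cz (pre ++ u :: p :: a :: rest) + cz (u :: p :: a :: as) =
      cz (pre ++ u :: (as.reverse ++ a :: rest)) := by
    rw [cz_rot pre, cz_rot pre]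
    simp only [List.cons_append, cz_cons, pz_cons_cons]
    have e1 : u :: ((as.reverse ++ a :: rest ++ pre) ++ [u]) =
      (u :: as.reverse) ++ a :: (rest ++ pre ++ [u]) := by simp
    have e2 : (u :: as.reverse) ++ [a] = (a :: (as ++ [u])).reverse := by simp
    rw [e1, pz_append, e2, pz_reverse]
    funext x y
    simp only [Pi.add_apply]
    generalize ez u p x y = r; generalize ez p a x y = s
    generalize pz (a :: (as ++ [u])) x y = t
    generalize pz (a :: (rest ++ pre ++ [u])) x y = w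
    revert r s t w; decide
  obtain ⟨D', m, f'⟩ := exists_mrg hg hfo hf hnew (by
      have e := congrArg List.length h.hz
      simp only [List.length_cons, List.length_append, List.length_nil, List.length_reverse] at e ⊢
      rcases hne with h' | h' | h' <;> have := List.length_pos_iff.2 h' <;> omega) hcz
  have hpn : p ∉ pre ++ u :: (as.reverse ++ a :: rest) := by
    simp only [List.nodup_append, List.nodup_cons, List.mem_cons, not_or] at hnd hnd'
    simp only [List.mem_append, List.mem_cons, List.mem_reverse, not_or]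
    exact ⟨fun e => hnd'.2.2 p e p (Or.inr (Or.inl rfl)) rfl, fun e => hnd.1.1 e.symm,
      hnd.2.1.2, hnd.2.1.1, hnd'.2.1.2.1.2⟩
  have hps : p ∉ D'.G.support := fun hc => by
    obtain ⟨k, hk, hon⟩ := m.r.supp_iff.1 hc
    exact hpn (D.link_mem ((cut_mχ hfo hf).trans hcz) hon h.Eup.on' (by
      rw [hk, mχ_o hg]; exact one_ne_zero))
  have hcommon : ∀ x y, D.E o x y → D.E g x y → x = u ∨ x = p ∨ x = a := fun x y h1 h2 => by
    have m1 := (Pl.on_iff hfo).1 h1.on
    have m2 := (Pl.on_iff hf).1 h2.on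
    simp only [List.mem_cons] at m2
    rcases m2 with e | e | e | m2
    · exact Or.inl e
    · exact Or.inr (Or.inl e)
    · exact Or.inr (Or.inr e)
    · exact absurd m1 (hall x m2)
  have hua : D.E o u a → D.E g u a → False := fun h1 h2 => by
    rcases List.eq_nil_or_concat as with rfl | ⟨as0, e, rfl⟩
    · exact m.not_adj h1 h2 ((Pl.E_iff f').2 (by simpa using cyc_mid pre rest u a)).1
    · have h3 : D.E g u e := (Pl.E_iff hf).2 (by simpa using cyc_ends (p :: a :: as0) u e)
      rcases Pl.E_two hE h2 h3 with e' | e' | e' <;> subst e' <;> simp at hnd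
  refine ⟨D', m, f'.eq (by rw [h.hz]; simp), mu_lt_of_le m.r.le hE.1 (m.not_adj h.Eup hE),
    fun R L L' bad φ c hR hgood hc hL hcp hup hpa hb => ?_⟩
  have hu : u ≠ p := hE.1.ne
  have hap : a ≠ p := by rintro rfl; simp at hnd
  refine m.lift (hc.update (m.good hgood) hps c) (fun v ⟨w, hw⟩ => ?_)
    (fun x y h1 h2 hr => ?_) hb
  · by_cases hv : v = p
    · subst hv; simpa using hcp
    · rw [Function.update_of_ne hv]
      refine hL v (hc.1 v ?_)
      rcases m.adj_or hw with h' | h'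
      · exact ⟨w, h'⟩
      · refine ((Pl.on_iff f').2 ?_).supp
        rcases hcommon v w h'.1 h'.2 with rfl | rfl | rfl
        · simp
        · exact absurd rfl hv
        · simp
  · rcases hcommon x y h1 h2 with rfl | rfl | rfl <;>
      rcases hcommon y _ h1.symm h2.symm with rfl | rfl | rfl
    · exact absurd rfl h1.1.ne
    · simpa [Function.update_of_ne hu] using hup hr
    · exact (hua h1 h2).elim
    · simpa [Function.update_of_ne hu] using (hup (hR _ _ hr)).symm
    · exact absurd rfl h1.1.ne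
    · simpa [Function.update_of_ne hap] using hpa hr
    · exact (hua h1.symm h2.symm).elim
    · simpa [Function.update_of_ne hap] using (hpa (hR _ _ hr)).symm
    · exact absurd rfl h1.1.ne

end GS

end Pool.Agent.Lib.MP_0fc16c_co
end

-- part Pool.Agent.Lib.MP_0fc16c_co.Fan
section

/-! Deleting a precoloured boundary vertex next to the root: the fan lemmas. -/

set_option autoImplicit false
set_option linter.unusedSectionVars false

open Finset

namespace Pool.Agent.Lib.MP_0fc16c_co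

variable {V : Type*} [Fintype V] [DecidableEq V] {C : Type*} [DecidableEq C]

/-- List sizes. -/
structure LOK (D : Pl V) (R : V → V → Prop) (L : V → Finset C) (z : V) (τ : List V) (q : V)
    (bd : List V) : Prop where
  hz : (L z).Nonempty
  hq : (L q).Nonempty
  hzq : R z q → Disjoint (L z) (L q)
  hτ : ∀ v ∈ τ, 6 ≤ (L v).card
  inner : ∀ v ∈ D.G.support, v ∉ bd → 10 ≤ (L v).card

/-- The statement of the main induction for one disc. -/
def IHs (C : Type*) [DecidableEq C] (D : Pl V) : Prop :=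
  ∀ (o : ℕ) (R : V → V → Prop) (L : V → Finset C) (bad : ℕ → (V → C) → Prop) (x y : V)
    (m : List V), (∀ a b, R a b → R b a) → IsFace D.G D.f o (x :: m ++ [y]) →
    Good D o R bad x y → LOK D R L x m y (x :: m ++ [y]) → ∃ φ, Col D o R L bad φ

/-- The induction hypothesis. -/
def IHb (V : Type*) [Fintype V] [DecidableEq V] (C : Type*) [DecidableEq C] (n : ℕ) : Prop :=
  ∀ D : Pl V, mu D < n → IHs C D

theorem IHb.mono {n m : ℕ} (h : IHb V C n) (hm : m ≤ n) : IHb V C m :=
  fun D hD => h D (lt_of_lt_of_le hD hm)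

/-- The face `g` is protected if its inner vertices avoid a few colours. -/
def Hd (D : Pl V) (R : V → V → Prop) (L : V → Finset C) (bad : (V → C) → Prop) (bd : List V)
    (g : ℕ) (p : V) (j n : ℕ) : Prop :=
  ∃ P : V → Finset C, (∀ v, (P v).card ≤ n) ∧ (∀ v, D.E g p v → v ∉ bd → (P v).card ≤ j) ∧
    ∀ φ, Pr (QE D R g) φ → (∀ v ∈ bd, φ v ∈ L v) → (∀ v, D.On g v → v ∉ bd → φ v ∉ P v) → ¬ bad φ

theorem Hd.mono {D : Pl V} {R : V → V → Prop} {L L' : V → Finset C} {bad : (V → C) → Prop}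
    {bd : List V} {g : ℕ} {p : V} {j n n' : ℕ} (h : Hd D R L bad bd g p j n)
    (hL : ∀ v ∈ bd, L' v ⊆ L v) (hn : n ≤ n') : Hd D R L' bad bd g p j n' := by
  obtain ⟨P, h1, h2, h3⟩ := h
  exact ⟨P, fun v => (h1 v).trans hn, h2, fun φ a b c => h3 φ a (fun v hv => hL v hv (b v hv)) c⟩

theorem LOK.upd {D : Pl V} {R : V → V → Prop} {L : V → Finset C} {z q : V} {τ bd : List V}
    (h : LOK D R L z τ q bd) {u : V} (hu : u ∈ bd) (hz : u ≠ z) (hq : u ≠ q) {S : Finset C}
    (hS : u ∈ τ → 6 ≤ S.card) : LOK D R (Function.update L u S) z τ q bd := by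
  refine ⟨?_, ?_, ?_, fun v hv => ?_, fun v hv hb => ?_⟩
  · rw [Function.update_of_ne hz.symm]; exact h.hz
  · rw [Function.update_of_ne hq.symm]; exact h.hq
  · rw [Function.update_of_ne hz.symm, Function.update_of_ne hq.symm]; exact h.hzq
  · by_cases e : v = u
    · subst e; rw [Function.update_self]; exact hS hv
    · rw [Function.update_of_ne e]; exact h.hτ v hv
  · rw [Function.update_of_ne (by rintro rfl; exact hb hu)]; exact h.inner v hv hb

theorem upd_sub {L : V → Finset C} {u : V} {S : Finset C} (hS : S ⊆ L u) (v : V) :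
    Function.update L u S v ⊆ L v := by
  by_cases e : v = u
  · subst e; rwa [Function.update_self]
  · rw [Function.update_of_ne e]

theorem card_sdiff_ge (A B : Finset C) : A.card - B.card ≤ (A \ B).card :=
  Finset.le_card_sdiff B A

theorem Pay.swap {E Q : V → V → Prop} {bad : (V → C) → Prop} {p u u' : V} {c : C} {i j n : ℕ}
    (h : Pay E Q bad p u u' c i j n) : Pay E Q bad p u' u c j i n := by
  obtain ⟨P, h1, h2, h3⟩ := h; exact ⟨P, h2, h1, h3⟩

namespace GS
variable {D : Pl V} {o : ℕ} {z : V} {τ pre : List V} {u p : V} {ws : List V} {q : V}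

theorem u_bd (h : GS D o z τ pre u p ws q) : u ∈ z :: τ ++ p :: ws ++ [q] :=
  h.mem_bd.2 (Or.inr (Or.inl rfl))

theorem exists_g (h : GS D o z τ pre u p ws q) : ∃ g, g ≠ o ∧ D.E g u p := Pl.exists_other h.Eup

theorem pay_hd (h : GS D o z τ pre u p ws q) {g : ℕ} {a : V} {as : List V}
    (hf : IsFace D.G D.f g (u :: p :: a :: as)) (has : ∀ v ∈ as, v ∉ z :: τ ++ p :: ws ++ [q])
    {R : V → V → Prop} {bad : (V → C) → Prop} {c : C} {i j n : ℕ}
    (hj : j = 0 ∨ a ∉ z :: τ ++ p :: ws ++ [q]) (hP : Pay (D.E g) (QE D R g) bad p u a c i j n) :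
    ∃ E : Finset C, E.card ≤ i ∧ ∀ L : V → Finset C, L p = {c} → Disjoint (L u) E →
      Hd D R L bad (z :: τ ++ p :: ws ++ [q]) g p j n := by
  obtain ⟨P, h1, h2, h3, h4⟩ := hP
  have hE : D.E g u p := (Pl.E_iff hf).2 (cyc_mid [] _ u p)
  have Epa : D.E g p a := (Pl.E_iff hf).2 (cyc_mid [u] as p a)
  refine ⟨P u, h1, fun L hp hu => ⟨P, h3, fun v hv hb => ?_, fun φ a1 a2 a3 => h4 φ a1 ?_ ?_⟩⟩
  · rcases Pl.E_two hE.symm Epa hv with e | e | e
    · subst e; have := hf.1; simp at this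
    · subst e; exact absurd h.u_bd hb
    · subst e; exact h2
  · have := a2 p (by simp); rw [hp] at this; simpa using this
  · intro v hv hvp
    by_cases hb : v ∈ z :: τ ++ p :: ws ++ [q]
    · have := (Pl.on_iff hf).1 hv
      simp only [List.mem_cons] at this
      rcases this with rfl | rfl | rfl | h'
      · exact Finset.disjoint_left.1 hu (a2 v hb)
      · exact absurd rfl hvp
      · obtain rfl := hj.resolve_right (not_not.2 hb)
        rw [Finset.card_eq_zero.1 (Nat.le_zero.1 h2)]; simp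
      · exact absurd hb (has v h')
    · exact a3 v hv hb

theorem NL (h : GS D o z τ pre u p ws q) {g : ℕ} (hg : g ≠ o) {a : V} {as : List V}
    (hf : IsFace D.G D.f g (u :: p :: a :: as)) (has : ∀ v ∈ as, v ∉ z :: τ ++ p :: ws ++ [q])
    (ha : a ∉ z :: τ ++ p :: ws ++ [q]) :
    ∃ D', Mrg D D' o g ∧ GS D' o z (τ ++ as.reverse ++ [a]) (pre ++ u :: as.reverse) a p ws q ∧
      mu D' < mu D ∧ ∀ (R : V → V → Prop) (L : V → Finset C) (bad : ℕ → (V → C) → Prop)
        (c : C) (j n : ℕ), (∀ a b, R a b → R b a) → j ≤ 3 → n ≤ 4 →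
        LOK D R L z τ q (z :: τ ++ p :: ws ++ [q]) → L p = {c} → (R u p → c ∉ L u) →
        Hd D R L (bad g) (z :: τ ++ p :: ws ++ [q]) g p j n →
        ∃ L1, LOK D' R L1 z (τ ++ as.reverse ++ [a]) q
            (z :: (τ ++ as.reverse ++ [a]) ++ p :: ws ++ [q]) ∧
          (∀ v, v ∉ as → v ≠ a → L1 v = L v) ∧ (∀ v ∈ as, 10 - n ≤ (L1 v).card) ∧
          9 - j ≤ (L1 a).card ∧ c ∉ L1 a ∧
          ∀ φ, Col D' o R L1 bad φ → Col D o R L bad φ := by
  obtain ⟨D', m, gs, hmu, lift⟩ := h.stepNL (C := C) hg hf has ha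
  refine ⟨D', m, gs, hmu, fun R L bad c j n hR hj hn hL hp hup ⟨P, P1, P2, P3⟩ => ?_⟩
  have Epa : D.E g p a := (Pl.E_iff hf).2 (cyc_mid [u] as p a)
  have haas : a ∉ as := by have := hf.1; simp at this; tauto
  let L1 : V → Finset C := fun v => if v ∈ as then L v \ P v else
    if v = a then (L v \ P v).erase c else L v
  have e0 : ∀ v, v ∉ as → v ≠ a → L1 v = L v := fun v h1 h2 => by simp [L1, h1, h2]
  have eb : ∀ v ∈ z :: τ ++ p :: ws ++ [q], L1 v = L v := fun v hv =>
    e0 v (fun h => has v h hv) (by rintro rfl; exact ha hv)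
  have e1 : ∀ v ∈ as, 10 - n ≤ (L1 v).card := fun v hv => by
    have := hL.inner v ((Pl.on_iff hf).2 (by simp [hv])).supp (has v hv)
    have := card_sdiff_ge (L v) (P v)
    have := P1 v
    simp only [L1, if_pos hv]; omega
  have e2 : 9 - j ≤ (L1 a).card := by
    have := hL.inner a Epa.on'.supp ha
    have := card_sdiff_ge (L a) (P a)
    have := P2 a Epa ha
    have := Finset.pred_card_le_card_erase (s := L a \ P a) (a := c)
    simp only [L1, if_neg haas, if_true]; omega
  have hsub : ∀ v, L1 v ⊆ L v := fun v => by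
    simp only [L1]; split_ifs
    · exact sdiff_subset
    · exact (erase_subset _ _).trans sdiff_subset
    · exact Subset.rfl
  refine ⟨L1, ⟨by rw [eb z (by simp)]; exact hL.hz, by rw [eb q (by simp)]; exact hL.hq,
    by rw [eb z (by simp), eb q (by simp)]; exact hL.hzq, fun v hv => ?_, fun v hv hb => ?_⟩,
    e0, e1, e2, by simp [L1, haas], fun φ hc => ?_⟩
  · simp only [List.mem_append, List.mem_reverse, List.mem_singleton] at hv
    rcases hv with (hv | hv) | rfl
    · rw [eb v (by simp [hv])]; exact hL.hτ v hv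
    · have := e1 v hv; omega
    · omega
  · rw [e0 v (fun h => hb (by simp [h])) (by rintro rfl; simp at hb)]
    exact hL.inner v (SimpleGraph.support_mono m.r.le hv) fun h => hb (by
      simp at h ⊢; tauto)
  · have hin : ∀ v ∈ z :: (τ ++ as.reverse ++ [a]) ++ p :: ws ++ [q], φ v ∈ L1 v :=
      fun v hv => hc.1 v ((Pl.on_iff gs.face).2 hv).supp
    have hin' : ∀ v ∈ z :: τ ++ p :: ws ++ [q], φ v ∈ L v := fun v hv =>
      hsub v (hin v (by simp at hv ⊢; tauto))
    refine lift R L L1 bad φ hR hc hsub (fun hr e => hup hr ?_) fun hpr => P3 φ hpr hin' ?_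
    · have h1 := hin' p (by simp)
      rw [hp, mem_singleton] at h1
      rw [← h1, ← e]; exact hin' u h.u_bd
    · intro v hv hb
      have := (Pl.on_iff hf).1 hv
      simp only [List.mem_cons] at this
      rcases this with rfl | rfl | rfl | h'
      · exact absurd h.u_bd hb
      · simp at hb
      · have := hin v (by simp)
        simp only [L1, if_neg haas, if_true, mem_erase, mem_sdiff] at this
        exact this.2.2
      · have := hin v (by simp [h'])
        simp only [L1, if_pos h', mem_sdiff] at this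
        exact this.2

theorem LL (h : GS D o z τ pre u p ws q) {g : ℕ} (hg : g ≠ o) {a : V} {as rest : List V}
    (hf : IsFace D.G D.f g (u :: p :: a :: as)) (has : ∀ v ∈ as, v ∉ z :: τ ++ p :: ws ++ [q])
    (ha : ws ++ [q] = a :: rest) (hne : τ ≠ [] ∨ as ≠ [] ∨ rest ≠ []) :
    ∃ D', Mrg D D' o g ∧ IsFace D'.G D'.f o (z :: τ ++ as.reverse ++ a :: rest) ∧
      mu D' < mu D ∧ ∀ (R : V → V → Prop) (L : V → Finset C) (bad : ℕ → (V → C) → Prop)
        (c : C) (j n : ℕ), (∀ a b, R a b → R b a) → Good D o R bad z q →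
        LOK D R L z τ q (z :: τ ++ p :: ws ++ [q]) → L p = {c} → (R u p → c ∉ L u) →
        (R p a → c ∉ L a) → Hd D R L (bad g) (z :: τ ++ p :: ws ++ [q]) g p j n →
        ∃ L1 : V → Finset C, (∀ v, v ∉ as → L1 v = L v) ∧ (∀ v ∈ as, 10 - n ≤ (L1 v).card) ∧
          (∀ v ∈ D'.G.support, v ∉ z :: τ ++ as.reverse ++ a :: rest → 10 ≤ (L1 v).card) ∧
          ∀ φ, Col D' o R L1 bad φ → ∃ φ', Col D o R L bad φ' := by
  obtain ⟨D', m, f', hmu, lift⟩ := h.stepL (C := C) hg hf has ha hne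
  refine ⟨D', m, f', hmu, fun R L bad c j n hR hgood hL hp hup hpa ⟨P, P1, P2, P3⟩ => ?_⟩
  let L1 : V → Finset C := fun v => if v ∈ as then L v \ P v else L v
  have e0 : ∀ v, v ∉ as → L1 v = L v := fun v h1 => by simp [L1, h1]
  have hsub : ∀ v, L1 v ⊆ L v := fun v => by
    simp only [L1]; split_ifs
    · exact sdiff_subset
    · exact Subset.rfl
  have hbd : ∀ v, v ∈ z :: τ ++ p :: ws ++ [q] ↔ v ∈ z :: τ ∨ v = p ∨ v ∈ a :: rest := by
    intro v; rw [← ha]; simp only [List.mem_append, List.mem_cons]; tauto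
  have hps : p ∉ D'.G.support := by
    intro hc
    obtain ⟨k, hk, hon⟩ := m.r.supp_iff.1 hc
    obtain ⟨hk1, hk2⟩ := (mχ_eq_one hg).1 hk
    have Epa : D.E g p a := (Pl.E_iff hf).2 (cyc_mid [u] as p a)
    have hE : D.E g u p := (Pl.E_iff hf).2 (cyc_mid [] _ u p)
    obtain ⟨w, hw⟩ := D.link (mχ o g) hon h.Eup.on' (by rw [hk, mχ_o hg]; exact one_ne_zero)
    rw [cut_mχ h.face hf, Pi.add_apply, Pi.add_apply] at hw
    have hua : u ≠ a := by rintro rfl; have := hf.1; simp at this
    by_cases hwu : w = u ∨ w = a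
    · have e1 : D.E o p w := by rcases hwu with rfl | rfl; exact h.Eup.symm; exact h.Epn ha
      have e2 : D.E g p w := by rcases hwu with rfl | rfl; exact hE.symm; exact Epa
      rw [cz_of_cyc h.face.1 h.face.2.1 ((Pl.E_iff h.face).1 e1),
        cz_of_cyc hf.1 hf.2.1 ((Pl.E_iff hf).1 e2)] at hw
      exact absurd hw (by decide)
    · have z1 : cz (z :: τ ++ p :: ws ++ [q]) p w = 0 := by
        by_contra hc
        have := Pl.E_two h.Eup.symm (h.Epn ha) ((Pl.E_iff h.face).2 (cyc_of_cz hc))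
        tauto
      have z2 : cz (u :: p :: a :: as) p w = 0 := by
        by_contra hc
        have := Pl.E_two hE.symm Epa ((Pl.E_iff hf).2 (cyc_of_cz hc))
        tauto
      rw [z1, z2] at hw; exact absurd hw (by decide)
  refine ⟨L1, e0, fun v hv => ?_, fun v hv hb => ?_, fun φ hc => ⟨Function.update φ p c, ?_⟩⟩
  · have := hL.inner v ((Pl.on_iff hf).2 (by simp [hv])).supp (has v hv)
    have := card_sdiff_ge (L v) (P v)
    have := P1 v
    simp only [L1, if_pos hv]; omega
  · rw [e0 v (fun h => hb (by simp [h]))]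
    refine hL.inner v (SimpleGraph.support_mono m.r.le hv) fun h' => ?_
    rcases (hbd v).1 h' with h' | rfl | h'
    · exact hb (by simp at h' ⊢; tauto)
    · exact hps hv
    · exact hb (by simp at h' ⊢; tauto)
  · have hin : ∀ v ∈ z :: τ ++ as.reverse ++ a :: rest, φ v ∈ L1 v :=
      fun v hv => hc.1 v ((Pl.on_iff f').2 hv).supp
    have hu : φ u ∈ L u := hsub u (hin u (by have := h.u_mem; simp at this ⊢; tauto))
    refine lift R L L1 bad φ c hR hgood hc hsub (by simp [hp]) (fun hr e => hup hr (e ▸ hu))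
      (fun hr e => hpa hr (e ▸ hsub a (hin a (by simp)))) fun hpr => P3 _ hpr ?_ ?_
    · intro v hv
      by_cases e : v = p
      · subst e; simp [hp]
      · rw [Function.update_of_ne e]
        rcases (hbd v).1 hv with h' | h' | h'
        · exact hsub v (hin v (by simp at h' ⊢; tauto))
        · exact absurd h' e
        · exact hsub v (hin v (by simp at h' ⊢; tauto))
    · intro v hv hb
      have e : v ≠ p := by rintro rfl; simp at hb
      rw [Function.update_of_ne e]
      have := (Pl.on_iff hf).1 hv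
      simp only [List.mem_cons] at this
      rcases this with rfl | rfl | rfl | h'
      · exact absurd h.u_bd hb
      · exact absurd rfl e
      · exact absurd ((hbd v).2 (by simp)) hb
      · have := hin v (by simp [h'])
        simp only [L1, if_pos h', mem_sdiff] at this
        exact this.2

theorem strong (h : GS D o z τ pre u p ws q) (hne : τ ≠ [] ∨ ws ≠ []) {R : V → V → Prop}
    {bad : ℕ → (V → C) → Prop} (hgood : Good D o R bad z q) {g : ℕ} (hg : g ≠ o)
    (hp : D.On g p) : Strong (D.E g) (QE D R g) (bad g) :=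
  (hgood g hg ⟨p, hp⟩).2.2 (h.not_root hne hg hp)

theorem u_ne (h : GS D o z τ pre u p ws q) (hτ : τ ≠ []) : u ≠ z ∧ u ≠ q ∧ u ≠ p := by
  refine ⟨?_, ?_, h.Eup.1.ne⟩
  · rintro rfl
    have := h.nd
    exact (List.nodup_append.1 this).2.2 u (h.z_pre hτ) u (by simp) rfl
  · rintro rfl; exact h.p_ne.2.2.2.1 h.u_mem

end GS

theorem face_E {D : Pl V} {g : ℕ} {u p a : V} {as : List V}
    (hf : IsFace D.G D.f g (u :: p :: a :: as)) : D.E g p u ∧ D.E g p a ∧ u ≠ a :=
  ⟨((Pl.E_iff hf).2 (cyc_mid [] _ u p)).symm, (Pl.E_iff hf).2 (cyc_mid [u] as p a),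
    by rintro rfl; have := hf.1; simp at this⟩

theorem fan3 (n : ℕ) : ∀ (D : Pl V), mu D = n → IHb V C n →
    ∀ {o : ℕ} {z : V} {τ pre : List V} {u p q : V} {R : V → V → Prop} {L : V → Finset C}
      {bad : ℕ → (V → C) → Prop} {c : C} {g : ℕ}, (∀ a b, R a b → R b a) →
      GS D o z τ pre u p [] q → Good D o R bad z q → LOK D R L z τ q (z :: τ ++ p :: [] ++ [q]) →
      L p = {c} → (R u p → c ∉ L u) → (R p q → c ∉ L q) → g ≠ o → D.E g u p →
      Hd D R L (bad g) (z :: τ ++ p :: [] ++ [q]) g p 0 4 → ∃ φ, Col D o R L bad φ := by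
  induction n using Nat.strong_induction_on with
  | _ n IH =>
  intro D hn ih o z τ pre u p q R L bad c g hR h hgood hL hp hup hpq hg hE hd
  obtain ⟨a, as, hf, has, ha | ⟨rest, ha⟩⟩ := h.step hg hE
  · obtain ⟨D', m, gs, hmu, nx⟩ := h.NL (C := C) hg hf has ha
    obtain ⟨L1, l1, l2, -, l4, l5, lift⟩ := nx R L bad c 0 4 hR (by omega) le_rfl hL hp hup hd
    obtain ⟨g', hg', hE'⟩ := gs.exists_g
    obtain ⟨a', as', hf', has', -⟩ := gs.step hg' hE'
    have hτ : τ ++ as.reverse ++ [a] ≠ [] := by simp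
    have st := gs.strong (Or.inl hτ) (m.good hgood) hg' hE'.on'
    obtain ⟨e1, e2, e3⟩ := face_E hf'
    obtain ⟨E, hE3, hh⟩ := gs.pay_hd hf' has' (Or.inl rfl) (st.kl p a a' e1 e2 e3 c)
    obtain ⟨n1, n2, n3⟩ := gs.u_ne hτ
    have hp1 : L1 p = {c} := by
      rw [l2 p (fun h' => has p h' (by simp)) n3.symm, hp]
    have hq1 : L1 q = L q := l2 q (fun h' => has q h' (by simp)) n2.symm
    obtain ⟨φ, hφ⟩ := IH (mu D') (hn ▸ hmu) D' rfl (ih.mono (hn ▸ hmu.le))
      (L := Function.update L1 a (L1 a \ E)) (c := c) hR gs (m.good hgood)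
      (l1.upd gs.u_bd n1 n2 fun _ => by have := card_sdiff_ge (L1 a) E; omega)
      (by rw [Function.update_of_ne n3.symm, hp1])
      (fun _ => by rw [Function.update_self]; simp [l5])
      (by rw [Function.update_of_ne n2.symm, hq1]; exact hpq) hg' hE'
      ((hh _ (by rw [Function.update_of_ne n3.symm, hp1])
        (by rw [Function.update_self]; exact sdiff_disjoint)).mono (fun _ _ => Subset.rfl)
        (by omega))
    exact ⟨φ, lift φ (hφ.mono fun v _ => upd_sub sdiff_subset v)⟩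
  · simp only [List.nil_append, List.cons.injEq] at ha
    obtain ⟨rfl, rfl⟩ := ha
    by_cases hne : τ ≠ [] ∨ as ≠ []
    · obtain ⟨D', m, f', hmu, nx⟩ := h.LL (C := C) (rest := []) hg hf has rfl (by tauto)
      obtain ⟨L1, l1, l2, l3, lift⟩ := nx R L bad c 0 4 hR hgood hL hp hup hpq hd
      have hz1 : L1 z = L z := l1 z fun h' => has z h' (by simp)
      have hq1 : L1 q = L q := l1 q fun h' => has q h' (by simp)
      obtain ⟨φ, hφ⟩ := ih D' (hn ▸ hmu) o R L1 bad z q (τ ++ as.reverse) hR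
        (f'.eq (by simp)) (m.good hgood) ⟨hz1 ▸ hL.hz, hq1 ▸ hL.hq, by
          rw [hz1, hq1]; exact hL.hzq, fun v hv => by
          rcases List.mem_append.1 hv with hv | hv
          · rw [l1 v fun h' => has v h' (by simp [hv])]; exact hL.hτ v hv
          · have := l2 v (List.mem_reverse.1 hv); omega,
          fun v hv hb => l3 v hv (by simpa using hb)⟩
      exact lift φ hφ
    · push Not at hne
      obtain ⟨rfl, rfl⟩ := hne
      obtain ⟨rfl, rfl⟩ := h.u_z
      obtain ⟨γ, hγ⟩ := hL.hz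
      obtain ⟨d, hd'⟩ := hL.hq
      have hnd := hf.1
      have n1 : p ≠ u := by rintro rfl; simp at hnd
      have n2 : q ≠ u := by rintro rfl; simp at hnd
      have n3 : q ≠ p := by rintro rfl; simp at hnd
      let φ : V → C := fun v => if v = u then γ else if v = p then c else d
      have f1 : φ u = γ := by simp [φ]
      have f2 : φ p = c := by simp [φ, n1]
      have f3 : φ q = d := by simp [φ, n2, n3]
      obtain ⟨P, -, -, P3⟩ := hd
      refine ⟨φ, single_col hg h.face hf hR (f1 ▸ hγ) (by rw [f2, hp]; simp) (f3 ▸ hd')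
        (fun hr => by rw [f1, f2]; rintro rfl; exact hup hr hγ)
        (fun hr => by rw [f2, f3]; rintro rfl; exact hpq hr hd')
        (fun hr => by
          rw [f1, f3]; rintro rfl; exact Finset.disjoint_left.1 (hL.hzq hr) hγ hd')
        fun hpr => P3 φ hpr (fun v hv => ?_) fun v hv hb => ?_⟩
      · simp only [List.cons_append, List.nil_append, List.mem_cons, List.not_mem_nil,
          or_false] at hv
        rcases hv with rfl | rfl | rfl
        · exact f1 ▸ hγ
        · rw [f2, hp]; simp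
        · exact f3 ▸ hd'
      · exact absurd ((Pl.on_iff hf).1 hv) hb

/-- The last face of the fan is harmless: every face is paid by its right end. -/
theorem fan0 (n : ℕ) : ∀ (D : Pl V), mu D = n → IHb V C n →
    ∀ {o : ℕ} {z : V} {τ pre : List V} {u p q : V} {R : V → V → Prop} {L : V → Finset C}
      {bad : ℕ → (V → C) → Prop} {c : C}, (∀ a b, R a b → R b a) →
      GS D o z τ pre u p [] q → Good D o R bad z q → LOK D R L z τ q (z :: τ ++ p :: [] ++ [q]) →
      L p = {c} → (R u p → c ∉ L u) → (R p q → c ∉ L q) →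
      (∀ g, g ≠ o → D.E g p q → ∀ φ, Pr (QE D R g) φ → φ q ∈ L q → ¬ bad g φ) →
      ∃ φ, Col D o R L bad φ := by
  induction n using Nat.strong_induction_on with
  | _ n IH =>
  intro D hn ih o z τ pre u p q R L bad c hR h hgood hL hp hup hpq hlast
  obtain ⟨g, hg, hE⟩ := h.exists_g
  obtain ⟨a, as, hf, has, ha | ⟨rest, ha⟩⟩ := h.step hg hE
  · obtain ⟨D', m, gs, hmu, nx⟩ := h.NL (C := C) hg hf has ha
    obtain ⟨e1, e2, e3⟩ := face_E hf
    have st := (hgood g hg ⟨p, hE.on'⟩).2.2 fun hc => by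
      have := (Pl.on_iff hf).1 hc.on'
      simp only [List.mem_cons] at this
      rcases this with e | e | e | e
      · exact h.p_ne.2.2.2.1 (e ▸ h.u_mem)
      · exact h.p_ne.2.2.1 e.symm
      · exact ha (by simp [e])
      · exact has q e (by simp)
    obtain ⟨E, hE0, hh⟩ := h.pay_hd hf has (Or.inr ha) (st.kl p a u e2 e1 e3.symm c).swap
    obtain ⟨L1, l1, l2, -, -, l5, lift⟩ := nx R L bad c 3 3 hR le_rfl (by omega) hL hp hup
      (hh L hp (by rw [Finset.card_eq_zero.1 (Nat.le_zero.1 hE0)]; simp))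
    obtain ⟨n1, n2, n3⟩ := gs.u_ne (by simp)
    have hq1 : L1 q = L q := l2 q (fun h' => has q h' (by simp)) n2.symm
    obtain ⟨φ, hφ⟩ := IH (mu D') (hn ▸ hmu) D' rfl (ih.mono (hn ▸ hmu.le)) (L := L1) (c := c) hR gs
      (m.good hgood) l1 (by rw [l2 p (fun h' => has p h' (by simp)) n3.symm, hp])
      (fun _ => l5) (by rw [hq1]; exact hpq) (fun g' hg' hE' φ hpr hq => by
        have hne := m.ne_g hg' hE'.on
        rw [m.QE_eq hg' hne] at hpr
        exact hlast g' hg' (m.E_eq hg' hne ▸ hE') φ hpr (hq1 ▸ hq))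
    exact ⟨φ, lift φ hφ⟩
  · simp only [List.nil_append, List.cons.injEq] at ha
    obtain ⟨rfl, rfl⟩ := ha
    exact fan3 n D hn ih hR h hgood hL hp hup hpq hg hE ⟨fun _ => ∅, by simp, by simp,
      fun φ h1 h2 _ => hlast g hg (face_E hf).2.1 φ h1 (h2 q (by simp))⟩

/-- The colour of `q` is fixed by the inner face at the edge `pq`. -/
def QFix (D : Pl V) (o : ℕ) (R : V → V → Prop) (bad : ℕ → (V → C) → Prop) (p q : V) : Prop :=
  ∃ g, g ≠ o ∧ D.E g p q ∧ Fix (QE D R g) (bad g) q

theorem chain (n : ℕ) : ∀ (D : Pl V), mu D = n → IHb V C n →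
    ∀ {o : ℕ} {z : V} {τ pre : List V} {u p q : V} {R : V → V → Prop}
      {bad : ℕ → (V → C) → Prop}, (∀ a b, R a b → R b a) →
      GS D o z τ pre u p [] q → τ ≠ [] → Good D o R bad z q → ¬ QFix D o R bad p q →
      ∀ Γ : Finset C, 3 ≤ Γ.card → ∃ c ∈ Γ, ∀ (L : V → Finset C) (bad' : ℕ → (V → C) → Prop)
        (d : C), (∀ k, ¬ D.E k z q → bad' k = bad k) → Good D o R bad' z q →
        LOK D R L z τ q (z :: τ ++ p :: [] ++ [q]) → L p = {c} → L q = {d} → c ∉ L u →
        (R p q → c ≠ d) → 8 ≤ (L u).card → ∃ φ, Col D o R L bad' φ := by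
  induction n using Nat.strong_induction_on with
  | _ n IH =>
  intro D hn ih o z τ pre u p q R bad hR h hτ hgood hq Γ hΓ
  obtain ⟨g, hg, hE⟩ := h.exists_g
  have hroot := h.not_root (Or.inl hτ) hg hE.on'
  have st := h.strong (Or.inl hτ) hgood hg hE.on'
  obtain ⟨n1, n2, n3⟩ := h.u_ne hτ
  obtain ⟨a, as, hf, has, ha⟩ := h.step hg hE
  obtain ⟨e1, e2, e3⟩ := face_E hf
  by_cases hfree : ∃ c ∈ Γ, Pay (D.E g) (QE D R g) (bad g) p u a c 0 0 4
  · obtain ⟨c, hc, hpay⟩ := hfree
    obtain ⟨E, hE0, hh⟩ := h.pay_hd hf has (Or.inl rfl) hpay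
    refine ⟨c, hc, fun L bad' d hag hgood' hL hp hqd hu hpq _ => ?_⟩
    exact fan3 n D hn ih hR h hgood' hL hp (fun _ => hu) (fun hr => by
      rw [hqd]; simpa using hpq hr) hg hE (by
      rw [hag g hroot]
      exact hh L hp (by rw [Finset.card_eq_zero.1 (Nat.le_zero.1 hE0)]; simp))
  have hall : ∀ c, Pay (D.E g) (QE D R g) (bad g) p u a c 2 1 4 := by
    rcases st.p4 p u a e1 e2 e3 with ⟨Tr, h1, h2⟩ | h'
    · obtain ⟨c, hc, hc'⟩ := Finset.exists_mem_notMem_of_card_lt_card (s := Tr) (t := Γ) (by omega)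
      exact absurd ⟨c, hc, h2 c hc'⟩ hfree
    · exact h'
  rcases ha with ha | ⟨rest, ha⟩
  · obtain ⟨D', m, gs, hmu, nx⟩ := h.NL (C := C) hg hf has ha
    obtain ⟨c, hc, hrec⟩ := IH (mu D') (hn ▸ hmu) D' rfl (ih.mono (hn ▸ hmu.le)) hR gs (by simp)
      (m.good hgood) (fun ⟨g', hg', hE', hfix⟩ => by
        have hne := m.ne_g hg' hE'.on
        rw [m.QE_eq hg' hne] at hfix
        exact hq ⟨g', hg', m.E_eq hg' hne ▸ hE', hfix⟩) Γ hΓ
    refine ⟨c, hc, fun L bad' d hag hgood' hL hp hqd hu hpq h8 => ?_⟩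
    obtain ⟨E, hE2, hh⟩ := h.pay_hd hf has (Or.inr ha) (hall c)
    have hp0 : Function.update L u (L u \ E) p = {c} := by rw [Function.update_of_ne n3.symm, hp]
    obtain ⟨L1, l1, l2, -, l4, l5, lift⟩ := nx R (Function.update L u (L u \ E)) bad' c 1 4 hR
      (by omega) le_rfl (hL.upd h.u_bd n1 n2 fun _ => by have := card_sdiff_ge (L u) E; omega) hp0
      (fun _ => by rw [Function.update_self]; simp [hu]) (by
        rw [hag g hroot]
        exact hh _ hp0 (by rw [Function.update_self]; exact sdiff_disjoint))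
    obtain ⟨m1, m2, m3⟩ := gs.u_ne (by simp)
    obtain ⟨φ, hφ⟩ := hrec L1 bad' d (fun k hk => by
        by_cases e : k = g
        · rw [e]; exact hag g hroot
        · by_cases e' : k = o
          · exact absurd (e' ▸ gs.Ezq) hk
          · exact hag k (m.E_eq e' e ▸ hk)) (m.good hgood') l1
      (by rw [l2 p (fun h' => has p h' (by simp)) m3.symm, hp0])
      (by rw [l2 q (fun h' => has q h' (by simp)) m2.symm, Function.update_of_ne n2.symm, hqd])
      l5 hpq (by omega)
    exact ⟨φ, (lift φ hφ).mono fun v _ => upd_sub sdiff_subset v⟩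
  · simp only [List.nil_append, List.cons.injEq] at ha
    obtain ⟨rfl, rfl⟩ := ha
    obtain ⟨c, hc⟩ : Γ.Nonempty := Finset.card_pos.1 (by omega)
    by_cases htri : D.E g q u
    · rcases st.star p q u e2 e1 htri with hZ | ⟨c0, hfix⟩ | hfix
      · refine ⟨c, hc, fun L bad' d hag hgood' hL hp hqd hu hpq h8 => ?_⟩
        obtain ⟨Z, hZ2, hZ⟩ := hZ c d
        have hp0 : Function.update L u (L u \ Z) p = {c} := by
          rw [Function.update_of_ne n3.symm, hp]
        have hq0 : Function.update L u (L u \ Z) q = {d} := by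
          rw [Function.update_of_ne n2.symm, hqd]
        obtain ⟨φ, hφ⟩ := fan3 n D hn ih (L := Function.update L u (L u \ Z)) hR h hgood'
          (hL.upd h.u_bd n1 n2 fun _ => by have := card_sdiff_ge (L u) Z; omega) hp0
          (fun _ => by rw [Function.update_self]; simp [hu])
          (fun hr => by rw [hq0]; simpa using hpq hr) hg hE ⟨fun _ => ∅, by simp, by simp,
            fun φ h1 h2 _ => by
              rw [hag g hroot]
              refine hZ φ h1 ?_ ?_ ?_
              · have := h2 p (by simp); rwa [hp0, mem_singleton] at this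
              · have := h2 q (by simp); rwa [hq0, mem_singleton] at this
              · have := h2 u h.u_bd
                rw [Function.update_self] at this; exact (mem_sdiff.1 this).2⟩
        exact ⟨φ, hφ.mono fun v _ => upd_sub sdiff_subset v⟩
      · obtain ⟨c', hc', hc''⟩ := Finset.exists_mem_notMem_of_card_lt_card (s := {c0}) (t := Γ)
          (by simp; omega)
        exact absurd ⟨c', hc', fun _ => ∅, by simp, by simp, by simp, fun φ h1 h2 _ hb =>
          hc'' (by rw [← h2, hfix φ h1 hb]; simp)⟩ hfree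
      · exact absurd ⟨g, hg, e2, hfix⟩ hq
    · refine ⟨c, hc, fun L bad' d hag hgood' hL hp hqd hu hpq _ => ?_⟩
      obtain ⟨P, P1, P2⟩ := st.sl p q u e2 e1 e3.symm htri c d
      refine fan3 n D hn ih hR h hgood' hL hp (fun _ => hu) (fun hr => by
        rw [hqd]; simpa using hpq hr) hg hE ⟨P, P1, fun v hv hb => ?_, fun φ h1 h2 h3 => ?_⟩
      · rcases Pl.E_two e1 e2 hv with e | e | e
        · exact absurd e e3
        · exact absurd (e ▸ h.u_bd) hb
        · exact absurd (by simp [← e]) hb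
      · rw [hag g hroot]
        refine P2 φ h1 ?_ ?_ fun v hv v1 v2 v3 => h3 v hv fun hb => ?_
        · have := h2 p (by simp); rwa [hp, mem_singleton] at this
        · have := h2 q (by simp); rwa [hqd, mem_singleton] at this
        · have := (Pl.on_iff hf).1 hv
          simp only [List.mem_cons] at this
          rcases this with e | e | e | e
          · exact v3 e
          · exact v1 e
          · exact v2 e
          · exact has v e hb

end Pool.Agent.Lib.MP_0fc16c_co
end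

-- part Pool.Agent.Lib.MP_0fc16c_co.Tri
section

/-! Discs bounded by a triangle with all three vertices precoloured. -/

set_option autoImplicit false
set_option linter.unusedSectionVars false

open Finset

namespace Pool.Agent.Lib.MP_0fc16c_co

variable {V : Type*} [Fintype V] [DecidableEq V] {C : Type*} [DecidableEq C]

theorem exists_small (p : C → Prop) (h : ∀ Γ : Finset C, 3 ≤ Γ.card → ∃ γ ∈ Γ, p γ) :
    ∃ Z : Finset C, Z.card ≤ 2 ∧ ∀ γ ∉ Z, p γ := by
  by_cases h1 : ∀ a, p a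
  · exact ⟨∅, by simp, fun γ _ => h1 γ⟩
  push Not at h1
  obtain ⟨a, ha⟩ := h1
  by_cases h2 : ∀ b, b ≠ a → p b
  · exact ⟨{a}, by simp, fun γ hγ => h2 γ (by simpa using hγ)⟩
  push Not at h2
  obtain ⟨b, hb, hb'⟩ := h2
  refine ⟨{a, b}, card_le_two, fun γ hγ => ?_⟩
  simp only [mem_insert, mem_singleton, not_or] at hγ
  obtain ⟨x, hx, hx'⟩ := h {γ, a, b} (by
    rw [card_eq_three.2 ⟨γ, a, b, hγ.1, hγ.2, hb.symm, rfl⟩])
  simp only [mem_insert, mem_singleton] at hx
  rcases hx with rfl | rfl | rfl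
  · exact hx'
  · exact absurd hx' ha
  · exact absurd hx' hb'

theorem tri_as_nil {D : Pl V} {g : ℕ} {u p a : V} {as : List V}
    (hf : IsFace D.G D.f g (u :: p :: a :: as)) (h : D.E g u a) : as = [] := by
  rcases List.eq_nil_or_concat as with rfl | ⟨as0, e, rfl⟩
  · rfl
  · exfalso
    have hnd := hf.1
    have h3 : D.E g u e := (Pl.E_iff hf).2 (by simpa using cyc_ends (p :: a :: as0) u e)
    rcases Pl.E_two (face_E hf).1.symm h h3 with e' | e' | e' <;> subst e' <;> simp at hnd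

/-- Lists with three precoloured vertices. -/
def tri (L : V → Finset C) (x : V) (c : C) (m : V) (γ : C) (y : V) (d : C) : V → Finset C :=
  fun v => if v = x then {c} else if v = m then {γ} else if v = y then {d} else L v

/-- The precolouring of the outer triangle extends. -/
def Alive (D : Pl V) (o : ℕ) (R : V → V → Prop) (L : V → Finset C) (bad : ℕ → (V → C) → Prop)
    (x m y : V) (c γ d : C) : Prop :=
  (R x y → c ≠ d) → (R x m → c ≠ γ) → (R m y → γ ≠ d) → ∃ φ, Col D o R (tri L x c m γ y d) bad φ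

/-- The admissible variations of the data for a triangular disc. -/
structure TriEnv (D : Pl V) (o : ℕ) (R : V → V → Prop) (bad : ℕ → (V → C) → Prop) (x m y : V)
    (L : V → Finset C) (bad' : ℕ → (V → C) → Prop) : Prop where
  ag : ∀ k, k ≠ o → (¬ D.E k x y ∨ D.E k x m) → bad' k = bad k
  good : Good D o R bad' x y
  inner : ∀ v ∈ D.G.support, v ∉ [x, m, y] → 10 ≤ (L v).card

section
variable {D : Pl V} {o : ℕ} {R : V → V → Prop} {x m y : V}

theorem tri_ne (hf : IsFace D.G D.f o [x, m, y]) : m ≠ x ∧ y ≠ x ∧ y ≠ m := by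
  have := hf.1; simp at this; tauto

theorem tri_x (L : V → Finset C) (c γ d : C) : tri L x c m γ y d x = {c} := by simp [tri]

theorem tri_m (hf : IsFace D.G D.f o [x, m, y]) (L : V → Finset C) (c γ d : C) :
    tri L x c m γ y d m = {γ} := by simp [tri, (tri_ne hf).1]

theorem tri_y (hf : IsFace D.G D.f o [x, m, y]) (L : V → Finset C) (c γ d : C) :
    tri L x c m γ y d y = {d} := by simp [tri, (tri_ne hf).2.1, (tri_ne hf).2.2]

theorem tri_other {L : V → Finset C} {c γ d : C} {v : V} (hv : v ∉ [x, m, y]) :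
    tri L x c m γ y d v = L v := by
  simp only [List.mem_cons, List.not_mem_nil, or_false, not_or] at hv
  simp [tri, hv.1, hv.2.1, hv.2.2]

theorem tri_gs (hf : IsFace D.G D.f o [x, m, y]) (hn : N1 D o) : GS D o x [] [] x m [] y :=
  ⟨hf, rfl, hn, by simp, fun a ha b hb hab _ => by
    simp only [List.cons_append, List.nil_append, List.mem_cons, List.not_mem_nil,
      or_false] at ha hb ⊢
    rcases ha with rfl | rfl <;> rcases hb with rfl | rfl
    · exact absurd rfl hab
    · exact Or.inl ⟨[], [], rfl⟩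
    · exact Or.inr ⟨[], [], rfl⟩
    · exact absurd rfl hab⟩

theorem tri_lok (hf : IsFace D.G D.f o [x, m, y]) {L : V → Finset C}
    (hi : ∀ v ∈ D.G.support, v ∉ [x, m, y] → 10 ≤ (L v).card) {c γ d : C} (h : R x y → c ≠ d) :
    LOK D R (tri L x c m γ y d) x [] y (x :: [] ++ m :: [] ++ [y]) :=
  ⟨by rw [tri_x]; simp, by rw [tri_y hf]; simp, fun hr => by
    rw [tri_x, tri_y hf]; simpa using h hr, by simp, fun v hv hb => by
    rw [tri_other hb]; exact hi v hv hb⟩

theorem tri_vals (hf : IsFace D.G D.f o [x, m, y]) {L : V → Finset C} {c γ d : C} {φ : V → C}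
    (h : ∀ v ∈ [x, m, y], φ v ∈ tri L x c m γ y d v) : φ x = c ∧ φ m = γ ∧ φ y = d := by
  have h1 := h x (by simp); have h2 := h m (by simp); have h3 := h y (by simp)
  rw [tri_x] at h1; rw [tri_m hf] at h2; rw [tri_y hf] at h3
  exact ⟨mem_singleton.1 h1, mem_singleton.1 h2, mem_singleton.1 h3⟩

theorem Col.tri_vals (hf : IsFace D.G D.f o [x, m, y]) {L : V → Finset C} {c γ d : C}
    {φ : V → C} {bad : ℕ → (V → C) → Prop} (h : Col D o R (tri L x c m γ y d) bad φ) :
    φ x = c ∧ φ m = γ ∧ φ y = d :=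
  MP_0fc16c_co.tri_vals hf fun v hv => h.1 v ((Pl.on_iff hf).2 hv).supp

theorem alive_of_hd (ih : IHb V C (mu D)) (hR : ∀ a b, R a b → R b a)
    (hf : IsFace D.G D.f o [x, m, y]) (hn : N1 D o) {bad bad' : ℕ → (V → C) → Prop}
    {L : V → Finset C} (env : TriEnv D o R bad x m y L bad') {g : ℕ} (hg : g ≠ o)
    (hE : D.E g x m) {c γ d : C}
    (hd : Hd D R (tri L x c m γ y d) (bad g) [x, m, y] g m 0 4) :
    Alive D o R L bad' x m y c γ d := fun h1 h2 h3 =>
  fan3 _ D rfl ih hR (tri_gs hf hn) env.good (tri_lok hf env.inner h1) (tri_m hf L c γ d)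
    (fun hr => by rw [tri_x]; simpa using (h2 hr).symm)
    (fun hr => by rw [tri_y hf]; simpa using h3 hr) hg hE
    (by rw [env.ag g hg (Or.inr hE)]; exact hd)

theorem alive_of_free (ih : IHb V C (mu D)) (hR : ∀ a b, R a b → R b a)
    (hf : IsFace D.G D.f o [x, m, y]) (hn : N1 D o) {bad bad' : ℕ → (V → C) → Prop}
    {L : V → Finset C} (env : TriEnv D o R bad x m y L bad') {g : ℕ} (hg : g ≠ o)
    (hE : D.E g x m) {c γ d : C}
    (hd : ∀ φ, Pr (QE D R g) φ → φ x = c → φ m = γ → φ y = d → ¬ bad g φ) :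
    Alive D o R L bad' x m y c γ d :=
  alive_of_hd ih hR hf hn env hg hE ⟨fun _ => ∅, by simp, by simp, fun φ h1 h2 _ => by
    obtain ⟨e1, e2, e3⟩ := tri_vals hf h2; exact hd φ h1 e1 e2 e3⟩

theorem alive_of_large (ih : IHb V C (mu D)) (hR : ∀ a b, R a b → R b a)
    (hf : IsFace D.G D.f o [x, m, y]) (hn : N1 D o) {bad bad' : ℕ → (V → C) → Prop}
    {L : V → Finset C} (env : TriEnv D o R bad x m y L bad') {g : ℕ} (hg : g ≠ o) {a : V}
    {as : List V} (hfg : IsFace D.G D.f g (x :: m :: a :: as))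
    (st : Strong (D.E g) (QE D R g) (bad g)) (hl : ¬ D.E g x a) (c γ d : C) :
    Alive D o R L bad' x m y c γ d := by
  obtain ⟨e1, e2, e3⟩ := face_E hfg
  obtain ⟨P, P1, P2⟩ := st.sl m x a e1 e2 e3 hl γ c
  refine alive_of_hd ih hR hf hn env hg e1.symm ⟨Function.update P a ∅, fun v => ?_,
    fun v hv hb => ?_, fun φ h1 h2 h3 => ?_⟩
  · by_cases e : v = a
    · subst e; simp
    · rw [Function.update_of_ne e]; exact P1 v
  · rcases Pl.E_two e1 e2 hv with e | e | e
    · exact absurd e e3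
    · exact absurd (by simp [← e]) hb
    · subst e; simp
  · obtain ⟨f1, f2, -⟩ := tri_vals hf h2
    refine P2 φ h1 f2 f1 fun v hv v1 v2 v3 => ?_
    by_cases hb : v ∈ [x, m, y]
    · exfalso
      simp only [List.mem_cons, List.not_mem_nil, or_false] at hb
      rcases hb with rfl | rfl | rfl
      · exact v2 rfl
      · exact v1 rfl
      · have := hn.1 g hg m v e2.on hv ((tri_gs hf hn).Epn (rest := []) rfl).1
        rcases Pl.E_two e1 e2 this with e | e | e
        · exact e3 e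
        · exact v2 e.symm
        · exact v3 e.symm
    · have := h3 v hv hb
      rwa [Function.update_of_ne v3] at this

/-- The apex alone can neutralise the disc with three colours. -/
theorem p1_apex (ih : IHb V C (mu D)) (hR : ∀ a b, R a b → R b a)
    (hf : IsFace D.G D.f o [x, m, y]) (hn : N1 D o) {bad : ℕ → (V → C) → Prop}
    (hs : ∀ g, g ≠ o → D.E g x m → Strong (D.E g) (QE D R g) (bad g)) :
    ∃ Tr : Finset C, Tr.card ≤ 3 ∧ ∀ γ ∉ Tr, ∀ c d L bad', TriEnv D o R bad x m y L bad' →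
      Alive D o R L bad' x m y c γ d := by
  have gs := tri_gs hf hn
  obtain ⟨g, hg, hE⟩ := gs.exists_g
  obtain ⟨a, as, hfg, has, -⟩ := gs.step hg hE
  obtain ⟨e1, e2, e3⟩ := face_E hfg
  obtain ⟨Tr, h1, h2⟩ := (hs g hg hE).kf m x a e1 e2 e3
  refine ⟨Tr, h1, fun γ hγ c d L bad' env => ?_⟩
  obtain ⟨E, hE0, hh⟩ := gs.pay_hd hfg has (Or.inl rfl) (h2 γ hγ)
  exact alive_of_hd ih hR hf hn env hg hE ((hh _ (tri_m hf L c γ d)
    (by rw [Finset.card_eq_zero.1 (Nat.le_zero.1 hE0)]; simp)).mono (fun _ _ => Subset.rfl)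
    (by omega))

/-- The root vertex `x` alone can neutralise the disc with three colours. -/
theorem p1_root (ih : IHb V C (mu D)) (hR : ∀ a b, R a b → R b a)
    (hf : IsFace D.G D.f o [x, m, y]) (hn : N1 D o) {bad : ℕ → (V → C) → Prop}
    (hs : ∀ g, g ≠ o → D.E g x m → Strong (D.E g) (QE D R g) (bad g)) :
    ∃ E : Finset C, E.card ≤ 3 ∧ ∀ c ∉ E, ∀ γ d L bad', TriEnv D o R bad x m y L bad' →
      Alive D o R L bad' x m y c γ d := by
  have gs := tri_gs hf hn
  obtain ⟨g, hg, hE⟩ := gs.exists_g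
  obtain ⟨a, as, hfg, -, -⟩ := gs.step hg hE
  obtain ⟨e1, e2, e3⟩ := face_E hfg
  by_cases hl : D.E g x a
  · obtain rfl := tri_as_nil hfg hl
    obtain ⟨Tr, h1, h2⟩ := (hs g hg hE).kf x m a hE hl e2.1.ne
    refine ⟨Tr, h1, fun c hc γ d L bad' env => ?_⟩
    obtain ⟨P, P1, P2, -, P4⟩ := h2 c hc
    refine alive_of_free ih hR hf hn env hg hE fun φ a1 a2 _ _ => P4 φ a1 a2 fun v hv hvx => ?_
    have := (Pl.on_iff hfg).1 hv
    simp only [List.mem_cons, List.not_mem_nil, or_false] at this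
    rcases this with rfl | rfl | rfl
    · exact absurd rfl hvx
    · rw [Finset.card_eq_zero.1 (Nat.le_zero.1 P1)]; simp
    · rw [Finset.card_eq_zero.1 (Nat.le_zero.1 P2)]; simp
  · exact ⟨∅, by simp, fun c _ γ d L bad' env =>
      alive_of_large ih hR hf hn env hg hfg (hs g hg hE) hl c γ d⟩

/-- Either, after excluding one colour at `x`, at most two colours of the apex are dead, or
excluding one colour at `y` neutralises the disc. -/
theorem vlem [hC : Nonempty C] (ih : IHb V C (mu D)) (hR : ∀ a b, R a b → R b a)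
    (hf : IsFace D.G D.f o [x, m, y]) (hn : N1 D o) {bad : ℕ → (V → C) → Prop}
    (hgood : Good D o R bad x y)
    (hs : ∀ g, g ≠ o → D.E g x m → Strong (D.E g) (QE D R g) (bad g)) :
    (∃ c₀, ∀ c ≠ c₀, ∀ d L bad', TriEnv D o R bad x m y L bad' →
      ∃ Z : Finset C, Z.card ≤ 2 ∧ ∀ γ ∉ Z, Alive D o R L bad' x m y c γ d) ∨
    (∃ d₀, ∀ d ≠ d₀, ∀ c γ L bad', TriEnv D o R bad x m y L bad' →
      Alive D o R L bad' x m y c γ d) := by
  have gs := tri_gs hf hn
  obtain ⟨g, hg, hE⟩ := gs.exists_g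
  obtain ⟨a, as, hfg, has, ha | ⟨rest, ha⟩⟩ := gs.step hg hE
  · obtain ⟨e1, e2, e3⟩ := face_E hfg
    have st := hs g hg hE
    by_cases hl : D.E g x a
    swap
    · exact Or.inl ⟨hC.some, fun c _ d L bad' env => ⟨∅, by simp, fun γ _ =>
        alive_of_large ih hR hf hn env hg hfg st hl c γ d⟩⟩
    rcases st.p5 x m a hE hl e2 with ⟨c₀, h⟩ | ⟨a₀, hfix⟩
    · refine Or.inl ⟨c₀, fun c hc d L bad' env => ?_⟩
      obtain ⟨Z, hZ, hZ'⟩ := h c hc
      exact ⟨Z, hZ, fun γ hγ => alive_of_free ih hR hf hn env hg hE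
        fun φ a1 a2 a3 _ => hZ' φ a1 a2 (a3 ▸ hγ)⟩
    obtain ⟨D', mg, gs', hmu, nx⟩ := gs.NL (C := C) hg hfg has ha
    by_cases hq : QFix D' o R bad m y
    · obtain ⟨g', hg', hE', d₀, hfix'⟩ := hq
      have hne := mg.ne_g hg' hE'.on
      have hroot := gs'.not_root (Or.inl (by simp)) hg' hE'.on
      rw [mg.QE_eq hg' hne] at hfix'
      rw [mg.E_eq hg' hne] at hE' hroot
      refine Or.inr ⟨d₀, fun d hd c γ L bad' env h1 h2 h3 => ?_⟩
      refine fan0 _ D rfl ih hR gs env.good (tri_lok hf env.inner h1) (tri_m hf L c γ d)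
        (fun hr => by rw [tri_x]; simpa using (h2 hr).symm)
        (fun hr => by rw [tri_y hf]; simpa using h3 hr) fun k hk hEk φ hpr hy hb => ?_
      obtain rfl : k = g' :=
        (Pl.E_sides (gs.Epn (rest := []) rfl) hE' hEk hg'.symm).resolve_left hk
      rw [env.ag k hk (Or.inl hroot)] at hb
      rw [tri_y hf, mem_singleton] at hy
      exact hd (hy.symm.trans (hfix' φ hpr hb))
    · refine Or.inl ⟨hC.some, fun c _ d L bad' env => exists_small _ fun Γ hΓ => ?_⟩
      obtain ⟨γ, hγ, hrec⟩ := chain _ D' rfl (ih.mono hmu.le) hR gs' (by simp) (mg.good hgood) hq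
        Γ hΓ
      refine ⟨γ, hγ, fun h1 h2 h3 => ?_⟩
      obtain ⟨L1, l1, l2, -, l4, l5, lift⟩ := nx R (tri L x c m γ y d) bad' γ 1 4 hR (by omega)
        le_rfl (tri_lok hf env.inner h1) (tri_m hf L c γ d)
        (fun hr => by rw [tri_x]; simpa using (h2 hr).symm)
        ⟨fun _ => {a₀}, by simp, by simp, fun φ a1 _ a3 hb => by
          rw [env.ag g hg (Or.inr hE)] at hb
          exact a3 a e2.on' ha (by simp [hfix φ a1 hb])⟩
      obtain ⟨m1, m2, m3⟩ := gs'.u_ne (by simp)
      obtain ⟨φ, hφ⟩ := hrec L1 bad' d (fun k hk => by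
          by_cases e' : k = o
          · exact absurd (e' ▸ gs'.Ezq) hk
          · by_cases e : k = g
            · rw [e]; exact env.ag g hg (Or.inr hE)
            · exact env.ag k e' (Or.inl (mg.E_eq e' e ▸ hk))) (mg.good env.good) l1
        (by rw [l2 m (fun h' => has m h' (by simp)) m3.symm, tri_m hf])
        (by rw [l2 y (fun h' => has y h' (by simp)) m2.symm, tri_y hf]) l5 h3 (by omega)
      exact ⟨φ, lift φ hφ⟩
  · simp only [List.nil_append, List.cons.injEq] at ha
    obtain ⟨rfl, rfl⟩ := ha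
    obtain ⟨e1, e2, e3⟩ := face_E hfg
    have e4 : D.E g x y := hn.1 g hg x y hE.on e2.on' gs.Ezq.1
    rcases (hs g hg hE).star x y m e4 hE e2.symm with h | ⟨c₀, h⟩ | ⟨d₀, h⟩
    · refine Or.inl ⟨hC.some, fun c _ d L bad' env => ?_⟩
      obtain ⟨Z, hZ, hZ'⟩ := h c d
      exact ⟨Z, hZ, fun γ hγ => alive_of_free ih hR hf hn env hg hE
        fun φ a1 a2 a3 a4 => hZ' φ a1 a2 a4 (a3 ▸ hγ)⟩
    · exact Or.inl ⟨c₀, fun c hc d L bad' env => ⟨∅, by simp, fun γ _ =>
        alive_of_free ih hR hf hn env hg hE fun φ a1 a2 _ _ hb => hc (a2.symm.trans (h φ a1 hb))⟩⟩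
    · exact Or.inr ⟨d₀, fun d hd c γ L bad' env =>
        alive_of_free ih hR hf hn env hg hE fun φ a1 _ _ a4 hb => hd (a4.symm.trans (h φ a1 hb))⟩

end

end Pool.Agent.Lib.MP_0fc16c_co
end
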