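import Pool.Agent.Lib.MP_0fc16c_co.Basic

/-! Triangular faces: the properties used in the induction follow from a classification. -/

set_option autoImplicit false
set_option linter.unusedSectionVars false

open Finset

namespace Pool.Agent.Lib.MP_0fc16c_co

variable {V : Type*} {C : Type*} [DecidableEq V] [DecidableEq C]

/-- In every proper bad colouring the colours of `x, y` and of `y, z` lie in fixed sets of at most
three colours. -/
def Two (Q : V → V → Prop) (bad : (V → C) → Prop) (x y z : V) : Prop :=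
  ∃ S S' : Finset C, S.card ≤ 3 ∧ S'.card ≤ 3 ∧
    ∀ φ, Pr Q φ → bad φ → φ x ∈ S ∧ φ y ∈ S ∧ φ y ∈ S' ∧ φ z ∈ S'

theorem Two.symm {Q : V → V → Prop} {bad : (V → C) → Prop} {x y z : V} (h : Two Q bad x y z) :
    Two Q bad z y x := by
  obtain ⟨S, S', h1, h2, h3⟩ := h
  exact ⟨S', S, h2, h1, fun φ a b => by have := h3 φ a b; tauto⟩

/-- The set `S` without `c` if `c` is in `S`, and empty otherwise. -/
def rem (S : Finset C) (c : C) : Finset C := if c ∈ S then S.erase c else ∅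

theorem rem_card {S : Finset C} (h : S.card ≤ 3) (c : C) : (rem S c).card ≤ 2 := by
  unfold rem; split_ifs with e
  · rw [card_erase_of_mem e]; omega
  · simp

theorem mem_rem {S : Finset C} {c d : C} (hc : c ∈ S) (hd : d ∈ S) (h : d ≠ c) : d ∈ rem S c := by
  simp [rem, hc, hd, h]

section
variable {E Q : V → V → Prop} {bad : (V → C) → Prop} {p u u' : V}

theorem pay_two {c : C} {i j n : ℕ} (hup : u ≠ p) (hup' : u' ≠ p) (huu : u ≠ u')
    (h1 : OnE E u) (h2 : OnE E u') (A B : Finset C) (hA : A.card ≤ i) (hB : B.card ≤ j)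
    (hi : i ≤ n) (hj : j ≤ n)
    (h : ∀ φ, Pr Q φ → φ p = c → φ u ∉ A → φ u' ∉ B → ¬ bad φ) : Pay E Q bad p u u' c i j n := by
  refine ⟨fun v => if v = u then A else if v = u' then B else ∅, by simpa using hA,
    by simpa [huu.symm] using hB, fun v => ?_, fun φ a b d => h φ a b ?_ ?_⟩
  · dsimp only; split_ifs
    · omega
    · omega
    · simp
  · simpa using d u h1 hup
  · simpa [huu.symm] using d u' h2 hup'

/-- The classification of a triangle `p u u'`. -/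
def TCl (Q : V → V → Prop) (bad : (V → C) → Prop) (p u u' : V) : Prop :=
  Fix Q bad p ∨ Fix Q bad u ∨ Fix Q bad u' ∨ Two Q bad u p u' ∨ Two Q bad p u u' ∨
    Two Q bad p u' u

theorem TCl.p4 (h : TCl Q bad p u u') (q1 : Q p u) (q2 : Q p u') (q3 : Q u u') (hup : u ≠ p)
    (hup' : u' ≠ p) (huu : u ≠ u') (h1 : OnE E u) (h2 : OnE E u') :
    (∃ Tr : Finset C, Tr.card ≤ 2 ∧ ∀ c ∉ Tr, Pay E Q bad p u u' c 0 0 4) ∨
      ∀ c, Pay E Q bad p u u' c 2 1 4 := by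
  rcases h with ⟨c0, h⟩ | ⟨c0, h⟩ | ⟨c0, h⟩ | ⟨S, S', a, b, h⟩ | ⟨S, S', a, b, h⟩ |
    ⟨S, S', a, b, h⟩
  · exact Or.inl ⟨{c0}, by simp, fun c hc => pay_two hup hup' huu h1 h2 ∅ ∅ (by simp) (by simp)
      (by omega) (by omega) fun φ e1 e2 _ _ hb => hc (by rw [← e2, h φ e1 hb]; simp)⟩
  · exact Or.inr fun c => pay_two hup hup' huu h1 h2 {c0} ∅ (by simp) (by simp) (by omega)
      (by omega) fun φ e1 _ e3 _ hb => e3 (by simp [h φ e1 hb])
  · exact Or.inr fun c => pay_two hup hup' huu h1 h2 ∅ {c0} (by simp) (by simp) (by omega)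
      (by omega) fun φ e1 _ _ e4 hb => e4 (by simp [h φ e1 hb])
  · refine Or.inr fun c => pay_two hup hup' huu h1 h2 (rem S c) ∅ (rem_card a c) (by simp)
      (by omega) (by omega) fun φ e1 e2 e3 _ hb => e3 ?_
    obtain ⟨k1, k2, -⟩ := h φ e1 hb
    exact mem_rem (e2 ▸ k2) k1 (e2 ▸ (e1 p u q1).symm)
  · refine Or.inr fun c => pay_two hup hup' huu h1 h2 (rem S c) ∅ (rem_card a c) (by simp)
      (by omega) (by omega) fun φ e1 e2 e3 _ hb => e3 ?_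
    obtain ⟨k1, k2, -⟩ := h φ e1 hb
    exact mem_rem (e2 ▸ k1) k2 (e2 ▸ (e1 p u q1).symm)
  · refine Or.inr fun c => ?_
    by_cases hne : (rem S c).Nonempty
    · obtain ⟨s, hs⟩ := hne
      have hc : ((rem S c).erase s).card ≤ 1 := by
        rw [card_erase_of_mem hs]; have := rem_card a c; omega
      have : Nonempty C := ⟨c⟩
      obtain ⟨t, ht⟩ := card_le_one_iff_subset_singleton.1 hc
      refine pay_two hup hup' huu h1 h2 (rem S' t) {s} (rem_card b t) (by simp) (by omega)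
        (by omega) fun φ e1 e2 e3 e4 hb => e3 ?_
      obtain ⟨k1, k2, k3, k4⟩ := h φ e1 hb
      have : φ u' = t := mem_singleton.1 (ht (mem_erase.2 ⟨by simpa using e4,
        mem_rem (e2 ▸ k1) k2 (e2 ▸ (e1 p u' q2).symm)⟩))
      exact mem_rem (this ▸ k3) k4 (this ▸ e1 u u' q3)
    · refine pay_two hup hup' huu h1 h2 ∅ ∅ (by simp) (by simp) (by omega) (by omega)
        fun φ e1 e2 _ _ hb => hne ⟨φ u', ?_⟩
      obtain ⟨k1, k2, -⟩ := h φ e1 hb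
      exact mem_rem (e2 ▸ k1) k2 (e2 ▸ (e1 p u' q2).symm)

theorem TCl.star (h : TCl Q bad p u u') (q2 : Q p u') (q3 : Q u u') :
    (∀ c d, ∃ Z : Finset C, Z.card ≤ 2 ∧
      ∀ φ, Pr Q φ → φ p = c → φ u = d → φ u' ∉ Z → ¬ bad φ) ∨ Fix Q bad p ∨ Fix Q bad u := by
  rcases h with h | h | ⟨c0, h⟩ | ⟨S, S', a, b, h⟩ | ⟨S, S', a, b, h⟩ | ⟨S, S', a, b, h⟩
  · exact Or.inr (Or.inl h)
  · exact Or.inr (Or.inr h)
  · exact Or.inl fun c d => ⟨{c0}, by simp, fun φ e1 _ _ e4 hb => e4 (by simp [h φ e1 hb])⟩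
  · refine Or.inl fun c d => ⟨rem S' c, rem_card b c, fun φ e1 e2 _ e4 hb => e4 ?_⟩
    obtain ⟨-, -, k3, k4⟩ := h φ e1 hb
    exact mem_rem (e2 ▸ k3) k4 (e2 ▸ (e1 p u' q2).symm)
  · refine Or.inl fun c d => ⟨rem S' d, rem_card b d, fun φ e1 _ e3 e4 hb => e4 ?_⟩
    obtain ⟨-, -, k3, k4⟩ := h φ e1 hb
    exact mem_rem (e3 ▸ k3) k4 (e3 ▸ (e1 u u' q3).symm)
  · refine Or.inl fun c d => ⟨rem S c, rem_card a c, fun φ e1 e2 _ e4 hb => e4 ?_⟩
    obtain ⟨k1, k2, -⟩ := h φ e1 hb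
    exact mem_rem (e2 ▸ k1) k2 (e2 ▸ (e1 p u' q2).symm)

theorem TCl.p5 [hC : Nonempty C] (h : TCl Q bad p u u') (q1 : Q p u)
    (q3 : Q u u') :
    (∃ c₀, ∀ c ≠ c₀, ∃ Z : Finset C, Z.card ≤ 2 ∧
      ∀ φ, Pr Q φ → φ p = c → φ u ∉ Z → ¬ bad φ) ∨ Fix Q bad u' := by
  classical
  rcases h with ⟨c0, h⟩ | ⟨c0, h⟩ | h | ⟨S, S', a, b, h⟩ | ⟨S, S', a, b, h⟩ | ⟨S, S', a, b, h⟩
  · exact Or.inl ⟨c0, fun c hc => ⟨∅, by simp, fun φ e1 e2 _ hb => hc (e2 ▸ h φ e1 hb)⟩⟩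
  · exact Or.inl ⟨c0, fun c _ => ⟨{c0}, by simp, fun φ e1 _ e3 hb => e3 (by simp [h φ e1 hb])⟩⟩
  · exact Or.inr h
  · refine Or.inl ⟨hC.some, fun c _ => ⟨rem S c, rem_card a c, fun φ e1 e2 e3 hb => e3 ?_⟩⟩
    obtain ⟨k1, k2, -⟩ := h φ e1 hb
    exact mem_rem (e2 ▸ k2) k1 (e2 ▸ (e1 p u q1).symm)
  · refine Or.inl ⟨hC.some, fun c _ => ⟨rem S c, rem_card a c, fun φ e1 e2 e3 hb => e3 ?_⟩⟩
    obtain ⟨k1, k2, -⟩ := h φ e1 hb
    exact mem_rem (e2 ▸ k1) k2 (e2 ▸ (e1 p u q1).symm)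
  · left
    let T : C → Finset C := fun c => S'.filter fun γ => ∃ φ, Pr Q φ ∧ bad φ ∧ φ p = c ∧ φ u = γ
    have hT : ∀ c, (T c).card ≤ 2 → ∃ Z : Finset C, Z.card ≤ 2 ∧
        ∀ φ, Pr Q φ → φ p = c → φ u ∉ Z → ¬ bad φ := fun c hc =>
      ⟨T c, hc, fun φ e1 e2 e3 hb => e3 (mem_filter.2 ⟨(h φ e1 hb).2.2.2, φ, e1, hb, e2, rfl⟩)⟩
    have big : ∀ c, ¬ (T c).card ≤ 2 → ∀ γ ∈ S', ∃ φ, Pr Q φ ∧ bad φ ∧ φ p = c ∧ φ u = γ :=
      fun c hc γ hγ => by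
        have : T c = S' := eq_of_subset_of_card_le (filter_subset _ _) (by omega)
        exact (mem_filter.1 (this ▸ hγ : γ ∈ T c)).2
    have nin : ∀ c, ¬ (T c).card ≤ 2 → c ∉ S' ∧ c ∈ S := fun c hc => by
      refine ⟨fun hc' => ?_, ?_⟩
      · obtain ⟨φ, e1, -, e2, e3⟩ := big c hc c hc'
        exact e1 p u q1 (e2.trans e3.symm)
      · obtain ⟨γ, hγ⟩ : (T c).Nonempty := card_pos.1 (by omega)
        obtain ⟨φ, e1, hb, e2, -⟩ := (mem_filter.1 hγ).2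
        exact e2 ▸ (h φ e1 hb).1
    by_cases h1 : ∀ c, (T c).card ≤ 2
    · exact ⟨hC.some, fun c _ => hT c (h1 c)⟩
    push Not at h1
    obtain ⟨c1, hc1⟩ := h1
    refine ⟨c1, fun c2 hne => hT c2 ?_⟩
    by_contra hc2
    obtain ⟨n1, m1⟩ := nin c1 (by omega)
    obtain ⟨n2, m2⟩ := nin c2 hc2
    obtain ⟨γ, hγ⟩ : (T c2).Nonempty := card_pos.1 (by omega)
    obtain ⟨φ, e1, hb, -⟩ := (mem_filter.1 hγ).2
    obtain ⟨-, k2, k3, -⟩ := h φ e1 hb
    obtain ⟨ψ, f1, hb', -, f3⟩ := big c2 hc2 (φ u') k3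
    obtain ⟨-, l2, l3, -⟩ := h ψ f1 hb'
    have hd : ψ u' ≠ φ u' := f3 ▸ (f1 u u' q3).symm
    have hsub : ({c1, c2, φ u', ψ u'} : Finset C) ⊆ S := by
      intro x hx
      simp only [mem_insert, mem_singleton] at hx
      rcases hx with rfl | rfl | rfl | rfl <;> assumption
    have h4 : ({c1, c2, φ u', ψ u'} : Finset C).card = 4 := by
      have a1 : c1 ≠ φ u' := by rintro rfl; exact n1 k3
      have a2 : c1 ≠ ψ u' := by rintro rfl; exact n1 l3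
      have a3 : c2 ≠ φ u' := by rintro rfl; exact n2 k3
      have a4 : c2 ≠ ψ u' := by rintro rfl; exact n2 l3
      rw [card_insert_of_notMem (by simp [hne.symm, a1, a2]), card_insert_of_notMem (by
        simp [a3, a4]), card_pair hd.symm]
    have := card_le_card hsub
    omega

end

end Pool.Agent.Lib.MP_0fc16c_co
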